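import Mathlib

-- part Pool.Agent.Lib.MP_80d0cf_nt.Six.Typ
section

/-! Logarithmic means of arithmetic functions. -/

open Filter Topology Finset MeasureTheory ArithmeticFunction
open scoped Nat ArithmeticFunction.zeta ArithmeticFunction.Moebius

namespace Pool.Agent.Lib.MP_80d0cf_nt.Six

/-- logarithmic partial sums -/
noncomputable def LS (a : ArithmeticFunction ℝ) (l : ℝ) : ℝ := ∑ n ∈ Ioc 0 ⌊Real.exp l⌋₊, a n / n

/-- asymptotic type -/
structure Typ (a : ArithmeticFunction ℝ) (c : ℝ) (k : ℕ) : Prop where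
  nonneg : ∀ n, 0 ≤ a n
  c_nonneg : 0 ≤ c
  bound : ∃ C, 0 ≤ C ∧ ∀ l, 0 ≤ l → |LS a l - c * l ^ (k + 1) / (k + 1)!| ≤ C * (1 + l) ^ k

lemma LS_mono {a : ArithmeticFunction ℝ} (ha : ∀ n, 0 ≤ a n) : Monotone (LS a) := fun _ _ h =>
  sum_le_sum_of_subset_of_nonneg (Ioc_subset_Ioc_right (Nat.floor_mono (Real.exp_le_exp.2 h)))
    fun n _ _ => div_nonneg (ha n) (Nat.cast_nonneg n)

lemma LS_nonneg {a : ArithmeticFunction ℝ} (ha : ∀ n, 0 ≤ a n) (l : ℝ) : 0 ≤ LS a l :=
  sum_nonneg fun n _ => div_nonneg (ha n) (Nat.cast_nonneg n)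

lemma le_floor_exp {n : ℕ} (hn : 0 < n) {l : ℝ} : n ≤ ⌊Real.exp l⌋₊ ↔ Real.log n ≤ l := by
  rw [Nat.le_floor_iff (Real.exp_pos l).le, Real.log_le_iff_le_exp (by exact_mod_cast hn)]

lemma LS_sub (a : ArithmeticFunction ℝ) {x y : ℝ} (h : x ≤ y) :
    LS a y - LS a x = ∑ n ∈ Ioc ⌊Real.exp x⌋₊ ⌊Real.exp y⌋₊, a n / n := by
  rw [LS, LS, ← sum_Ioc_consecutive _ (Nat.zero_le _) (Nat.floor_mono (Real.exp_le_exp.2 h))]
  ring

lemma abel_id {a : ArithmeticFunction ℝ} {L α β : ℝ} (hL : 0 < L) (hαβ : α ≤ β) {f f' : ℝ → ℝ}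
    (hf : ∀ x, HasDerivAt f (f' x) x) (hf' : Continuous f') :
    ∑ n ∈ Ioc ⌊Real.exp (α * L)⌋₊ ⌊Real.exp (β * L)⌋₊, a n / n * f (Real.log n / L) =
      f β * (LS a (β * L) - LS a (α * L)) - ∫ x in α..β, f' x * (LS a (x * L) - LS a (α * L)) := by
  have key : ∀ n ∈ Ioc ⌊Real.exp (α * L)⌋₊ ⌊Real.exp (β * L)⌋₊, f (Real.log n / L) =
      f β - ∫ x in Set.Ioc α β, (Set.Ici (Real.log n / L)).indicator f' x := by
    intro n hn
    rw [mem_Ioc] at hn
    have hn0 : 0 < n := by omega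
    have h1 : Real.log n / L ≤ β := by rw [div_le_iff₀ hL]; exact (le_floor_exp hn0).1 hn.2
    have h2 : α < Real.log n / L := by
      rw [lt_div_iff₀ hL]; exact not_le.1 fun h => absurd ((le_floor_exp hn0).2 h) (by omega)
    rw [setIntegral_indicator measurableSet_Ici,
      show Set.Ioc α β ∩ Set.Ici (Real.log n / L) = Set.Icc (Real.log n / L) β by
        ext x; simp only [Set.mem_inter_iff, Set.mem_Ioc, Set.mem_Ici, Set.mem_Icc]
        exact ⟨fun h => ⟨h.2, h.1.2⟩, fun h => ⟨⟨h2.trans_le h.1, h.2⟩, h.1⟩⟩,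
      integral_Icc_eq_integral_Ioc, ← intervalIntegral.integral_of_le h1,
      intervalIntegral.integral_eq_sub_of_hasDerivAt (fun x _ => hf x) (hf'.intervalIntegrable _ _)]
    ring
  rw [sum_congr rfl fun n hn => by rw [key n hn]]
  simp only [mul_sub (a _ / _), sum_sub_distrib]
  rw [← sum_mul, LS_sub a (by nlinarith), mul_comm, intervalIntegral.integral_of_le hαβ]
  congr 1
  simp only [← integral_const_mul]
  rw [← integral_finsetSum]
  · refine setIntegral_congr_fun measurableSet_Ioc fun x hx => ?_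
    rw [LS_sub a (by nlinarith [hx.1]), mul_sum]
    symm
    refine sum_subset_zero_on_sdiff (Ioc_subset_Ioc_right (Nat.floor_mono (Real.exp_le_exp.2
      (by nlinarith [hx.2])))) (fun n hn => ?_) fun n hn => ?_
    · rw [Finset.mem_sdiff, mem_Ioc, mem_Ioc] at hn
      have hn0 : 0 < n := by omega
      rw [Set.indicator_of_notMem, mul_zero]
      intro h
      have : Real.log n ≤ x * L := (div_le_iff₀ hL).1 h
      have := (le_floor_exp hn0).2 this
      omega
    · rw [mem_Ioc] at hn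
      have hn0 : 0 < n := by omega
      rw [Set.indicator_of_mem, mul_comm]
      exact (div_le_iff₀ hL).2 ((le_floor_exp hn0).1 hn.2)
  · exact fun n _ => ((hf'.integrableOn_Ioc).indicator measurableSet_Ici).const_mul _

lemma Typ.abel {a : ArithmeticFunction ℝ} {c : ℝ} {k : ℕ} (h : Typ a c k) :
    ∃ C, 0 ≤ C ∧ ∀ (L α β M : ℝ) (f f' : ℝ → ℝ), 0 < L → 0 ≤ α → α ≤ β → β ≤ 1 →
      (∀ x, HasDerivAt f (f' x) x) → Continuous f' →
      (∀ x ∈ Set.Icc (0 : ℝ) 1, |f x| ≤ M ∧ |f' x| ≤ M) →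
      |∑ n ∈ Ioc ⌊Real.exp (α * L)⌋₊ ⌊Real.exp (β * L)⌋₊, a n / n * f (Real.log n / L) -
        c * L ^ (k + 1) * ∫ x in α..β, x ^ k / k ! * f x| ≤ C * M * (1 + L) ^ k := by
  obtain ⟨C, hC, hb⟩ := h.bound
  refine ⟨4 * C, by positivity, fun L α β M f f' hL hα hαβ hβ hf hf' hM => ?_⟩
  have hM0 : 0 ≤ M := (abs_nonneg _).trans (hM 0 (by simp)).1
  have hfc : Continuous f := continuous_iff_continuousAt.2 fun x => (hf x).continuousAt
  set m : ℝ → ℝ := fun x => c * (x * L) ^ (k + 1) / (k + 1)!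
  set E : ℝ → ℝ := fun x => LS a (x * L) - m x
  have hE : ∀ x ∈ Set.Icc α β, |E x - E α| ≤ 2 * (C * (1 + L) ^ k) := fun x hx => by
    have h1 : ∀ y ∈ Set.Icc α β, |E y| ≤ C * (1 + L) ^ k := fun y hy =>
      (hb _ (by nlinarith [hy.1])).trans (by gcongr <;> nlinarith [hy.1, hy.2])
    linarith [abs_sub (E x) (E α), h1 x hx, h1 α ⟨le_rfl, hαβ⟩]
  have hm : ∀ x, HasDerivAt (fun x => m x - m α) (c * L ^ (k + 1) * (x ^ k / k !)) x := fun x => by
    refine ((((((hasDerivAt_id x).mul_const L).pow (k + 1)).const_mul c).div_const _).sub_const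
      _).congr_deriv ?_
    simp only [id, Nat.add_sub_cancel, Nat.factorial_succ]
    push_cast
    field_simp
    ring
  have e1 := intervalIntegral.integral_mul_deriv_eq_deriv_mul (a := α) (b := β) (fun x _ => hf x)
    (fun x _ => hm x) (hf'.intervalIntegrable _ _) (Continuous.intervalIntegrable (by fun_prop) _ _)
  have e2 : c * L ^ (k + 1) * ∫ x in α..β, x ^ k / k ! * f x =
      f β * (m β - m α) - ∫ x in α..β, f' x * (m x - m α) := by
    rw [sub_self, mul_zero, sub_zero] at e1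
    rw [← e1, ← intervalIntegral.integral_const_mul]
    congr 1 with x; ring
  have i1 : IntervalIntegrable (fun x => f' x * (LS a (x * L) - LS a (α * L))) volume α β := by
    refine IntervalIntegrable.continuousOn_mul ?_ hf'.continuousOn
    refine Monotone.intervalIntegrable (fun x y hxy => ?_)
    exact sub_le_sub_right (LS_mono h.nonneg (by nlinarith)) _
  have i2 : IntervalIntegrable (fun x => f' x * (m x - m α)) volume α β :=
    Continuous.intervalIntegrable (by simp only [m]; fun_prop) _ _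
  rw [abel_id hL hαβ hf hf', e2]
  have e3 : f β * (LS a (β * L) - LS a (α * L)) -
      (∫ x in α..β, f' x * (LS a (x * L) - LS a (α * L))) -
      (f β * (m β - m α) - ∫ x in α..β, f' x * (m x - m α)) =
      f β * (E β - E α) - ∫ x in α..β, f' x * (E x - E α) := by
    have := intervalIntegral.integral_sub i1 i2
    rw [show (fun x => f' x * (E x - E α)) = fun x => f' x * (LS a (x * L) - LS a (α * L)) -
      f' x * (m x - m α) by ext x; simp only [E]; ring, this]
    simp only [E]; ring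
  rw [e3]
  have b1 : |f β * (E β - E α)| ≤ M * (2 * (C * (1 + L) ^ k)) := by
    rw [abs_mul]
    gcongr
    · exact (hM β ⟨by linarith, hβ⟩).1
    · exact hE β ⟨hαβ, le_rfl⟩
  have b2 : |∫ x in α..β, f' x * (E x - E α)| ≤ M * (2 * (C * (1 + L) ^ k)) * |β - α| := by
    refine intervalIntegral.norm_integral_le_of_norm_le_const (E := ℝ) fun x hx => ?_
    rw [Set.uIoc_of_le hαβ] at hx
    rw [Real.norm_eq_abs, abs_mul]
    gcongr
    · exact (hM x ⟨by linarith [hx.1], by linarith [hx.2]⟩).2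
    · exact hE x ⟨hx.1.le, hx.2⟩
  have b3 : M * (2 * (C * (1 + L) ^ k)) * |β - α| ≤ M * (2 * (C * (1 + L) ^ k)) :=
    mul_le_of_le_one_right (by positivity) (by rw [abs_of_nonneg (by linarith)]; linarith)
  linarith [abs_sub (f β * (E β - E α)) (∫ x in α..β, f' x * (E x - E α))]

lemma Typ.upper {a : ArithmeticFunction ℝ} {c : ℝ} {k : ℕ} (h : Typ a c k) :
    ∃ C, 0 ≤ C ∧ ∀ l, 0 ≤ l → LS a l ≤ C * (1 + l) ^ (k + 1) := by
  obtain ⟨C, hC, hb⟩ := h.bound
  have hc := h.c_nonneg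
  refine ⟨c + C, by positivity, fun l hl => ?_⟩
  have h1 := (abs_le.1 (hb l hl)).2
  have h2 : c * l ^ (k + 1) / (k + 1)! ≤ c * (1 + l) ^ (k + 1) :=
    (div_le_self (by positivity) (by exact_mod_cast Nat.factorial_pos _)).trans
      (by gcongr; linarith)
  have h3 : C * (1 + l) ^ k ≤ C * (1 + l) ^ (k + 1) := by gcongr <;> linarith
  linarith

lemma Typ.log {a : ArithmeticFunction ℝ} {c : ℝ} {k : ℕ} (h : Typ a c k) :
    Typ (a.pmul log) (c * (k + 1)) (k + 1) := by
  obtain ⟨C, hC, hb⟩ := h.abel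
  have hc := h.c_nonneg
  refine ⟨fun n => mul_nonneg (h.nonneg n) (Real.log_natCast_nonneg n), by positivity,
    C, hC, fun l hl => ?_⟩
  rcases hl.eq_or_lt with rfl | hl
  · simp [LS, hC]
  have h1 := hb l 0 1 1 (fun x => x) (fun _ => 1) hl le_rfl zero_le_one le_rfl hasDerivAt_id'
    continuous_const fun x hx => ⟨abs_le.2 ⟨by linarith [hx.1], hx.2⟩, by simp⟩
  have e1 : LS (a.pmul ArithmeticFunction.log) l =
      l * ∑ n ∈ Ioc ⌊Real.exp (0 * l)⌋₊ ⌊Real.exp (1 * l)⌋₊, a n / n * (Real.log n / l) := by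
    rw [LS, zero_mul, one_mul, Real.exp_zero, Nat.floor_one, mul_sum,
      ← sum_Ioc_consecutive _ zero_le_one (Nat.floor_pos.2 (Real.one_le_exp hl.le))]
    simp only [pmul_apply, log_apply]
    rw [show Ioc 0 1 = {1} from rfl, sum_singleton]
    simp only [zero_add, Nat.cast_one, Real.log_one, mul_zero, zero_div]
    refine sum_congr rfl fun n _ => ?_
    field_simp
  have e2 : ∫ x in (0 : ℝ)..1, x ^ k / k ! * x = 1 / ((k + 2) * k !) := by
    rw [show (fun x : ℝ => x ^ k / k ! * x) = fun x => x ^ (k + 1) / (k ! : ℝ) by ext x; ring,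
      intervalIntegral.integral_div, integral_pow]
    push_cast; field_simp; ring
  rw [e2, mul_one] at h1
  rw [e1, show c * (k + 1) * l ^ (k + 1 + 1) / (k + 1 + 1)! =
    l * (c * l ^ (k + 1) * (1 / ((k + 2) * k !))) by
      rw [Nat.factorial_succ, Nat.factorial_succ]; push_cast; field_simp; ring,
    ← mul_sub, abs_mul, abs_of_pos hl]
  calc _ ≤ (1 + l) * (C * (1 + l) ^ k) := by gcongr; linarith
    _ = _ := by ring

lemma LS_mul (a b : ArithmeticFunction ℝ) (l : ℝ) :
    LS (a * b) l = ∑ m ∈ Ioc 0 ⌊Real.exp l⌋₊, a m / m * LS b (l - Real.log m) := by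
  let a' : ArithmeticFunction ℝ := ⟨fun n => a n / n, by simp⟩
  let b' : ArithmeticFunction ℝ := ⟨fun n => b n / n, by simp⟩
  have e : ∀ n, (a * b) n / n = (a' * b') n := fun n => by
    rw [mul_apply, mul_apply, sum_div]
    refine sum_congr rfl fun p hp => ?_
    rw [← (Nat.mem_divisorsAntidiagonal.1 hp).1]
    simp only [a', b', coe_mk]
    push_cast; rw [div_mul_div_comm]
  rw [LS]
  simp only [e]
  rw [sum_Ioc_mul_eq_sum_sum]
  refine sum_congr rfl fun m hm => ?_
  have hm0 : (0 : ℝ) < m := by exact_mod_cast (mem_Ioc.1 hm).1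
  rw [LS, Real.exp_sub, Real.exp_log hm0, Nat.floor_div_natCast]
  rfl

lemma Typ.conv {a b : ArithmeticFunction ℝ} {c κ : ℝ} {k : ℕ} (h : Typ a c k) (h' : Typ b κ 0) :
    Typ (a * b) (c * κ) (k + 1) := by
  obtain ⟨C1, hC1, h1⟩ := h.bound
  obtain ⟨C2, hC2, h2⟩ := h.log.bound
  obtain ⟨C3, hC3, h3⟩ := h'.bound
  obtain ⟨C4, hC4, h4⟩ := h.upper
  have hc := h.c_nonneg
  have hκ := h'.c_nonneg
  refine ⟨fun n => ?_, by positivity, κ * (C1 + C2) + C3 * C4, by positivity, fun l hl => ?_⟩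
  · rw [mul_apply]; exact sum_nonneg fun p _ => mul_nonneg (h.nonneg _) (h'.nonneg _)
  have e1 : LS (a * b) l - c * κ * l ^ (k + 1 + 1) / (k + 1 + 1)! =
      κ * (l * (LS a l - c * l ^ (k + 1) / (k + 1)!) -
        (LS (a.pmul ArithmeticFunction.log) l - c * (k + 1) * l ^ (k + 1 + 1) / (k + 1 + 1)!)) +
      ∑ m ∈ Ioc 0 ⌊Real.exp l⌋₊, a m / m *
        (LS b (l - Real.log m) - κ * (l - Real.log m) ^ (0 + 1) / (0 + 1)!) := by
    have e2 : ∑ m ∈ Ioc 0 ⌊Real.exp l⌋₊, a m / m *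
        (LS b (l - Real.log m) - κ * (l - Real.log m) ^ (0 + 1) / (0 + 1)!) =
        LS (a * b) l - κ * (l * LS a l - LS (a.pmul ArithmeticFunction.log) l) := by
      rw [LS_mul, LS, LS, mul_sum, ← sum_sub_distrib, mul_sum, ← sum_sub_distrib]
      refine sum_congr rfl fun m _ => ?_
      simp only [pmul_apply, log_apply, zero_add, pow_one, Nat.factorial_one, Nat.cast_one]
      ring
    rw [e2, Nat.factorial_succ (k + 1)]
    push_cast; field_simp; ring
  have b1 : |∑ m ∈ Ioc 0 ⌊Real.exp l⌋₊, a m / m *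
        (LS b (l - Real.log m) - κ * (l - Real.log m) ^ (0 + 1) / (0 + 1)!)| ≤ C3 * LS a l := by
    rw [LS, mul_sum]
    refine (abs_sum_le_sum_abs _ _).trans (sum_le_sum fun m hm => ?_)
    have h0 : 0 ≤ a m / m := div_nonneg (h.nonneg m) (Nat.cast_nonneg m)
    rw [abs_mul, abs_of_nonneg h0, mul_comm]
    gcongr
    rw [mem_Ioc] at hm
    simpa using h3 _ (sub_nonneg.2 ((le_floor_exp hm.1).1 hm.2))
  rw [e1]
  refine (abs_add_le _ _).trans ?_
  rw [abs_mul, abs_of_nonneg hκ]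
  have b2 : |l * (LS a l - c * l ^ (k + 1) / (k + 1)!)| ≤ C1 * (1 + l) ^ (k + 1) := by
    rw [abs_mul, abs_of_nonneg hl]
    calc _ ≤ (1 + l) * (C1 * (1 + l) ^ k) := by gcongr; exacts [by linarith, h1 l hl]
      _ = _ := by ring
  have b3 := (abs_sub _ _).trans (add_le_add b2 (h2 l hl))
  have b4 := mul_le_mul_of_nonneg_left (h4 l hl) hC3
  have b5 := mul_le_mul_of_nonneg_left b3 hκ
  nlinarith

/-- indicator of the positive integers coprime to `q` -/
noncomputable def cop (q : ℕ) : ArithmeticFunction ℝ :=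
  ⟨fun n => if n ≠ 0 ∧ n.Coprime q then 1 else 0, by simp⟩

lemma cop_apply (q n : ℕ) : cop q n = if n ≠ 0 ∧ n.Coprime q then 1 else 0 := rfl

lemma cop_nonneg (q n : ℕ) : 0 ≤ cop q n := by rw [cop_apply]; split_ifs <;> norm_num

lemma cop_le_one (q n : ℕ) : cop q n ≤ 1 := by rw [cop_apply]; split_ifs <;> norm_num

lemma cop_mul (q m n : ℕ) : cop q (m * n) = cop q m * cop q n := by
  simp only [cop_apply, Nat.coprime_mul_iff_left, ne_eq, mul_eq_zero, not_or]
  split_ifs <;> first | tauto | simp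

lemma sum_moebius (n : ℕ) : ∑ e ∈ n.divisors, (μ e : ℝ) = if n = 1 then 1 else 0 := by
  have := congrArg (fun f : ArithmeticFunction ℝ => f n) (coe_moebius_mul_coe_zeta (R := ℝ))
  simpa only [coe_mul_zeta_apply, intCoe_apply, one_apply] using this

lemma sum_moebius_coprime {q : ℕ} (hq : q ≠ 0) (n : ℕ) :
    ∑ e ∈ q.divisors, (if e ∣ n then (μ e : ℝ) else 0) = if n.Coprime q then 1 else 0 := by
  rw [← sum_filter, ← sum_moebius (n.gcd q)]
  congr 1
  ext e
  simp only [mem_filter, Nat.mem_divisors, Nat.dvd_gcd_iff, ne_eq, Nat.gcd_eq_zero_iff]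
  tauto

lemma sum_moebius_div {q : ℕ} (hq : q ≠ 0) :
    ∑ e ∈ q.divisors, (μ e : ℝ) / e = (q.totient : ℝ) / q := by
  have h := (sum_eq_iff_sum_mul_moebius_eq (R := ℝ) (f := fun n => (n.totient : ℝ))
    (g := fun n => (n : ℝ))).1 (fun n _ => by exact_mod_cast Nat.sum_totient n) q
    (Nat.pos_of_ne_zero hq)
  rw [← h, Nat.sum_divisorsAntidiagonal (fun a b => (μ a : ℝ) * (b : ℝ)), sum_div]
  refine sum_congr rfl fun e he => ?_
  have h1 := Nat.dvd_of_mem_divisors he
  have : (q : ℝ) ≠ 0 := by exact_mod_cast hq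
  rw [Nat.cast_div h1 (by exact_mod_cast (Nat.pos_of_mem_divisors he).ne')]
  field_simp

lemma sum_dvd_Ioc {β : Type*} [AddCommMonoid β] {e : ℕ} (he : 0 < e) (N : ℕ) (F : ℕ → β) :
    ∑ n ∈ Ioc 0 N, (if e ∣ n then F n else 0) = ∑ j ∈ Ioc 0 (N / e), F (e * j) := by
  rw [← sum_filter]
  symm
  refine sum_bij (fun j _ => e * j) (fun j hj => ?_) (fun _ _ _ _ h => Nat.eq_of_mul_eq_mul_left he h)
    (fun n hn => ?_) fun _ _ => rfl
  · rw [mem_Ioc, Nat.le_div_iff_mul_le he] at hj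
    exact mem_filter.2 ⟨mem_Ioc.2 ⟨Nat.mul_pos he hj.1, by rw [mul_comm]; exact hj.2⟩, dvd_mul_right _ _⟩
  · obtain ⟨h1, j, rfl⟩ := mem_filter.1 hn
    rw [mem_Ioc] at h1
    exact ⟨j, mem_Ioc.2 ⟨Nat.pos_of_mul_pos_left h1.1,
      (Nat.le_div_iff_mul_le he).2 (by rw [mul_comm]; exact h1.2)⟩, rfl⟩

lemma sum_inv_eq_harmonic (N : ℕ) : ∑ n ∈ Ioc 0 N, (1 / n : ℝ) = harmonic N := by
  rw [harmonic_eq_sum_Icc]
  push_cast
  simp only [one_div]
  rfl

lemma sum_inv_le (N : ℕ) : ∑ n ∈ Ioc 0 N, (1 / n : ℝ) ≤ 1 + Real.log N := by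
  rw [sum_inv_eq_harmonic]; exact harmonic_le_one_add_log N

lemma typ_cop {q : ℕ} (hq : q ≠ 0) : Typ (cop q) (q.totient / q) 0 := by
  refine ⟨cop_nonneg q, by positivity, ∑ e ∈ q.divisors, (1 + Real.log e),
    sum_nonneg fun e _ => by have := Real.log_natCast_nonneg e; positivity, fun l hl => ?_⟩
  have e1 : LS (cop q) l = ∑ e ∈ q.divisors, (μ e : ℝ) / e * harmonic ⌊Real.exp l / e⌋₊ := by
    have : ∀ n ∈ Ioc 0 ⌊Real.exp l⌋₊, cop q n / n =
        ∑ e ∈ q.divisors, (if e ∣ n then (μ e : ℝ) / n else 0) := fun n hn => by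
      have : cop q n = if n.Coprime q then 1 else 0 := by simp [cop_apply, (mem_Ioc.1 hn).1.ne']
      rw [this, ← sum_moebius_coprime hq, sum_div]
      exact sum_congr rfl fun e _ => by split_ifs <;> simp
    rw [LS, sum_congr rfl this, sum_comm]
    refine sum_congr rfl fun e he => ?_
    rw [sum_dvd_Ioc (Nat.pos_of_mem_divisors he), Nat.floor_div_natCast, ← sum_inv_eq_harmonic,
      mul_sum]
    refine sum_congr rfl fun j _ => ?_
    push_cast; rw [div_mul_div_comm, mul_one]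
  simp only [zero_add, pow_one, Nat.factorial_one, Nat.cast_one, div_one, pow_zero, mul_one]
  rw [e1, ← sum_moebius_div hq, sum_mul, ← sum_sub_distrib]
  refine (abs_sum_le_sum_abs _ _).trans (sum_le_sum fun e he => ?_)
  have he1 : (1 : ℝ) ≤ e := by exact_mod_cast Nat.pos_of_mem_divisors he
  have hle := Real.log_natCast_nonneg e
  have h1 : |(μ e : ℝ) / e| ≤ 1 := by
    rw [abs_div, Nat.abs_cast, div_le_one (by linarith)]
    exact le_trans (by exact_mod_cast abs_moebius_le_one) he1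
  rw [← mul_sub, abs_mul]
  refine (mul_le_of_le_one_left (abs_nonneg _) h1).trans (abs_le.2 ⟨?_, ?_⟩)
  · have := log_le_harmonic_floor (Real.exp l / e) (by positivity)
    rw [Real.log_div (by positivity) (by positivity), Real.log_exp] at this
    linarith
  · have h2 : (harmonic ⌊Real.exp l / e⌋₊ : ℝ) ≤ harmonic ⌊Real.exp l⌋₊ := by
      rw [← sum_inv_eq_harmonic, ← sum_inv_eq_harmonic]
      exact sum_le_sum_of_subset_of_nonneg (Ioc_subset_Ioc_right
        (Nat.floor_mono (div_le_self (by positivity) he1))) fun _ _ _ => by positivity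
    have := harmonic_floor_le_one_add_log (Real.exp l) (Real.one_le_exp hl)
    rw [Real.log_exp] at this
    linarith

/-- the `k`-fold divisor function -/
noncomputable def D (k : ℕ) : ArithmeticFunction ℝ := (ζ : ArithmeticFunction ℝ) ^ k

lemma D_succ (k n : ℕ) : D (k + 1) n = ∑ d ∈ n.divisors, D k d := by
  rw [D, pow_succ, coe_mul_zeta_apply]; rfl

lemma D_one {n : ℕ} (hn : n ≠ 0) : D 1 n = 1 := by simp [D, hn]

lemma D_add (j k : ℕ) : D (j + k) = D j * D k := pow_add _ _ _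

lemma D_nonneg (k n : ℕ) : 0 ≤ D k n := by
  induction k generalizing n with
  | zero => rw [D, pow_zero, one_apply]; split_ifs <;> norm_num
  | succ k ih => rw [D_succ]; exact sum_nonneg fun d _ => ih d

lemma pmul_cop_mul (q : ℕ) (a b : ArithmeticFunction ℝ) :
    (cop q).pmul (a * b) = (cop q).pmul a * (cop q).pmul b := by
  ext n
  simp only [pmul_apply, mul_apply, mul_sum]
  refine sum_congr rfl fun p hp => ?_
  rw [← (Nat.mem_divisorsAntidiagonal.1 hp).1, cop_mul]
  ring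

lemma pmul_cop_D_one (q : ℕ) : (cop q).pmul (D 1) = cop q := by
  rw [D, pow_one, pmul_zeta]

lemma typ_copD {q : ℕ} (hq : q ≠ 0) (k : ℕ) :
    Typ ((cop q).pmul (D (k + 1))) ((q.totient / q) ^ (k + 1)) k := by
  induction k with
  | zero => rw [pmul_cop_D_one, zero_add, pow_one]; exact typ_cop hq
  | succ k ih =>
    rw [D_add, pmul_cop_mul, pmul_cop_D_one, pow_succ]
    exact ih.conv (typ_cop hq)

lemma pmul_cop_one (a : ArithmeticFunction ℝ) : (cop 1).pmul a = a := by
  ext n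
  rcases eq_or_ne n 0 with rfl | hn <;> simp [cop_apply, *]

lemma typ_D (k : ℕ) : Typ (D (k + 1)) 1 k := by
  simpa [pmul_cop_one] using typ_copD one_ne_zero k

end Pool.Agent.Lib.MP_80d0cf_nt.Six
end

-- part Pool.Agent.Lib.MP_80d0cf_nt.Six.Divk
section

/-! Elementary facts on divisor functions. -/

open Filter Topology Finset ArithmeticFunction
open scoped Nat ArithmeticFunction.zeta

namespace Pool.Agent.Lib.MP_80d0cf_nt.Six

lemma D_mult (k : ℕ) : (D k).IsMultiplicative := by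
  induction k with
  | zero => rw [D, pow_zero]; exact isMultiplicative_one
  | succ k ih => rw [D, pow_succ]; exact ih.mul isMultiplicative_zeta.natCast

lemma D_apply_one (k : ℕ) : D k 1 = 1 := (D_mult k).1

lemma D_prime (k : ℕ) {p : ℕ} (hp : p.Prime) : D k p = k := by
  induction k with
  | zero => simp [D, hp.ne_one]
  | succ k ih => rw [D_succ, hp.sum_divisors, ih, D_apply_one]; push_cast; ring

lemma D_two (n : ℕ) : D 2 n = #n.divisors := by
  rw [D_succ, sum_congr rfl fun d hd => D_one (Nat.pos_of_mem_divisors hd).ne']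
  simp

lemma D_three_prime_pow {p : ℕ} (hp : p.Prime) (j : ℕ) : D 3 (p ^ j) = (j + 1) * (j + 2) / 2 := by
  rw [D_succ, Nat.sum_divisors_prime_pow hp]
  simp only [D_two, Nat.divisors_prime_pow hp, card_map, card_range]
  induction j with
  | zero => simp
  | succ j ih => rw [sum_range_succ, ih]; push_cast; ring

lemma D_prime_mul_le (k : ℕ) {p : ℕ} (hp : p.Prime) (n : ℕ) : D k (p * n) ≤ k * D k n := by
  induction k generalizing n with
  | zero => simp [D, hp.ne_one]
  | succ k ih =>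
    rcases eq_or_ne n 0 with rfl | hn
    · simp
    rw [D_succ, D_succ]
    have h1 : (p * n).divisors ⊆ n.divisors ∪ n.divisors.image (p * ·) := by
      intro d hd
      have hd' := Nat.dvd_of_mem_divisors hd
      by_cases h : p ∣ d
      · obtain ⟨e, rfl⟩ := h
        exact mem_union_right _ (mem_image.2 ⟨e, Nat.mem_divisors.2
          ⟨Nat.dvd_of_mul_dvd_mul_left hp.pos hd', hn⟩, rfl⟩)
      · exact mem_union_left _ (Nat.mem_divisors.2
          ⟨((Nat.coprime_comm.1 ((hp.coprime_iff_not_dvd).2 h))).dvd_of_dvd_mul_left hd', hn⟩)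
    refine (sum_le_sum_of_subset_of_nonneg h1 fun d _ _ => D_nonneg k d).trans ?_
    have h2 := sum_union_inter (s₁ := n.divisors) (s₂ := n.divisors.image (p * ·)) (f := D k)
    have h3 := sum_nonneg (s := n.divisors ∩ n.divisors.image (p * ·)) fun d _ => D_nonneg k d
    rw [sum_image fun a _ b _ h => Nat.eq_of_mul_eq_mul_left hp.pos h] at h2
    have h4 := sum_le_sum (s := n.divisors) fun d _ => ih d
    rw [← mul_sum] at h4
    push_cast
    linarith

lemma D_sqfree (k : ℕ) {n : ℕ} (hn : Squarefree n) : D k n = (k : ℝ) ^ #n.primeFactors := by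
  conv_lhs => rw [← Nat.prod_primeFactors_of_squarefree hn]
  rw [(D_mult k).map_prod_of_prime _ fun p hp => Nat.prime_of_mem_primeFactors hp,
    prod_congr rfl fun p hp => D_prime k (Nat.prime_of_mem_primeFactors hp), prod_const]

lemma D_mul_D {n : ℕ} (hn : Squarefree n) (j k : ℕ) : D j n * D k n = D (j * k) n := by
  rw [D_sqfree _ hn, D_sqfree _ hn, D_sqfree _ hn, ← mul_pow]; push_cast; rfl

lemma sum_mul_le (a b : ArithmeticFunction ℝ) (ha : ∀ n, 0 ≤ a n) (hb : ∀ n, 0 ≤ b n) {g : ℕ → ℝ}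
    (hg0 : ∀ n, 0 ≤ g n) (hg : ∀ m n, g (m * n) = g m * g n) (N : ℕ) :
    ∑ n ∈ Ioc 0 N, (a * b) n * g n ≤ (∑ n ∈ Ioc 0 N, a n * g n) * ∑ n ∈ Ioc 0 N, b n * g n := by
  let a' : ArithmeticFunction ℝ := ⟨fun n => a n * g n, by simp⟩
  let b' : ArithmeticFunction ℝ := ⟨fun n => b n * g n, by simp⟩
  have e : ∀ n, (a * b) n * g n = (a' * b') n := fun n => by
    rw [mul_apply, mul_apply, sum_mul]
    refine sum_congr rfl fun p hp => ?_
    rw [← (Nat.mem_divisorsAntidiagonal.1 hp).1, hg]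
    simp only [a', b', coe_mk]; ring
  simp only [e]
  rw [sum_Ioc_mul_eq_sum_prod_filter, sum_mul_sum, ← sum_product']
  exact sum_le_sum_of_subset_of_nonneg (filter_subset _ _) fun p _ _ =>
    mul_nonneg (mul_nonneg (ha _) (hg0 _)) (mul_nonneg (hb _) (hg0 _))

lemma sum_D_le (k : ℕ) {g : ℕ → ℝ} (hg0 : ∀ n, 0 ≤ g n) (hg : ∀ m n, g (m * n) = g m * g n)
    (N : ℕ) : ∑ n ∈ Ioc 0 N, D (k + 1) n * g n ≤ (∑ n ∈ Ioc 0 N, g n) ^ (k + 1) := by
  have h1 : ∑ n ∈ Ioc 0 N, D 1 n * g n = ∑ n ∈ Ioc 0 N, g n :=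
    sum_congr rfl fun n hn => by rw [D_one (mem_Ioc.1 hn).1.ne', one_mul]
  induction k with
  | zero => simp [h1]
  | succ k ih =>
    rw [D_add, pow_succ]
    refine (sum_mul_le _ _ (D_nonneg _) (D_nonneg _) hg0 hg N).trans ?_
    rw [h1]
    exact mul_le_mul_of_nonneg_right ih (sum_nonneg fun n _ => hg0 n)

lemma sum_D_div_le (k N : ℕ) : ∑ n ∈ Ioc 0 N, D (k + 1) n / n ≤ (1 + Real.log N) ^ (k + 1) := by
  have := sum_D_le k (g := fun n => 1 / (n : ℝ)) (fun n => by positivity)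
    (fun m n => by push_cast; rw [div_mul_div_comm, mul_one]) N
  simp only [mul_one_div] at this
  refine this.trans ?_
  gcongr
  exact sum_inv_le N

lemma divisor_bound {ε : ℝ} (hε : 0 < ε) : ∃ C, 1 ≤ C ∧ ∀ n : ℕ, D 2 n ≤ C * (n : ℝ) ^ ε := by
  set C0 : ℝ := max 1 (1 / (ε * Real.log 2))
  have hC0 : 1 ≤ C0 := le_max_left _ _
  have hl2 := Real.log_pos (one_lt_two (α := ℝ))
  obtain ⟨K, hK⟩ := exists_nat_ge ((2 : ℝ) ^ (1 / ε))
  refine ⟨C0 ^ K, one_le_pow₀ hC0, fun n => ?_⟩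
  rcases eq_or_ne n 0 with rfl | hn
  · simp; positivity
  have e1 : (n : ℝ) ^ ε = ∏ p ∈ n.primeFactors, ((p : ℝ) ^ ε) ^ n.factorization p := by
    conv_lhs => rw [← Nat.prod_factorization_pow_eq_self hn, Finsupp.prod, Nat.support_factorization]
    push_cast
    rw [← Real.finsetProd_rpow _ _ fun p _ => by positivity]
    refine prod_congr rfl fun p _ => ?_
    rw [← Real.rpow_natCast, ← Real.rpow_natCast, ← Real.rpow_mul (by positivity),
      ← Real.rpow_mul (by positivity), mul_comm]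
  have key : ∀ p ∈ n.primeFactors, ((n.factorization p + 1 : ℕ) : ℝ) ≤
      (if p < K then C0 else 1) * ((p : ℝ) ^ ε) ^ n.factorization p := by
    intro p hp
    have hp2 : (2 : ℝ) ≤ p := by exact_mod_cast (Nat.prime_of_mem_primeFactors hp).two_le
    set a := n.factorization p
    split_ifs with h
    · have h1 : 1 + a * (ε * Real.log 2) ≤ ((p : ℝ) ^ ε) ^ a := by
        calc 1 + a * (ε * Real.log 2) ≤ Real.exp (a * (ε * Real.log 2)) := by
              linarith [Real.add_one_le_exp (a * (ε * Real.log 2))]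
          _ = ((2 : ℝ) ^ ε) ^ a := by
              rw [Real.exp_nat_mul, Real.rpow_def_of_pos two_pos, mul_comm]
          _ ≤ _ := by gcongr
      have h2 : 1 ≤ C0 * (ε * Real.log 2) := by
        rw [← div_le_iff₀ (by positivity)]; exact le_max_right _ _
      push_cast
      nlinarith [mul_le_mul_of_nonneg_left h1 (by linarith : 0 ≤ C0), Nat.cast_nonneg (α := ℝ) a]
    · have h1 : (2 : ℝ) ≤ (p : ℝ) ^ ε := by
        calc (2 : ℝ) = (2 ^ (1 / ε)) ^ ε := by
              rw [← Real.rpow_mul (by norm_num), one_div_mul_cancel hε.ne', Real.rpow_one]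
          _ ≤ _ := by
              gcongr; exact hK.trans (by exact_mod_cast not_lt.1 h)
      rw [one_mul]
      calc ((a + 1 : ℕ) : ℝ) ≤ 2 ^ a := by exact_mod_cast Nat.lt_two_pow_self
        _ ≤ _ := by gcongr
  rw [D_two, Nat.card_divisors hn, e1]
  push_cast at key ⊢
  refine (prod_le_prod (fun p _ => by positivity) key).trans ?_
  rw [prod_mul_distrib]
  gcongr
  rw [prod_ite, prod_const_one, mul_one, prod_const]
  refine pow_le_pow_right₀ hC0 ?_
  calc _ ≤ #(range K) := card_le_card fun p hp => mem_range.2 (mem_filter.1 hp).2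
    _ = K := card_range K

lemma sum_pair {β : Type*} [AddCommMonoid β] {n V : ℕ} (hn : n ≠ 0) (hV : n ≤ V) (F : ℕ → ℕ → β) :
    ∑ x ∈ Ioc 0 V, ∑ y ∈ Ioc 0 V, (if x * y = n then F x y else 0) =
      ∑ p ∈ n.divisorsAntidiagonal, F p.1 p.2 := by
  rw [Nat.divisorsAntidiagonal_eq_prod_filter_of_le hn hV, sum_filter, sum_product]

lemma card_triple {n V : ℕ} (hn : n ≠ 0) (hV : n ≤ V) :
    ∑ v ∈ Ioc 0 V ×ˢ Ioc 0 V ×ˢ Ioc 0 V, (if v.1 * v.2.1 * v.2.2 = n then (1 : ℝ) else 0) =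
      D 3 n := by
  rw [show 3 = 1 + 2 from rfl, D_add, mul_apply, ← sum_pair hn hV (fun x y => D 1 x * D 2 y),
    sum_product]
  refine sum_congr rfl fun x hx => ?_
  have hx0 := (mem_Ioc.1 hx).1
  by_cases h : x ∣ n
  · obtain ⟨m, rfl⟩ := h
    have hm : m ≠ 0 := right_ne_zero_of_mul hn
    have hmV : m ≤ V := (Nat.le_mul_of_pos_left m hx0).trans hV
    simp only [mul_assoc, Nat.mul_right_inj hx0.ne']
    rw [sum_product, sum_pair hm hmV (fun _ _ => (1 : ℝ)), sum_ite_eq',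
      if_pos (mem_Ioc.2 ⟨Nat.pos_of_ne_zero hm, hmV⟩), D_one hx0.ne', one_mul, D_two,
      Nat.sum_divisorsAntidiagonal (fun _ _ => (1 : ℝ))]
    simp
  · rw [sum_eq_zero, sum_eq_zero]
    · intro y _; rw [if_neg]; rintro rfl; exact h (dvd_mul_right _ _)
    · intro y _; rw [if_neg]; rintro rfl; exact h (by rw [mul_assoc]; exact dvd_mul_right _ _)

lemma abs_log_sub_ge {m n : ℕ} (hm : 0 < m) (hn : 0 < n) (h : m ≠ n) :
    1 / (2 * (n : ℝ)) ≤ |Real.log m - Real.log n| := by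
  have hm' : (0 : ℝ) < m := by exact_mod_cast hm
  have hn' : (1 : ℝ) ≤ n := by exact_mod_cast hn
  rcases lt_or_gt_of_ne h with h | h
  · have h1 : (m : ℝ) + 1 ≤ n := by exact_mod_cast h
    have h2 := Real.log_le_sub_one_of_pos (x := m / n) (by positivity)
    rw [Real.log_div hm'.ne' (by linarith)] at h2
    have h3 : (m : ℝ) / n - 1 ≤ -(1 / (2 * n)) := by field_simp; nlinarith
    linarith [neg_le_abs (Real.log m - Real.log n)]
  · have h1 : (n : ℝ) + 1 ≤ m := by exact_mod_cast h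
    have h2 := Real.log_le_sub_one_of_pos (x := n / (n + 1)) (by positivity)
    rw [Real.log_div (by linarith) (by linarith)] at h2
    have h3 : (n : ℝ) / (n + 1) - 1 ≤ -(1 / (2 * n)) := by field_simp; nlinarith
    have h4 := Real.log_le_log (by linarith) h1
    linarith [le_abs_self (Real.log m - Real.log n)]

end Pool.Agent.Lib.MP_80d0cf_nt.Six
end

-- part Pool.Agent.Lib.MP_80d0cf_nt.Six.Zeta
section

/-! Approximation of zeta on the critical line by a long Dirichlet polynomial. -/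

open Complex Filter Topology Finset

namespace Pool.Agent.Lib.MP_80d0cf_nt.Six

/-- `x ^ (-s)` for real `x > 0`. -/
noncomputable def pw (x : ℝ) (s : ℂ) : ℂ := exp (-s * (Real.log x : ℂ))

lemma pw_eq_cpow {x : ℝ} (hx : 0 < x) (s : ℂ) : pw x s = (x : ℂ) ^ (-s) := by
  rw [pw, cpow_def_of_ne_zero (by exact_mod_cast hx.ne'), ofReal_log hx.le, mul_comm]

lemma norm_pw {x : ℝ} (hx : 0 < x) (s : ℂ) : ‖pw x s‖ = x ^ (-s.re) := by
  rw [pw, norm_exp, Real.rpow_def_of_pos hx]
  simp [mul_comm]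

lemma pw_mul {x y : ℝ} (hx : 0 < x) (hy : 0 < y) (s : ℂ) : pw (x * y) s = pw x s * pw y s := by
  rw [pw, pw, pw, Real.log_mul hx.ne' hy.ne', ← exp_add]
  push_cast; ring_nf

lemma pw_add (x : ℝ) (s r : ℂ) : pw x (s + r) = pw x s * pw x r := by
  rw [pw, pw, pw, ← exp_add]; ring_nf

lemma pw_one_right {x : ℝ} (hx : 0 < x) : pw x 1 = (x : ℂ)⁻¹ := by
  rw [pw_eq_cpow hx, cpow_neg_one]

lemma hasDerivAt_pw {x : ℝ} (hx : 0 < x) (s : ℂ) :
    HasDerivAt (fun y => pw y s) (-s * pw x (s + 1)) x := by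
  have h1 : HasDerivAt (fun y : ℝ => (Real.log y : ℂ)) ((x⁻¹ : ℝ) : ℂ) x :=
    (Real.hasDerivAt_log hx.ne').ofReal_comp
  have h2 := (h1.const_mul (-s)).cexp
  refine h2.congr_deriv ?_
  rw [pw_add, pw_one_right hx, pw]
  push_cast; ring

lemma norm_pw_sub_le {x y : ℝ} (hx : 0 < x) (hxy : x ≤ y) {s : ℂ} (hs : -1 ≤ s.re) :
    ‖pw y s - pw x s‖ ≤ ‖s‖ * x ^ (-s.re - 1) * (y - x) := by
  have := norm_image_sub_le_of_norm_deriv_le_segment' (f := fun y => pw y s)
    (f' := fun y => -s * pw y (s + 1)) (C := ‖s‖ * x ^ (-s.re - 1)) (a := x) (b := y)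
    (fun z hz => (hasDerivAt_pw (hx.trans_le hz.1) s).hasDerivWithinAt)
    (fun z hz => by
      rw [norm_mul, norm_neg, norm_pw (hx.trans_le hz.1)]
      gcongr
      simp only [add_re, one_re, neg_add_rev]
      rw [show -1 + -s.re = -s.re - 1 by ring]
      exact Real.rpow_le_rpow_of_nonpos hx hz.1 (by linarith)) y ⟨hxy, le_rfl⟩
  exact this

/-- the term of the continuation -/
noncomputable def zt (n : ℕ) (s : ℂ) : ℂ :=
  (1 - s) * pw (n + 1) s - (pw (n + 2) (s - 1) - pw (n + 1) (s - 1))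

lemma norm_zt_le (n : ℕ) {s : ℂ} (hs : 0 ≤ s.re) :
    ‖zt n s‖ ≤ ‖1 - s‖ * ‖s‖ * ((n : ℝ) + 1) ^ (-s.re - 1) := by
  have hn : (0 : ℝ) < n + 1 := by positivity
  have := norm_image_sub_le_of_norm_deriv_le_segment'
    (f := fun y : ℝ => (1 - s) * pw (n + 1) s * (y : ℂ) - pw y (s - 1))
    (f' := fun y => (1 - s) * (pw (n + 1) s - pw y s))
    (C := ‖1 - s‖ * ‖s‖ * ((n : ℝ) + 1) ^ (-s.re - 1)) (a := n + 1) (b := n + 2)
    (fun z hz => by
      have h1 := (hasDerivAt_pw (hn.trans_le hz.1) (s - 1))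
      have h2 := ((hasDerivAt_id z).ofReal_comp).const_mul ((1 - s) * pw (n + 1) s)
      have h3 := h2.sub h1
      refine HasDerivAt.hasDerivWithinAt (h3.congr_deriv ?_)
      simp only [sub_add_cancel, ofReal_one]; ring)
    (fun z hz => by
      rw [norm_mul, norm_sub_rev (pw _ _), mul_assoc]
      gcongr
      refine (norm_pw_sub_le hn hz.1 (by linarith)).trans ?_
      have : z - (n + 1) ≤ 1 := by linarith [hz.2]
      have h0 : 0 ≤ ‖s‖ * ((n : ℝ) + 1) ^ (-s.re - 1) := by positivity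
      nlinarith) (n + 2) ⟨by linarith, le_rfl⟩
  have e : zt n s = ((1 - s) * pw (n + 1) s * ((n + 2 : ℝ) : ℂ) - pw (n + 2) (s - 1)) -
      ((1 - s) * pw (n + 1) s * ((n + 1 : ℝ) : ℂ) - pw (n + 1) (s - 1)) := by
    rw [zt]; push_cast; ring
  rw [e]
  refine this.trans_eq ?_
  ring

lemma differentiable_zt (n : ℕ) : Differentiable ℂ (zt n) := by
  unfold zt pw
  fun_prop

lemma summable_rpow_succ {a : ℝ} (ha : 0 < a) : Summable fun n : ℕ => ((n : ℝ) + 1) ^ (-a - 1) := by
  have := (Real.summable_nat_rpow (p := -a - 1)).2 (by linarith)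
  have := (summable_nat_add_iff 1).2 this
  simpa using this

lemma sum_zt (N : ℕ) (s : ℂ) : ∑ n ∈ range N, zt n s =
    (1 - s) * ∑ n ∈ range N, pw (n + 1) s - (pw (N + 1) (s - 1) - 1) := by
  induction N with
  | zero => simp [pw]
  | succ N ih =>
    rw [sum_range_succ, sum_range_succ, ih, zt]
    push_cast
    rw [show (N : ℝ) + 1 + 1 = N + 2 by ring]
    ring

lemma tsum_zt_of_one_lt {s : ℂ} (hs : 1 < s.re) : ∑' n, zt n s = 1 - riemannZeta₁ s := by
  have hs1 : s ≠ 1 := by rintro rfl; simp at hs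
  have hsum : Summable fun n => zt n s :=
    Summable.of_norm_bounded ((summable_rpow_succ (a := s.re) (by linarith)).mul_left _)
      fun n => norm_zt_le n (by linarith)
  have h1 : Summable fun n : ℕ => pw (n + 1) s := by
    refine Summable.of_norm_bounded (summable_rpow_succ (a := s.re - 1) (by linarith)) fun n => ?_
    rw [norm_pw (by positivity)]
    apply le_of_eq; congr 1; ring
  have h2 : ∑' n : ℕ, pw (n + 1) s = riemannZeta s := by
    rw [zeta_eq_tsum_one_div_nat_add_one_cpow hs]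
    congr 1 with n
    rw [pw_eq_cpow (by positivity), cpow_neg, one_div]
    push_cast; rfl
  have h3 : Tendsto (fun N : ℕ => pw (N + 1) (s - 1)) atTop (𝓝 0) := by
    rw [tendsto_zero_iff_norm_tendsto_zero]
    have : Tendsto (fun N : ℕ => ((N : ℝ) + 1) ^ (-(s.re - 1))) atTop (𝓝 0) :=
      (tendsto_rpow_neg_atTop (by linarith)).comp
        (tendsto_atTop_add_const_right _ _ tendsto_natCast_atTop_atTop)
    refine this.congr fun N => ?_
    rw [norm_pw (by positivity)]; simp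
  have h4 := ((h2 ▸ h1.hasSum.tendsto_sum_nat).const_mul (1 - s)).sub (h3.sub_const 1)
  have h5 := tendsto_nhds_unique hsum.hasSum.tendsto_sum_nat (by simpa only [sum_zt] using h4)
  rw [h5, riemannZeta_eq_inv_sub_mul hs1]
  have : s - 1 ≠ 0 := sub_ne_zero.2 hs1
  field_simp
  ring

lemma tsum_zt {s : ℂ} (hs : 0 < s.re) : ∑' n, zt n s = 1 - riemannZeta₁ s := by
  set R : ℝ := ‖s‖ + 3
  set a := min (s.re / 2) 1
  have ha : 0 < a := lt_min (by linarith) one_pos
  set U : Set ℂ := {z | a < z.re} ∩ Metric.ball 0 R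
  have hUo : IsOpen U := (isOpen_lt continuous_const continuous_re).inter Metric.isOpen_ball
  have hUc : Convex ℝ U := (convex_halfSpace_re_gt a).inter (convex_ball 0 R)
  have hd : DifferentiableOn ℂ (fun z => ∑' n, zt n z) U := by
    refine differentiableOn_tsum_of_summable_norm
      ((summable_rpow_succ ha).mul_left ((1 + R) * R))
      (fun n => (differentiable_zt n).differentiableOn) hUo fun n z hz => ?_
    have hz1 : a < z.re := hz.1
    have hz2 : ‖z‖ < R := by simpa using hz.2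
    refine (norm_zt_le n (by linarith)).trans ?_
    have : ‖1 - z‖ ≤ 1 + R := (norm_sub_le _ _).trans (by simp; linarith)
    gcongr
    · linarith [Nat.cast_nonneg (α := ℝ) n]
  have hd2 : DifferentiableOn ℂ (fun z => 1 - riemannZeta₁ z) U := by
    apply Differentiable.differentiableOn; fun_prop
  have h2U : (2 : ℂ) ∈ U := by
    refine ⟨?_, ?_⟩
    · show a < (2 : ℂ).re
      simp only [re_ofNat]; linarith [min_le_right (s.re / 2) 1]
    · simp only [Metric.mem_ball, dist_zero_right, Complex.norm_ofNat, R]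
      linarith [norm_nonneg s]
  have hsU : s ∈ U := by
    refine ⟨?_, ?_⟩
    · show a < s.re
      linarith [min_le_left (s.re / 2) 1]
    · simp [R]
  have := (hd.analyticOnNhd hUo).eqOn_of_preconnected_of_eventuallyEq (hd2.analyticOnNhd hUo)
    hUc.isPreconnected h2U (by
      have : ∀ᶠ z in 𝓝 (2 : ℂ), 1 < z.re :=
        (isOpen_lt continuous_const continuous_re).mem_nhds (by simp)
      filter_upwards [this] with z hz using tsum_zt_of_one_lt hz)
  exact this hsU

lemma sum_Ioc_rpow_le {M : ℕ} (hM : 1 ≤ M) (V : ℕ) :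
    ∑ n ∈ Ioc M V, (n : ℝ) ^ (-(1 / 2 : ℝ) - 1) ≤ 2 / √M := by
  have key : ∀ V, M ≤ V → ∑ n ∈ Ioc M V, (n : ℝ) ^ (-(1 / 2 : ℝ) - 1) ≤ 2 / √M - 2 / √V := by
    intro V hV
    induction V, hV using Nat.le_induction with
    | base => simp
    | succ V hV ih =>
      rw [Finset.sum_Ioc_succ_top hV]
      have hV0 : (0 : ℝ) < V := by exact_mod_cast (by omega : 0 < V)
      have ha : 0 < √(V : ℝ) := Real.sqrt_pos.2 hV0
      have hb : 0 < √((V + 1 : ℕ) : ℝ) := Real.sqrt_pos.2 (by positivity)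
      have ha2 : √(V : ℝ) ^ 2 = V := Real.sq_sqrt hV0.le
      have hb2 : √((V + 1 : ℕ) : ℝ) ^ 2 = (V : ℝ) + 1 := by
        rw [Real.sq_sqrt (by positivity)]; push_cast; rfl
      have hab : √(V : ℝ) ≤ √((V + 1 : ℕ) : ℝ) := Real.sqrt_le_sqrt (by push_cast; linarith)
      have e : ((V + 1 : ℕ) : ℝ) ^ (-(1 / 2 : ℝ) - 1) = 1 / √((V + 1 : ℕ) : ℝ) ^ 3 := by
        rw [Real.sqrt_eq_rpow, ← Real.rpow_natCast, ← Real.rpow_mul (by positivity),
          one_div (_ ^ _), ← Real.rpow_neg (by positivity)]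
        norm_num
      rw [e]
      set a := √(V : ℝ)
      set b := √((V + 1 : ℕ) : ℝ)
      have : 1 / b ^ 3 ≤ 2 / a - 2 / b := by
        rw [div_sub_div _ _ ha.ne' hb.ne', div_le_div_iff₀ (by positivity) (by positivity)]
        have h1 : (b - a) * (b + a) = 1 := by nlinarith
        have h2 : 0 ≤ b - a := by linarith
        have h3 : a * b * (b + a) ≤ 2 * b ^ 3 := by nlinarith [mul_nonneg ha.le hb.le, mul_pos hb hb]
        have h4 := mul_le_mul_of_nonneg_left h3 h2
        have h5 : (b - a) * (a * b * (b + a)) = a * b := by linear_combination a * b * h1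
        rw [h5] at h4
        linarith
      linarith
  rcases le_total M V with h | h
  · have := key V h
    have : 0 ≤ 2 / √(V : ℝ) := by positivity
    linarith
  · rw [Finset.Ioc_eq_empty (by omega), sum_empty]; positivity

/-- the point `1/2 + i t` -/
noncomputable def sc (t : ℝ) : ℂ := 1 / 2 + t * I

@[simp] lemma sc_re (t : ℝ) : (sc t).re = 1 / 2 := by simp [sc]
@[simp] lemma sc_im (t : ℝ) : (sc t).im = t := by simp [sc]

lemma norm_sc_le (t : ℝ) : ‖sc t‖ ≤ 1 + |t| := by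
  refine (norm_add_le _ _).trans ?_
  simp; norm_num

lemma zeta_approx {N : ℕ} (hN : 1 ≤ N) {t : ℝ} (ht : 0 < t) :
    ‖riemannZeta (sc t) - ∑ n ∈ Ioc 0 N, pw n (sc t)‖ ≤ √(N + 1) / t + 2 * (1 + t) / √N := by
  set s := sc t with hs
  have hre : s.re = 1 / 2 := sc_re t
  have hs1 : s ≠ 1 := by intro h; rw [h] at hre; norm_num at hre
  have hsum : Summable fun n => zt n s :=
    Summable.of_norm_bounded ((summable_rpow_succ (a := s.re) (by linarith)).mul_left _)
      fun n => norm_zt_le n (by linarith)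
  have h1 := hsum.sum_add_tsum_nat_add N
  rw [tsum_zt (by linarith), sum_zt] at h1
  have hP : ∑ n ∈ Ioc 0 N, pw n s = ∑ n ∈ range N, pw (n + 1) s := by
    rw [← Finset.Ico_add_one_add_one_eq_Ioc, ← Finset.sum_Ico_add' (fun n : ℕ => pw n s) 0 N 1,
      Nat.Ico_zero_eq_range]
    simp
  have htail : ‖∑' n, zt (n + N) s‖ ≤ ‖1 - s‖ * ‖s‖ * (2 / √N) := by
    refine tsum_of_norm_bounded (f := fun n => zt (n + N) s)
      (g := fun n : ℕ => ‖1 - s‖ * ‖s‖ * (((n + N : ℕ) : ℝ) + 1) ^ (-s.re - 1))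
      ((((summable_nat_add_iff N).2 (summable_rpow_succ (a := s.re) (by linarith))).hasSum).mul_left _)
      (fun n => norm_zt_le _ (by linarith)) |>.trans ?_
    gcongr
    refine Real.tsum_le_of_sum_range_le (fun n => by positivity) fun V => ?_
    refine le_trans (le_of_eq ?_) (sum_Ioc_rpow_le hN (V + N))
    rw [← Finset.Ico_add_one_add_one_eq_Ioc, Finset.sum_Ico_eq_sum_range,
      show V + N + 1 - (N + 1) = V by omega, hre]
    refine sum_congr rfl fun n _ => ?_
    push_cast; ring_nf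
  have h1s : t ≤ ‖1 - s‖ := by
    have := abs_im_le_norm (1 - s)
    simp only [sub_im, one_im, hs, sc_im, zero_sub, abs_neg] at this
    exact (le_abs_self t).trans this
  have hne : 1 - s ≠ 0 := sub_ne_zero.2 hs1.symm
  have e : riemannZeta s - ∑ n ∈ Ioc 0 N, pw n s =
      (-pw (N + 1) (s - 1) + ∑' n, zt (n + N) s) / (1 - s) := by
    rw [hP, riemannZeta_eq_inv_sub_mul hs1, eq_div_iff hne]
    have : s - 1 ≠ 0 := sub_ne_zero.2 hs1
    have h2 : (s - 1)⁻¹ * riemannZeta₁ s * (1 - s) = -riemannZeta₁ s := by field_simp; ring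
    linear_combination h2 - h1
  have hpos : 0 < ‖1 - s‖ := ht.trans_le h1s
  rw [e, norm_div, div_le_iff₀ hpos]
  refine (norm_add_le _ _).trans ?_
  rw [norm_neg, norm_pw (by positivity), add_mul]
  gcongr
  · simp only [sub_re, hre, one_re]
    rw [show -(1 / 2 - 1 : ℝ) = 1 / 2 by norm_num, ← Real.sqrt_eq_rpow, div_mul_eq_mul_div,
      le_div_iff₀ ht]
    gcongr
  · refine htail.trans ?_
    have := norm_sc_le t
    rw [abs_of_pos ht] at this
    have h3 : ‖s‖ * (2 / √N) ≤ 2 * (1 + t) / √N := by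
      rw [mul_div_assoc', mul_comm]; gcongr
    nlinarith

lemma continuous_sc : Continuous sc := by unfold sc; fun_prop

lemma continuous_zeta_sc : Continuous fun t => riemannZeta (sc t) := by
  refine continuous_iff_continuousAt.2 fun t => ?_
  have h : sc t ≠ 1 := by
    intro h; have := sc_re t; rw [h] at this; norm_num at this
  exact ContinuousAt.comp (f := sc) (differentiableAt_riemannZeta h).continuousAt
    continuous_sc.continuousAt

lemma continuous_pw_sc (x : ℝ) : Continuous fun t => pw x (sc t) := by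
  unfold pw sc; fun_prop

end Pool.Agent.Lib.MP_80d0cf_nt.Six
end
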