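import Pool.Agent.Lib.MP_80d0cf_nt.Six.Fourier

/-! The weighted integral of the chirp against `ξ ^ (-s)`. -/

open Complex Filter Topology Finset MeasureTheory
open scoped Real SchwartzMap

namespace Pool.Agent.Lib.MP_80d0cf_nt.Six

lemma exp_image : Real.exp '' Set.univ = Set.Ioi 0 := by
  rw [Set.image_univ, Real.range_exp]

lemma integrable_exp_exp {a b : ℝ} (ha : 0 < a) (hb : 0 < b) :
    Integrable fun x : ℝ => Real.exp (-a * Real.exp x + b * x) := by
  have h := integrableOn_rpow_mul_exp_neg_mul_rpow (p := 1) (s := b - 1) (by linarith) one_pos ha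
  rw [← exp_image, integrableOn_image_iff_integrableOn_abs_deriv_smul MeasurableSet.univ
    (fun x _ => (Real.hasDerivAt_exp x).hasDerivWithinAt) Real.exp_injective.injOn,
    integrableOn_univ] at h
  refine h.congr (Eventually.of_forall fun x => ?_)
  simp only [abs_of_pos (Real.exp_pos x), smul_eq_mul, Real.rpow_one]
  rw [← Real.exp_mul, ← Real.exp_add, ← Real.exp_add]
  congr 1; ring

lemma norm_exp_exp (z s : ℂ) (x : ℝ) : ‖exp (-z * Real.exp x + s * x)‖ =
    Real.exp (-z.re * Real.exp x + s.re * x) := by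
  rw [norm_exp]; simp [-ofReal_exp]

lemma integrable_cexp_exp {z s : ℂ} (hz : 0 < z.re) (hs : 0 < s.re) :
    Integrable fun x : ℝ => exp (-z * Real.exp x + s * x) :=
  (integrable_exp_exp hz hs).mono' (Continuous.aestronglyMeasurable (by fun_prop))
    (Eventually.of_forall fun x => (norm_exp_exp z s x).le)

lemma gamma_real {r : ℝ} (hr : 0 < r) {s : ℂ} (hs : 0 < s.re) :
    ∫ x : ℝ, exp (-r * Real.exp x + s * x) = Gamma s * exp (-s * log r) := by
  have h := integral_cpow_mul_exp_neg_mul_Ioi hs hr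
  rw [← exp_image, integral_image_eq_integral_abs_deriv_smul MeasurableSet.univ
    (fun x _ => (Real.hasDerivAt_exp x).hasDerivWithinAt) Real.exp_injective.injOn,
    Measure.restrict_univ] at h
  have hr' : (r : ℂ) ≠ 0 := by exact_mod_cast hr.ne'
  rw [mul_comm, cpow_def_of_ne_zero (one_div_ne_zero hr'), one_div, ← ofReal_inv,
    ← ofReal_log (by positivity), Real.log_inv, ofReal_neg, ofReal_log hr.le] at h
  rw [show -s * log r = -log r * s by ring, ← h]
  congr 1 with x
  rw [abs_of_pos (Real.exp_pos x), real_smul,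
    cpow_def_of_ne_zero (by exact_mod_cast (Real.exp_pos x).ne'), ← ofReal_log (Real.exp_pos x).le,
    Real.log_exp, ← exp_add]
  nth_rewrite 2 [ofReal_exp]
  rw [← exp_add]
  congr 1; ring

lemma gamma_complex {z s : ℂ} (hz : 0 < z.re) (hs : 0 < s.re) :
    ∫ x : ℝ, exp (-z * Real.exp x + s * x) = Gamma s * exp (-s * log z) := by
  set U : Set ℂ := {z | 0 < z.re}
  have hUo : IsOpen U := isOpen_lt continuous_const continuous_re
  have h1 : DifferentiableOn ℂ (fun z => ∫ x : ℝ, exp (-z * Real.exp x + s * x)) U := by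
    intro z hz
    have hz' : 0 < z.re := hz
    refine (hasDerivAt_integral_of_dominated_loc_of_deriv_le
      (F := fun z (x : ℝ) => exp (-z * Real.exp x + s * x))
      (F' := fun z (x : ℝ) => -exp (-z * Real.exp x + (s + 1) * x))
      (bound := fun x => Real.exp (-(z.re / 2) * Real.exp x + (s.re + 1) * x))
      (s := {w | z.re / 2 < w.re})
      ((isOpen_lt continuous_const continuous_re).mem_nhds (by show z.re / 2 < z.re; linarith))
      (Eventually.of_forall fun w => Continuous.aestronglyMeasurable (by fun_prop))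
      (integrable_cexp_exp hz hs) (Continuous.aestronglyMeasurable (by fun_prop))
      (Eventually.of_forall fun x w hw => ?_)
      (integrable_exp_exp (by linarith) (by linarith))
      (Eventually.of_forall fun x w _ => ?_)).2.differentiableAt.differentiableWithinAt
    · rw [norm_neg, norm_exp_exp, add_re, one_re]
      have : z.re / 2 < w.re := hw
      gcongr
    · refine ((((hasDerivAt_id w).neg.mul_const _).add_const _).cexp).congr_deriv ?_
      rw [add_mul, one_mul, ← add_assoc, exp_add _ (x : ℂ), ← ofReal_exp]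
      simp only [id, Pi.neg_apply]; ring
  have h2 : DifferentiableOn ℂ (fun z => Gamma s * exp (-s * log z)) U := fun z hz =>
    (((differentiableAt_log (Or.inl hz)).const_mul _).cexp.const_mul _).differentiableWithinAt
  refine (h1.analyticOnNhd hUo).eqOn_of_preconnected_of_frequently_eq (h2.analyticOnNhd hUo)
    (convex_halfSpace_re_gt 0).isPreconnected (z₀ := 1) (by simp [U]) ?_ hz
  have ht : Tendsto (fun n : ℕ => ((1 + 1 / ((n : ℝ) + 1) : ℝ) : ℂ)) atTop (𝓝[≠] 1) := by
    refine tendsto_nhdsWithin_iff.2 ⟨?_, Eventually.of_forall fun n => ?_⟩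
    · have := (continuous_ofReal.tendsto _).comp
        (tendsto_one_div_add_atTop_nhds_zero_nat.const_add (1 : ℝ))
      simpa [Function.comp_def] using this
    · have : (0 : ℝ) < 1 / ((n : ℝ) + 1) := by positivity
      intro h
      have h' : (1 + 1 / ((n : ℝ) + 1) : ℝ) = 1 := ofReal_eq_one.1 h
      linarith
  exact ht.frequently (Frequently.of_forall fun n => gamma_real (by positivity) hs)

/-- the kernel -/
noncomputable def Kr (Z : ℂ) (T κ y : ℝ) : ℂ := exp (-Z * Real.exp (y / T) - (κ * (y / T) : ℝ))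

lemma norm_Kr (Z : ℂ) (T κ y : ℝ) :
    ‖Kr Z T κ y‖ = Real.exp (-Z.re * Real.exp (y / T) - κ * (y / T)) := by
  rw [Kr, norm_exp]; simp [-ofReal_exp, -ofReal_div]

lemma continuous_Kr (Z : ℂ) (T κ : ℝ) : Continuous (Kr Z T κ) := by unfold Kr; fun_prop

lemma exp_half_le {a : ℝ} (ha : 0 < a) (x : ℝ) :
    Real.exp (-a * Real.exp x + x / 2) ≤ 1 + 1 / a := by
  have h1 : Real.exp (x / 2) ≤ 1 + Real.exp x := by
    have : Real.exp x = Real.exp (x / 2) ^ 2 := by rw [← Real.exp_nat_mul]; congr 1; push_cast; ring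
    nlinarith [Real.exp_pos (x / 2)]
  have h2 : Real.exp (-a * Real.exp x) ≤ 1 :=
    Real.exp_le_one_iff.2 (by nlinarith [Real.exp_pos x])
  have h3 : Real.exp (-a * Real.exp x) * Real.exp x ≤ 1 / a := by
    rw [le_div_iff₀ ha, neg_mul, Real.exp_neg, mul_assoc, inv_mul_le_iff₀ (Real.exp_pos _)]
    nlinarith [Real.add_one_le_exp (a * Real.exp x)]
  rw [Real.exp_add]
  nlinarith [Real.exp_pos (-a * Real.exp x)]

lemma norm_Kr_half {Z : ℂ} (hZ : 0 < Z.re) (T y : ℝ) : ‖Kr Z T (-1 / 2) y‖ ≤ 1 + 1 / Z.re := by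
  rw [norm_Kr]
  refine le_trans (le_of_eq ?_) (exp_half_le hZ (y / T))
  congr 1; ring

lemma norm_Kr_le {Z : ℂ} (hZ : 0 < Z.re) {T κ y : ℝ} (hT : 0 < T) (hκ : -1 / 2 ≤ κ) (hy : -T ≤ y) :
    ‖Kr Z T κ y‖ ≤ (1 + 1 / Z.re) * Real.exp (κ + 1 / 2) := by
  have h1 : -1 ≤ y / T := by rw [le_div_iff₀ hT]; linarith
  have := exp_half_le hZ (y / T)
  rw [norm_Kr, show -Z.re * Real.exp (y / T) - κ * (y / T) =
    (-Z.re * Real.exp (y / T) + y / T / 2) + -(κ + 1 / 2) * (y / T) by ring, Real.exp_add]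
  gcongr
  nlinarith

lemma norm_Kr_le' {Z : ℂ} (hZ : 0 < Z.re) {T κ y : ℝ} (hT : 0 < T) (hκ : 0 ≤ κ) (hy : -T ≤ y) :
    ‖Kr Z T κ y‖ ≤ Real.exp κ := by
  have h1 : -1 ≤ y / T := by rw [le_div_iff₀ hT]; linarith
  rw [norm_Kr]
  gcongr
  nlinarith [Real.exp_pos (y / T)]

lemma integrableOn_Kr {Z : ℂ} (hZ : 0 < Z.re) {T κ : ℝ} (hT : 0 < T) (hκ : -1 / 2 ≤ κ)
    (G : 𝓢(ℝ, ℂ)) : IntegrableOn (fun y => Kr Z T κ y * G y) (Set.Ioi (-T)) :=
  G.integrable.integrableOn.bdd_mul (continuous_Kr Z T κ).aestronglyMeasurable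
    ((ae_restrict_iff' measurableSet_Ioi).2
      (Eventually.of_forall fun _ hy => norm_Kr_le hZ hT hκ (le_of_lt hy)))

/-- the decay property -/
def FarP (A B : ℕ) (κ : ℝ) : Prop := ∀ G : 𝓢(ℝ, ℂ), ∃ C, 0 ≤ C ∧ ∀ (T : ℝ) (Z : ℂ), 1 ≤ T →
  0 < Z.re → T ≤ ‖Z‖ →
    ‖∫ y in Set.Ioi (-T), Kr Z T κ y * G y‖ ≤ C * ((T / ‖Z‖) ^ A + 1 / T ^ B)

lemma farP_step {A B : ℕ} {κ : ℝ} (hκ : -1 / 2 ≤ κ) (h : FarP A B (κ + 1)) : FarP (A + 1) B κ := by
  intro G
  obtain ⟨C1, hC1, h1⟩ := h G
  obtain ⟨C2, hC2, h2⟩ := h (SchwartzMap.derivCLM ℝ ℂ G)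
  obtain ⟨C3, hC3, h3⟩ := decay_div G B
  have hk : 0 ≤ κ + 1 := by linarith
  refine ⟨Real.exp (κ + 1) * C3 + C2 + (κ + 1) * C1, by positivity, fun T Z hT hZ hTZ => ?_⟩
  have hT0 : 0 < T := by linarith
  have hZn : 0 < ‖Z‖ := by linarith
  have hZ0 : Z ≠ 0 := norm_pos_iff.1 hZn
  have hT' : (T : ℂ) ≠ 0 := by exact_mod_cast hT0.ne'
  have i0 := integrableOn_Kr hZ hT0 hκ G
  have i1 := integrableOn_Kr hZ hT0 (κ := κ + 1) (by linarith) G
  have i2 := integrableOn_Kr hZ hT0 (κ := κ + 1) (by linarith) (SchwartzMap.derivCLM ℝ ℂ G)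
  have hd : ∀ y, HasDerivAt (fun y => Kr Z T (κ + 1) y * G y)
      (-(Z / T) * (Kr Z T κ y * G y) - ((κ + 1) / T) * (Kr Z T (κ + 1) y * G y) +
        Kr Z T (κ + 1) y * SchwartzMap.derivCLM ℝ ℂ G y) y := fun y => by
    have a1 := (hasDerivAt_id y).div_const T
    have a2 := ((a1.exp.ofReal_comp.const_mul (-Z)).sub
      (a1.const_mul (κ + 1)).ofReal_comp).cexp
    refine (a2.mul (G.hasDerivAt y)).congr_deriv ?_
    have e : Kr Z T κ y = Kr Z T (κ + 1) y * Real.exp (y / T) := by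
      rw [Kr, Kr, ofReal_exp (y / T), ← exp_add]; congr 1; push_cast; ring
    rw [e, SchwartzMap.derivCLM_apply, Kr]
    simp only [id, Pi.sub_apply]
    push_cast; ring
  have hlim : Tendsto (fun y => Kr Z T (κ + 1) y * G y) atTop (𝓝 0) := by
    have := (G.tendsto_cocompact.mono_left (atTop_le_cocompact)).norm.const_mul (Real.exp (κ + 1))
    rw [norm_zero, mul_zero] at this
    refine squeeze_zero_norm' ?_ this
    filter_upwards [eventually_ge_atTop (-T)] with y hy
    rw [norm_mul]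
    gcongr
    exact norm_Kr_le' hZ hT0 hk hy
  have key := integral_Ioi_of_hasDerivAt_of_tendsto (hd (-T)).continuousAt.continuousWithinAt
    (fun y _ => hd y) (((i0.const_mul _).sub (i1.const_mul _)).add i2) hlim
  rw [integral_add (by exact (i0.const_mul _).sub (i1.const_mul _)) i2,
    integral_sub (i0.const_mul _) (i1.const_mul _), integral_const_mul, integral_const_mul] at key
  set J0 := ∫ y in Set.Ioi (-T), Kr Z T κ y * G y
  set J1 := ∫ y in Set.Ioi (-T), Kr Z T (κ + 1) y * G y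
  set J2 := ∫ y in Set.Ioi (-T), Kr Z T (κ + 1) y * SchwartzMap.derivCLM ℝ ℂ G y
  have e : J0 = T / Z * (Kr Z T (κ + 1) (-T) * G (-T) + J2 - (κ + 1) / T * J1) := by
    field_simp
    field_simp at key
    linear_combination -key
  have b1 := h1 T Z hT hZ hTZ
  have b2 := h2 T Z hT hZ hTZ
  have b3 : ‖Kr Z T (κ + 1) (-T) * G (-T)‖ ≤ Real.exp (κ + 1) * (C3 / T ^ B) := by
    rw [norm_mul]
    gcongr
    · exact norm_Kr_le' hZ hT0 hk le_rfl
    · exact h3 _ _ hT0 (by rw [abs_neg, abs_of_pos hT0])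
  have b4 : ‖((κ : ℂ) + 1) / T * J1‖ ≤ (κ + 1) * (C1 * ((T / ‖Z‖) ^ A + 1 / T ^ B)) := by
    rw [norm_mul, norm_div, ← ofReal_one, ← ofReal_add, norm_real, norm_real, Real.norm_eq_abs,
      Real.norm_eq_abs, abs_of_nonneg hk, abs_of_pos hT0]
    gcongr
    exact div_le_self hk hT
  set q := T / ‖Z‖
  have hq0 : 0 ≤ q := by positivity
  have hq1 : q ≤ 1 := (div_le_one hZn).2 hTZ
  rw [e, norm_mul, norm_div, norm_real, Real.norm_eq_abs, abs_of_pos hT0]
  have b5 := (norm_sub_le _ _).trans (add_le_add ((norm_add_le _ _).trans (add_le_add b3 b2)) b4)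
  have hB : 0 < 1 / T ^ B := by positivity
  have hA : 0 ≤ q ^ A := by positivity
  calc q * _ ≤ q * ((Real.exp (κ + 1) * C3 + C2 + (κ + 1) * C1) * (q ^ A + 1 / T ^ B)) := by
        gcongr
        refine b5.trans ?_
        have : 0 ≤ Real.exp (κ + 1) * C3 * q ^ A := by positivity
        rw [div_eq_mul_one_div C3]
        nlinarith
    _ = (Real.exp (κ + 1) * C3 + C2 + (κ + 1) * C1) * (q ^ (A + 1) + q * (1 / T ^ B)) := by ring
    _ ≤ _ := by gcongr; exact mul_le_of_le_one_left hB.le hq1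

lemma farP (A B : ℕ) : ∀ κ : ℝ, 0 ≤ κ → FarP A B κ := by
  induction A with
  | zero =>
    intro κ hκ G
    refine ⟨Real.exp κ * ∫ y, ‖G y‖, by positivity, fun T Z hT hZ hTZ => ?_⟩
    have h1 : ‖∫ y in Set.Ioi (-T), Kr Z T κ y * G y‖ ≤ ∫ y in Set.Ioi (-T), Real.exp κ * ‖G y‖ := by
      refine norm_integral_le_of_norm_le (G.integrable.norm.const_mul _).integrableOn
        ((ae_restrict_iff' measurableSet_Ioi).2 (Eventually.of_forall fun y hy => ?_))
      rw [norm_mul]
      gcongr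
      exact norm_Kr_le' hZ (by linarith) hκ (le_of_lt hy)
    have h2 := setIntegral_le_integral (μ := volume) (s := Set.Ioi (-T))
      (G.integrable.norm.const_mul (Real.exp κ))
      (Eventually.of_forall fun y => by positivity)
    rw [integral_const_mul (μ := volume)] at h2
    refine (h1.trans h2).trans (le_mul_of_one_le_right (by positivity) ?_)
    have : 0 < 1 / T ^ B := by positivity
    simp only [pow_zero]; linarith
  | succ A ih => exact fun κ hκ => farP_step (by linarith) (ih _ (by linarith))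

lemma norm_exp_sub_exp_le {a b : ℂ} (ha : a.re ≤ 0) (hb : b.re ≤ 0) : ‖exp a - exp b‖ ≤ ‖a - b‖ := by
  have := (convex_halfSpace_re_le 0).norm_image_sub_le_of_norm_hasDerivWithin_le (𝕜 := ℂ)
    (f := exp) (f' := exp) (C := 1) (fun x _ => (hasDerivAt_exp x).hasDerivWithinAt)
    (fun x hx => by rw [norm_exp]; exact Real.exp_le_one_iff.2 hx) hb ha
  simpa using this

namespace Wt

variable (W : Wt)

/-- the chirp integral -/
noncomputable def Ic (T ξ : ℝ) : ℂ := W.Iw T fun t => psi (1 / T ^ 2) t * pw ξ (sc t)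

lemma Ic_eq {T ξ : ℝ} (hT : 0 < T) (hξ : 0 < ξ) :
    W.Ic T ξ = ∫ y, Kr (((1 / T ^ 2 : ℝ) + 2 * π * I) * ξ) T (-1 / 2) y * W.G y := by
  set Z : ℂ := ((1 / T ^ 2 : ℝ) + 2 * π * I) * ξ with hZ
  have hre : Z.re = 1 / T ^ 2 * ξ := by simp [hZ, -ofReal_div, -one_div]
  have hZ0 : 0 < Z.re := by rw [hre]; positivity
  have hz : ((1 / T ^ 2 : ℝ) + 2 * π * I : ℂ) ≠ 0 := by
    intro h; rw [hZ, h] at hZ0; simp at hZ0
  have e1 : ∀ t, psi (1 / T ^ 2) t * pw ξ (sc t) =
      ∫ x : ℝ, exp (-Z * Real.exp x + sc t * x) := fun t => by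
    rw [gamma_complex hZ0 (by simp), psi, pw, mul_assoc, ← exp_add, hZ, mul_comm _ (ξ : ℂ),
      log_ofReal_mul hξ hz]
    ring_nf
  have hint : Integrable (Function.uncurry fun (t x : ℝ) =>
      (W.w (t / T) : ℂ) * exp (-Z * Real.exp x + sc t * x)) (volume.prod volume) := by
    have h1 := (W.integrable_real hT (continuous_const (y := 1))).mul_prod
      (integrable_exp_exp hZ0 (b := 1 / 2) (by norm_num))
    have := W.continuous
    have := continuous_sc
    refine h1.mono' (Continuous.aestronglyMeasurable (by unfold Function.uncurry; fun_prop))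
      (Eventually.of_forall fun p => ?_)
    simp only [Function.uncurry, norm_mul, norm_exp_exp, sc_re, norm_real, Real.norm_eq_abs,
      abs_of_nonneg (W.nonneg _), mul_one, le_refl]
  have e2 : W.Ic T ξ = ∫ x : ℝ, exp (-Z * Real.exp x + x / 2) * (T * W.G (T * x)) := by
    rw [Ic, Iw]
    simp only [e1, ← integral_const_mul]
    rw [integral_integral_swap hint]
    congr 1 with x
    rw [← W.Iw_exp hT, Iw, ← integral_const_mul]
    congr 1 with t
    rw [mul_left_comm, ← exp_add, sc]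
    push_cast; ring_nf
  have e3 := Measure.integral_comp_div
    (fun x : ℝ => exp (-Z * Real.exp x + x / 2) * W.G (T * x)) T
  rw [abs_of_pos hT, real_smul, ← integral_const_mul] at e3
  rw [e2]
  refine Eq.trans ?_ (e3.symm.trans ?_)
  · congr 1 with x; ring
  · congr 1 with y
    rw [mul_div_cancel₀ _ hT.ne', Kr]
    push_cast; ring_nf

lemma Ic_near : ∃ C, 0 < C ∧ ∀ T ξ : ℝ, 1 ≤ T → 1 / T ≤ ξ →
    ‖W.Ic T ξ - 2 * π * exp (-2 * π * I * ξ) * W.w (2 * π * ξ / T)‖ ≤ C * (1 / T + ξ / T ^ 2) := by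
  set F : ℝ → ℝ := fun y => 3 * ‖W.G y‖ + 2 * (|y| ^ 1 * ‖W.G y‖) + 7 * (|y| ^ 2 * ‖W.G y‖) +
    3 * (|y| ^ 4 * ‖W.G y‖)
  have hF : Integrable F := (((W.G.integrable.norm.const_mul 3).add
    ((integrable_abs_pow W.G 1).const_mul 2)).add ((integrable_abs_pow W.G 2).const_mul 7)).add
    ((integrable_abs_pow W.G 4).const_mul 3)
  have hF0 : 0 ≤ ∫ y, F y := integral_nonneg fun y => by simp only [F]; positivity
  refine ⟨1 + ∫ y, F y, by positivity, fun T ξ hT hξ => ?_⟩
  have hT0 : 0 < T := by linarith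
  have hξ0 : 0 < ξ := lt_of_lt_of_le (by positivity) hξ
  set Z : ℂ := ((1 / T ^ 2 : ℝ) + 2 * π * I) * ξ with hZ
  have hre : Z.re = 1 / T ^ 2 * ξ := by simp [hZ, -ofReal_div, -one_div]
  have hZ0 : 0 < Z.re := by rw [hre]; positivity
  set Φ : ℝ → ℂ := fun y => exp (-2 * π * I * ξ * (1 + y / T))
  have hΦ : ∀ y, ‖Φ y‖ = 1 := fun y => by
    rw [show Φ y = exp ((-2 * π * ξ * (1 + y / T) : ℝ) * I) by simp only [Φ]; push_cast; ring_nf,
      norm_exp_ofReal_mul_I]
  have e1 : 2 * π * exp (-2 * π * I * ξ) * W.w (2 * π * ξ / T) = ∫ y, Φ y * W.G y := by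
    rw [mul_right_comm, ← W.G_inv, ← integral_mul_const]
    congr 1 with y
    rw [mul_assoc, ← exp_add, mul_comm]
    simp only [Φ]; push_cast; ring_nf
  have i1 : Integrable fun y => Kr Z T (-1 / 2) y * W.G y :=
    W.G.integrable.bdd_mul (continuous_Kr _ _ _).aestronglyMeasurable
      (Eventually.of_forall fun y => norm_Kr_half hZ0 T y)
  have i2 : Integrable fun y => Φ y * W.G y :=
    W.G.integrable.bdd_mul (Continuous.aestronglyMeasurable (by fun_prop))
      (Eventually.of_forall fun y => (hΦ y).le)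
  set η := 1 / T + ξ / T ^ 2
  have hη1 : 1 / T ≤ η := le_add_of_nonneg_right (by positivity)
  have hη2 : ξ / T ^ 2 ≤ η := le_add_of_nonneg_left (by positivity)
  have hη0 : 0 < η := by positivity
  have hpt : ∀ y : ℝ, ‖Kr Z T (-1 / 2) y - Φ y‖ ≤ η * (3 + 2 * |y| + 7 * |y| ^ 2 + 3 * |y| ^ 4) := by
    intro y
    have hy0 := abs_nonneg y
    rcases le_total |y| T with hy | hy
    · set x := y / T with hx
      have hx1 : |x| ≤ 1 := by rw [hx, abs_div, abs_of_pos hT0, div_le_one hT0]; exact hy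
      have hxy : |x| ≤ η * |y| := by
        rw [hx, abs_div, abs_of_pos hT0, div_eq_mul_one_div, mul_comm]; gcongr
      have e : Kr Z T (-1 / 2) y - Φ y = exp (-Z * Real.exp x) * ((Real.exp (x / 2) - 1 : ℝ) : ℂ) +
          (exp (-Z * Real.exp x) - exp (-2 * π * I * ξ * (1 + x))) := by
        simp only [Kr, Φ, hx]
        push_cast
        rw [mul_sub, ← exp_add]
        ring_nf
      have h1 : (-Z * Real.exp x).re ≤ 0 := by
        simp only [neg_mul, neg_re, re_mul_ofReal]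
        have := Real.exp_pos x
        nlinarith
      have h2 := norm_exp_sub_exp_le h1 (b := -2 * π * I * ξ * (1 + x)) (by simp)
      have e2 : -Z * Real.exp x - -2 * π * I * ξ * (1 + x) =
          -((ξ / T ^ 2 * Real.exp x : ℝ) : ℂ) - (2 * π * ξ * (Real.exp x - 1 - x) : ℝ) * I := by
        rw [hZ]; push_cast; ring
      have h3 : Real.exp x ≤ 3 :=
        (Real.exp_le_exp.2 ((le_abs_self x).trans hx1)).trans
          (Real.exp_one_lt_d9.le.trans (by norm_num))
      have h4 : ‖-Z * Real.exp x - -2 * π * I * ξ * (1 + x)‖ ≤ η * 3 + η * (7 * |y| ^ 2) := by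
        rw [e2]
        refine (norm_sub_le _ _).trans (add_le_add ?_ ?_)
        · rw [norm_neg, norm_real, Real.norm_eq_abs, abs_of_nonneg (by positivity)]
          gcongr
        · rw [norm_mul, norm_I, mul_one, norm_real, Real.norm_eq_abs, abs_mul,
            abs_of_nonneg (by positivity)]
          have := Real.abs_exp_sub_one_sub_id_le hx1
          calc _ ≤ 7 * ξ * x ^ 2 := by gcongr; linarith [Real.pi_lt_d2]
            _ = ξ / T ^ 2 * (7 * |y| ^ 2) := by rw [hx, sq_abs]; field_simp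
            _ ≤ _ := by gcongr
      have h5 : ‖exp (-Z * Real.exp x) * ((Real.exp (x / 2) - 1 : ℝ) : ℂ)‖ ≤ η * |y| := by
        rw [norm_mul, norm_exp, norm_real, Real.norm_eq_abs]
        have := Real.abs_exp_sub_one_le (x := x / 2) (by rw [abs_div, abs_two]; linarith)
        rw [abs_div, abs_two] at this
        calc _ ≤ 1 * |x| :=
              mul_le_mul (Real.exp_le_one_iff.2 h1) (by linarith) (abs_nonneg _) zero_le_one
          _ ≤ _ := by rw [one_mul]; exact hxy
      rw [e]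
      refine (norm_add_le _ _).trans ((add_le_add h5 (h2.trans h4)).trans ?_)
      have : 0 ≤ η * |y| := by positivity
      have : 0 ≤ η * |y| ^ 4 := by positivity
      nlinarith
    · have h1 := norm_Kr_half hZ0 T y
      have h2 : 1 / Z.re ≤ T ^ 3 := by
        rw [hre, div_le_iff₀ (by positivity)]
        calc (1 : ℝ) = T ^ 3 * (1 / T ^ 2 * (1 / T)) := by field_simp
          _ ≤ _ := by gcongr
      have h3 : 1 ≤ T ^ 3 := one_le_pow₀ hT
      have h4 : T ^ 3 ≤ η * |y| ^ 4 :=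
        calc T ^ 3 = 1 / T * T ^ 4 := by field_simp
          _ ≤ _ := by gcongr
      refine (norm_sub_le _ _).trans ?_
      rw [hΦ]
      have : 0 ≤ η * |y| := by positivity
      have : 0 ≤ η * |y| ^ 2 := by positivity
      nlinarith
  rw [W.Ic_eq hT0 hξ0, e1, ← integral_sub i1 i2]
  refine (norm_integral_le_of_norm_le (hF.const_mul η) (Eventually.of_forall fun y => ?_)).trans ?_
  · rw [← sub_mul, norm_mul]
    refine (mul_le_mul_of_nonneg_right (hpt y) (norm_nonneg _)).trans (le_of_eq ?_)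
    simp only [F]; ring
  · rw [integral_const_mul]; nlinarith

lemma Ic_far (A B : ℕ) : ∃ C, 0 < C ∧ ∀ T ξ : ℝ, 1 ≤ T → T ≤ ξ →
    ‖W.Ic T ξ‖ ≤ C * ((T / ξ) ^ A + 1 / T ^ B) := by
  obtain ⟨C, hC, h⟩ := farP_step (κ := -1 / 2) le_rfl (farP A B _ (by norm_num)) W.G
  have hI : 0 ≤ ∫ y, |y| ^ B * ‖W.G y‖ := integral_nonneg fun y => by positivity
  refine ⟨C + 1 + ∫ y, |y| ^ B * ‖W.G y‖, by positivity, fun T ξ hT hξ => ?_⟩
  have hT0 : 0 < T := by linarith
  have hξ0 : 0 < ξ := by linarith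
  set Z : ℂ := ((1 / T ^ 2 : ℝ) + 2 * π * I) * ξ with hZ
  have hre : Z.re = 1 / T ^ 2 * ξ := by simp [hZ, -ofReal_div, -one_div]
  have hZ0 : 0 < Z.re := by rw [hre]; positivity
  have hZn : ξ ≤ ‖Z‖ := by
    have := abs_im_le_norm Z
    have him : Z.im = 2 * π * ξ := by simp [hZ, -ofReal_div, -one_div]
    rw [him] at this
    nlinarith [Real.pi_gt_three, le_abs_self (2 * π * ξ)]
  have i1 : Integrable fun y => Kr Z T (-1 / 2) y * W.G y :=
    W.G.integrable.bdd_mul (continuous_Kr _ _ _).aestronglyMeasurable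
      (Eventually.of_forall fun y => norm_Kr_half hZ0 T y)
  rw [W.Ic_eq hT0 hξ0, ← intervalIntegral.integral_Iic_add_Ioi (b := -T) i1.integrableOn
    i1.integrableOn]
  have h1 := h T Z hT hZ0 (hξ.trans hZn)
  have h2 : (T / ‖Z‖) ^ (A + 1) ≤ (T / ξ) ^ A :=
    calc (T / ‖Z‖) ^ (A + 1) ≤ (T / ξ) ^ (A + 1) := by gcongr
      _ ≤ _ := pow_le_pow_of_le_one (by positivity) ((div_le_one hξ0).2 hξ) (by omega)
  have h3 : ‖∫ y in Set.Iic (-T), Kr Z T (-1 / 2) y * W.G y‖ ≤
      1 / T ^ B * ∫ y, |y| ^ B * ‖W.G y‖ := by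
    rw [← integral_const_mul]
    have i3 := (integrable_abs_pow W.G B).const_mul (1 / T ^ B)
    refine le_trans ?_ (setIntegral_le_integral (s := Set.Iic (-T)) i3
      (Eventually.of_forall fun y => by positivity))
    refine norm_integral_le_of_norm_le i3.integrableOn
      ((ae_restrict_iff' measurableSet_Iic).2 (Eventually.of_forall fun y hy => ?_))
    have hy' : y ≤ -T := hy
    rw [norm_mul, ← mul_assoc]
    gcongr
    have h4 : T ^ B ≤ |y| ^ B := by gcongr; linarith [neg_le_abs y]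
    calc _ ≤ (1 : ℝ) := by
          rw [norm_Kr, Real.exp_le_one_iff]
          have : y / T ≤ 0 := div_nonpos_of_nonpos_of_nonneg (by linarith) hT0.le
          nlinarith [Real.exp_pos (y / T)]
      _ ≤ _ := by rw [one_div, le_inv_mul_iff₀ (by positivity), mul_one]; exact h4
  refine (norm_add_le _ _).trans ((add_le_add h3 h1).trans ?_)
  have : 0 < 1 / T ^ B := by positivity
  have : 0 ≤ (T / ξ) ^ A := by positivity
  nlinarith [mul_le_mul_of_nonneg_left h2 hC, mul_nonneg hI this]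

end Wt

end Pool.Agent.Lib.MP_80d0cf_nt.Six
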