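import Pool.Agent.Lib.MP_80d0cf_nt.Six.Zeta

/-! Asymptotics of double sums over regions. -/

open Finset Filter ArithmeticFunction Topology
open scoped Nat

namespace Pool.Agent.Lib.MP_80d0cf_nt.Six

lemma tendsto_of_bound {S : ℝ → ℝ} {c C : ℝ} {k : ℕ}
    (h : ∀ L, 0 < L → |S L - c * L ^ (k + 1)| ≤ C * (1 + L) ^ k) :
    Tendsto (fun L => S L / L ^ (k + 1)) atTop (𝓝 c) := by
  rw [tendsto_iff_norm_sub_tendsto_zero]
  refine squeeze_zero' (Eventually.of_forall fun _ => norm_nonneg _) ?_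
    (tendsto_const_nhds (x := |C| * 2 ^ k).div_atTop tendsto_id)
  filter_upwards [eventually_ge_atTop 1] with L hL
  have hL0 : 0 < L := by linarith
  rw [Real.norm_eq_abs, div_sub' (by positivity), abs_div, abs_of_pos (pow_pos hL0 _), mul_comm,
    div_le_iff₀ (by positivity)]
  refine (h L hL0).trans ?_
  calc C * (1 + L) ^ k ≤ |C| * (2 * L) ^ k := by gcongr; exacts [le_abs_self C, by linarith]
    _ = _ := by simp only [id]; field_simp; ring

lemma Typ.tendsto {a : ArithmeticFunction ℝ} {c : ℝ} {k : ℕ} (h : Typ a c k) {θ : ℝ} (h0 : 0 ≤ θ)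
    (h1 : θ ≤ 1) :
    Tendsto (fun L => LS a (θ * L) / L ^ (k + 1)) atTop (𝓝 (c * θ ^ (k + 1) / (k + 1)!)) := by
  obtain ⟨C, hC, hb⟩ := h.bound
  refine tendsto_of_bound (C := C) fun L hL => le_trans (le_of_eq ?_)
    ((hb (θ * L) (by positivity)).trans (by gcongr; nlinarith))
  congr 1; ring

/-- the range of integers with logarithm in `(αL, βL]` -/
noncomputable def Rg (L α β : ℝ) : Finset ℕ := Ioc ⌊Real.exp (α * L)⌋₊ ⌊Real.exp (β * L)⌋₊

lemma mem_Rg {L α β : ℝ} (hL : 0 < L) {n : ℕ} (h : n ∈ Rg L α β) :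
    0 < n ∧ α ≤ Real.log n / L ∧ Real.log n / L ≤ β := by
  rw [Rg, mem_Ioc] at h
  have hn : 0 < n := Nat.zero_lt_of_lt h.1
  rw [le_div_iff₀ hL, div_le_iff₀ hL, ← le_floor_exp hn]
  exact ⟨hn, (not_le.1 fun h' => h.1.not_ge ((le_floor_exp hn).2 h')).le, h.2⟩

lemma Rg_subset {L α β : ℝ} (hL : 0 < L) (h : β ≤ 1) : Rg L α β ⊆ Ioc 0 ⌊Real.exp L⌋₊ :=
  Ioc_subset_Ioc (Nat.zero_le _) (Nat.floor_mono (Real.exp_le_exp.2 (by nlinarith)))

lemma dbl_mono {a b : ArithmeticFunction ℝ} {c κ : ℝ} {k : ℕ} (ha : Typ a c k) (hb : Typ b κ 0)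
    {α β : ℝ} (h0 : 0 ≤ α) (h1 : α ≤ β) (h2 : β ≤ 1) {lam mu g : ℝ → ℝ} (hl : ContDiff ℝ 1 lam)
    (hm : ContDiff ℝ 1 mu) (hg : ContDiff ℝ 1 g)
    (hr : ∀ x, α ≤ x → x ≤ β → 0 ≤ lam x ∧ lam x ≤ mu x ∧ mu x ≤ 1) (n : ℕ) :
    Tendsto (fun L => (∑ q ∈ Rg L α β, a q / q * ∑ u ∈ Rg L (lam (Real.log q / L))
      (mu (Real.log q / L)), b u / u * (g (Real.log q / L) * (1 - Real.log u / L) ^ n)) / L ^ (k + 2))
      atTop (𝓝 (c * κ * ∫ x in α..β, x ^ k / k ! *
        (g x * (((1 - lam x) ^ (n + 1) - (1 - mu x) ^ (n + 1)) / (n + 1))))) := by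
  set G := fun x => g x * (((1 - lam x) ^ (n + 1) - (1 - mu x) ^ (n + 1)) / (n + 1)) with hG
  have hGc : ContDiff ℝ 1 G := by fun_prop (disch := positivity)
  have hG' := hGc.continuous_deriv le_rfl
  obtain ⟨M, hM⟩ := (isCompact_Icc (a := (0 : ℝ)) (b := 1)).exists_bound_of_continuousOn
    (f := fun x => |G x| + |deriv G x| + |g x|)
    ((hGc.continuous.abs.add hG'.abs).add hg.continuous.abs).continuousOn
  have hM' : ∀ x ∈ Set.Icc (0 : ℝ) 1, (|G x| ≤ M ∧ |deriv G x| ≤ M) ∧ |g x| ≤ M := fun x hx => by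
    have := (le_abs_self _).trans (hM x hx)
    have := abs_nonneg (G x); have := abs_nonneg (deriv G x); have := abs_nonneg (g x)
    exact ⟨⟨by linarith, by linarith⟩, by linarith⟩
  have hM0 : 0 ≤ M := (abs_nonneg _).trans (hM' 0 (by simp)).2
  obtain ⟨C1, hC1, k1⟩ := ha.abel
  obtain ⟨C2, hC2, k2⟩ := hb.abel
  obtain ⟨C3, hC3, k3⟩ := ha.upper
  have hκ := hb.c_nonneg
  refine tendsto_of_bound (C := M * (C2 * (n + 1)) * C3 + κ * (C1 * M)) fun L hL => ?_
  have e1 := k1 L α β M G (deriv G) hL h0 h1 h2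
    (fun x => (hGc.differentiable (by simp) x).hasDerivAt) hG' fun x hx => (hM' x hx).1
  have e2 : |∑ q ∈ Rg L α β, a q / q * ∑ u ∈ Rg L (lam (Real.log q / L))
      (mu (Real.log q / L)), b u / u * (g (Real.log q / L) * (1 - Real.log u / L) ^ n) -
      κ * L * ∑ q ∈ Rg L α β, a q / q * G (Real.log q / L)| ≤ M * (C2 * (n + 1)) * LS a L := by
    rw [mul_sum, ← sum_sub_distrib]
    refine (abs_sum_le_sum_abs _ _).trans (le_trans (sum_le_sum
      (g := fun q : ℕ => M * (C2 * (n + 1)) * (a q / q)) fun q hq => ?_) ?_)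
    · obtain ⟨-, h3, h4⟩ := mem_Rg hL hq
      set x := Real.log q / L
      obtain ⟨h5, h6, h7⟩ := hr x h3 h4
      have := k2 L _ _ (n + 1) (fun y => (1 - y) ^ n) (fun y => n * (1 - y) ^ (n - 1) * -1) hL h5 h6 h7
        (fun y => ((hasDerivAt_id y).const_sub 1).fun_pow n) (by fun_prop) fun y hy => by
          have h8 : ∀ m, |(1 - y) ^ m| ≤ 1 := fun m => by
            rw [abs_pow]; exact pow_le_one₀ (abs_nonneg _) (abs_le.2 ⟨by linarith [hy.2], by linarith [hy.1]⟩)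
          refine ⟨(h8 n).trans (by linarith [Nat.cast_nonneg (α := ℝ) n]), ?_⟩
          rw [mul_neg_one, abs_neg, abs_mul, Nat.abs_cast]
          nlinarith [h8 (n - 1), Nat.cast_nonneg (α := ℝ) n]
      simp only [pow_zero, Nat.factorial_zero, Nat.cast_one, div_one, one_mul, mul_one, zero_add,
        pow_one] at this
      rw [intervalIntegral.integral_comp_sub_left (fun y => y ^ n), integral_pow] at this
      have ha0 : 0 ≤ a q / q := div_nonneg (ha.nonneg q) (by positivity)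
      simp only [mul_left_comm _ (g x), ← mul_sum]
      rw [show ∀ s : ℝ, g x * (a q / q * s) - κ * L * (a q / q * G x) = g x * (s - κ * L *
        (((1 - lam x) ^ (n + 1) - (1 - mu x) ^ (n + 1)) / (n + 1))) * (a q / q) from fun s => by
          rw [hG]; ring, abs_mul, abs_mul, abs_of_nonneg ha0]
      gcongr
      exacts [(hM' x ⟨by linarith, by linarith⟩).2, this]
    · rw [← mul_sum]
      exact mul_le_mul_of_nonneg_left (sum_le_sum_of_subset_of_nonneg (Rg_subset hL h2)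
        fun q _ _ => div_nonneg (ha.nonneg q) (by positivity)) (by positivity)
  have e3 := mul_le_mul_of_nonneg_left (k3 L hL.le) (by positivity : 0 ≤ M * (C2 * (n + 1)))
  have e4 := mul_le_mul (show κ * L ≤ κ * (1 + L) by gcongr; linarith) e1 (abs_nonneg _)
    (by positivity)
  rw [← abs_of_nonneg (by positivity : 0 ≤ κ * L), ← abs_mul] at e4
  refine le_trans (le_of_eq ?_) ((abs_add_le _ _).trans ((add_le_add (e2.trans e3) e4).trans_eq
    (by ring)))
  congr 1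
  simp only [Rg]
  ring

lemma dbl {a b : ArithmeticFunction ℝ} {c κ : ℝ} {k : ℕ} (ha : Typ a c k) (hb : Typ b κ 0)
    {α β : ℝ} (h0 : 0 ≤ α) (h1 : α ≤ β) (h2 : β ≤ 1) {lam mu : ℝ → ℝ} (hl : ContDiff ℝ 1 lam)
    (hm : ContDiff ℝ 1 mu) (hr : ∀ x, α ≤ x → x ≤ β → 0 ≤ lam x ∧ lam x ≤ mu x ∧ mu x ≤ 1)
    (d : ℕ) (v : ℕ → ℝ) :
    Tendsto (fun L => (∑ q ∈ Rg L α β, a q / q * ∑ u ∈ Rg L (lam (Real.log q / L))
      (mu (Real.log q / L)), b u / u * ∑ n ∈ range (d + 1),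
        v n * (Real.log q / L) ^ (d - n) * (1 - Real.log u / L) ^ n) / L ^ (k + 2))
      atTop (𝓝 (c * κ / k ! * ∑ n ∈ range (d + 1), v n * ∫ x in α..β, x ^ (k + (d - n)) *
        (((1 - lam x) ^ (n + 1) - (1 - mu x) ^ (n + 1)) / (n + 1)))) := by
  have := tendsto_finsetSum (range (d + 1)) fun n _ => dbl_mono ha hb h0 h1 h2 hl hm
    (g := fun x => v n * x ^ (d - n)) (by fun_prop) hr n
  convert this using 2 with L
  · rw [← sum_div, sum_comm]
    simp only [mul_sum]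
    congr 1
    exact sum_congr rfl fun q _ => sum_comm
  · rw [mul_sum]
    refine sum_congr rfl fun n _ => ?_
    simp only [← intervalIntegral.integral_const_mul]
    congr 1 with x
    ring

end Pool.Agent.Lib.MP_80d0cf_nt.Six
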