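import Pool.Agent.Lib.MP_80d0cf_nt.Six.VorErr
import Pool.Agent.Lib.MP_80d0cf_nt.Six.Dbl

-- part Pool.Agent.Lib.MP_80d0cf_nt.Six.Sieve
section

/-! Removing the squarefree and coprimality conditions. -/

open Finset Filter ArithmeticFunction
open scoped Real

namespace Pool.Agent.Lib.MP_80d0cf_nt.Six

lemma dvd_sum_le {a : ℕ → ℝ} (ha : ∀ n, 0 ≤ a n) {e : ℕ} (he : 0 < e) {k : ℝ} (hk : 0 ≤ k)
    (h : ∀ n, a (e * n) ≤ k * a n) (N : ℕ) :
    ∑ n ∈ Ioc 0 N, a n / n * (if e ∣ n then 1 else 0) ≤ k / e * ∑ n ∈ Ioc 0 N, a n / n := by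
  simp only [mul_ite, mul_one, mul_zero]
  rw [sum_dvd_Ioc he N fun n => a n / n, mul_sum]
  refine (sum_le_sum fun n _ => ?_).trans (sum_le_sum_of_subset_of_nonneg
    (Ioc_subset_Ioc_right (Nat.div_le_self N e)) fun n _ _ => by have := ha n; positivity)
  rw [div_mul_div_comm]; push_cast; gcongr; exact h n

/-- primes in a range -/
def PR (y N : ℕ) : Finset ℕ := (Ioc y N).filter Nat.Prime

lemma PR_prime {y N p : ℕ} (h : p ∈ PR y N) : p.Prime := (mem_filter.1 h).2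

lemma sum_PR_le {y : ℕ} (hy : 0 < y) (N : ℕ) {c : ℝ} (hc : 0 ≤ c) :
    ∑ p ∈ PR y N, c / (p * p : ℕ) ≤ c / y := by
  have h1 := sum_Ioc_inv_sq_le_sub (α := ℝ) hy.ne' (le_max_left y N)
  have h2 : (0 : ℝ) ≤ ((max y N : ℕ) : ℝ)⁻¹ := by positivity
  simp only [div_eq_mul_inv, ← mul_sum]
  gcongr
  refine le_trans (sum_le_sum_of_subset_of_nonneg ((filter_subset _ _).trans
    (Ioc_subset_Ioc_right (le_max_right y N))) fun _ _ _ => by positivity) ?_
  simp only [← sq, Nat.cast_pow]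
  linarith

lemma mem_PR {y N q p : ℕ} (hq : q ∈ Ioc 0 N) (hc : q.Coprime (primorial y)) (hp : p.Prime)
    (h : p ∣ q) : p ∈ PR y N := by
  refine mem_filter.2 ⟨mem_Ioc.2 ⟨not_le.1 fun h' => ?_,
    (Nat.le_of_dvd (mem_Ioc.1 hq).1 h).trans (mem_Ioc.1 hq).2⟩, hp⟩
  exact hp.one_lt.ne' (Nat.eq_one_of_dvd_coprimes hc h (hp.dvd_primorial_iff.2 h'))

lemma copD_le (P k : ℕ) {p : ℕ} (hp : p.Prime) (n : ℕ) :
    ((cop P).pmul (D k)) (p * n) ≤ k * ((cop P).pmul (D k)) n := by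
  rw [pmul_apply, pmul_apply, cop_mul, mul_left_comm]
  exact mul_le_mul (mul_le_of_le_one_left (cop_nonneg _ _) (cop_le_one _ _)) (D_prime_mul_le k hp n)
    (D_nonneg _ _) (cop_nonneg _ _)

lemma copD_nonneg (P k n : ℕ) : 0 ≤ ((cop P).pmul (D k)) n :=
  mul_nonneg (cop_nonneg _ _) (D_nonneg _ _)

lemma copD_sq_le (P k : ℕ) {p : ℕ} (hp : p.Prime) (N : ℕ) :
    ∑ n ∈ Ioc 0 N, ((cop P).pmul (D k)) n / n * (if p * p ∣ n then 1 else 0) ≤
      k ^ 2 / (p * p : ℕ) * ∑ n ∈ Ioc 0 N, ((cop P).pmul (D k)) n / n :=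
  dvd_sum_le (copD_nonneg P k) (Nat.mul_pos hp.pos hp.pos) (by positivity) (fun n => by
    rw [mul_assoc, sq, mul_assoc]
    exact (copD_le P k hp _).trans (by gcongr; exact copD_le P k hp n)) N

/-- the defect -/
noncomputable def del (y N q u : ℕ) : ℝ := ∑ p ∈ PR y N, ((if p ∣ q then 1 else 0) * (1 / p : ℝ) +
  (if p * p ∣ q then 1 else 0) + (if p ∣ q then 1 else 0) * (if p ∣ u then 1 else 0))

lemma del_nonneg (y N q u : ℕ) : 0 ≤ del y N q u := sum_nonneg fun _ _ => by positivity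

lemma sum_del_le {y : ℕ} (hy : 0 < y) (N P h : ℕ) :
    ∑ q ∈ Ioc 0 N, ∑ u ∈ Ioc 0 N, ((cop P).pmul (D 4)) q / q * (cop h u / u) * del y N q u ≤
      24 / y * ((∑ q ∈ Ioc 0 N, ((cop P).pmul (D 4)) q / q) * ∑ u ∈ Ioc 0 N, cop h u / u) := by
  set a := (cop P).pmul (D 4)
  set A := ∑ q ∈ Ioc 0 N, a q / q
  set B := ∑ u ∈ Ioc 0 N, cop h u / u
  have hA : 0 ≤ A := sum_nonneg fun n _ => div_nonneg (copD_nonneg _ _ _) (by positivity)
  have hB : 0 ≤ B := sum_nonneg fun n _ => div_nonneg (cop_nonneg _ _) (by positivity)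
  simp only [del, mul_sum]
  rw [sum_congr rfl fun q _ => sum_comm, sum_comm]
  refine le_trans (sum_le_sum fun p hp => ?_) ((sum_mul _ _ _).symm.trans_le
    (mul_le_mul_of_nonneg_right (sum_PR_le hy N (c := 24) (by norm_num)) (mul_nonneg hA hB)))
  have hp := PR_prime hp
  have hp0 : (0 : ℝ) < p := by exact_mod_cast hp.pos
  have h1 := dvd_sum_le (copD_nonneg P 4) hp.pos (by positivity) (copD_le P 4 hp) N
  have h2 := copD_sq_le P 4 hp N
  have h3 := dvd_sum_le (cop_nonneg h) hp.pos zero_le_one (fun n => by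
    rw [cop_mul]; gcongr; exacts [cop_nonneg _ _, cop_le_one _ _]) N
  calc _ = (∑ q ∈ Ioc 0 N, a q / q * if p ∣ q then 1 else 0) * (1 / p * B) +
        (∑ q ∈ Ioc 0 N, a q / q * if p * p ∣ q then 1 else 0) * B +
        (∑ q ∈ Ioc 0 N, a q / q * if p ∣ q then 1 else 0) *
          ∑ u ∈ Ioc 0 N, cop h u / u * if p ∣ u then 1 else 0 := by
        simp only [B, sum_mul]
        simp only [mul_sum, ← sum_add_distrib]
        exact sum_congr rfl fun q _ => sum_congr rfl fun u _ => by ring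
    _ ≤ (4 : ℕ) / p * A * (1 / p * B) + (4 : ℕ) ^ 2 / (p * p : ℕ) * A * B +
        (4 : ℕ) / p * A * (1 / p * B) := by
        gcongr
        exact sum_nonneg fun n _ => mul_nonneg (div_nonneg (cop_nonneg _ _) (by positivity))
          (by positivity)
    _ = _ := by push_cast; field_simp; ring

lemma one_le_del {y N q u : ℕ} (hq : q ∈ Ioc 0 N) (hc : q.Coprime (primorial y))
    (h : ¬(Squarefree q ∧ u.Coprime q)) : 1 ≤ del y N q u := by
  have key : ∀ p, p.Prime → p ∣ q → (p * p ∣ q ∨ p ∣ u) → 1 ≤ del y N q u := fun p hp h1 h2 => by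
    refine le_trans ?_ (single_le_sum (fun _ _ => by positivity) (mem_PR hq hc hp h1))
    have : (0 : ℝ) ≤ 1 / p := by positivity
    split_ifs <;> first | linarith | tauto
  rw [Nat.squarefree_iff_prime_squarefree, not_and_or] at h
  rcases h with h | h
  · push Not at h
    obtain ⟨p, hp, h⟩ := h
    exact key p hp ((dvd_mul_right p p).trans h) (Or.inl h)
  · obtain ⟨p, hp, h1, h2⟩ := Nat.Prime.not_coprime_iff_dvd.1 h
    exact key p hp h2 (Or.inr h1)

lemma one_sub_sum_le {s : Finset ℕ} {f : ℕ → ℝ} (h : ∀ i ∈ s, 0 ≤ f i ∧ f i ≤ 1) :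
    1 - ∑ i ∈ s, f i ≤ ∏ i ∈ s, (1 - f i) := by
  induction s using Finset.induction_on with
  | empty => simp
  | insert a s ha ih =>
    rw [sum_insert ha, prod_insert ha]
    have h1 := h a (mem_insert_self _ _)
    have h2 := ih fun i hi => h i (mem_insert_of_mem hi)
    have h3 := sum_nonneg fun i hi => (h i (mem_insert_of_mem hi)).1
    nlinarith

lemma phi_div {g : ℕ} (hg : g ≠ 0) : (g.totient : ℝ) / g = ∏ p ∈ g.primeFactors, (1 - 1 / (p : ℝ)) := by
  have := congrArg (fun x : ℚ => (x : ℝ)) (Nat.totient_eq_mul_prod_factors g)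
  push_cast at this
  rw [this, mul_div_cancel_left₀ _ (by exact_mod_cast hg)]
  simp

lemma phi_le_del {y N q g : ℕ} (u : ℕ) (hq : q ∈ Ioc 0 N) (hc : q.Coprime (primorial y))
    (hg : g ∈ q.divisors) : 1 - (g.totient : ℝ) / g ≤ del y N q u := by
  have h1 := one_sub_sum_le (s := g.primeFactors) (f := fun p => 1 / (p : ℝ)) fun p hp =>
    ⟨by positivity, div_le_one_of_le₀ (by exact_mod_cast (Nat.prime_of_mem_primeFactors hp).one_le)
      (by positivity)⟩
  rw [← phi_div (Nat.pos_of_mem_divisors hg).ne'] at h1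
  have h2 : ∀ p ∈ g.primeFactors, p ∣ q := fun p hp =>
    (Nat.dvd_of_mem_primeFactors hp).trans (Nat.dvd_of_mem_divisors hg)
  refine le_trans (b := ∑ p ∈ g.primeFactors, 1 / (p : ℝ)) (by linarith)
    (le_trans (sum_le_sum fun p hp => ?_) (sum_le_sum_of_subset_of_nonneg
      (fun p hp => mem_PR hq hc (Nat.prime_of_mem_primeFactors hp) (h2 p hp))
      fun _ _ _ => by positivity))
  rw [if_pos (h2 p hp), one_mul, add_assoc]
  exact le_add_of_nonneg_right (by positivity)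

lemma psi_shift {L η a x g a' x' g' : ℝ} (hL : 0 ≤ L) (hη : 0 ≤ η) (hη1 : η ≤ 1) (ha : |a| ≤ 1)
    (hx : |x| ≤ 1) (hg : |g| ≤ 1) (h1 : |a' - L * a| ≤ η * L) (h2 : |x' - L * x| ≤ η * L)
    (h3 : |g' - L * g| ≤ η * L) : |Psi a' x' g' - L ^ 2 * Psi a x g| ≤ 51 * η * L ^ 2 := by
  have key : ∀ m s s' : ℝ, |s| ≤ m → |s' - L * s| ≤ m * (η * L) →
      |s' ^ 2 - L ^ 2 * s ^ 2| ≤ 3 * m ^ 2 * η * L ^ 2 := fun m s s' k1 k2 => by
    have hm := (abs_nonneg _).trans k1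
    rw [show s' ^ 2 - L ^ 2 * s ^ 2 = (s' - L * s) * ((s' - L * s) + 2 * L * s) by ring, abs_mul]
    calc _ ≤ m * (η * L) * (m * (1 * L) + 2 * L * m) := by
          gcongr
          refine (abs_add_le _ _).trans (add_le_add (k2.trans (by gcongr)) ?_)
          rw [abs_mul, abs_of_nonneg (by positivity)]; gcongr
      _ = _ := by ring
  rw [abs_le] at ha hx hg h1 h2 h3
  have k1 := abs_le.1 (key 1 a a' (abs_le.2 ha) (abs_le.2 ⟨by linarith, by linarith⟩))
  have k2 := abs_le.1 (key 3 (a + x - g) (a' + x' - g') (abs_le.2 ⟨by linarith, by linarith⟩)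
    (abs_le.2 ⟨by linarith, by linarith⟩))
  have k3 := abs_le.1 (key 2 (a + x) (a' + x') (abs_le.2 ⟨by linarith, by linarith⟩)
    (abs_le.2 ⟨by linarith, by linarith⟩))
  have : 0 ≤ η * L ^ 2 := by positivity
  rw [abs_le, Psi, Psi]
  constructor <;> linarith

lemma psi_le {a x g : ℝ} (ha : 0 ≤ a ∧ a ≤ 1) (hx : 0 ≤ x ∧ x ≤ 1) (hg : 0 ≤ g ∧ g ≤ 1) :
    |Psi a x g| ≤ 6 := by
  have h1 : (a + x - g) ^ 2 ≤ 2 ^ 2 := sq_le_sq' (by linarith) (by linarith)
  have h2 : (a + x) ^ 2 ≤ 2 ^ 2 := sq_le_sq' (by linarith) (by linarith)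
  rw [abs_le, Psi]
  constructor <;> nlinarith [sq_nonneg (a + x - g), sq_nonneg (a + x)]

/-- the optimal profile -/
noncomputable def Qf (x Y : ℝ) : ℝ := Y ^ 2 / 2 - x * Y / 2 + x ^ 2 / 20

lemma Qf_le {x Y : ℝ} (hx : 0 ≤ x ∧ x ≤ 1) (hY : 0 ≤ Y ∧ Y ≤ 1) : |Qf x Y| ≤ 1 := by
  rw [abs_le, Qf]; constructor <;> nlinarith

lemma lg_mem {L : ℝ} (hL : 0 < L) {n : ℕ} (hn : n ∈ Ioc 0 ⌊Real.exp L⌋₊) :
    0 ≤ Real.log n / L ∧ Real.log n / L ≤ 1 :=
  ⟨div_nonneg (Real.log_natCast_nonneg n) hL.le,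
    (div_le_one hL).2 ((le_floor_exp (mem_Ioc.1 hn).1).1 (mem_Ioc.1 hn).2)⟩

lemma div_mem {N q g : ℕ} (hq : q ∈ Ioc 0 N) (hg : g ∈ q.divisors) : g ∈ Ioc 0 N :=
  mem_Ioc.2 ⟨Nat.pos_of_mem_divisors hg, (Nat.divisor_le hg).trans (mem_Ioc.1 hq).2⟩

lemma rho_nonneg (h : ℕ) : 0 ≤ rho h := sum_nonneg fun _ _ => by positivity

lemma Mh_approx {y H h₀ q u : ℕ} {L η : ℝ} (hL : 0 < L) (hη1 : η ≤ 1)
    (hH : Real.log H + Real.log (2 * π) ≤ η * L) (h0 : h₀ ∈ Ioc 0 H) (hq : q ∈ Ioc 0 ⌊Real.exp L⌋₊)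
    (hu : u ∈ Ioc 0 ⌊Real.exp L⌋₊) (hc : q.Coprime (primorial y)) (hc' : h₀.Coprime q) :
    |Mh (h₀ * q) (Real.log (Real.exp L / (2 * π * u))) - rho h₀ * L ^ 2 * ∑ g ∈ q.divisors,
      Psi (1 - Real.log u / L) (Real.log q / L) (Real.log g / L)| ≤
      rho h₀ * L ^ 2 * D 2 q * (51 * η + 6 * del y ⌊Real.exp L⌋₊ q u) := by
  have l1 := Real.log_natCast_nonneg H
  have l2 := Real.log_nonneg (show 1 ≤ 2 * π by linarith [Real.pi_gt_three])
  have hη : 0 ≤ η := by by_contra h; nlinarith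
  have hu0 : (0 : ℝ) < u := by exact_mod_cast (mem_Ioc.1 hu).1
  have hsh : ∀ m ∈ Ioc 0 H, ∀ n : ℕ, 0 < n → |Real.log (m * n : ℕ) - L * (Real.log n / L)| ≤ η * L := by
    intro m hm n hn
    have hm0 : (0 : ℝ) < m := by exact_mod_cast (mem_Ioc.1 hm).1
    have := Real.log_le_log hm0 (show (m : ℝ) ≤ H by exact_mod_cast (mem_Ioc.1 hm).2)
    rw [mul_div_cancel₀ _ hL.ne', Nat.cast_mul, Real.log_mul hm0.ne' (by positivity), add_sub_cancel_right,
      abs_of_nonneg (Real.log_natCast_nonneg m)]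
    linarith
  rw [Mh, Nat.divisors_mul, mul_def, sum_image hc'.mul_injOn_divisors, sum_product, D_two]
  simp only [rho, sum_mul]
  simp only [mul_sum, ← sum_sub_distrib]
  refine (abs_sum_le_sum_abs _ _).trans (sum_le_sum fun g₀ hg₀ => (abs_sum_le_sum_abs _ _).trans
    ((sum_le_card_nsmul _ _ (g₀.totient / g₀ * L ^ 2 * (51 * η + 6 * del y ⌊Real.exp L⌋₊ q u))
      fun g hg => ?_).trans_eq (by rw [nsmul_eq_mul]; ring)))
  have a1 := lg_mem hL hu
  have a2 := lg_mem hL hq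
  have a3 := lg_mem hL (div_mem hq hg)
  have k1 := psi_shift (a' := Real.log (Real.exp L / (2 * π * u))) hL.le hη hη1
    (a := 1 - Real.log u / L) (abs_le.2 ⟨by linarith, by linarith⟩) (abs_le.2 ⟨by linarith, a2.2⟩)
    (abs_le.2 ⟨by linarith, a3.2⟩) (by
      rw [Real.log_div (by positivity) (by positivity), Real.log_mul (by positivity) hu0.ne',
        Real.log_exp, mul_sub, mul_div_cancel₀ _ hL.ne', abs_le]
      constructor <;> linarith)
    (hsh _ h0 _ (mem_Ioc.1 hq).1) (hsh _ (div_mem h0 hg₀) _ (Nat.pos_of_mem_divisors hg))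
  have k2 := psi_le (a := 1 - Real.log u / L) ⟨by linarith, by linarith⟩ a2 a3
  have k3 := phi_le_del u hq hc hg
  have k4 : (g.totient : ℝ) / g ≤ 1 :=
    div_le_one_of_le₀ (by exact_mod_cast Nat.totient_le g) (by positivity)
  rw [Nat.totient_mul ((hc'.coprime_dvd_left (Nat.dvd_of_mem_divisors hg₀)).coprime_dvd_right
    (Nat.dvd_of_mem_divisors hg)), Nat.cast_mul g₀.totient, Nat.cast_mul g₀ g, mul_div_mul_comm] at *
  set A := Psi (Real.log (Real.exp L / (2 * π * u))) (Real.log (h₀ * q : ℕ)) (Real.log (g₀ * g))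
  set B := Psi (1 - Real.log u / L) (Real.log q / L) (Real.log g / L)
  have k5 : (0 : ℝ) ≤ g.totient / g := by positivity
  rw [show g₀.totient / g₀ * (g.totient / g) * A - g₀.totient / g₀ * L ^ 2 * B = g₀.totient / g₀ *
    (g.totient / g * (A - L ^ 2 * B) - L ^ 2 * ((1 - g.totient / g) * B)) by ring, abs_mul,
    abs_of_nonneg (by positivity), mul_assoc]
  gcongr
  refine (abs_sub _ _).trans ?_
  rw [abs_mul, abs_mul, abs_mul, abs_of_nonneg k5, abs_of_nonneg (sq_nonneg L),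
    abs_of_nonneg (sub_nonneg.2 k4)]
  calc _ ≤ 1 * (51 * η * L ^ 2) + L ^ 2 * (del y ⌊Real.exp L⌋₊ q u * 6) := by
        have := del_nonneg y ⌊Real.exp L⌋₊ q u
        gcongr
    _ = _ := by ring

/-- the coefficient -/
noncomputable def gam (L : ℝ) (i : ℕ × ℕ × ℕ) : ℝ :=
  rho i.1 * D 2 i.2.1 * L ^ 2 * Qf (Real.log i.2.1 / L) (1 - Real.log i.2.2 / L)

/-- the true term -/
noncomputable def tm (ε L : ℝ) (h₀ q u : ℕ) : ℝ :=
  4 * (gam L (h₀, q, u) * Mh (h₀ * q) (Real.log (Real.exp L / (2 * π * u))) / ((h₀ * q : ℕ) * u)) -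
    (2 + ε) * (gam L (h₀, q, u) ^ 2 / ((h₀ * q : ℕ) * u))

/-- the model term -/
noncomputable def md (ε L : ℝ) (q u : ℕ) : ℝ :=
  4 * Qf (Real.log q / L) (1 - Real.log u / L) * ∑ g ∈ q.divisors, D 2 g * D 2 (q / g) *
    Psi (1 - Real.log u / L) (Real.log q / L) (Real.log g / L) -
  (2 + ε) * Qf (Real.log q / L) (1 - Real.log u / L) ^ 2 * D 4 q

lemma D_four (q : ℕ) : D 4 q = ∑ g ∈ q.divisors, D 2 g * D 2 (q / g) := by
  rw [show 4 = 2 + 2 from rfl, D_add, mul_apply, Nat.sum_divisorsAntidiagonal fun a b => D 2 a * D 2 b]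

lemma md_le {ε L : ℝ} (hε : 0 ≤ ε) (hL : 0 < L) {q u : ℕ} (hq : q ∈ Ioc 0 ⌊Real.exp L⌋₊)
    (hu : u ∈ Ioc 0 ⌊Real.exp L⌋₊) : md ε L q u ≤ D 4 q * 24 := by
  have a1 := lg_mem hL hu
  have a2 := lg_mem hL hq
  have h1 := Qf_le a2 (Y := 1 - Real.log u / L) ⟨by linarith, by linarith⟩
  have h2 : |∑ g ∈ q.divisors, D 2 g * D 2 (q / g) *
      Psi (1 - Real.log u / L) (Real.log q / L) (Real.log g / L)| ≤ D 4 q * 6 := by
    rw [D_four, sum_mul]
    refine (abs_sum_le_sum_abs _ _).trans (sum_le_sum fun g hg => ?_)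
    have := mul_nonneg (D_nonneg 2 g) (D_nonneg 2 (q / g))
    rw [abs_mul, abs_of_nonneg this]
    gcongr
    exact psi_le ⟨by linarith, by linarith⟩ a2 (lg_mem hL (div_mem hq hg))
  have h3 := (le_abs_self _).trans ((abs_mul _ _).trans_le (mul_le_mul h1 h2 (abs_nonneg _) zero_le_one))
  have := D_nonneg 4 q
  have : 0 ≤ (2 + ε) * Qf (Real.log q / L) (1 - Real.log u / L) ^ 2 * D 4 q := by positivity
  rw [md]; linarith

lemma tm_ge {y H h₀ q u : ℕ} (ε : ℝ) {L η : ℝ} (hL : 0 < L) (hη1 : η ≤ 1)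
    (hH : Real.log H + Real.log (2 * π) ≤ η * L) (h0 : h₀ ∈ Ioc 0 H) (hq : q ∈ Ioc 0 ⌊Real.exp L⌋₊)
    (hu : u ∈ Ioc 0 ⌊Real.exp L⌋₊) (hc : q.Coprime (primorial y)) (hc' : h₀.Coprime q)
    (hs : Squarefree q) : rho h₀ ^ 2 / h₀ * L ^ 4 * (1 / q * (1 / u) *
      (md ε L q u - D 4 q * (204 * η + 24 * del y ⌊Real.exp L⌋₊ q u))) ≤ tm ε L h₀ q u := by
  have a1 := lg_mem hL hu
  have h1 := Qf_le (lg_mem hL hq) (Y := 1 - Real.log u / L) ⟨by linarith, by linarith⟩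
  have h2 := Mh_approx hL hη1 hH h0 hq hu hc hc'
  have h3 := (neg_le_abs _).trans ((abs_mul _ _).trans_le (mul_le_mul h1 h2 (abs_nonneg _) zero_le_one))
  have h4 : (0 : ℝ) < h₀ := by exact_mod_cast (mem_Ioc.1 h0).1
  have h5 : (0 : ℝ) < q := by exact_mod_cast (mem_Ioc.1 hq).1
  have h6 : (0 : ℝ) < u := by exact_mod_cast (mem_Ioc.1 hu).1
  have h7 := mul_le_mul_of_nonneg_left h3 (show 0 ≤ 4 * (rho h₀ * D 2 q * L ^ 2) / (h₀ * q * u) by
    have := rho_nonneg h₀; have := D_nonneg 2 q; positivity)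
  rw [md, tm, gam, sum_congr rfl fun g hg => by
    have h3 := Nat.mul_div_cancel' (Nat.dvd_of_mem_divisors hg)
    rw [← (D_mult 2).2 (Nat.coprime_of_squarefree_mul (h3.symm ▸ hs)), h3], ← mul_sum,
    ← D_mul_D hs 2 2]
  push_cast
  refine sub_nonneg.1 ((sub_nonneg.2 h7).trans_eq ?_)
  field_simp
  ring

theorem sieve_B {y K H h₀ : ℕ} (hy : 0 < y) {ε L η : ℝ} (hε : 0 ≤ ε) (hL : 0 < L) (hη : 0 ≤ η)
    (hη1 : η ≤ 1) (hH : Real.log H + Real.log (2 * π) ≤ η * L) (h0 : h₀ ∈ Ioc 0 H)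
    (hK : h₀ ∣ primorial y ^ K) {r : Finset (ℕ × ℕ)}
    (hr : r ⊆ Ioc 0 ⌊Real.exp L⌋₊ ×ˢ Ioc 0 ⌊Real.exp L⌋₊) :
    rho h₀ ^ 2 / h₀ * L ^ 4 * (∑ p ∈ r, cop (primorial y) p.1 / p.1 * (cop h₀ p.2 / p.2) * md ε L p.1 p.2 -
      (204 * η + 576 / y) * (LS ((cop (primorial y)).pmul (D 4)) L * LS (cop h₀) L)) ≤
    ∑ p ∈ r with Squarefree p.1 ∧ p.1.Coprime (primorial y) ∧ p.2.Coprime (h₀ * p.1),
      tm ε L h₀ p.1 p.2 := by
  set N := ⌊Real.exp L⌋₊
  set a := (cop (primorial y)).pmul (D 4)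
  have hρ : 0 ≤ rho h₀ ^ 2 / h₀ * L ^ 4 := by positivity
  calc _ ≤ rho h₀ ^ 2 / h₀ * L ^ 4 * ∑ p ∈ r, (cop (primorial y) p.1 / p.1 * (cop h₀ p.2 / p.2) *
        md ε L p.1 p.2 - a p.1 / p.1 * (cop h₀ p.2 / p.2) * (204 * η + 24 * del y N p.1 p.2)) := by
        rw [sum_sub_distrib]
        gcongr
        refine (sum_le_sum_of_subset_of_nonneg hr fun p _ _ => by
          have := copD_nonneg (primorial y) 4 p.1; have := cop_nonneg h₀ p.2
          have := del_nonneg y N p.1 p.2; positivity).trans ?_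
        have := sum_del_le hy N (primorial y) h₀
        simp only [sum_product, mul_add, sum_add_distrib, mul_left_comm _ (24 : ℝ), ← mul_sum,
          ← sum_mul] at this ⊢
        rw [LS, LS, show (576 : ℝ) / y = 24 * (24 / y) by ring]
        linarith
    _ ≤ _ := by
        rw [mul_sum, sum_filter]
        refine sum_le_sum fun p hp => ?_
        obtain ⟨hq, hu⟩ := mem_product.1 (hr hp)
        by_cases h1 : p.1.Coprime (primorial y) ∧ p.2.Coprime h₀
        · have e1 : cop (primorial y) p.1 = 1 := by simp [cop_apply, h1.1, (mem_Ioc.1 hq).1.ne']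
          have e2 : cop h₀ p.2 = 1 := by simp [cop_apply, h1.2, (mem_Ioc.1 hu).1.ne']
          simp only [a, pmul_apply, e1, e2, one_mul]
          split_ifs with h2
          · refine le_trans (le_of_eq ?_) (tm_ge ε hL hη1 hH h0 hq hu h1.1
              ((h1.1.pow_right K).coprime_dvd_right hK).symm h2.1)
            ring
          · have h3 := one_le_del (u := p.2) hq h1.1 fun h => h2 ⟨h.1, h1.1, h1.2.mul_right h.2⟩
            have h4 := md_le hε hL hq hu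
            have h5 := D_nonneg 4 p.1
            refine mul_nonpos_of_nonneg_of_nonpos hρ (le_trans (le_of_eq (b := 1 / p.1 * (1 / p.2) *
              (md ε L p.1 p.2 - D 4 p.1 * (204 * η + 24 * del y N p.1 p.2))) (by ring))
              (mul_nonpos_of_nonneg_of_nonpos (by positivity) ?_))
            nlinarith
        · rw [if_neg fun h => h1 ⟨h.2.1, h.2.2.coprime_mul_right_right⟩]
          rcases not_and_or.1 h1 with h | h <;> simp [a, cop_apply, h]

lemma split_inj {P K a b c d : ℕ} (ha : a ∣ P ^ K) (hc : c ∣ P ^ K) (hb : b.Coprime P)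
    (hd : d.Coprime P) (ha0 : 0 < a) (h : a * b = c * d) : a = c ∧ b = d := by
  have : a = c := Nat.dvd_antisymm
    (((hd.pow_right K).coprime_dvd_right ha).symm.dvd_of_dvd_mul_right (h ▸ dvd_mul_right a b))
    (((hb.pow_right K).coprime_dvd_right hc).symm.dvd_of_dvd_mul_right (h ▸ dvd_mul_right c d))
  subst this
  exact ⟨rfl, Nat.eq_of_mul_eq_mul_left ha0 h⟩

theorem sieve_A {y : ℕ} (hy : 0 < y) (K : ℕ) (l : ℝ) :
    (∑ n ∈ (primorial y ^ K).divisors, D 3 n ^ 2 / n) *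
      ((1 - 81 / y) * LS ((cop (primorial y)).pmul (D 9)) l) ≤
    ∑ n ∈ Ioc 0 (primorial y ^ K * ⌊Real.exp l⌋₊), D 3 n ^ 2 / n := by
  set N := ⌊Real.exp l⌋₊
  set P := primorial y
  set a := (cop P).pmul (D 9)
  set s := (Ioc 0 N).filter fun n => Squarefree n ∧ n.Coprime P
  have h1 : (1 - 81 / y) * LS a l ≤ ∑ n ∈ s, D 3 n ^ 2 / n := by
    have h2 : ∑ n ∈ Ioc 0 N, a n / n * ∑ p ∈ PR y N, (if p * p ∣ n then 1 else 0) ≤
        81 / y * LS a l := by
      simp only [mul_sum]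
      rw [sum_comm]
      refine le_trans (sum_le_sum fun p hp => copD_sq_le P 9 (PR_prime hp) N) ?_
      rw [← sum_mul]
      exact mul_le_mul_of_nonneg_right ((sum_PR_le hy N (by positivity)).trans_eq (by norm_num))
        (LS_nonneg (copD_nonneg _ _) _)
    rw [sub_mul, one_mul, sum_filter]
    refine le_trans (sub_le_sub_left h2 _) ?_
    rw [LS, ← sum_sub_distrib]
    refine sum_le_sum fun n hn => ?_
    have h3 : 0 ≤ a n / n := div_nonneg (copD_nonneg _ _ _) (by positivity)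
    by_cases hc : n.Coprime P
    · split_ifs with h
      · rw [sq, D_mul_D h.1]
        have : a n = D 9 n := by simp [a, cop_apply, hc, (mem_Ioc.1 hn).1.ne']
        rw [← this]
        exact sub_le_self _ (by positivity)
      · replace h : ¬Squarefree n := fun h' => h ⟨h', hc⟩
        rw [Nat.squarefree_iff_prime_squarefree] at h
        push Not at h
        obtain ⟨p, hp, h⟩ := h
        have := single_le_sum (f := fun p => if p * p ∣ n then (1 : ℝ) else 0) (fun _ _ => by positivity)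
          (mem_PR hn hc hp ((dvd_mul_right p p).trans h))
        rw [if_pos h] at this
        nlinarith
    · simp [a, cop_apply, hc]
  refine (mul_le_mul_of_nonneg_left h1 (by positivity)).trans ?_
  rw [sum_mul_sum, ← sum_product']
  refine le_trans (le_of_eq ?_) (sum_le_sum_of_subset_of_nonneg (s := ((P ^ K).divisors ×ˢ s).image
    fun p => p.1 * p.2) (fun n hn => ?_) fun _ _ _ => by positivity)
  · rw [sum_image fun p hp p' hp' h => ?_]
    · refine sum_congr rfl fun p hp => ?_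
      simp only [s, mem_product, mem_filter] at hp
      rw [(D_mult 3).2 ((hp.2.2.2.pow_right K).coprime_dvd_right (Nat.dvd_of_mem_divisors hp.1)).symm]
      push_cast; ring
    · simp only [s, coe_product, Set.mem_prod, mem_coe, mem_filter] at hp hp'
      exact Prod.ext_iff.2 (split_inj (Nat.dvd_of_mem_divisors hp.1) (Nat.dvd_of_mem_divisors hp'.1)
        hp.2.2.2 hp'.2.2.2 (Nat.pos_of_mem_divisors hp.1) h)
  · obtain ⟨p, hp, rfl⟩ := mem_image.1 hn
    simp only [s, mem_product, mem_filter, mem_Ioc] at hp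
    exact mem_Ioc.2 ⟨Nat.mul_pos (Nat.pos_of_mem_divisors hp.1) hp.2.1.1,
      Nat.mul_le_mul (Nat.divisor_le hp.1) hp.2.1.2⟩

end Pool.Agent.Lib.MP_80d0cf_nt.Six
end

-- part Pool.Agent.Lib.MP_80d0cf_nt.Six.Local
section

/-! Local factors and the arithmetic constant. -/

open Finset Filter ArithmeticFunction Topology
open scoped ArithmeticFunction.zeta

namespace Pool.Agent.Lib.MP_80d0cf_nt.Six

/-- the local factor -/
noncomputable def lf (p : ℕ) : ℝ := (1 - (p : ℝ)⁻¹) ^ 4 * (1 + 4 * (p : ℝ)⁻¹ + ((p : ℝ) ^ 2)⁻¹)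

lemma tendsto_local (f : ℕ → ℝ) (h0 : f 0 = 0) (h1 : f 1 = 1)
    (hm : ∀ m n : ℕ, m.Coprime n → f (m * n) = f m * f n) (y m : ℕ)
    (h : ∀ p : ℕ, p.Prime → HasSum (fun k => (1 - (p : ℝ)⁻¹) ^ m * f (p ^ k)) (lf p)) :
    Tendsto (fun K => (((primorial y).totient : ℝ) / primorial y) ^ m *
      ∑ d ∈ (primorial y ^ K).divisors, f d) atTop (𝓝 (∏ p ∈ Nat.primesLE y, lf p)) := by
  let F : ArithmeticFunction ℝ := ⟨f, h0⟩
  have hf : F.IsMultiplicative := ⟨h1, fun h => hm _ _ h⟩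
  refine (tendsto_finsetProd _ fun p hp => ((h p (Nat.prime_of_mem_primesLE hp)).tendsto_sum_nat.comp
    (tendsto_add_atTop_nat 1))).congr fun K => ?_
  rw [phi_div (primorial_ne_zero y), primeFactors_primorial]
  change _ = _ * ∑ d ∈ _, F d
  rw [← coe_mul_zeta_apply,
    primorial_eq_prod_primesLE, ← prod_pow, ← prod_pow,
    (hf.mul isMultiplicative_zeta.natCast).map_prod _ _ fun p hp q hq hpq =>
      Nat.Coprime.pow _ _ ((Nat.coprime_primes (Nat.prime_of_mem_primesLE hp)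
        (Nat.prime_of_mem_primesLE hq)).2 hpq), ← prod_mul_distrib]
  refine prod_congr rfl fun p hp => ?_
  rw [coe_mul_zeta_apply, Nat.sum_divisors_prime_pow (Nat.prime_of_mem_primesLE hp), mul_sum, one_div]
  rfl

lemma hasSum_ch {p : ℕ} (hp : p.Prime) (j : ℕ) : HasSum (fun k : ℕ =>
    ((k + j).descFactorial j : ℝ) * (p : ℝ)⁻¹ ^ k) (j.factorial / (1 - (p : ℝ)⁻¹) ^ (j + 1)) := by
  have h1 : (1 : ℝ) < p := by exact_mod_cast hp.one_lt
  have := (hasSum_choose_mul_geometric_of_norm_lt_one j (r := (p : ℝ)⁻¹) (by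
    rw [Real.norm_of_nonneg (by positivity)]; exact inv_lt_one_of_one_lt₀ h1)).mul_left
    (j.factorial : ℝ)
  rw [mul_one_div] at this
  convert! this using 2
  rw [Nat.descFactorial_eq_factorial_mul_choose]; push_cast; ring

lemma inv_ne {p : ℕ} (hp : p.Prime) : 1 - (p : ℝ)⁻¹ ≠ 0 :=
  (sub_pos.2 (inv_lt_one_of_one_lt₀ (by exact_mod_cast hp.one_lt))).ne'

lemma tendsto_RA (y : ℕ) : Tendsto (fun K => (((primorial y).totient : ℝ) / primorial y) ^ 9 *
    ∑ d ∈ (primorial y ^ K).divisors, D 3 d ^ 2 / d) atTop (𝓝 (∏ p ∈ Nat.primesLE y, lf p)) := by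
  refine tendsto_local (fun d => D 3 d ^ 2 / d) (by simp) (by simp [D_apply_one])
    (fun m n h => by rw [(D_mult 3).2 h]; push_cast; ring) y 9 fun p hp => ?_
  have := ((((hasSum_ch hp 4).mul_left (1 / 4)).sub (hasSum_ch hp 3)).add
    ((hasSum_ch hp 2).mul_left (1 / 2))).mul_left ((1 - (p : ℝ)⁻¹) ^ 9)
  have h := inv_ne hp
  convert! this using 2 with k
  · simp only [D_three_prime_pow hp, Nat.descFactorial, Nat.add_sub_assoc, Nat.reduceLeDiff]
    push_cast; ring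
  · rw [lf, ← inv_pow]
    generalize (p : ℝ)⁻¹ = r at *
    simp only [Nat.factorial]; field_simp; ring

lemma rho_prime_pow {p : ℕ} (hp : p.Prime) (k : ℕ) : rho (p ^ k) = 1 + k * (1 - (p : ℝ)⁻¹) ∧
    ((p ^ (k + 1)).totient : ℝ) / (p ^ (k + 1) : ℕ) = 1 - (p : ℝ)⁻¹ := by
  have h : ∀ k, ((p ^ (k + 1)).totient : ℝ) / (p ^ (k + 1) : ℕ) = 1 - (p : ℝ)⁻¹ := fun k => by
    rw [phi_div (pow_ne_zero _ hp.ne_zero), Nat.primeFactors_prime_pow k.succ_ne_zero hp,
      prod_singleton, one_div]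
  rw [rho, Nat.sum_divisors_prime_pow hp, sum_range_succ', sum_congr rfl fun k _ => h k]
  exact ⟨by simp; ring, h k⟩

lemma rho_mul {m n : ℕ} (h : m.Coprime n) : rho (m * n) = rho m * rho n := by
  rw [rho, Nat.divisors_mul, mul_def, sum_image h.mul_injOn_divisors, sum_product, rho, rho, sum_mul_sum]
  refine sum_congr rfl fun a ha => sum_congr rfl fun b hb => ?_
  rw [Nat.totient_mul ((h.coprime_dvd_left (Nat.dvd_of_mem_divisors ha)).coprime_dvd_right
    (Nat.dvd_of_mem_divisors hb))]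
  push_cast; ring

lemma tendsto_RB (y : ℕ) : Tendsto (fun K => (((primorial y).totient : ℝ) / primorial y) ^ 4 *
    ∑ d ∈ (primorial y ^ K).divisors, rho d ^ 2 / d * (d.totient / d)) atTop
    (𝓝 (∏ p ∈ Nat.primesLE y, lf p)) := by
  refine tendsto_local (fun d => rho d ^ 2 / d * (d.totient / d)) (by simp) (by simp [rho])
    (fun m n h => by rw [rho_mul h, Nat.totient_mul h]; push_cast; ring) y 4 fun p hp => ?_
  set r := (p : ℝ)⁻¹ with hr
  have := (((((hasSum_ch hp 2).mul_left ((1 - r) ^ 2)).add ((hasSum_ch hp 1).mul_left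
    (2 * (1 - r) - 3 * (1 - r) ^ 2))).add ((hasSum_ch hp 0).mul_left (r ^ 2))).mul_left
    (1 - r)).add (hasSum_ite_eq 0 r) |>.mul_left ((1 - r) ^ 4)
  have h := inv_ne hp
  convert! this using 2 with k
  · simp only [(rho_prime_pow hp _).1, Nat.descFactorial, Nat.add_sub_assoc, Nat.reduceLeDiff]
    rcases k with _ | k
    · simp only [← hr]; simp; ring
    · rw [(rho_prime_pow hp k).2, if_neg k.succ_ne_zero, div_eq_mul_inv, Nat.cast_pow, ← inv_pow]
      simp only [← hr]; push_cast; ring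
  · rw [lf, ← inv_pow]
    simp only [Nat.factorial, ← hr] at *; field_simp; ring

lemma lf_mem {p : ℕ} (hp : p.Prime) : 0 < lf p ∧ lf p ≤ 1 ∧ |lf p - 1| ≤ 9 * (p : ℝ) ^ (-2 : ℝ) := by
  have h1 : (0 : ℝ) < (p : ℝ)⁻¹ := by have := hp.pos; positivity
  have h2 : (p : ℝ)⁻¹ < 1 := inv_lt_one_of_one_lt₀ (by exact_mod_cast hp.one_lt)
  rw [Real.rpow_neg (by positivity), Real.rpow_two, lf, ← inv_pow]
  generalize (p : ℝ)⁻¹ = r at *
  have h3 : 0 < 1 - r := by linarith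
  have e : (1 - r) ^ 4 * (1 + 4 * r + r ^ 2) = 1 - r ^ 2 * (9 - 16 * r + 9 * r ^ 2 - r ^ 4) := by ring
  have h4 : r ^ 4 ≤ r ^ 2 := pow_le_pow_of_le_one h1.le h2.le (by norm_num)
  have h5 : 0 ≤ r ^ 2 * (9 - 16 * r + 9 * r ^ 2 - r ^ 4) := by
    have : 0 ≤ 9 - 16 * r + 9 * r ^ 2 - r ^ 4 := by nlinarith [sq_nonneg (1 - r)]
    positivity
  have h6 : r ^ 2 * (9 - 16 * r + 9 * r ^ 2 - r ^ 4) ≤ r ^ 2 * 9 := by
    gcongr; nlinarith [pow_pos h1 4]
  refine ⟨by positivity, by linarith, ?_⟩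
  rw [e, abs_le]; constructor <;> linarith

lemma summable_lf : Summable fun p : Nat.Primes => ‖lf p - 1‖ :=
  ((Nat.Primes.summable_rpow.2 (show (-2 : ℝ) < -1 by norm_num)).mul_left 9).of_nonneg_of_le
    (fun _ => norm_nonneg _) fun p => (lf_mem p.2).2.2

lemma multipliable_lf : Multipliable fun p : Nat.Primes => lf p := by
  simpa using multipliable_one_add_of_summable summable_lf

lemma a3_pos : 0 < ∏' p : Nat.Primes, lf p := by
  refine lt_of_le_of_ne (ge_of_tendsto' multipliable_lf.hasProd fun s =>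
    prod_nonneg fun p _ => (lf_mem p.2).1.le) (Ne.symm ?_)
  simpa using tprod_one_add_ne_zero_of_summable (fun p => by simpa using (lf_mem p.2).1.ne') summable_lf

lemma a3_le (y : ℕ) : ∏' p : Nat.Primes, lf p ≤ ∏ p ∈ Nat.primesLE y, lf p := by
  rw [← prod_subtype_of_mem lf (p := Nat.Prime) fun p hp => Nat.prime_of_mem_primesLE hp]
  refine le_of_tendsto multipliable_lf.hasProd ((eventually_ge_atTop
    (show Finset Nat.Primes from (Nat.primesLE y).subtype Nat.Prime)).mono fun s hs => ?_)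
  exact prod_le_prod_of_subset_of_le_one hs (fun p _ => (lf_mem p.2).1.le) fun p _ _ => (lf_mem p.2).2.1

end Pool.Agent.Lib.MP_80d0cf_nt.Six
end

-- part Pool.Agent.Lib.MP_80d0cf_nt.Six.Limit
section

/-! The limit of the model sums over the regions. -/

open Finset Filter ArithmeticFunction Topology
open scoped Nat

namespace Pool.Agent.Lib.MP_80d0cf_nt.Six

/-- a region of pairs -/
noncomputable def RR (L α β : ℝ) (lam mu : ℝ → ℝ) : Finset (ℕ × ℕ) :=
  (Rg L α β).biUnion fun q => (Rg L (lam (Real.log q / L)) (mu (Real.log q / L))).image fun u => (q, u)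

lemma mem_RR {L α β : ℝ} {lam mu : ℝ → ℝ} (p : ℕ × ℕ) : p ∈ RR L α β lam mu ↔ p.1 ∈ Rg L α β ∧
    p.2 ∈ Rg L (lam (Real.log p.1 / L)) (mu (Real.log p.1 / L)) := by
  obtain ⟨q, u⟩ := p
  simp only [RR, mem_biUnion, mem_image, Prod.mk.injEq]
  exact ⟨fun ⟨a, h1, b, h2, h3, h4⟩ => by subst h3 h4; exact ⟨h1, h2⟩,
    fun h => ⟨q, h.1, u, h.2, rfl, rfl⟩⟩

/-- the basic integrals -/
noncomputable def In (α β : ℝ) (lam mu : ℝ → ℝ) (n : ℕ) : ℝ :=
  ∫ x in α..β, x ^ (7 - n) * (((1 - lam x) ^ (n + 1) - (1 - mu x) ^ (n + 1)) / (n + 1))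

/-- the limiting integral -/
noncomputable def JJ (α β : ℝ) (lam mu : ℝ → ℝ) : ℝ := In α β lam mu 0 / 2400 - In α β lam mu 1 / 120 +
  In α β lam mu 2 / 20 - In α β lam mu 3 / 12 + In α β lam mu 4 / 24

lemma conv_apply (P q : ℕ) (f : ArithmeticFunction ℝ) (j : ℕ)
    (hf : ∀ g, f g = cop P g * D 2 g * Real.log g ^ j) : (f * cop P * cop P) q =
    cop P q * ∑ g ∈ q.divisors, D 2 g * D 2 (q / g) * Real.log g ^ j := by
  have e : cop P * cop P = (cop P).pmul (D 2) := by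
    rw [show 2 = 1 + 1 from rfl, D_add, pmul_cop_mul, pmul_cop_D_one]
  rw [mul_assoc, e, mul_apply, Nat.sum_divisorsAntidiagonal fun a b => f a * ((cop P).pmul (D 2)) b,
    mul_sum]
  refine sum_congr rfl fun g hg => ?_
  conv_rhs => rw [← Nat.mul_div_cancel' (Nat.dvd_of_mem_divisors hg), cop_mul,
    Nat.mul_div_cancel' (Nat.dvd_of_mem_divisors hg)]
  rw [hf, pmul_apply]; ring

lemma tendsto_md {P h : ℕ} (hP : P ≠ 0) (hh : h ≠ 0) (ε : ℝ) {α β : ℝ} (h0 : 0 ≤ α) (h1 : α ≤ β)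
    (h2 : β ≤ 1) {lam mu : ℝ → ℝ} (hl : ContDiff ℝ 1 lam) (hm : ContDiff ℝ 1 mu)
    (hr : ∀ x, α ≤ x → x ≤ β → 0 ≤ lam x ∧ lam x ≤ mu x ∧ mu x ≤ 1) :
    Tendsto (fun L => (∑ p ∈ RR L α β lam mu, cop P p.1 / p.1 * (cop h p.2 / p.2) * md ε L p.1 p.2) /
      L ^ 5) atTop (𝓝 ((P.totient / P) ^ 4 * (h.totient / h) * ((2 - ε) * JJ α β lam mu))) := by
  have t := typ_copD hP 1
  have c := typ_cop hP
  have := ((dbl ((t.conv c).conv c) (typ_cop hh) h0 h1 h2 hl hm hr 4 fun n => [-1 / 5 - (2 + ε) / 400,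
    8 / 5 + (2 + ε) / 20, 21 / 10 - (2 + ε) * 3 / 10, -5 + (2 + ε) / 2, 1 - (2 + ε) / 4].getD n 0).add
    (dbl ((t.log.conv c).conv c) (typ_cop hh) h0 h1 h2 hl hm hr 3 fun n =>
      [3 / 5, -27 / 5, 0, 6].getD n 0)).add
    (dbl ((t.log.log.conv c).conv c) (typ_cop hh) h0 h1 h2 hl hm hr 2 fun n =>
      [-3 / 10, 3, -3].getD n 0)
  convert! this.congr' ?_ using 2
  · simp only [JJ, In, sum_range_succ, range_zero, sum_empty, Nat.factorial]
    norm_num
    ring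
  · filter_upwards [eventually_gt_atTop 0] with L hL
    rw [sum_finset_product' _ _ (fun q : ℕ => Rg L (lam (Real.log q / L)) (mu (Real.log q / L))) mem_RR
      (f := fun q u => cop P q / q * (cop h u / u) * md ε L q u)]
    simp only [sum_div, mul_sum (Rg _ _ _), ← sum_add_distrib]
    refine sum_congr rfl fun q _ => sum_congr rfl fun u _ => ?_
    rw [conv_apply P q _ 0 fun g => by simp, conv_apply P q _ 1 fun g => by simp [log_apply],
      conv_apply P q _ 2 fun g => by simp [log_apply]; ring, md, D_four]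
    generalize Real.log q / L = x
    generalize 1 - Real.log u / L = Y
    have e : ∑ g ∈ q.divisors, D 2 g * D 2 (q / g) * Psi Y x (Real.log g / L) =
        (Y ^ 2 / 2 - 2 * x * Y - x ^ 2) * ∑ g ∈ q.divisors, D 2 g * D 2 (q / g) +
        3 * (Y + x) / L * ∑ g ∈ q.divisors, D 2 g * D 2 (q / g) * Real.log g ^ 1 -
        3 / 2 / L ^ 2 * ∑ g ∈ q.divisors, D 2 g * D 2 (q / g) * Real.log g ^ 2 := by
      simp only [mul_sum, ← sum_add_distrib, ← sum_sub_distrib]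
      exact sum_congr rfl fun g _ => by rw [Psi]; ring
    rw [e]
    simp only [pow_zero, mul_one, sum_range_succ, range_zero, sum_empty, Qf]
    norm_num
    field_simp
    ring

lemma JJ_eq (α β : ℝ) {lam mu : ℝ → ℝ} (hl : Continuous lam) (hm : Continuous mu) (c : ℕ → ℝ)
    (h : ∀ x, x ^ 7 * (mu x - lam x) / 2400 - x ^ 6 * ((1 - lam x) ^ 2 - (1 - mu x) ^ 2) / 240 +
      x ^ 5 * ((1 - lam x) ^ 3 - (1 - mu x) ^ 3) / 60 - x ^ 4 * ((1 - lam x) ^ 4 - (1 - mu x) ^ 4) / 48 +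
      x ^ 3 * ((1 - lam x) ^ 5 - (1 - mu x) ^ 5) / 120 = ∑ i ∈ range 9, c i * x ^ i) :
    JJ α β lam mu = ∑ i ∈ range 9, c i * ((β ^ (i + 1) - α ^ (i + 1)) / (i + 1)) := by
  simp only [← integral_pow, ← intervalIntegral.integral_const_mul]
  simp only [JJ, In, ← intervalIntegral.integral_div]
  rw [← intervalIntegral.integral_sub, ← intervalIntegral.integral_add, ← intervalIntegral.integral_sub,
    ← intervalIntegral.integral_add, ← intervalIntegral.integral_finsetSum]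
  · congr 1 with x
    rw [← h]; norm_num; ring
  · exact fun i _ => Continuous.intervalIntegrable (by fun_prop) _ _
  all_goals exact Continuous.intervalIntegrable (by fun_prop) _ _

lemma JJ_val (t : ℝ) : 9 ! * (JJ 0 (t / 2) (fun _ => 0) (fun x => x) +
    JJ (t / 2) (3 * t / 5) (fun x => x - t / 2) fun x => t - 3 / 2 * x) =
    616707 / 5000 * t ^ 5 - 10090773 / 50000 * t ^ 6 + 16010811 / 125000 * t ^ 7 -
      5988000303 / 160000000 * t ^ 8 + 17357025381 / 4000000000 * t ^ 9 := by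
  rw [JJ_eq _ _ (by fun_prop) (by fun_prop) fun i =>
      [0, 0, 0, 0, 1 / 24, -1 / 6, 31 / 120, -11 / 60, 121 / 2400].getD i 0,
    JJ_eq _ _ (by fun_prop) (by fun_prop) fun i => [0, 0, 0,
      1 / 16 * t - 1 / 16 * t ^ 2 + 3 / 32 * t ^ 3 - 5 / 128 * t ^ 4 + 11 / 1280 * t ^ 5,
      -5 / 48 + 1 / 24 * t - 11 / 32 * t ^ 2 + 13 / 96 * t ^ 3 - 35 / 768 * t ^ 4,
      5 / 48 + 41 / 80 * t - 1 / 10 * t ^ 2 + 49 / 480 * t ^ 3,
      -1 / 3 - 29 / 240 * t - 131 / 960 * t ^ 2, 59 / 384 + 1171 / 9600 * t, -107 / 1920].getD i 0]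
  all_goals
    simp only [sum_range_succ, range_zero, sum_empty, Nat.factorial]
    norm_num
    intros
    ring

end Pool.Agent.Lib.MP_80d0cf_nt.Six
end
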