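import Mathlib

/-! The pointwise inequality. -/

open Complex
open scoped ComplexConjugate

namespace Pool.Agent.Lib.MP_80d0cf_nt.Six

lemma real_ineq {ε C₀ : ℝ} (hε : 0 < ε) (hC : 0 ≤ C₀) : ∃ C, ∀ a α β : ℝ, 0 ≤ a → 0 ≤ α → 0 ≤ β →
    (12 * C₀ * (a + C₀) ^ 2 + 18 * (ε / 2000) * (a + C₀) ^ 3) * (α + β) ≤
      ε * (a ^ 6 + α ^ 2 + β ^ 2) + C := by
  set K := 144 * C₀ ^ 2 / ε
  have hK : 0 ≤ K := by positivity
  refine ⟨K ^ 3 / (ε / 100) ^ 2 + ε * C₀ ^ 6, fun a α β ha hα hβ => ?_⟩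
  set b := a + C₀
  have hb : 0 ≤ b := by positivity
  have h1 : b ^ 6 ≤ 32 * (a ^ 6 + C₀ ^ 6) := by
    have := add_pow_le ha hC 6; norm_num at this ⊢; exact this
  have h2 : K * b ^ 4 ≤ ε / 100 * b ^ 6 + K ^ 3 / (ε / 100) ^ 2 := by
    rcases le_total K (ε / 100 * b ^ 2) with h | h
    · have : K * b ^ 4 ≤ ε / 100 * b ^ 2 * b ^ 4 := by gcongr
      have : 0 ≤ K ^ 3 / (ε / 100) ^ 2 := by positivity
      nlinarith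
    · have h3 : b ^ 2 ≤ K / (ε / 100) := by rw [le_div_iff₀ (by positivity)]; linarith
      have : K * b ^ 4 ≤ K ^ 3 / (ε / 100) ^ 2 :=
        calc K * b ^ 4 = K * (b ^ 2) ^ 2 := by ring
          _ ≤ K * (K / (ε / 100)) ^ 2 := by gcongr
          _ = _ := by field_simp
      have : 0 ≤ ε / 100 * b ^ 6 := by positivity
      linarith
  have h3 : ∀ x : ℝ, 12 * C₀ * b ^ 2 * x ≤ ε / 2 * x ^ 2 + K * b ^ 4 / 2 := fun x => by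
    have : ε / 2 * x ^ 2 + K * b ^ 4 / 2 - 12 * C₀ * b ^ 2 * x =
        (ε * x - 12 * C₀ * b ^ 2) ^ 2 / (2 * ε) := by simp only [K]; field_simp; ring
    have h0 : 0 ≤ (ε * x - 12 * C₀ * b ^ 2) ^ 2 / (2 * ε) := by positivity
    linarith
  have h4 : ∀ x : ℝ, b ^ 3 * x ≤ (b ^ 6 + x ^ 2) / 2 := fun x => by nlinarith [sq_nonneg (b ^ 3 - x)]
  have h5 := mul_le_mul_of_nonneg_left (add_le_add (h4 α) (h4 β)) hε.le
  have h6 := mul_le_mul_of_nonneg_left h1 hε.le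
  have := h3 α
  have := h3 β
  have : 0 ≤ ε * a ^ 6 := by positivity
  have : 0 ≤ ε * C₀ ^ 6 := by positivity
  have : 0 ≤ ε * α ^ 2 := by positivity
  have : 0 ≤ ε * β ^ 2 := by positivity
  nlinarith

lemma point_ineq {ε C₀ : ℝ} (hε : 0 < ε) (hε1 : ε ≤ 1) (hC : 0 ≤ C₀) :
    ∃ C, ∀ Z P A B ω ω₀ ψ : ℂ, ‖ω₀‖ = 1 → conj Z = ω * Z → ‖ω - ω₀‖ ≤ ε / 2000 →
    ‖ψ - ω₀‖ ≤ ε / 2000 → ‖Z - P‖ ≤ C₀ →
    (4 * (A * P ^ 3) + 4 * (P ^ 3 * ψ * B) - (2 + ε) * (A * conj A) - (2 + ε) * (B * conj B) -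
      4 * (A * conj B * conj ω₀ ^ 1) - 2 * (A * A * conj ω₀ ^ 3) - 4 * (A * B * conj ω₀ ^ 2) -
      2 * (B * B * conj ω₀ ^ 1)).re ≤ (1 + ε) * ‖Z‖ ^ 6 + C := by
  obtain ⟨C, hb⟩ := real_ineq hε hC
  refine ⟨C, fun Z P A B ω ω₀ ψ h0 hZ hω hψ hP => ?_⟩
  have h1 : ω₀ * conj ω₀ = 1 := by rw [mul_conj', h0]; simp
  set Φ := A + ω₀ * B with hΦ
  set E := 2 * (Z ^ 3 * conj Φ * (ω₀ ^ 3 - ω ^ 3)) + 4 * ((Z ^ 3 - P ^ 3) * Φ) +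
    4 * (P ^ 3 * (ω₀ - ψ) * B) with hE
  have hΦn : ‖Φ‖ ≤ ‖A‖ + ‖B‖ := (norm_add_le _ _).trans (by rw [norm_mul, h0, one_mul])
  have hPn : ‖P‖ ≤ ‖Z‖ + C₀ := by
    have := norm_sub_norm_le P Z; rw [norm_sub_rev] at this; linarith
  have hωn : ‖ω‖ ≤ 2 := by have := norm_sub_norm_le ω ω₀; linarith
  have hZn := norm_nonneg Z
  have b1 : ‖ω₀ ^ 3 - ω ^ 3‖ ≤ ε / 2000 * 7 := by
    rw [show ω₀ ^ 3 - ω ^ 3 = -(ω - ω₀) * (ω₀ ^ 2 + ω₀ * ω + ω ^ 2) by ring, norm_mul, norm_neg]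
    gcongr
    refine norm_add₃_le.trans ?_
    rw [norm_pow, norm_pow, norm_mul, h0]
    nlinarith [norm_nonneg ω]
  have b2 : ‖Z ^ 3 - P ^ 3‖ ≤ C₀ * (3 * (‖Z‖ + C₀) ^ 2) := by
    rw [show Z ^ 3 - P ^ 3 = (Z - P) * (Z ^ 2 + Z * P + P ^ 2) by ring, norm_mul]
    gcongr
    refine norm_add₃_le.trans ?_
    rw [norm_pow, norm_pow, norm_mul]
    nlinarith [norm_nonneg P]
  have b3 : ‖E‖ ≤ (12 * C₀ * (‖Z‖ + C₀) ^ 2 + 18 * (ε / 2000) * (‖Z‖ + C₀) ^ 3) * (‖A‖ + ‖B‖) := by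
    refine norm_add₃_le.trans ?_
    simp only [norm_mul, norm_pow, Complex.norm_ofNat, RCLike.norm_conj]
    rw [norm_sub_rev ω₀ ψ]
    calc _ ≤ 2 * ((‖Z‖ + C₀) ^ 3 * (‖A‖ + ‖B‖) * (ε / 2000 * 7)) +
          4 * (C₀ * (3 * (‖Z‖ + C₀) ^ 2) * (‖A‖ + ‖B‖)) +
          4 * ((‖Z‖ + C₀) ^ 3 * (ε / 2000) * (‖A‖ + ‖B‖)) := by
          gcongr <;> linarith [norm_nonneg A]
      _ = _ := by ring
  have b4 := (neg_le_abs _).trans ((abs_re_le_norm E).trans (b3.trans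
    (hb _ _ _ hZn (norm_nonneg A) (norm_nonneg B))))
  have h2 : 0 ≤ ((Z ^ 3 - (conj Φ + Φ * conj ω₀ ^ 3)) *
      conj (Z ^ 3 - (conj Φ + Φ * conj ω₀ ^ 3))).re := by
    rw [mul_conj']; norm_cast; positivity
  have h3 : ∀ x : ℂ, (x * conj x).re = ‖x‖ ^ 2 := fun x => by rw [mul_conj']; norm_cast
  have h4 : ∀ x : ℂ, (x - conj x).re = 0 := fun x => by simp
  set X := 4 * (A * P ^ 3) + 4 * (P ^ 3 * ψ * B) - 2 * (A * conj A) - 2 * (B * conj B) -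
      4 * (A * conj B * conj ω₀ ^ 1) - 2 * (A * A * conj ω₀ ^ 3) - 4 * (A * B * conj ω₀ ^ 2) -
      2 * (B * B * conj ω₀ ^ 1) with hX
  set Y := Z ^ 3 * (Φ + conj Φ * ω₀ ^ 3) + 2 * (Z ^ 3 * Φ) - 2 * (A * conj B * conj ω₀) -
    Φ ^ 2 * conj ω₀ ^ 3 with hY
  have key : (Z ^ 3 - (conj Φ + Φ * conj ω₀ ^ 3)) * conj (Z ^ 3 - (conj Φ + Φ * conj ω₀ ^ 3)) =
      Z ^ 3 * conj (Z ^ 3) - X - E + (Y - conj Y) := by
    simp only [hX, hY, hE, hΦ, map_sub, map_add, map_mul, map_pow, conj_conj, map_ofNat, hZ]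
    generalize conj A = A' at *
    generalize conj B = B' at *
    generalize conj ω₀ = o at *
    linear_combination ((A + ω₀ * B) * (A' + o * B') * ((ω₀ * o) ^ 2 + ω₀ * o + 1) + 2 * B * B' +
      4 * A * B * o ^ 2 + 2 * B ^ 2 * o * (ω₀ * o + 1)) * h1
  rw [key] at h2
  simp only [add_re, h4, sub_re (_ - X), sub_re _ X, h3] at h2
  have e : (4 * (A * P ^ 3) + 4 * (P ^ 3 * ψ * B) - (2 + ε) * (A * conj A) - (2 + ε) * (B * conj B) -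
      4 * (A * conj B * conj ω₀ ^ 1) - 2 * (A * A * conj ω₀ ^ 3) - 4 * (A * B * conj ω₀ ^ 2) -
      2 * (B * B * conj ω₀ ^ 1)) = X - ε * (A * conj A) - ε * (B * conj B) := by rw [hX]; ring
  rw [e, sub_re, sub_re, re_ofReal_mul, re_ofReal_mul, h3, h3]
  rw [norm_pow, ← pow_mul, show 3 * 2 = 6 from rfl] at h2
  linarith

end Pool.Agent.Lib.MP_80d0cf_nt.Six
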