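import Pool.Agent.Lib.MP_80d0cf_nt.Six.VorErr
import Pool.Agent.Lib.MP_80d0cf_nt.Six.Chirp
import Pool.Agent.Shared.Weil.Kloosterman
import Pool.Agent.Lib.MP_80d0cf_nt.Six.Point
import Pool.Agent.Lib.MP_80d0cf_nt.Six.Limit

-- part Pool.Agent.Lib.MP_80d0cf_nt.Six.Pieces
section

/-! The test functions, their mean squares and the cross terms. -/

open Finset Complex MeasureTheory Filter
open scoped Real ComplexConjugate

namespace Pool.Agent.Lib.MP_80d0cf_nt.Six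

lemma small_pow {a : ℝ} (ha : a < 1) (C : ℝ) (b : ℕ) {ε : ℝ} (hε : 0 < ε) :
    ∀ᶠ T : ℝ in atTop, C * (T ^ a * (1 + Real.log T) ^ b) ≤ ε * T := by
  have h := (isLittleO_log_rpow_rpow_atTop b (show 0 < 1 - a by linarith)).bound
    (show 0 < ε / (|C| * 2 ^ b + 1) by positivity)
  filter_upwards [h, eventually_ge_atTop (Real.exp 1)] with T h hT
  have hT0 : 0 < T := (Real.exp_pos 1).trans_le hT
  have hL : 1 ≤ Real.log T := (Real.le_log_iff_exp_le hT0).2 hT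
  rw [Real.rpow_natCast, Real.norm_of_nonneg (by positivity), Real.norm_of_nonneg (by positivity)] at h
  calc _ ≤ |C| * (T ^ a * (2 * Real.log T) ^ b) := by
        gcongr; exacts [le_abs_self C, by linarith]
    _ ≤ (|C| * 2 ^ b + 1) * T ^ a * Real.log T ^ b := by
        rw [mul_pow]; nlinarith [mul_pos (Real.rpow_pos_of_pos hT0 a) (pow_pos (by linarith : 0 < Real.log T) b)]
    _ ≤ (|C| * 2 ^ b + 1) * T ^ a * (ε / (|C| * 2 ^ b + 1) * T ^ (1 - a)) := by gcongr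
    _ = ε * (T ^ a * T ^ (1 - a)) := by field_simp
    _ = _ := by rw [← Real.rpow_add hT0]; simp

lemma eventually_log_ge (c : ℝ) : ∀ᶠ T : ℝ in atTop, c ≤ Real.log T :=
  Real.tendsto_log_atTop.eventually_ge_atTop c

lemma small_pow' {a : ℝ} (ha : a < 1) (C : ℝ) (b : ℕ) {ε : ℝ} (hε : 0 < ε) :
    ∀ᶠ T : ℝ in atTop, C * (T ^ a * (1 + Real.log T) ^ b) ≤ ε * (T * Real.log T ^ 9) := by
  filter_upwards [small_pow ha C b hε, eventually_log_ge 1, eventually_ge_atTop 0] with T h hL hT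
  exact h.trans (by gcongr; exact le_mul_of_one_le_right hT (one_le_pow₀ hL))

lemma small_log (C : ℝ) {ε : ℝ} (hε : 0 < ε) :
    ∀ᶠ T : ℝ in atTop, C * (1 + Real.log T) ^ 8 ≤ ε * Real.log T ^ 9 := by
  filter_upwards [eventually_log_ge 1, eventually_log_ge (|C| * 2 ^ 8 / ε)] with T h1 h2
  rw [div_le_iff₀ hε] at h2
  calc _ ≤ |C| * (2 * Real.log T) ^ 8 := by gcongr; exacts [le_abs_self C, by linarith]
    _ = |C| * 2 ^ 8 * Real.log T ^ 8 := by ring
    _ ≤ Real.log T * ε * Real.log T ^ 8 := by gcongr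
    _ = _ := by ring

lemma log_floor_le {T : ℝ} (hT : 1 ≤ T) : Real.log ⌊T⌋₊ ≤ Real.log T :=
  Real.log_le_log (by exact_mod_cast Nat.floor_pos.2 hT) (Nat.floor_le (by linarith))

/-- the modulus -/
def hh (i : ℕ × ℕ × ℕ) : ℕ := i.1 * i.2.1

/-- admissible data -/
structure Adm (θ : ℝ) (H : ℕ) (K T : ℝ) (s : Finset (ℕ × ℕ × ℕ)) (γ : ℕ × ℕ × ℕ → ℝ) : Prop where
  h0 : ∀ i ∈ s, 0 < i.1 ∧ i.1 ≤ H
  sq : ∀ i ∈ s, Squarefree i.2.1
  c1 : ∀ i ∈ s, i.1.Coprime i.2.1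
  u0 : ∀ i ∈ s, 0 < i.2.2 ∧ i.2.2 ≤ i.2.1
  c2 : ∀ i ∈ s, i.2.2.Coprime (hh i)
  r1 : ∀ i ∈ s, (i.2.1 : ℝ) ≤ i.2.2 * T ^ (θ / 2)
  r2 : ∀ i ∈ s, (i.2.1 : ℝ) ≤ T ^ (θ / 2) ∨ i.2.1 * √(i.2.1 : ℝ) * i.2.2 ≤ T ^ θ
  coef : ∀ i ∈ s, |γ i| ≤ K * D 2 i.2.1 * Real.log T ^ 2
  inj : ∀ i ∈ s, ∀ j ∈ s, hh i = hh j → i.2.2 = j.2.2 → i = j

namespace Adm

variable {θ : ℝ} {H : ℕ} {K T : ℝ} {s : Finset (ℕ × ℕ × ℕ)} {γ : ℕ × ℕ × ℕ → ℝ}

lemma q_pos (h : Adm θ H K T s γ) {i} (hi : i ∈ s) : 0 < i.2.1 := Nat.pos_of_ne_zero (h.sq i hi).ne_zero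

lemma hh_pos (h : Adm θ H K T s γ) {i} (hi : i ∈ s) : 0 < hh i := Nat.mul_pos (h.h0 i hi).1 (h.q_pos hi)

lemma q_le_hh (h : Adm θ H K T s γ) {i} (hi : i ∈ s) : i.2.1 ≤ hh i :=
  Nat.le_mul_of_pos_left _ (h.h0 i hi).1

lemma hh_le (h : Adm θ H K T s γ) {i} (hi : i ∈ s) : (hh i : ℝ) ≤ H * i.2.1 := by
  exact_mod_cast Nat.mul_le_mul_right _ (h.h0 i hi).2

lemma qu_le (h : Adm θ H K T s γ) (hT : 0 < T) {i} (hi : i ∈ s) : (i.2.1 : ℝ) * i.2.2 ≤ T ^ θ := by
  have h1 : (i.2.2 : ℝ) ≤ i.2.1 := by exact_mod_cast (h.u0 i hi).2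
  rcases h.r2 i hi with h2 | h2
  · calc _ ≤ T ^ (θ / 2) * T ^ (θ / 2) := by gcongr; exact h1.trans h2
      _ = _ := by rw [← Real.rpow_add hT, add_halves]
  · refine le_trans ?_ h2
    gcongr
    exact le_mul_of_one_le_right (by positivity)
      (Real.one_le_sqrt.2 (by exact_mod_cast h.q_pos hi))

lemma q_le (h : Adm θ H K T s γ) (hθ : θ < 1) (hT : 1 ≤ T) {i} (hi : i ∈ s) :
    (i.2.1 : ℝ) ≤ T ^ (2 / 3 : ℝ) := by
  rcases h.r2 i hi with h2 | h2
  · exact h2.trans (Real.rpow_le_rpow_of_exponent_le hT (by linarith))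
  · have hu : (1 : ℝ) ≤ i.2.2 := by exact_mod_cast (h.u0 i hi).1
    have h3 : (i.2.1 : ℝ) ^ (3 / 2 : ℝ) ≤ T := by
      rw [show (3 / 2 : ℝ) = 1 + 1 / 2 by norm_num, Real.rpow_add (by exact_mod_cast h.q_pos hi),
        Real.rpow_one, ← Real.sqrt_eq_rpow]
      calc _ ≤ i.2.1 * √(i.2.1 : ℝ) * i.2.2 := le_mul_of_one_le_right (by positivity) hu
        _ ≤ T ^ θ := h2
        _ ≤ T ^ (1 : ℝ) := Real.rpow_le_rpow_of_exponent_le hT hθ.le
        _ = T := Real.rpow_one T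
    calc (i.2.1 : ℝ) = ((i.2.1 : ℝ) ^ (3 / 2 : ℝ)) ^ (2 / 3 : ℝ) := by
          rw [← Real.rpow_mul (by positivity)]; norm_num
      _ ≤ _ := by gcongr

lemma subset (h : Adm θ H K T s γ) (hθ : θ < 1) (hT : 1 ≤ T) :
    s ⊆ Ioc 0 H ×ˢ Ioc 0 ⌊T⌋₊ ×ˢ Ioc 0 ⌊T⌋₊ := fun i hi => by
  have h1 : i.2.1 ≤ ⌊T⌋₊ := Nat.le_floor ((h.q_le hθ hT hi).trans (by
    simpa using Real.rpow_le_rpow_of_exponent_le hT (show (2 / 3 : ℝ) ≤ 1 by norm_num)))
  simp only [mem_product, mem_Ioc]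
  exact ⟨h.h0 i hi, ⟨h.q_pos hi, h1⟩, (h.u0 i hi).1, (h.u0 i hi).2.trans h1⟩

lemma sum_le (h : Adm θ H K T s γ) (hθ : θ < 1) (hT : 1 ≤ T) {f : ℕ → ℝ} (hf : ∀ n, 0 ≤ f n) :
    ∑ i ∈ s, f i.2.1 * (1 / i.2.2) ≤ H * ((∑ q ∈ Ioc 0 ⌊T⌋₊, f q) * (1 + Real.log T)) := by
  refine (sum_le_sum_of_subset_of_nonneg (h.subset hθ hT) fun i _ _ =>
    mul_nonneg (hf _) (by positivity)).trans ?_
  simp only [sum_product, ← mul_sum, ← sum_mul, sum_const, Nat.card_Ioc, Nat.sub_zero, nsmul_eq_mul]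
  have := sum_nonneg (s := Ioc 0 ⌊T⌋₊) fun n _ => hf n
  have h2 : ∑ n ∈ Ioc 0 ⌊T⌋₊, (1 / n : ℝ) ≤ 1 + Real.log T :=
    (sum_inv_le _).trans (by linarith [log_floor_le hT])
  rw [mul_left_comm]
  exact mul_le_mul_of_nonneg_left (mul_le_mul_of_nonneg_left h2 this) (Nat.cast_nonneg _)

end Adm

lemma sum_D_floor_le (k : ℕ) {T : ℝ} (hT : 1 ≤ T) :
    ∑ n ∈ Ioc 0 ⌊T⌋₊, D (k + 1) n / n ≤ (1 + Real.log T) ^ (k + 1) := by
  refine (sum_D_div_le k _).trans ?_
  have := Real.log_natCast_nonneg ⌊T⌋₊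
  exact pow_le_pow_left₀ (by positivity) (by linarith [log_floor_le hT]) _

/-- the long Dirichlet polynomial -/
noncomputable def PP (T t : ℝ) : ℂ := ∑ n ∈ Ioc 0 ⌊T ^ 2⌋₊, pw n (sc t)

/-- the first test function -/
noncomputable def AA (N : ℕ) (t : ℝ) : ℂ :=
  ∑ n ∈ Ioc 0 N, ((D 3 n / √n : ℝ) : ℂ) * exp (I * (Real.log n * t : ℝ))

/-- the second test function -/
noncomputable def BB (s : Finset (ℕ × ℕ × ℕ)) (γ : ℕ × ℕ × ℕ → ℝ) (t : ℝ) : ℂ :=
  ∑ i ∈ s, ((γ i / √(hh i * i.2.2) : ℝ) : ℂ) * exp (I * ((Real.log (hh i) - Real.log i.2.2) * t : ℝ))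

lemma continuous_PP (T : ℝ) : Continuous (PP T) :=
  continuous_finsetSum _ fun _ _ => continuous_pw_sc _

lemma continuous_AA (N : ℕ) : Continuous (AA N) := by unfold AA; fun_prop

lemma continuous_BB (s : Finset (ℕ × ℕ × ℕ)) (γ : ℕ × ℕ × ℕ → ℝ) : Continuous (BB s γ) := by
  unfold BB; fun_prop

lemma conj_sum_exp {ι : Type*} (s : Finset ι) (a α : ι → ℝ) (t : ℝ) :
    conj (∑ i ∈ s, (a i : ℂ) * exp (I * (α i * t : ℝ))) =
      ∑ i ∈ s, (a i : ℂ) * exp (-I * (α i * t : ℝ)) := by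
  simp only [map_sum, map_mul, conj_ofReal, ← exp_conj, conj_I]

lemma pw_sc {x : ℝ} (hx : 0 < x) (t : ℝ) :
    pw x (sc t) = ((1 / √x : ℝ) : ℂ) * exp (-I * (Real.log x * t : ℝ)) := by
  rw [Real.sqrt_eq_rpow, one_div, ← Real.rpow_neg hx.le, Real.rpow_def_of_pos hx, ofReal_exp,
    ← exp_add, pw, sc]
  push_cast; ring_nf

lemma PP_cube (T t : ℝ) : PP T t ^ 3 = B3 ⌊T ^ 2⌋₊ fun a b c => pw (a * b * c : ℕ) (sc t) := by
  rw [PP, pow_three, sum_mul_sum, sum_mul]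
  refine sum_congr rfl fun a ha => ?_
  rw [mul_sum]
  refine sum_congr rfl fun b hb => ?_
  rw [mul_sum]
  refine sum_congr rfl fun c hc => ?_
  have ha' : (0 : ℝ) < a := by exact_mod_cast (mem_Ioc.1 ha).1
  have hb' : (0 : ℝ) < b := by exact_mod_cast (mem_Ioc.1 hb).1
  have hc' : (0 : ℝ) < c := by exact_mod_cast (mem_Ioc.1 hc).1
  push_cast
  rw [pw_mul (by positivity) hc', pw_mul ha' hb', mul_assoc]

lemma sumA_le {θ T : ℝ} (hθ : θ < 1) (hT : 1 ≤ T) {N : ℕ} (hN : (N : ℝ) ≤ T ^ θ) :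
    ∑ n ∈ Ioc 0 N, ‖((D 3 n / √n : ℝ) : ℂ)‖ ≤ T ^ (θ / 2) * (1 + Real.log T) ^ 3 := by
  have h1 : N ≤ ⌊T⌋₊ := Nat.le_floor (hN.trans (by
    simpa using Real.rpow_le_rpow_of_exponent_le hT hθ.le))
  calc _ ≤ ∑ n ∈ Ioc 0 N, T ^ (θ / 2) * (D 3 n / n) := by
        refine sum_le_sum fun n hn => ?_
        have hn0 : (0 : ℝ) < n := by exact_mod_cast (mem_Ioc.1 hn).1
        have hn1 : (n : ℝ) ≤ N := by exact_mod_cast (mem_Ioc.1 hn).2
        have := D_nonneg 3 n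
        rw [norm_real, Real.norm_of_nonneg (by positivity)]
        calc _ = √n * (D 3 n / n) := by
              have h1 : 0 < √(n : ℝ) := by positivity
              have h2 := Real.sq_sqrt hn0.le
              field_simp
              rw [h2]
          _ ≤ _ := by
            gcongr
            rw [Real.sqrt_eq_rpow, div_eq_mul_one_div θ, Real.rpow_mul (by linarith)]
            gcongr; linarith
    _ ≤ _ := by
        rw [← mul_sum]
        gcongr
        exact (sum_le_sum_of_subset_of_nonneg (Ioc_subset_Ioc_right h1)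
          fun n _ _ => div_nonneg (D_nonneg _ _) (by positivity)).trans (sum_D_floor_le 2 hT)

lemma Adm.sumB_le {θ : ℝ} {H : ℕ} {K T : ℝ} {s : Finset (ℕ × ℕ × ℕ)} {γ : ℕ × ℕ × ℕ → ℝ}
    (h : Adm θ H K T s γ) (hK : 0 ≤ K) (hθ : θ < 1) (hT : 1 ≤ T) :
    ∑ i ∈ s, ‖((γ i / √(hh i * i.2.2) : ℝ) : ℂ)‖ ≤ K * H * (T ^ (θ / 2) * (1 + Real.log T) ^ 5) := by
  have hL := Real.log_nonneg hT
  calc _ ≤ ∑ i ∈ s, K * (1 + Real.log T) ^ 2 * T ^ (θ / 2) * (D 2 i.2.1 / i.2.1 * (1 / i.2.2)) := by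
        refine sum_le_sum fun i hi => ?_
        have hq : (0 : ℝ) < i.2.1 := by exact_mod_cast h.q_pos hi
        have hu : (0 : ℝ) < i.2.2 := by exact_mod_cast (h.u0 i hi).1
        have hq2 : (i.2.1 : ℝ) ≤ hh i := by exact_mod_cast h.q_le_hh hi
        have := D_nonneg 2 i.2.1
        rw [norm_real, Real.norm_eq_abs, abs_div, abs_of_nonneg (Real.sqrt_nonneg _)]
        calc _ ≤ K * D 2 i.2.1 * (1 + Real.log T) ^ 2 / √(i.2.1 * i.2.2) := by
              gcongr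
              exact (h.coef i hi).trans (by gcongr; linarith)
          _ = K * (1 + Real.log T) ^ 2 * √(i.2.1 * i.2.2) * (D 2 i.2.1 / i.2.1 * (1 / i.2.2)) := by
              have h1 : 0 < √((i.2.1 : ℝ) * i.2.2) := by positivity
              have h2 := Real.sq_sqrt (mul_pos hq hu).le
              field_simp
              rw [h2]; ring
          _ ≤ _ := by
              gcongr
              rw [Real.sqrt_eq_rpow, div_eq_mul_one_div θ, Real.rpow_mul (by linarith)]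
              gcongr
              exact h.qu_le (by linarith) hi
    _ ≤ K * (1 + Real.log T) ^ 2 * T ^ (θ / 2) * (H * ((1 + Real.log T) ^ 2 * (1 + Real.log T))) := by
        rw [← mul_sum]
        gcongr
        refine (h.sum_le hθ hT (f := fun q => D 2 q / q)
          fun n => div_nonneg (D_nonneg _ _) (by positivity)).trans ?_
        gcongr
        exact sum_D_floor_le 1 hT
    _ = _ := by ring

lemma Wt.mv_small (W : Wt) {θ : ℝ} (hθ : θ < 1) {c : ℝ} (hc : 0 < c) (M : ℝ) {ε : ℝ} (hε : 0 < ε) :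
    ∀ᶠ T : ℝ in atTop, ∀ {ι κ : Type} (s : Finset ι) (s' : Finset κ) (a : ι → ℂ)
    (b : κ → ℂ) (α : ι → ℝ) (β : κ → ℝ),
    (∀ i ∈ s, ∀ j ∈ s', α i ≠ β j → 1 / (c * T ^ θ) ≤ |α i - β j|) →
    (∑ i ∈ s, ‖a i‖) * ∑ j ∈ s', ‖b j‖ ≤ M * (T ^ 7 * (1 + Real.log T) ^ 10) →
    ‖W.Iw T (fun t => (∑ i ∈ s, a i * exp (I * (α i * t : ℝ))) *
        ∑ j ∈ s', b j * exp (-I * (β j * t : ℝ))) -
      T * W.c * ∑ i ∈ s, ∑ j ∈ s', if α i = β j then a i * b j else 0‖ ≤
      ε * (T * Real.log T ^ 9) := by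
  obtain ⟨A, hA⟩ := exists_nat_ge (8 / (1 - θ))
  obtain ⟨C, hC, hb⟩ := W.mean_value A
  filter_upwards [small_pow' zero_lt_one (C * c ^ A * M) 10 hε, eventually_ge_atTop 1] with T h hT
    ι κ s s' a b α β hsep hM
  have hT0 : 0 < T := by linarith
  refine (hb s s' a b α β T (T ^ (1 - θ) / c) hT0 (by positivity) fun i hi j hj hne => ?_).trans
    (le_trans ?_ h)
  · refine le_trans (le_of_eq ?_) (mul_le_mul_of_nonneg_left (hsep i hi j hj hne) hT0.le)
    rw [Real.rpow_sub hT0, Real.rpow_one]; field_simp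
  · have h1 : T ^ 8 ≤ (T ^ (1 - θ)) ^ A := by
      rw [← Real.rpow_natCast, ← Real.rpow_natCast, ← Real.rpow_mul hT0.le]
      refine Real.rpow_le_rpow_of_exponent_le hT ?_
      rw [div_le_iff₀ (by linarith)] at hA
      push_cast; linarith
    have h0 : 0 ≤ M * (T ^ 7 * (1 + Real.log T) ^ 10) := le_trans (by positivity) hM
    calc _ ≤ T * (C / (T ^ 8 / c ^ A)) * (M * (T ^ 7 * (1 + Real.log T) ^ 10)) := by
          rw [div_pow]; gcongr
      _ = _ := by rw [Real.rpow_zero]; field_simp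

lemma log_inj {m n : ℕ} (hm : 0 < m) (hn : 0 < n) : Real.log m = Real.log n ↔ m = n :=
  ⟨fun h => by
    exact_mod_cast Real.log_injOn_pos (Set.mem_Ioi.2 (by exact_mod_cast hm))
      (Set.mem_Ioi.2 (by exact_mod_cast hn)) h, fun h => by rw [h]⟩

lemma rpow_half_mul {θ T : ℝ} (hθ : θ < 1) (hT : 1 ≤ T) : T ^ (θ / 2) * T ^ (θ / 2) ≤ T ^ 7 := by
  rw [← Real.rpow_add (by linarith), ← Real.rpow_natCast]
  exact Real.rpow_le_rpow_of_exponent_le hT (by push_cast; linarith)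

lemma Wt.piece_NA (W : Wt) {θ : ℝ} (hθ : θ < 1) {ε : ℝ} (hε : 0 < ε) :
    ∀ᶠ T : ℝ in atTop, ∀ N : ℕ, (N : ℝ) ≤ T ^ θ →
    ‖W.Iw T (fun t => AA N t * PP T t ^ 3) - T * W.c * (∑ n ∈ Ioc 0 N, D 3 n ^ 2 / n : ℝ)‖ ≤
      ε * (T * Real.log T ^ 9) := by
  filter_upwards [W.mv_small hθ two_pos 1 hε, eventually_ge_atTop 1] with T h hT N hN
  have hL := Real.log_nonneg hT
  set V := ⌊T ^ 2⌋₊
  have hV : (V : ℝ) ≤ T ^ 2 := Nat.floor_le (by positivity)
  have hNV : N ≤ V := Nat.le_floor (hN.trans (by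
    rw [← Real.rpow_natCast]; exact Real.rpow_le_rpow_of_exponent_le hT (by push_cast; linarith)))
  have hv : ∀ v ∈ Ioc 0 V ×ˢ Ioc 0 V ×ˢ Ioc 0 V, 0 < v.1 * v.2.1 * v.2.2 := fun v hv => by
    simp only [mem_product, mem_Ioc] at hv
    exact Nat.mul_pos (Nat.mul_pos hv.1.1 hv.2.1.1) hv.2.2.1
  have := h (Ioc 0 N) (Ioc 0 V ×ˢ Ioc 0 V ×ˢ Ioc 0 V) (fun n => ((D 3 n / √n : ℝ) : ℂ))
    (fun v => ((1 / √(v.1 * v.2.1 * v.2.2 : ℕ) : ℝ) : ℂ)) (fun n => Real.log n)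
    (fun v => Real.log (v.1 * v.2.1 * v.2.2 : ℕ)) (fun n hn v hv' hne => ?_) ?_
  · convert this using 4
    · ext t
      rw [PP_cube, B3_eq_prod, AA]
      congr 1
      exact sum_congr rfl fun v hv' => pw_sc (by exact_mod_cast hv v hv') t
    · push_cast
      refine sum_congr rfl fun n hn => ?_
      rw [mem_Ioc] at hn
      have hn0 : (0 : ℝ) < n := by exact_mod_cast hn.1
      have e := congrArg ofReal (card_triple hn.1.ne' (hn.2.trans hNV))
      rw [sq, mul_div_right_comm]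
      nth_rewrite 2 [← e]
      rw [ofReal_sum, mul_sum]
      refine sum_congr rfl fun v hv' => ?_
      rw [← Nat.cast_mul, ← Nat.cast_mul]
      simp only [log_inj hn.1 (hv v hv'), eq_comm (a := n)]
      split_ifs with h1
      · rw [h1, div_mul_div_comm, ← ofReal_mul, Real.mul_self_sqrt hn0.le]; simp
      · simp
  · rw [mem_Ioc] at hn
    have := abs_log_sub_ge (hv v hv') hn.1 fun h => hne (by rw [h])
    rw [abs_sub_comm]
    refine le_trans ?_ this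
    have : (0 : ℝ) < n := by exact_mod_cast hn.1
    gcongr
    exact le_trans (by exact_mod_cast hn.2) hN
  · have h1 : ∑ v ∈ Ioc 0 V ×ˢ Ioc 0 V ×ˢ Ioc 0 V,
        ‖((1 / √(v.1 * v.2.1 * v.2.2 : ℕ) : ℝ) : ℂ)‖ ≤ T ^ 6 := by
      refine (sum_le_card_nsmul _ _ 1 fun v hv' => ?_).trans ?_
      · rw [norm_real, Real.norm_of_nonneg (by positivity)]
        exact div_le_self zero_le_one (Real.one_le_sqrt.2 (by exact_mod_cast hv v hv'))
      · simp only [card_product, Nat.card_Ioc, Nat.sub_zero, nsmul_eq_mul, mul_one]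
        push_cast
        calc _ ≤ T ^ 2 * (T ^ 2 * T ^ 2) := by gcongr
          _ = _ := by ring
    calc _ ≤ T ^ (1 : ℝ) * (1 + Real.log T) ^ 10 * T ^ 6 := by
          gcongr
          exact (sumA_le hθ hT hN).trans (by gcongr <;> linarith)
      _ = _ := by rw [Real.rpow_one]; ring

lemma Wt.piece_DA (W : Wt) {θ : ℝ} (hθ : θ < 1) {ε : ℝ} (hε : 0 < ε) :
    ∀ᶠ T : ℝ in atTop, ∀ N : ℕ, (N : ℝ) ≤ T ^ θ →
    ‖W.Iw T (fun t => AA N t * conj (AA N t)) - T * W.c * (∑ n ∈ Ioc 0 N, D 3 n ^ 2 / n : ℝ)‖ ≤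
      ε * (T * Real.log T ^ 9) := by
  filter_upwards [W.mv_small hθ two_pos 1 hε, eventually_ge_atTop 1] with T h hT N hN
  have hL := Real.log_nonneg hT
  have := h (Ioc 0 N) (Ioc 0 N) (fun n => ((D 3 n / √n : ℝ) : ℂ))
    (fun n => ((D 3 n / √n : ℝ) : ℂ)) (fun n => Real.log n)
    (fun n => Real.log n) (fun n hn m hm hne => ?_) ?_
  · convert this using 4
    · ext t
      rw [AA, conj_sum_exp]
    · rw [ofReal_sum]
      refine sum_congr rfl fun n hn => ?_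
      have hn0 : (0 : ℝ) < n := by exact_mod_cast (mem_Ioc.1 hn).1
      rw [sum_congr rfl fun m hm => if_congr (log_inj (mem_Ioc.1 hn).1 (mem_Ioc.1 hm).1) rfl rfl,
        sum_ite_eq, if_pos hn, ← ofReal_mul, div_mul_div_comm, Real.mul_self_sqrt hn0.le, sq]
  · rw [mem_Ioc] at hn hm
    refine le_trans ?_ (abs_log_sub_ge hn.1 hm.1 fun h => hne (by rw [h]))
    have : (0 : ℝ) < m := by exact_mod_cast hm.1
    gcongr
    exact le_trans (by exact_mod_cast hm.2) hN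
  · calc _ ≤ T ^ (θ / 2) * (1 + Real.log T) ^ 5 * (T ^ (θ / 2) * (1 + Real.log T) ^ 5) := by
          gcongr <;> exact (sumA_le hθ hT hN).trans (by gcongr <;> linarith)
      _ = T ^ (θ / 2) * T ^ (θ / 2) * (1 + Real.log T) ^ 10 := by ring
      _ ≤ _ := by rw [one_mul]; gcongr; exact rpow_half_mul hθ hT

lemma Wt.piece_DB (W : Wt) {θ : ℝ} (hθ : θ < 1) {H : ℕ} (hH : 0 < H) {K : ℝ} (hK : 0 ≤ K) {ε : ℝ}
    (hε : 0 < ε) : ∀ᶠ T : ℝ in atTop, ∀ s γ, Adm θ H K T s γ →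
    ‖W.Iw T (fun t => BB s γ t * conj (BB s γ t)) -
      T * W.c * (∑ i ∈ s, γ i ^ 2 / (hh i * i.2.2) : ℝ)‖ ≤ ε * (T * Real.log T ^ 9) := by
  filter_upwards [W.mv_small hθ (c := 2 * H) (by positivity) ((K * H) ^ 2) hε,
    eventually_ge_atTop 1] with T h hT s γ hA
  have hL := Real.log_nonneg hT
  have hlog : ∀ i ∈ s, ∀ j ∈ s, Real.log (hh i) - Real.log i.2.2 - (Real.log (hh j) - Real.log j.2.2) =
      Real.log (hh i * j.2.2 : ℕ) - Real.log (hh j * i.2.2 : ℕ) := fun i hi j hj => by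
    have h1 := (hA.hh_pos hi).ne'
    have h2 := (hA.hh_pos hj).ne'
    have h3 := (hA.u0 i hi).1.ne'
    have h4 := (hA.u0 j hj).1.ne'
    push_cast
    rw [Real.log_mul (by exact_mod_cast h1) (by exact_mod_cast h4),
      Real.log_mul (by exact_mod_cast h2) (by exact_mod_cast h3)]
    ring
  have hpos : ∀ i ∈ s, ∀ j ∈ s, 0 < hh i * j.2.2 := fun i hi j hj =>
    Nat.mul_pos (hA.hh_pos hi) (hA.u0 j hj).1
  have := h s s (fun i => ((γ i / √(hh i * i.2.2) : ℝ) : ℂ))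
    (fun i => ((γ i / √(hh i * i.2.2) : ℝ) : ℂ)) (fun i => Real.log (hh i) - Real.log i.2.2)
    (fun i => Real.log (hh i) - Real.log i.2.2) (fun i hi j hj hne => ?_) ?_
  · convert this using 4
    · ext t
      rw [BB, conj_sum_exp]
    · rw [ofReal_sum]
      refine sum_congr rfl fun i hi => ?_
      have key : ∀ j ∈ s, Real.log (hh i) - Real.log i.2.2 = Real.log (hh j) - Real.log j.2.2 ↔
          i = j := fun j hj => by
        refine ⟨fun h1 => ?_, fun h1 => by rw [h1]⟩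
        rw [← sub_eq_zero, hlog i hi j hj, sub_eq_zero, log_inj (hpos i hi j hj) (hpos j hj i hi)] at h1
        have h2 : hh i = hh j := Nat.dvd_antisymm
          ((hA.c2 i hi).symm.dvd_of_dvd_mul_right (h1 ▸ dvd_mul_right _ _))
          ((hA.c2 j hj).symm.dvd_of_dvd_mul_right (h1 ▸ dvd_mul_right _ _))
        rw [h2] at h1
        exact hA.inj i hi j hj h2 (Nat.eq_of_mul_eq_mul_left (hA.hh_pos hj) h1).symm
      rw [sum_congr rfl fun j hj => if_congr (key j hj) rfl rfl, sum_ite_eq, if_pos hi,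
        ← ofReal_mul, div_mul_div_comm, Real.mul_self_sqrt (by positivity), sq]
  · rw [hlog i hi j hj]
    have hne' : hh i * j.2.2 ≠ hh j * i.2.2 := fun h => hne (by
      rw [← sub_eq_zero, hlog i hi j hj, h, sub_self])
    have b : ∀ i ∈ s, (hh i : ℝ) * i.2.2 ≤ H * T ^ θ := fun i hi =>
      calc _ ≤ H * i.2.1 * (i.2.2 : ℝ) := by gcongr; exact hA.hh_le hi
        _ ≤ _ := by rw [mul_assoc]; gcongr; exact hA.qu_le (by linarith) hi
    have h1 : ((hh i * j.2.2 : ℕ) : ℝ) * (hh j * i.2.2 : ℕ) ≤ (H * T ^ θ) * (H * T ^ θ) := by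
      push_cast
      calc _ = ((hh i : ℝ) * i.2.2) * (hh j * j.2.2) := by ring
        _ ≤ _ := mul_le_mul (b i hi) (b j hj) (by positivity) (by positivity)
    have p1 : (0 : ℝ) < (hh i * j.2.2 : ℕ) := by exact_mod_cast hpos i hi j hj
    have p2 : (0 : ℝ) < (hh j * i.2.2 : ℕ) := by exact_mod_cast hpos j hj i hi
    rcases le_total ((hh i * j.2.2 : ℕ) : ℝ) (hh j * i.2.2 : ℕ) with h2 | h2
    · rw [abs_sub_comm]
      refine le_trans ?_ (abs_log_sub_ge (hpos j hj i hi) (hpos i hi j hj) hne'.symm)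
      rw [mul_assoc]
      gcongr
      exact (mul_self_le_mul_self_iff p1.le (by positivity)).2 (le_trans (by gcongr) h1)
    · refine le_trans ?_ (abs_log_sub_ge (hpos i hi j hj) (hpos j hj i hi) hne')
      rw [mul_assoc]
      gcongr
      exact (mul_self_le_mul_self_iff p2.le (by positivity)).2 (le_trans (by gcongr) h1)
  · calc _ ≤ K * H * (T ^ (θ / 2) * (1 + Real.log T) ^ 5) *
          (K * H * (T ^ (θ / 2) * (1 + Real.log T) ^ 5)) := by
          gcongr <;> exact hA.sumB_le hK hθ hT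
      _ = (K * H) ^ 2 * (T ^ (θ / 2) * T ^ (θ / 2) * (1 + Real.log T) ^ 10) := by ring
      _ ≤ _ := by gcongr; exact rpow_half_mul hθ hT

end Pool.Agent.Lib.MP_80d0cf_nt.Six
end

-- part Pool.Agent.Lib.MP_80d0cf_nt.Six.Cross
section

/-! Cross terms, and the reduction of the chirp pairing to twisted divisor sums. -/

open Finset Complex MeasureTheory Filter
open scoped Real ComplexConjugate

namespace Pool.Agent.Lib.MP_80d0cf_nt.Six

lemma Wt.cross_small (W : Wt) {θ : ℝ} (hθ : θ < 1) (c M : ℝ) {ε : ℝ} (hε : 0 < ε) :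
    ∀ᶠ T : ℝ in atTop, ∀ {ι κ : Type} (s : Finset ι) (s' : Finset κ) (a : ι → ℂ)
    (b : κ → ℂ) (α : ι → ℝ) (β : κ → ℝ) (j : ℕ), 1 ≤ j → j ≤ 3 →
    (∀ i ∈ s, ∀ k ∈ s', α i + β k ≤ j * (θ * Real.log T) + c) →
    (∑ i ∈ s, ‖a i‖) * ∑ j ∈ s', ‖b j‖ ≤ M * (T ^ θ * (1 + Real.log T) ^ 10) →
    ‖W.Iw T (fun t => (∑ i ∈ s, a i * exp (I * (α i * t : ℝ))) *
        (∑ k ∈ s', b k * exp (I * (β k * t : ℝ))) * conj (om0 t) ^ j)‖ ≤
      ε * (T * Real.log T ^ 9) := by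
  obtain ⟨C, hC, hb⟩ := W.cross_term
  filter_upwards [small_pow' hθ (C * M) 10 hε, eventually_gt_atTop 0,
    eventually_log_ge ((|c| + 1 + Real.log (2 * π) - Real.log W.d) / (1 - θ))] with T h hT hL
    ι κ s s' a b α β j hj1 hj3 hsep hM
  refine (hb s s' a b α β T j hT hj3 fun i hi k hk => ?_).trans (le_trans ?_ h)
  · rw [div_le_iff₀ (by linarith)] at hL
    rw [Real.log_mul W.d_pos.ne' hT.ne']
    have h1 : (1 : ℝ) ≤ j := by exact_mod_cast hj1
    have h2 := hsep i hi k hk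
    nlinarith [le_abs_self c, abs_nonneg c]
  · rw [mul_assoc]; gcongr

lemma Wt.piece_cross (W : Wt) {θ : ℝ} (hθ0 : 0 ≤ θ) (hθ : θ < 1) {H : ℕ} (hH : 0 < H) {K : ℝ}
    (hK : 0 ≤ K) {ε : ℝ} (hε : 0 < ε) : ∀ᶠ T : ℝ in atTop, ∀ (N : ℕ) s γ, (N : ℝ) ≤ T ^ θ →
    Adm θ H K T s γ →
    ‖W.Iw T fun t => AA N t * conj (BB s γ t) * conj (om0 t) ^ 1‖ ≤ ε * (T * Real.log T ^ 9) ∧
    ‖W.Iw T fun t => AA N t * AA N t * conj (om0 t) ^ 3‖ ≤ ε * (T * Real.log T ^ 9) ∧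
    ‖W.Iw T fun t => AA N t * BB s γ t * conj (om0 t) ^ 2‖ ≤ ε * (T * Real.log T ^ 9) ∧
    ‖W.Iw T fun t => BB s γ t * BB s γ t * conj (om0 t) ^ 1‖ ≤ ε * (T * Real.log T ^ 9) := by
  filter_upwards [W.cross_small hθ (2 * Real.log H) ((1 + K * H) ^ 2) hε,
    eventually_ge_atTop 1] with T h hT N s γ hN hA
  have hT0 : 0 < T := by linarith
  have hL := Real.log_nonneg hT
  have hlH := Real.log_natCast_nonneg H
  have hθL := mul_nonneg hθ0 hL
  have hM : ∀ x y : ℝ, 0 ≤ y → x ≤ (1 + K * H) * (T ^ (θ / 2) * (1 + Real.log T) ^ 5) →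
      y ≤ (1 + K * H) * (T ^ (θ / 2) * (1 + Real.log T) ^ 5) →
      x * y ≤ (1 + K * H) ^ 2 * (T ^ θ * (1 + Real.log T) ^ 10) := fun x y hy h1 h2 => by
    refine (mul_le_mul h1 h2 hy (by positivity)).trans_eq ?_
    conv_rhs => rw [← add_halves θ, Real.rpow_add hT0]
    ring
  have hA1 : ∑ n ∈ Ioc 0 N, ‖((D 3 n / √n : ℝ) : ℂ)‖ ≤
      (1 + K * H) * (T ^ (θ / 2) * (1 + Real.log T) ^ 5) := by
    refine (sumA_le hθ hT hN).trans (le_trans ?_ (le_mul_of_one_le_left (by positivity)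
      (le_add_of_nonneg_right (by positivity))))
    gcongr <;> linarith
  have hB1 : ∑ i ∈ s, ‖((γ i / √(hh i * i.2.2) : ℝ) : ℂ)‖ ≤
      (1 + K * H) * (T ^ (θ / 2) * (1 + Real.log T) ^ 5) :=
    (hA.sumB_le hK hθ hT).trans (by gcongr; linarith)
  have a1 : ∀ n ∈ Ioc 0 N, Real.log n ≤ θ * Real.log T := fun n hn => by
    rw [← Real.log_rpow hT0]
    exact Real.log_le_log (by exact_mod_cast (mem_Ioc.1 hn).1)
      (le_trans (by exact_mod_cast (mem_Ioc.1 hn).2) hN)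
  have a2 : ∀ i ∈ s, 0 ≤ Real.log (hh i) - Real.log i.2.2 ∧
      Real.log (hh i) - Real.log i.2.2 ≤ Real.log H + θ * Real.log T / 2 := fun i hi => by
    have hu : (0 : ℝ) < i.2.2 := by exact_mod_cast (hA.u0 i hi).1
    refine ⟨sub_nonneg.2 (Real.log_le_log hu
      (by exact_mod_cast (hA.u0 i hi).2.trans (hA.q_le_hh hi))), ?_⟩
    have h1 := Real.log_le_log (by exact_mod_cast hA.hh_pos hi) ((hA.hh_le hi).trans
      (mul_le_mul_of_nonneg_left (hA.r1 i hi) (Nat.cast_nonneg H)))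
    rw [Real.log_mul (by positivity) (by positivity), Real.log_mul hu.ne' (by positivity),
      Real.log_rpow hT0] at h1
    linarith
  refine ⟨?_, ?_, ?_, ?_⟩
  · have := h (Ioc 0 N) s _ _ (fun n => Real.log n) (fun i => -(Real.log (hh i) - Real.log i.2.2)) 1
      le_rfl (by norm_num) (fun n hn i hi => by push_cast; linarith [a1 n hn, (a2 i hi).1])
      (hM _ _ (sum_nonneg fun _ _ => norm_nonneg _) hA1 hB1)
    convert this using 5
    rw [BB, conj_sum_exp, AA]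
    congr 1
    exact sum_congr rfl fun i _ => by push_cast; ring_nf
  · exact h (Ioc 0 N) (Ioc 0 N) _ _ (fun n => Real.log n) (fun n => Real.log n) 3 (by norm_num) le_rfl
      (fun n hn m hm => by push_cast; linarith [a1 n hn, a1 m hm])
      (hM _ _ (sum_nonneg fun _ _ => norm_nonneg _) hA1 hA1)
  · exact h (Ioc 0 N) s _ _ (fun n => Real.log n) (fun i => Real.log (hh i) - Real.log i.2.2) 2
      (by norm_num) (by norm_num) (fun n hn i hi => by push_cast; linarith [a1 n hn, (a2 i hi).2])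
      (hM _ _ (sum_nonneg fun _ _ => norm_nonneg _) hA1 hB1)
  · exact h s s _ _ (fun i => Real.log (hh i) - Real.log i.2.2)
      (fun i => Real.log (hh i) - Real.log i.2.2) 1 le_rfl (by norm_num)
      (fun i hi j hj => by push_cast; linarith [(a2 i hi).2, (a2 j hj).2])
      (hM _ _ (sum_nonneg fun _ _ => norm_nonneg _) hB1 hB1)

lemma count_box (V : ℕ) {Y : ℝ} (hY : 0 ≤ Y) :
    B3 V (fun a b c => if ((a * b * c : ℕ) : ℝ) ≤ Y then (1 : ℝ) else 0) ≤
      Y * (1 + Real.log V) ^ 2 := by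
  rw [B3_swap12, B3_swap23]
  calc _ ≤ ∑ a ∈ Ioc 0 V, ∑ b ∈ Ioc 0 V, Y * (1 / a * (1 / b) : ℝ) := by
        refine sum_le_sum fun a ha => sum_le_sum fun b hb => ?_
        have ha' : (0 : ℝ) < a := by exact_mod_cast (mem_Ioc.1 ha).1
        have hb' : (0 : ℝ) < b := by exact_mod_cast (mem_Ioc.1 hb).1
        rw [sum_boole]
        refine le_trans ?_ (Nat.floor_le (by positivity))
        have : #{c ∈ Ioc 0 V | ((c * a * b : ℕ) : ℝ) ≤ Y} ≤ #(Ioc 0 ⌊Y * (1 / a * (1 / b) : ℝ)⌋₊) := by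
          refine card_le_card fun c hc => mem_Ioc.2 ⟨(mem_Ioc.1 (mem_filter.1 hc).1).1,
            Nat.le_floor ?_⟩
          have := (mem_filter.1 hc).2
          push_cast at this
          field_simp
          linarith
        rw [Nat.card_Ioc] at this
        exact_mod_cast this
    _ ≤ _ := by
        simp only [← mul_sum]
        rw [← sum_mul, ← sq]
        gcongr
        exact sum_inv_le V

lemma norm_B3_le {V : ℕ} {F : ℕ → ℕ → ℕ → ℂ} {G : ℕ → ℕ → ℕ → ℝ}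
    (h : ∀ a b c, 0 < a → 0 < b → 0 < c → ‖F a b c‖ ≤ G a b c) : ‖B3 V F‖ ≤ B3 V G :=
  norm_sum_le_of_le _ fun a ha => norm_sum_le_of_le _ fun b hb => norm_sum_le_of_le _ fun c hc =>
    h a b c (mem_Ioc.1 ha).1 (mem_Ioc.1 hb).1 (mem_Ioc.1 hc).1

lemma Wt.Ic_sum (W : Wt) : ∃ C, 0 < C ∧ ∀ (T : ℝ) (h u : ℕ), 1 ≤ T → 0 < h → 0 < u → (h : ℝ) ≤ T →
    ‖B3 ⌊T ^ 2⌋₊ (fun a b c => W.Ic T ((a * b * c : ℕ) * u / h)) -
      2 * π * W.Sx ⌊T ^ 2⌋₊ h u (h * (T / (2 * π * u)))‖ ≤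
      C * (T ^ (1 / 5 : ℝ) * (h / u) * (1 + Real.log ⌊T ^ 2⌋₊) ^ 2 + 1 / T) := by
  obtain ⟨C1, hC1, h1⟩ := W.Ic_near
  obtain ⟨C2, hC2, h2⟩ := W.Ic_far 70 7
  refine ⟨2 * C1 + 2 * C2, by positivity, fun T h u hT hh hu hhT => ?_⟩
  set V := ⌊T ^ 2⌋₊
  have hT0 : 0 < T := by linarith
  have hV : (V : ℝ) ≤ T ^ 2 := Nat.floor_le (by positivity)
  have hh' : (0 : ℝ) < h := by exact_mod_cast hh
  have hu' : (1 : ℝ) ≤ u := by exact_mod_cast hu
  set τ := T ^ (1 / 10 : ℝ)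
  have hτ1 : 1 ≤ τ := Real.one_le_rpow hT (by norm_num)
  have hτ : τ ^ 10 = T := by
    rw [← Real.rpow_natCast, ← Real.rpow_mul hT0.le]; norm_num
  have hτ2 : T ^ (1 / 5 : ℝ) = τ ^ 2 := by
    rw [← Real.rpow_natCast, ← Real.rpow_mul hT0.le]; norm_num
  have hπ := Real.pi_gt_three
  have e : B3 V (fun a b c => W.Ic T ((a * b * c : ℕ) * u / h)) -
      2 * π * W.Sx V h u (h * (T / (2 * π * u))) = B3 V fun a b c =>
        W.Ic T ((a * b * c : ℕ) * u / h) - 2 * π * exp (-2 * π * I * ((a * b * c : ℕ) * u / h : ℝ)) *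
          W.w (2 * π * ((a * b * c : ℕ) * u / h) / T) := by
    simp only [Wt.Sx, B3, mul_sum, ← sum_sub_distrib]
    refine sum_congr rfl fun a _ => sum_congr rfl fun b _ => sum_congr rfl fun c _ => ?_
    rw [show ((a * b * c : ℕ) : ℝ) / (h * (T / (2 * π * u))) =
      2 * π * ((a * b * c : ℕ) * u / h) / T by field_simp, ec]
    push_cast; ring_nf
  rw [e]
  refine (norm_B3_le (G := fun a b c => 2 * C1 / τ ^ 9 *
    (if ((a * b * c : ℕ) : ℝ) ≤ τ ^ 11 * (h / u) then 1 else 0) + 2 * C2 / T ^ 7)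
    fun a b c ha hb hc => ?_).trans ?_
  · set m := a * b * c
    have hm : (1 : ℝ) ≤ m := by exact_mod_cast Nat.mul_pos (Nat.mul_pos ha hb) hc
    set ξ : ℝ := m * u / h with hξ
    have hiff : (m : ℝ) ≤ τ ^ 11 * (h / u) ↔ ξ ≤ τ ^ 11 := by
      rw [hξ, div_le_iff₀ hh', ← mul_div_assoc, le_div_iff₀ (by linarith)]
    simp only [hiff]
    split_ifs with h3
    · refine (h1 T ξ hT ?_).trans ?_
      · rw [hξ]; gcongr; nlinarith
      · have h4 : 1 / T ≤ 1 / τ ^ 9 := by rw [← hτ]; gcongr; norm_num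
        have h5 : ξ / T ^ 2 ≤ 1 / τ ^ 9 := by
          rw [← hτ, div_le_div_iff₀ (by positivity) (by positivity)]
          calc ξ * τ ^ 9 ≤ τ ^ 11 * τ ^ 9 := by gcongr
            _ = _ := by ring
        have : 0 < 2 * C2 / T ^ 7 := by positivity
        rw [div_eq_mul_one_div (2 * C1)]
        nlinarith
    · have h4 : T * τ ≤ ξ := by rw [← hτ, ← pow_succ]; exact (not_le.1 h3).le
      have h5 : T ≤ ξ := le_trans (by nlinarith) h4
      rw [W.eq_zero (by rw [one_le_div hT0]; nlinarith), ofReal_zero, mul_zero, sub_zero, mul_zero,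
        zero_add]
      refine (h2 T ξ hT h5).trans ?_
      have h6 : (T / ξ) ^ 70 ≤ 1 / T ^ 7 :=
        calc (T / ξ) ^ 70 ≤ (T / (T * τ)) ^ 70 := by gcongr
          _ = _ := by rw [← hτ]; field_simp
      rw [div_eq_mul_one_div (2 * C2)]
      nlinarith
  · rw [B3_add, B3_mul]
    have h3 := count_box V (Y := τ ^ 11 * (h / u)) (by positivity)
    have h4 : B3 V (fun _ _ _ => 2 * C2 / T ^ 7) ≤ 2 * C2 * (1 / T) := by
      simp only [B3, sum_const, Nat.card_Ioc, Nat.sub_zero, nsmul_eq_mul]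
      calc _ ≤ T ^ 2 * (T ^ 2 * (T ^ 2 * (2 * C2 / T ^ 7))) := by gcongr
        _ = _ := by field_simp
    have h5 := mul_le_mul_of_nonneg_left h3 (show 0 ≤ 2 * C1 / τ ^ 9 by positivity)
    rw [show 2 * C1 / τ ^ 9 * (τ ^ 11 * (h / u) * (1 + Real.log V) ^ 2) =
      2 * C1 * (τ ^ 2 * (h / u) * (1 + Real.log V) ^ 2) by field_simp] at h5
    rw [hτ2]
    have : 0 ≤ C2 * (τ ^ 2 * (h / u) * (1 + Real.log V) ^ 2) := by positivity
    have : 0 ≤ C1 * (1 / T) := by positivity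
    nlinarith

lemma Wt.NB_eq (W : Wt) {T : ℝ} (hT : 0 < T) (s : Finset (ℕ × ℕ × ℕ)) (γ : ℕ × ℕ × ℕ → ℝ)
    (hs : ∀ i ∈ s, 0 < hh i ∧ 0 < i.2.2) :
    W.Iw T (fun t => PP T t ^ 3 * psi (1 / T ^ 2) t * BB s γ t) = ∑ i ∈ s, (γ i / hh i : ℝ) *
      B3 ⌊T ^ 2⌋₊ fun a b c => W.Ic T ((a * b * c : ℕ) * i.2.2 / hh i) := by
  have e : (fun t => PP T t ^ 3 * psi (1 / T ^ 2) t * BB s γ t) = fun t =>
      ∑ p ∈ s ×ˢ (Ioc 0 ⌊T ^ 2⌋₊ ×ˢ Ioc 0 ⌊T ^ 2⌋₊ ×ˢ Ioc 0 ⌊T ^ 2⌋₊), (γ p.1 / hh p.1 : ℝ) *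
        (psi (1 / T ^ 2) t * pw ((p.2.1 * p.2.2.1 * p.2.2.2 : ℕ) * p.1.2.2 / hh p.1) (sc t)) := by
    ext t
    rw [PP_cube, B3_eq_prod, BB, mul_sum, sum_product s]
    refine sum_congr rfl fun i hi => ?_
    rw [sum_mul, sum_mul]
    refine sum_congr rfl fun v hv => ?_
    simp only [mem_product, mem_Ioc] at hv
    have h1 : (0 : ℝ) < (v.1 * v.2.1 * v.2.2 : ℕ) := by
      exact_mod_cast Nat.mul_pos (Nat.mul_pos hv.1.1 hv.2.1.1) hv.2.2.1
    have h2 : (0 : ℝ) < hh i := by exact_mod_cast (hs i hi).1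
    have h3 : (0 : ℝ) < i.2.2 := by exact_mod_cast (hs i hi).2
    have e2 : γ i / √(hh i * i.2.2) = γ i / hh i * (1 / √(i.2.2 / hh i)) := by
      rw [Real.sqrt_div h3.le, Real.sqrt_mul h2.le]
      have := Real.sq_sqrt h2.le
      have : 0 < √(hh i : ℝ) := by positivity
      field_simp
      rw [Real.sq_sqrt h2.le]
    rw [mul_div_assoc _ (i.2.2 : ℝ), pw_mul h1 (by positivity), pw_sc (x := i.2.2 / hh i) (by positivity),
      Real.log_div h3.ne' h2.ne', e2]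
    push_cast; ring_nf
  rw [e, W.Iw_sum hT _ _ (f := fun (p : (ℕ × ℕ × ℕ) × ℕ × ℕ × ℕ) t => psi (1 / T ^ 2) t *
    pw ((p.2.1 * p.2.2.1 * p.2.2.2 : ℕ) * p.1.2.2 / hh p.1) (sc t))
    fun p => (continuous_psi _).mul (continuous_pw_sc _), sum_product s]
  refine sum_congr rfl fun i _ => ?_
  rw [B3_eq_prod, mul_sum]
  rfl

end Pool.Agent.Lib.MP_80d0cf_nt.Six
end

-- part Pool.Agent.Lib.MP_80d0cf_nt.Six.NB
section

/-! The pairing of the second test function with the chirp. -/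

open Finset Complex MeasureTheory Filter ArithmeticFunction
open scoped Real ComplexConjugate ArithmeticFunction.zeta

namespace Pool.Agent.Lib.MP_80d0cf_nt.Six

lemma weilK : WeilK := fun p _ a b ha hb => Pool.Agent.Shared.Weil.kloosterman_le p a b ha hb

/-- inverse square root -/
noncomputable def iv : ArithmeticFunction ℝ := ⟨fun n => 1 / √n, by simp⟩

lemma iv_mult : iv.IsMultiplicative := ⟨by simp [iv], fun {m n} _ => by
  simp only [iv, coe_mk]; push_cast; rw [Real.sqrt_mul (by positivity), div_mul_div_comm, mul_one]⟩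

lemma D_two_le (n : ℕ) : D 2 n ≤ n := by
  rw [D_two]; exact_mod_cast Nat.card_divisors_le_self n

lemma DE_le {H h₀ q : ℕ} (hH : h₀ ≤ H) (hq : Squarefree q) (hc : h₀.Coprime q) :
    D 2 q * (D 2 (h₀ * q) * ∑ e ∈ (h₀ * q).divisors, 1 / √e) ≤
      H ^ 2 * ((D 4).pmul iv * D 4) q := by
  have e1 : ∀ n : ℕ, ∑ e ∈ n.divisors, 1 / √(e : ℝ) = (iv * ζ : ArithmeticFunction ℝ) n := fun n => by
    rw [coe_mul_zeta_apply]; rfl
  have hH' : (h₀ : ℝ) ≤ H := by exact_mod_cast hH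
  rw [e1, (iv_mult.mul isMultiplicative_zeta.natCast).2 hc, (D_mult 2).2 hc, ← e1, ← e1]
  have h1 : ∑ e ∈ h₀.divisors, 1 / √(e : ℝ) ≤ H := by
    refine le_trans (sum_le_card_nsmul _ _ 1 fun e he => ?_) ?_
    · have : (1 : ℝ) ≤ e := by exact_mod_cast Nat.pos_of_mem_divisors he
      exact div_le_one_of_le₀ (Real.one_le_sqrt.2 this) (by positivity)
    · rw [nsmul_eq_mul, mul_one, ← D_two]; exact (D_two_le _).trans hH'
  have h2 : D 2 q * D 2 q * ∑ e ∈ q.divisors, 1 / √(e : ℝ) = ((D 4).pmul iv * D 4) q := by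
    rw [D_mul_D hq, mul_apply, Nat.sum_divisorsAntidiagonal fun a b => ((D 4).pmul iv) a * D 4 b,
      mul_sum]
    refine sum_congr rfl fun e he => ?_
    have h3 := Nat.mul_div_cancel' (Nat.dvd_of_mem_divisors he)
    conv_lhs => rw [← h3, (D_mult _).2 (Nat.coprime_of_squarefree_mul (h3.symm ▸ hq))]
    rw [pmul_apply]; simp only [iv, coe_mk]; ring
  have h3 := D_nonneg 2 q
  have h4 : 0 ≤ ∑ e ∈ q.divisors, 1 / √(e : ℝ) := by positivity
  calc _ = D 2 h₀ * (∑ e ∈ h₀.divisors, 1 / √(e : ℝ)) *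
        (D 2 q * D 2 q * ∑ e ∈ q.divisors, 1 / √(e : ℝ)) := by ring
    _ ≤ H * H * (D 2 q * D 2 q * ∑ e ∈ q.divisors, 1 / √(e : ℝ)) := by
        gcongr; exact (D_two_le _).trans hH'
    _ = _ := by rw [h2, sq]

lemma sum_DE_le {T : ℝ} (hT : 1 ≤ T) :
    ∑ q ∈ Ioc 0 ⌊T⌋₊, ((D 4).pmul iv * D 4) q * (1 / q) ≤ 81 * (1 + Real.log T) ^ 4 := by
  have hiv : ∀ n, 0 ≤ iv n := fun n => by simp only [iv, coe_mk]; positivity
  refine (sum_mul_le _ _ (fun n => mul_nonneg (D_nonneg _ _) (hiv n)) (D_nonneg _)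
    (g := fun n => 1 / (n : ℝ)) (fun n => by positivity)
    (fun m n => by push_cast; rw [div_mul_div_comm, mul_one]) _).trans ?_
  have h1 := sum_D_floor_le 3 hT
  have h2 := sum_D_le 3 (g := fun n => iv n * (1 / n)) (fun n => mul_nonneg (hiv n) (by positivity))
    (fun m n => by
      simp only [iv, coe_mk]; push_cast; rw [Real.sqrt_mul (by positivity)]; ring) ⌊T⌋₊
  have h3 : ∑ n ∈ Ioc 0 ⌊T⌋₊, iv n * (1 / n) ≤ 3 := by
    rw [← sum_Ioc_consecutive _ zero_le_one (Nat.floor_pos.2 hT)]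
    have := sum_Ioc_rpow_le le_rfl ⌊T⌋₊
    rw [sum_congr rfl (g := fun n : ℕ => iv n * (1 / n)) fun n hn => ?_] at this
    · rw [show Ioc 0 1 = {1} from rfl, sum_singleton, iv_mult.1]
      norm_num at this ⊢
      linarith
    · have : (0 : ℝ) < n := by exact_mod_cast zero_lt_one.trans (mem_Ioc.1 hn).1
      rw [Real.rpow_sub this, Real.rpow_neg this.le, ← Real.sqrt_eq_rpow, Real.rpow_one]
      simp only [iv, coe_mk]; ring
  simp only [mul_one_div] at h1 ⊢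
  refine mul_le_mul (le_trans (le_of_eq ?_) (h2.trans ((pow_le_pow_left₀
    (sum_nonneg fun n _ => mul_nonneg (hiv n) (by positivity)) h3 _).trans (by norm_num)))) h1
    (sum_nonneg fun n _ => div_nonneg (D_nonneg _ _) (by positivity)) (by norm_num)
  exact sum_congr rfl fun n _ => by rw [pmul_apply]; ring

lemma Wt.err_sum (W : Wt) {θ : ℝ} (hθ : θ < 1) (H : ℕ) {K : ℝ} (hK : 0 ≤ K) {ε : ℝ} (hε : 0 < ε) :
    ∀ᶠ T : ℝ in atTop, ∀ s γ, Adm θ H K T s γ → (∀ i ∈ s, (hh i : ℝ) ≤ T) →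
    ∑ i ∈ s, |γ i| / hh i * ‖W.Err ⌊T ^ 2⌋₊ (hh i) i.2.2 (hh i * (T / (2 * π * i.2.2)))‖ ≤
      ε * (T * Real.log T ^ 9) := by
  obtain ⟨C1, hC1, h1⟩ := W.err_weil weilK
  obtain ⟨C2, hC2, h2⟩ := W.err_L2
  obtain ⟨C3, hC3, h3⟩ := divisor_bound (show 0 < (1 - θ) / 30 by linarith)
  filter_upwards [small_pow' (a := (1 + θ) / 2) (by linarith) (K * C1 * H ^ 4 * C3 ^ 5 * 3 ^ 6) 10
    (half_pos hε), small_pow' (a := (9 + θ) / 10) (by linarith)
    (K * C2 * H ^ 6 * (1 + H) * C3 ^ 4 * 3 ^ 5) 8 (half_pos hε), eventually_ge_atTop 1] with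
    T k1 k2 hT s γ hA hT'
  have hT0 : 0 < T := by linarith
  have hL := Real.log_nonneg hT
  have hπ := Real.pi_gt_three
  set L := Real.log T
  set B := C3 * T ^ ((1 - θ) / 10)
  have hB : ∀ i ∈ s, ∀ n ≤ (i.1 * i.2.1) ^ 3, D 2 n ≤ B := fun i hi n hn => by
    refine (h3 n).trans (mul_le_mul_of_nonneg_left ?_ (by linarith))
    calc (n : ℝ) ^ ((1 - θ) / 30) ≤ (T ^ 3) ^ ((1 - θ) / 30) := by
          gcongr
          exact le_trans (by exact_mod_cast hn) (pow_le_pow_left₀ (by positivity) (hT' i hi) 3)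
      _ = _ := by rw [← Real.rpow_natCast, ← Real.rpow_mul hT0.le]; congr 1; push_cast; ring
  have hB0 : 0 ≤ B := by positivity
  have hL1 : ∀ i ∈ s, 1 + Real.log ((i.1 * i.2.1) ^ 3 : ℕ) ≤ 3 * (1 + L) := fun i hi => by
    have := Real.log_le_log (by exact_mod_cast hA.hh_pos hi) (hT' i hi)
    rw [Nat.cast_pow, Real.log_pow]; rw [hh] at this; push_cast at this ⊢; linarith
  have hL2 : 1 + Real.log ⌊T ^ 2⌋₊ ≤ 3 * (1 + L) := by
    have := log_floor_le (one_le_pow₀ hT (n := 2))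
    rw [Real.log_pow] at this; push_cast at this; linarith
  have hγ : ∀ i ∈ s, |γ i| / hh i ≤ K * B * (1 + L) ^ 2 / i.2.1 := fun i hi => by
    have hq : (0 : ℝ) < i.2.1 := by exact_mod_cast hA.q_pos hi
    have : D 2 i.2.1 ≤ B := hB i hi _ ((hA.q_le_hh hi).trans (Nat.le_self_pow (by norm_num) _))
    gcongr
    · exact (hA.coef i hi).trans (by gcongr; linarith)
    · exact hA.q_le_hh hi
  have hX : ∀ i ∈ s, 0 < hh i * (T / (2 * π * i.2.2)) := fun i hi => by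
    have := hA.hh_pos hi; have := (hA.u0 i hi).1; positivity
  rw [← sum_filter_add_sum_filter_not s fun i => (i.2.1 : ℝ) ≤ T ^ (θ / 2), ← add_halves ε, add_mul,
    add_comm]
  refine add_le_add (le_trans ?_ k1) (le_trans ?_ k2)
  · calc _ ≤ ∑ i ∈ s, K * C1 * H ^ 3 * B ^ 5 * 3 ^ 6 * (1 + L) ^ 8 * T ^ θ *
          (1 / i.2.1 * (1 / i.2.2)) := by
          refine (sum_le_sum fun i hi => ?_).trans (sum_le_sum_of_subset_of_nonneg
            (filter_subset _ _) fun _ _ _ => by positivity)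
          obtain ⟨hi, h4⟩ := mem_filter.1 hi
          have hq : (0 : ℝ) < i.2.1 := by exact_mod_cast hA.q_pos hi
          have hu : (0 : ℝ) < i.2.2 := by exact_mod_cast (hA.u0 i hi).1
          have h5 : (i.1 : ℝ) ≤ H := by exact_mod_cast (hA.h0 i hi).2
          have h6 := (hA.r2 i hi).resolve_left h4
          refine (mul_le_mul (hγ i hi) (h1 _ _ _ _ _ B _ (hA.h0 i hi).1.ne' (hA.sq i hi) (hA.c1 i hi)
            ((hA.c2 i hi).coprime_dvd_right (dvd_mul_left _ _)) (hX i hi) (hB i hi) (hL1 i hi) hL2)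
            (norm_nonneg _) (by positivity)).trans ?_
          calc _ = K * C1 * i.1 ^ 3 * B ^ 5 * 3 ^ 6 * (1 + L) ^ 8 * (i.2.1 * √i.2.1 * i.2.2) *
                (1 / i.2.1 * (1 / i.2.2)) := by field_simp
            _ ≤ _ := by gcongr
      _ ≤ K * C1 * H ^ 3 * B ^ 5 * 3 ^ 6 * (1 + L) ^ 8 * T ^ θ * (H * ((1 + L) * (1 + L))) := by
          rw [← mul_sum]
          gcongr
          refine (hA.sum_le hθ hT (f := fun n => 1 / (n : ℝ)) fun n => by positivity).trans ?_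
          gcongr
          exact (sum_inv_le _).trans (by linarith [log_floor_le hT])
      _ = _ := by
          rw [show (1 + θ) / 2 = (1 - θ) / 10 * (5 : ℕ) + θ by push_cast; ring, Real.rpow_add hT0,
            Real.rpow_mul_natCast hT0.le]
          ring
  · set s₁ := s.filter fun i => (i.2.1 : ℝ) ≤ T ^ (θ / 2)
    have hsub : s₁ ⊆ Ioc 0 H ×ˢ Ioc 0 ⌊T ^ (θ / 2)⌋₊ ×ˢ Ioc 0 ⌊T⌋₊ := fun i hi => by
      obtain ⟨hi, h4⟩ := mem_filter.1 hi
      have := hA.subset hθ hT hi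
      simp only [mem_product, mem_Ioc] at this ⊢
      exact ⟨this.1, ⟨this.2.1.1, Nat.le_floor h4⟩, this.2.2⟩
    rw [← inter_eq_right.2 hsub, ← filter_mem_eq_inter, sum_filter, sum_product]
    simp only [sum_product]
    simp only [← sum_filter]
    have hs : T ^ (θ / 2) ≤ √T := by
      rw [Real.sqrt_eq_rpow]; exact Real.rpow_le_rpow_of_exponent_le hT (by linarith)
    calc _ ≤ ∑ a ∈ Ioc 0 H, ∑ q ∈ Ioc 0 ⌊T ^ (θ / 2)⌋₊,
          K * C2 * H ^ 5 * (1 + H) * B ^ 4 * 3 ^ 5 * (1 + L) ^ 8 * √T := by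
          refine sum_le_sum fun a ha => sum_le_sum fun q hq => ?_
          set U := (Ioc 0 ⌊T⌋₊).filter fun u => (a, q, u) ∈ s₁
          rcases U.eq_empty_or_nonempty with h4 | ⟨u₀, h4⟩
          · rw [h4, sum_empty]; positivity
          have hU : ∀ u ∈ U, (a, q, u) ∈ s := fun u hu => (mem_filter.1 (mem_filter.1 hu).2).1
          have hi := hU u₀ h4
          have hq0 : (0 : ℝ) < q := by exact_mod_cast (mem_Ioc.1 hq).1
          have hq1 : (q : ℝ) ≤ √T := le_trans (mem_filter.1 (mem_filter.1 h4).2).2 hs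
          have haH : (a : ℝ) ≤ H := by exact_mod_cast (mem_Ioc.1 ha).2
          have h5 := h2 ⌊T ^ 2⌋₊ a q U (fun u => (a * q : ℕ) * (T / (2 * π * u))) B _
            (mem_Ioc.1 ha).1.ne' (hA.sq _ hi) (hA.c1 _ hi) (fun u hu => ⟨(hA.u0 _ (hU u hu)).1,
              (hA.u0 _ (hU u hu)).2.trans (hA.q_le_hh (hU u hu)),
              (hA.c2 _ (hU u hu)).coprime_dvd_right (dvd_mul_left _ _)⟩)
            (fun u hu => hX _ (hU u hu)) (hB _ hi) (hL1 _ hi) hL2
          have h6 : √((a * q : ℕ) * ∑ u ∈ U, (a * q : ℕ) * (T / (2 * π * u))) ≤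
              H * q * ((1 + L) * √T) := by
            refine Real.sqrt_le_iff.2 ⟨by positivity, ?_⟩
            have h7 : ∑ u ∈ U, T / (2 * π * u) ≤ T * (1 + L) := by
              refine le_trans (sum_le_sum (g := fun u : ℕ => T * (1 / u)) fun u hu => ?_) ?_
              · have : (0 : ℝ) < u := by exact_mod_cast (hA.u0 _ (hU u hu)).1
                rw [mul_one_div]; gcongr; nlinarith
              · rw [← mul_sum]
                gcongr
                exact (sum_le_sum_of_subset_of_nonneg (filter_subset _ _) fun _ _ _ => by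
                  positivity).trans ((sum_inv_le _).trans (by linarith [log_floor_le hT]))
            rw [← mul_sum, mul_pow, mul_pow (1 + L), Real.sq_sqrt hT0.le]
            push_cast
            calc _ ≤ (H * q) * ((H * q) * (T * (1 + L) ^ 2)) := by
                  gcongr; exact h7.trans (by gcongr; nlinarith)
              _ = _ := by ring
          have h7 : ((a * q : ℕ) : ℝ) ^ 2 ≤ H * q * (H * ((1 + L) * √T)) := by
            push_cast; rw [sq]; gcongr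
            exact hq1.trans (le_mul_of_one_le_left (by positivity) (by linarith))
          calc _ ≤ K * B * (1 + L) ^ 2 / q * ∑ u ∈ U, ‖W.Err ⌊T ^ 2⌋₊ (a * q) u
                ((a * q : ℕ) * (T / (2 * π * u)))‖ := by
                rw [mul_sum]
                exact sum_le_sum fun u hu => mul_le_mul_of_nonneg_right (hγ _ (hU u hu)) (norm_nonneg _)
            _ ≤ K * B * (1 + L) ^ 2 / q * (C2 * (H ^ 4 * B ^ 3 * (3 * (1 + L)) ^ 5 *
                (H * q * ((1 + L) * √T) + H * q * (H * ((1 + L) * √T))))) := by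
                gcongr; exact h5.trans (by gcongr)
            _ = _ := by field_simp
      _ ≤ H * (T ^ (θ / 2) * (K * C2 * H ^ 5 * (1 + H) * B ^ 4 * 3 ^ 5 * (1 + L) ^ 8 * √T)) := by
          simp only [sum_const, Nat.card_Ioc, Nat.sub_zero, nsmul_eq_mul]
          gcongr
          exact Nat.floor_le (by positivity)
      _ = _ := by
          rw [show (9 + θ) / 10 = (1 - θ) / 10 * (4 : ℕ) + θ / 2 + 1 / 2 by push_cast; ring,
            Real.rpow_add hT0, Real.rpow_add hT0, Real.rpow_mul_natCast hT0.le, Real.sqrt_eq_rpow]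
          ring

theorem Wt.piece_NB (W : Wt) {θ : ℝ} (hθ : θ < 1) (H : ℕ) {K : ℝ} (hK : 0 ≤ K) {ε : ℝ} (hε : 0 < ε) :
    ∀ᶠ T : ℝ in atTop, ∀ s γ, Adm θ H K T s γ →
    ‖W.Iw T (fun t => PP T t ^ 3 * psi (1 / T ^ 2) t * BB s γ t) - T * W.c *
      (∑ i ∈ s, γ i * Mh (hh i) (Real.log (T / (2 * π * i.2.2))) / (hh i * i.2.2) : ℝ)‖ ≤
      ε * (T * Real.log T ^ 9) := by
  obtain ⟨C1, hC1, h1⟩ := W.Ic_sum
  obtain ⟨C2, hC2, h2⟩ := W.main_approx
  have hπ := Real.pi_gt_three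
  filter_upwards [W.err_sum hθ H hK (ε := ε / 3 / (2 * π)) (by positivity),
    small_pow' (a := 13 / 15) (by norm_num) (5 * K * C1 * H) 7 (show 0 < ε / 3 by positivity),
    small_log (2 * C2 * K * H ^ 3 * 81) (show 0 < ε / 3 by positivity), eventually_ge_atTop 2,
    small_pow (a := 2 / 3) (by norm_num) (2 * π + H) 0 one_pos] with T k1 k2 k3 hT2 k4 s γ hA
  have hT : 1 ≤ T := by linarith
  have hT0 : 0 < T := by linarith
  have hL := Real.log_nonneg hT
  set L := Real.log T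
  set V := ⌊T ^ 2⌋₊
  rw [pow_zero, mul_one, one_mul] at k4
  have h23 : 0 < T ^ (2 / 3 : ℝ) := by positivity
  have hT' : ∀ i ∈ s, (hh i : ℝ) ≤ T := fun i hi =>
    (hA.hh_le hi).trans ((mul_le_mul_of_nonneg_left (hA.q_le hθ hT hi) (by positivity)).trans
      (by nlinarith))
  have hLV : 1 + Real.log V ≤ 2 * (1 + L) := by
    have := log_floor_le (one_le_pow₀ hT (n := 2))
    rw [Real.log_pow] at this; push_cast at this; linarith
  have hLV0 := Real.log_natCast_nonneg V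
  rw [W.NB_eq hT0 s γ fun i hi => ⟨hA.hh_pos hi, (hA.u0 i hi).1⟩, ofReal_sum, mul_sum,
    ← sum_sub_distrib]
  refine (norm_sum_le_of_le _ (n := fun i =>
    2 * π * (|γ i| / hh i * ‖W.Err V (hh i) i.2.2 (hh i * (T / (2 * π * i.2.2)))‖) +
    5 * K * C1 * T ^ (13 / 15 : ℝ) * (1 + L) ^ 4 * (D 2 i.2.1 / i.2.1 * (1 / i.2.2)) +
    2 * C2 * K * H ^ 2 * T * (1 + L) ^ 3 * (((D 4).pmul iv * D 4) i.2.1 * (1 / i.2.1) * (1 / i.2.2)))
    fun i hi => ?_).trans ?_
  · set h := hh i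
    set u := i.2.2
    set q := i.2.1
    set Y := T / (2 * π * u) with hY
    have hu : (1 : ℝ) ≤ u := by exact_mod_cast (hA.u0 i hi).1
    have hq : (0 : ℝ) < q := by exact_mod_cast hA.q_pos hi
    have huq : (u : ℝ) ≤ q := by exact_mod_cast (hA.u0 i hi).2
    have hqh : (q : ℝ) ≤ h := by exact_mod_cast hA.q_le_hh hi
    have hqT := hA.q_le hθ hT hi
    have hY1 : 1 ≤ Y := by
      rw [hY, one_le_div (by positivity)]
      have : (0 : ℝ) ≤ H * T ^ (2 / 3 : ℝ) := by positivity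
      nlinarith
    have hYV : h * Y ≤ V := by
      have : Y ≤ T / 2 := by rw [hY]; gcongr; nlinarith
      have h3 := Nat.sub_one_lt_floor (T ^ 2)
      have := mul_le_mul (hT' i hi) this (by linarith) hT0.le
      nlinarith
    have e1 := h1 T h u hT (hA.hh_pos hi) (hA.u0 i hi).1 (hT' i hi)
    have e2 := h2 V h Y (hA.hh_pos hi).ne' hY1 hYV
    rw [W.Sx_eq V (hA.hh_pos hi).ne' (hA.c2 i hi)] at e1
    set X1 := B3 V fun a b c => W.Ic T ((a * b * c : ℕ) * u / h)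
    set X2 := W.Err V h u (h * Y)
    set X3 := B3 V fun a b c => W.w ((a * b * c : ℕ) / (h * Y)) * zw h a b c
    have e : ((γ i / h : ℝ) : ℂ) * X1 - T * W.c * (γ i * Mh h (Real.log Y) / (h * u) : ℝ) =
        (γ i / h : ℝ) * (2 * π * X2 + (X1 - 2 * π * (X2 + X3)) +
          (2 * π * (X3 - W.c * Y * Mh h (Real.log Y)) : ℝ)) := by
      have : (u : ℂ) ≠ 0 := by exact_mod_cast (hA.u0 i hi).1.ne'
      have : (π : ℂ) ≠ 0 := by exact_mod_cast Real.pi_pos.ne'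
      rw [hY]; push_cast; field_simp; ring
    rw [e, norm_mul, norm_real, Real.norm_eq_abs, abs_div, Nat.abs_cast]
    refine (mul_le_mul_of_nonneg_left (norm_add₃_le) (by positivity)).trans ?_
    have hD := D_nonneg 2 q
    have hγ : |γ i| ≤ K * D 2 q * (1 + L) ^ 2 := (hA.coef i hi).trans (by gcongr; linarith)
    rw [mul_add, mul_add]
    refine add_le_add (add_le_add (le_of_eq ?_) ?_) ?_
    · rw [norm_mul, norm_mul, norm_real, Real.norm_of_nonneg Real.pi_pos.le]; simp; ring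
    · have h15 : 1 ≤ T ^ (1 / 5 : ℝ) := Real.one_le_rpow hT (by norm_num)
      have h3 : 1 / T ≤ T ^ (1 / 5 : ℝ) * (h / u) * (1 + L) ^ 2 := by
        refine le_trans (div_le_one_of_le₀ hT hT0.le) (one_le_mul_of_one_le_of_one_le
          (one_le_mul_of_one_le_of_one_le h15 ?_) (one_le_pow₀ (by linarith)))
        rw [one_le_div (by linarith)]; linarith
      calc _ ≤ K * D 2 q * (1 + L) ^ 2 / h * (C1 * (T ^ (1 / 5 : ℝ) * (h / u) * (2 * (1 + L)) ^ 2 +
            T ^ (1 / 5 : ℝ) * (h / u) * (1 + L) ^ 2)) := by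
            gcongr; exact e1.trans (by gcongr)
        _ = 5 * K * C1 * (T ^ (1 / 5 : ℝ) * q) * (1 + L) ^ 4 * (D 2 q / q * (1 / u)) := by
            have : (0 : ℝ) < h := by linarith
            field_simp; ring
        _ ≤ _ := by
            rw [show (13 / 15 : ℝ) = 1 / 5 + 2 / 3 by norm_num, Real.rpow_add hT0]; gcongr
    · have h3 := DE_le (hA.h0 i hi).2 (hA.sq i hi) (hA.c1 i hi)
      have h4 : 1 + Real.log (h * Y) ≤ 2 * (1 + L) :=
        le_trans (by gcongr; nlinarith) hLV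
      have h5 : 0 ≤ D 2 h * ∑ e ∈ h.divisors, 1 / √(e : ℝ) := by have := D_nonneg 2 h; positivity
      rw [norm_real, Real.norm_eq_abs, abs_mul, abs_of_pos (by positivity : 0 < 2 * π)]
      calc _ ≤ K * D 2 q * (1 + L) ^ 2 / q * (2 * π * (C2 * Y * (2 * (1 + L)) *
            (D 2 h * ∑ e ∈ h.divisors, 1 / √(e : ℝ)))) := by
            gcongr; exact e2.trans (by gcongr)
        _ = 2 * C2 * K * T * (1 + L) ^ 3 * (D 2 q * (D 2 h * ∑ e ∈ h.divisors, 1 / √(e : ℝ))) *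
            (1 / q * (1 / u)) := by rw [hY]; field_simp
        _ ≤ 2 * C2 * K * T * (1 + L) ^ 3 * (H ^ 2 * ((D 4).pmul iv * D 4) q) *
            (1 / q * (1 / u)) :=
            mul_le_mul_of_nonneg_right (mul_le_mul_of_nonneg_left h3 (by positivity)) (by positivity)
        _ = _ := by ring
  · rw [sum_add_distrib, sum_add_distrib, ← mul_sum, ← mul_sum, ← mul_sum]
    have a1 := mul_le_mul_of_nonneg_left (k1 s γ hA hT') (by positivity : 0 ≤ 2 * π)
    rw [← mul_assoc, mul_div_cancel₀ _ (by positivity)] at a1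
    have a2 := (hA.sum_le hθ hT (f := fun n => D 2 n / n) fun n =>
      div_nonneg (D_nonneg _ _) (by positivity)).trans (mul_le_mul_of_nonneg_left
        (mul_le_mul_of_nonneg_right (sum_D_floor_le 1 hT) (by positivity)) (by positivity))
    have a3 := (hA.sum_le hθ hT (f := fun n => ((D 4).pmul iv * D 4) n * (1 / n)) fun n =>
      mul_nonneg (by
        rw [mul_apply]
        exact sum_nonneg fun p _ => mul_nonneg (mul_nonneg (D_nonneg _ _) (by
          simp only [iv, coe_mk]; positivity)) (D_nonneg _ _)) (by positivity)).trans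
      (mul_le_mul_of_nonneg_left (mul_le_mul_of_nonneg_right (sum_DE_le hT) (by positivity))
        (by positivity))
    have a4 := mul_le_mul_of_nonneg_left a2
      (by positivity : 0 ≤ 5 * K * C1 * T ^ (13 / 15 : ℝ) * (1 + L) ^ 4)
    have a5 := mul_le_mul_of_nonneg_left a3 (by positivity : 0 ≤ 2 * C2 * K * H ^ 2 * T * (1 + L) ^ 3)
    have a6 := mul_le_mul_of_nonneg_left k3 hT0.le
    refine (add_le_add (add_le_add a1 (a4.trans (le_trans (le_of_eq ?_) k2)))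
      (a5.trans (le_trans (le_of_eq ?_) a6))).trans (le_of_eq ?_) <;> ring

end Pool.Agent.Lib.MP_80d0cf_nt.Six
end

-- part Pool.Agent.Lib.MP_80d0cf_nt.Six.Analytic
section

/-! The analytic lower bound for the sixth moment. -/

open Finset Complex MeasureTheory Filter
open scoped Real ComplexConjugate

namespace Pool.Agent.Lib.MP_80d0cf_nt.Six

lemma Wt.int_le (W : Wt) {T : ℝ} (hT : 0 < T) {g : ℝ → ℝ} (hg : Continuous g) (h0 : ∀ t, 0 ≤ g t) :
    ∫ t, W.w (t / T) * g t ≤ ∫ t in (0 : ℝ)..T, g t := by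
  rw [← intervalIntegral.integral_eq_integral_of_support_subset (a := 0) (b := T) fun t ht => ?_]
  · exact intervalIntegral.integral_mono_on hT.le (W.integrable_real hT hg).intervalIntegrable
      (hg.intervalIntegrable _ _) fun t _ => mul_le_of_le_one_left (h0 t) (W.le_one _)
  · have := W.supp_div hT (left_ne_zero_of_mul ht)
    exact ⟨(mul_pos W.d_pos hT).trans this.1, this.2.le⟩

theorem Wt.analytic (W : Wt) {θ : ℝ} (hθ0 : 0 ≤ θ) (hθ : θ < 1) {H : ℕ} (hH : 0 < H) {K : ℝ}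
    (hK : 0 ≤ K) {ε : ℝ} (hε : 0 < ε) (hε1 : ε ≤ 1) : ∀ᶠ T : ℝ in atTop, ∀ (N : ℕ) s γ,
    (N : ℝ) ≤ T ^ θ → Adm θ H K T s γ →
    W.c * ((2 - ε) * ∑ n ∈ Ioc 0 N, D 3 n ^ 2 / n +
      4 * ∑ i ∈ s, γ i * Mh (hh i) (Real.log (T / (2 * π * i.2.2))) / (hh i * i.2.2) -
      (2 + ε) * ∑ i ∈ s, γ i ^ 2 / (hh i * i.2.2)) ≤
    (1 + ε) * (T⁻¹ * ∫ t in (0 : ℝ)..T, ‖riemannZeta (sc t)‖ ^ 6) + ε * Real.log T ^ 9 := by
  have hd := W.d_pos
  have hδ : 0 < ε / 27 := by positivity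
  obtain ⟨C, hC⟩ := point_ineq hε hε1 (show 0 ≤ 2 / W.d + 8 by positivity)
  filter_upwards [W.piece_NA hθ hδ, W.piece_DA hθ hδ, W.piece_DB hθ hH hK hδ, W.piece_NB hθ H hK hδ,
    W.piece_cross hθ0 hθ hH hK hδ, small_log |C| hδ, eventually_ge_atTop 2,
    eventually_ge_atTop (40000 / ε / W.d)] with T k1 k2 k3 k4 k5 k6 hT2 hT3 N s γ hN hA
  have hT : 0 < T := by linarith
  have hL := Real.log_nonneg (show 1 ≤ T by linarith)
  obtain ⟨k7, k8, k9, k10⟩ := k5 N s γ hN hA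
  have c1 := continuous_AA N
  have c2 := continuous_BB s γ
  have c3 := continuous_PP T
  have c4 := continuous_psi (1 / T ^ 2)
  have c5 := continuous_om0
  have c6 := continuous_zeta_sc
  let f : Fin 8 → ℝ → ℂ := ![fun t => AA N t * PP T t ^ 3,
    fun t => PP T t ^ 3 * psi (1 / T ^ 2) t * BB s γ t, fun t => AA N t * conj (AA N t),
    fun t => BB s γ t * conj (BB s γ t), fun t => AA N t * conj (BB s γ t) * conj (om0 t) ^ 1,
    fun t => AA N t * AA N t * conj (om0 t) ^ 3, fun t => AA N t * BB s γ t * conj (om0 t) ^ 2,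
    fun t => BB s γ t * BB s γ t * conj (om0 t) ^ 1]
  have hf : ∀ i, Continuous (f i) := fun i => by
    fin_cases i <;> simp [f, -one_div] <;> fun_prop
  let a : Fin 8 → ℝ := ![4, 4, -(2 + ε), -(2 + ε), -4, -2, -4, -2]
  have h1 : (W.Iw T fun t => ∑ i, (a i : ℂ) * f i t).re ≤
      (1 + ε) * (∫ t in (0 : ℝ)..T, ‖riemannZeta (sc t)‖ ^ 6) + |C| * T := by
    have hF : Continuous fun t => ∑ i, (a i : ℂ) * f i t := by fun_prop
    have hg : Continuous fun t => (1 + ε) * ‖riemannZeta (sc t)‖ ^ 6 + |C| := by fun_prop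
    refine le_trans (le_trans ?_ (W.int_le hT hg fun t => by positivity)) (le_of_eq ?_)
    · rw [Wt.Iw, ← RCLike.re_to_complex, ← integral_re (W.integrable hT hF)]
      refine integral_mono (W.integrable hT hF).re (W.integrable_real hT hg) fun t => ?_
      simp only [RCLike.re_to_complex, re_ofReal_mul]
      rcases eq_or_ne (W.w (t / T)) 0 with h | h
      · simp [h]
      refine mul_le_mul_of_nonneg_left ?_ (W.nonneg _)
      obtain ⟨h2, h3⟩ := W.supp_div hT h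
      rw [div_le_iff₀ hd, div_le_iff₀ hε] at hT3
      have h4 : 40000 ≤ t * ε := by nlinarith
      have ht : 11 ≤ t := by nlinarith
      obtain ⟨ω, h5, h6⟩ := exists_om ht
      have h7 : 20 / t ≤ ε / 2000 := by rw [div_le_div_iff₀ (by linarith) (by norm_num)]; linarith
      have hV := Nat.sub_one_lt_floor (T ^ 2)
      have hV' : (⌊T ^ 2⌋₊ : ℝ) ≤ T ^ 2 := Nat.floor_le (by positivity)
      have := hC _ (PP T t) (AA N t) (BB s γ t) ω _ _ (norm_om0 t) h5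
        (h6.trans (le_trans (by gcongr; norm_num) h7)) ((psi_close ht h3.le).trans h7)
        ((zeta_approx (Nat.floor_pos.2 (by nlinarith)) (by linarith)).trans (add_le_add ?_ ?_))
      · refine le_trans (le_of_eq ?_) (this.trans (by linarith [le_abs_self C]))
        simp only [Fin.sum_univ_eight, a, f]
        congr 1
        simp; ring
      · rw [div_le_div_iff₀ (by linarith) hd]
        have : √((⌊T ^ 2⌋₊ : ℝ) + 1) ≤ 2 * T := Real.sqrt_le_iff.2 ⟨by positivity, by nlinarith⟩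
        nlinarith
      · have : T / 2 ≤ √(⌊T ^ 2⌋₊ : ℝ) := Real.le_sqrt_of_sq_le (by nlinarith)
        rw [div_le_iff₀ (by linarith)]
        linarith
    · rw [intervalIntegral.integral_add (Continuous.intervalIntegrable (by fun_prop) _ _)
        (continuous_const.intervalIntegrable _ _), intervalIntegral.integral_const_mul]
      simp [mul_comm]
  rw [W.Iw_sum hT _ _ hf] at h1
  simp only [Fin.sum_univ_eight, add_re, re_ofReal_mul] at h1
  simp only [a, f, Matrix.cons_val] at h1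
  have r : ∀ {z : ℂ} {x y e : ℝ}, ‖z - T * x * y‖ ≤ e → |z.re - T * x * y| ≤ e := fun {z x y e} h => by
    refine le_trans (le_of_eq ?_) ((abs_re_le_norm _).trans h)
    simp
  have r' : ∀ {z : ℂ} {e : ℝ}, ‖z‖ ≤ e → z.re ≤ e := fun h => (re_le_norm _).trans h
  have m1 := (abs_le.1 (r (k1 N hN))).1
  have m2 := (abs_le.1 (r (k2 N hN))).2
  have m3 := (abs_le.1 (r (k3 s γ hA))).2
  have m4 := (abs_le.1 (r (k4 s γ hA))).1
  have m5 := mul_le_mul_of_nonneg_left m2 (show 0 ≤ 2 + ε by positivity)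
  have m6 := mul_le_mul_of_nonneg_left m3 (show 0 ≤ 2 + ε by positivity)
  have m7 : |C| * T ≤ ε / 27 * (T * Real.log T ^ 9) := by
    have : |C| ≤ |C| * (1 + Real.log T) ^ 8 :=
      le_mul_of_one_le_right (abs_nonneg _) (one_le_pow₀ (by linarith))
    nlinarith
  have m8 : (2 + ε) * (ε / 27 * (T * Real.log T ^ 9)) ≤ 3 * (ε / 27 * (T * Real.log T ^ 9)) := by
    gcongr; linarith
  refine le_of_mul_le_mul_left ?_ hT
  rw [mul_add T, mul_left_comm T (1 + ε), mul_inv_cancel_left₀ hT.ne']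
  linarith [r' k7, r' k8, r' k9, r' k10]

end Pool.Agent.Lib.MP_80d0cf_nt.Six
end

-- part Pool.Agent.Lib.MP_80d0cf_nt.Six.Final
section

/-! The lower bound for the sixth moment. -/

open Finset Filter ArithmeticFunction Topology
open scoped Nat Real

namespace Pool.Agent.Lib.MP_80d0cf_nt.Six

/-- the region -/
noncomputable def reg (θ L : ℝ) : Finset (ℕ × ℕ) := RR L 0 (θ / 2) (fun _ => 0) (fun x => x) ∪
  RR L (θ / 2) (3 * θ / 5) (fun x => x - θ / 2) fun x => θ - 3 / 2 * x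

lemma mem_reg {θ L : ℝ} (h0 : 0 ≤ θ) (h1 : θ ≤ 1) (hL : 0 < L) {p : ℕ × ℕ} (h : p ∈ reg θ L) :
    0 < p.1 ∧ 0 < p.2 ∧ Real.log p.2 ≤ Real.log p.1 ∧ Real.log p.1 ≤ L ∧
      Real.log p.1 ≤ Real.log p.2 + L * (θ / 2) ∧
      (Real.log p.1 ≤ L * (θ / 2) ∨ 3 / 2 * Real.log p.1 + Real.log p.2 ≤ L * θ) := by
  have e1 := mul_div_cancel₀ (Real.log p.1) hL.ne'
  have e2 := mul_div_cancel₀ (Real.log p.2) hL.ne'
  rcases mem_union.1 h with h | h <;> obtain ⟨a, b⟩ := (mem_RR p).1 h <;>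
    obtain ⟨a1, a2, a3⟩ := mem_Rg hL a <;> obtain ⟨b1, b2, b3⟩ := mem_Rg hL b <;>
    refine ⟨a1, b1, by nlinarith, by nlinarith, by nlinarith, ?_⟩
  · left; nlinarith
  · right; nlinarith

lemma reg_subset {θ L : ℝ} (h0 : 0 ≤ θ) (h1 : θ ≤ 1) (hL : 0 < L) :
    reg θ L ⊆ Ioc 0 ⌊Real.exp L⌋₊ ×ˢ Ioc 0 ⌊Real.exp L⌋₊ := fun p hp => by
  obtain ⟨a1, a2, a3, a4, -⟩ := mem_reg h0 h1 hL hp
  simp only [mem_product, mem_Ioc, le_floor_exp a1, le_floor_exp a2]
  exact ⟨⟨a1, a4⟩, a2, a3.trans a4⟩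

/-- the index set -/
noncomputable def ss (y K : ℕ) (θ L : ℝ) : Finset (ℕ × ℕ × ℕ) :=
  ((primorial y ^ K).divisors ×ˢ reg θ L).filter fun i =>
    Squarefree i.2.1 ∧ i.2.1.Coprime (primorial y) ∧ i.2.2.Coprime (i.1 * i.2.1)

lemma adm_ss (y K : ℕ) {θ θ' L : ℝ} (h0 : 0 ≤ θ) (h1 : θ ≤ 1) (h2 : θ ≤ θ') (hL : 0 < L) :
    Adm θ' (primorial y ^ K) (primorial y ^ K : ℕ) (Real.exp L) (ss y K θ L) (gam L) := by
  have key : ∀ i ∈ ss y K θ L, (i.1 ∈ (primorial y ^ K).divisors ∧ i.2 ∈ reg θ L) ∧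
      Squarefree i.2.1 ∧ i.2.1.Coprime (primorial y) ∧ i.2.2.Coprime (i.1 * i.2.1) := fun i hi => by
    simpa only [ss, mem_filter, mem_product] using hi
  have hm : L * θ ≤ L * θ' := by gcongr
  refine ⟨fun i hi => ⟨Nat.pos_of_mem_divisors (key i hi).1.1, Nat.divisor_le (key i hi).1.1⟩,
    fun i hi => (key i hi).2.1, fun i hi => (((key i hi).2.2.1.pow_right K).coprime_dvd_right
      (Nat.dvd_of_mem_divisors (key i hi).1.1)).symm, fun i hi => ?_, fun i hi => (key i hi).2.2.2,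
    fun i hi => ?_, fun i hi => ?_, fun i hi => ?_, fun i hi j hj e1 e2 => ?_⟩
  · obtain ⟨a1, a2, a3, -⟩ := mem_reg h0 h1 hL (key i hi).1.2
    exact ⟨a2, by exact_mod_cast (Real.log_le_log_iff (by positivity) (by positivity)).1 a3⟩
  · obtain ⟨a1, a2, -, -, a3, -⟩ := mem_reg h0 h1 hL (key i hi).1.2
    rw [← Real.log_le_log_iff (by positivity) (by positivity), Real.log_mul (by positivity)
      (by positivity), ← Real.exp_mul, Real.log_exp]
    linarith
  · obtain ⟨a1, a2, -, -, -, a3⟩ := mem_reg h0 h1 hL (key i hi).1.2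
    refine a3.imp (fun h => ?_) fun h => ?_
    · rw [← Real.exp_mul, ← Real.log_le_iff_le_exp (by positivity)]; linarith
    · rw [← Real.exp_mul, ← Real.log_le_iff_le_exp (by positivity), Real.log_mul (by positivity)
        (by positivity), Real.log_mul (by positivity) (by positivity), Real.log_sqrt (by positivity)]
      linarith
  · obtain ⟨a1, a2⟩ := mem_product.1 (reg_subset h0 h1 hL (key i hi).1.2)
    have a3 := lg_mem hL a2
    have a4 := Qf_le (lg_mem hL a1) (Y := 1 - Real.log i.2.2 / L) ⟨by linarith, by linarith⟩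
    have a5 : rho i.1 ≤ (primorial y ^ K : ℕ) := by
      refine (sum_le_card_nsmul _ _ 1 fun g _ => div_le_one_of_le₀
        (by exact_mod_cast Nat.totient_le g) (by positivity)).trans ?_
      rw [nsmul_eq_mul, mul_one]
      exact_mod_cast (Nat.card_divisors_le_self _).trans (Nat.divisor_le (key i hi).1.1)
    have := rho_nonneg i.1
    have := D_nonneg 2 i.2.1
    rw [gam, abs_mul, abs_of_nonneg (by positivity), Real.log_exp]
    exact (mul_le_of_le_one_right (by positivity) a4).trans (by gcongr)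
  · have := split_inj (Nat.dvd_of_mem_divisors (key i hi).1.1) (Nat.dvd_of_mem_divisors (key j hj).1.1)
      (key i hi).2.2.1 (key j hj).2.2.1 (Nat.pos_of_mem_divisors (key i hi).1.1) e1
    exact Prod.ext this.1 (Prod.ext this.2 e2)

lemma arith_lower {y : ℕ} (hy : 0 < y) (K : ℕ) {ε η θ g : ℝ} (hε : 0 ≤ ε) (hε2 : ε ≤ 2) (hη : 0 < η)
    (hη1 : η ≤ 1) (h0 : 0 ≤ θ) (h1 : θ ≤ 1)
    (hg : g < (2 - ε) * ((1 - 81 / y) * (θ ^ 9 / 9 !) * ((((primorial y).totient : ℝ) / primorial y) ^ 9 *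
      ∑ d ∈ (primorial y ^ K).divisors, D 3 d ^ 2 / d)) +
      ((2 - ε) * (JJ 0 (θ / 2) (fun _ => 0) (fun x => x) + JJ (θ / 2) (3 * θ / 5) (fun x => x - θ / 2)
        fun x => θ - 3 / 2 * x) - (204 * η + 576 / y) / 24) *
      ((((primorial y).totient : ℝ) / primorial y) ^ 4 *
        ∑ d ∈ (primorial y ^ K).divisors, rho d ^ 2 / d * (d.totient / d))) :
    ∀ᶠ L : ℝ in atTop, g * L ^ 9 ≤
      (2 - ε) * ∑ n ∈ Ioc 0 (primorial y ^ K * ⌊Real.exp (θ * L)⌋₊), D 3 n ^ 2 / n +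
      4 * ∑ i ∈ ss y K θ L, gam L i * Mh (hh i) (Real.log (Real.exp L / (2 * π * i.2.2))) /
        (hh i * i.2.2) - (2 + ε) * ∑ i ∈ ss y K θ L, gam L i ^ 2 / (hh i * i.2.2) := by
  have hP := primorial_ne_zero y
  set P := primorial y
  have t := (((typ_copD hP 8).tendsto h0 h1).const_mul ((2 - ε) * (1 - 81 / y) *
    ∑ d ∈ (P ^ K).divisors, D 3 d ^ 2 / d)).add (tendsto_finsetSum (P ^ K).divisors fun h hh =>
    (((tendsto_md hP (Nat.pos_of_mem_divisors hh).ne' ε le_rfl (by linarith) (by linarith)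
      (lam := fun _ => 0) (mu := fun x => x) (β := θ / 2) contDiff_const contDiff_id
      fun x a b => ⟨le_rfl, a, by linarith⟩).add
    (tendsto_md hP (Nat.pos_of_mem_divisors hh).ne' ε (by linarith) (by linarith) (by linarith)
      (lam := fun x => x - θ / 2) (mu := fun x => θ - 3 / 2 * x) (α := θ / 2) (β := 3 * θ / 5)
      (by fun_prop) (by fun_prop) fun x a b => ⟨by linarith, by linarith, by linarith⟩)).sub
    ((((typ_copD hP 3).tendsto zero_le_one le_rfl).mul ((typ_cop (Nat.pos_of_mem_divisors hh).ne').tendsto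
      zero_le_one le_rfl)).const_mul (204 * η + 576 / y))).const_mul (rho h ^ 2 / h))
  filter_upwards [t.eventually_const_lt (hg.trans_eq (by
    congr 1
    · ring
    · rw [mul_sum, mul_sum]
      exact sum_congr rfl fun h _ => by simp only [Nat.factorial]; push_cast; ring)),
    eventually_gt_atTop 0,
    eventually_ge_atTop ((Real.log (P ^ K : ℕ) + Real.log (2 * π)) / η)] with L k1 hL k2
  rw [div_le_iff₀' hη] at k2
  refine (mul_le_mul_of_nonneg_right k1.le (by positivity)).trans ?_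
  rw [add_mul, add_sub_assoc]
  refine add_le_add (le_trans (le_of_eq ?_) (mul_le_mul_of_nonneg_left (sieve_A hy K (θ * L))
    (by linarith))) ?_
  · simp only [P]; field_simp; ring
  · rw [mul_sum, mul_sum, ← sum_sub_distrib, ss, sum_filter, sum_product, sum_mul]
    refine sum_le_sum fun h hh => ?_
    rw [← sum_filter]
    refine le_trans (le_of_eq ?_) (sieve_B hy hε hL hη.le hη1 k2 (mem_Ioc.2
      ⟨Nat.pos_of_mem_divisors hh, Nat.divisor_le hh⟩) (Nat.dvd_of_mem_divisors hh)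
      (reg_subset h0 h1 hL))
    rw [reg, sum_union (disjoint_left.2 fun p a b => (mem_Ioc.1 ((mem_RR p).1 a).1).2.not_gt
      (mem_Ioc.1 ((mem_RR p).1 b).1).1)]
    simp only [one_mul, P]
    field_simp
    ring

theorem six_lower {c : ℝ} (hc0 : 0 ≤ c) (hc : c < 35.053364903) : ∀ᶠ T : ℝ in atTop,
    c / 9 ! * (∏' p : Nat.Primes, lf p) * Real.log T ^ 9 ≤
      T⁻¹ * ∫ t in (0 : ℝ)..T, ‖riemannZeta (sc t)‖ ^ 6 := by
  let J : ℝ → ℝ := fun t => 616707 / 5000 * t ^ 5 - 10090773 / 50000 * t ^ 6 +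
    16010811 / 125000 * t ^ 7 - 5988000303 / 160000000 * t ^ 8 + 17357025381 / 4000000000 * t ^ 9
  let g : ℝ → ℝ := fun τ => (1 - τ) * ((2 - τ) * ((1 - τ) * (1 - τ) ^ 9) +
    ((2 - τ) * J (1 - τ) - 2 * τ)) - τ
  have hJ : Continuous J := by fun_prop
  have ev : ∀ f : ℝ → ℝ, Continuous f → 0 < f 0 → ∀ᶠ τ in 𝓝[>] (0 : ℝ), 0 < f τ := fun f h1 h2 =>
    (continuousAt_const.eventually_lt h1.continuousAt h2).filter_mono nhdsWithin_le_nhds
  obtain ⟨τ, ⟨⟨a1, a2⟩, a3⟩, τ0⟩ := ((((ev (fun τ => (1 - τ) * g τ - τ - c * (1 + τ)) (by fun_prop)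
    (by norm_num [g, J] at hc ⊢; linarith)).and (ev (fun τ => J (1 - τ) - 2 * τ) (by fun_prop)
    (by norm_num [J]))).and (ev (fun τ => 1 - τ) (by fun_prop) (by norm_num))).and
    self_mem_nhdsWithin).exists
  replace τ0 : 0 < τ := τ0
  obtain ⟨y, hy⟩ := exists_nat_ge (15120 * 576 / τ)
  have hy0 : (0 : ℝ) < y := lt_of_lt_of_le (by positivity) hy
  have hy1 : 576 / (y : ℝ) ≤ τ / 15120 := by
    rw [div_le_iff₀ τ0] at hy; rw [div_le_div_iff₀ hy0 (by norm_num)]; linarith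
  have hy2 : 81 / (y : ℝ) ≤ τ := le_trans (by gcongr; norm_num) (hy1.trans (by linarith))
  set A := ∏ p ∈ Nat.primesLE y, lf p
  have hA : 0 < A := a3_pos.trans_le (a3_le y)
  have hA' : (1 - τ) * A < A := by nlinarith
  obtain ⟨K, k1, k2⟩ := (((tendsto_RA y).eventually_const_lt hA').and
    ((tendsto_RB y).eventually_const_lt hA')).exists
  obtain ⟨W, hW⟩ := exists_wt τ0 (by linarith)
  set ε := min τ (τ * A / 9 !)
  have hε : 0 < ε := lt_min τ0 (by positivity)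
  have hε1 : ε ≤ τ := min_le_left _ _
  have hε2 : ε ≤ τ * A / 9 ! := min_le_right _ _
  have hH : 0 < primorial y ^ K := pow_pos (primorial_pos y) K
  have hg : 0 ≤ g τ := by nlinarith
  have low := arith_lower (by exact_mod_cast hy0) K hε.le (by linarith) (η := τ / (15120 * 204))
    (by positivity) (by linarith) (θ := 1 - τ) a3.le (by linarith) (g := g τ * A / 9 !) (by
      have e := JJ_val (1 - τ)
      generalize JJ _ _ _ _ + JJ _ _ _ _ = j at e ⊢
      replace e : 362880 * j = J (1 - τ) := by simpa [Nat.factorial] using e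
      generalize _ ^ 9 * ∑ d ∈ _, D 3 d ^ 2 / (d : ℝ) = R1 at k1 ⊢
      generalize _ ^ 4 * ∑ d ∈ _, rho d ^ 2 / d * _ = R2 at k2 ⊢
      have b1 : (2 - τ) * ((1 - τ) * ((1 - τ) ^ 9 / 9 !) * ((1 - τ) * A)) ≤
          (2 - ε) * ((1 - 81 / y) * ((1 - τ) ^ 9 / 9 !) * R1) := by
        have : (0 : ℝ) ≤ 1 - 81 / y := by linarith
        gcongr; linarith
      have b2 : ((2 - τ) * j - 2 * τ / 362880) * ((1 - τ) * A) ≤
          ((2 - ε) * j - (204 * (τ / (15120 * 204)) + 576 / y) / 24) * R2 := by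
        have : 0 ≤ (2 - τ) * j - 2 * τ / 362880 := by nlinarith
        have : (2 - τ) * j - 2 * τ / 362880 ≤
          (2 - ε) * j - (204 * (τ / (15120 * 204)) + 576 / y) / 24 := by nlinarith
        gcongr
        linarith
      refine lt_of_lt_of_le ?_ (add_le_add b1 b2)
      simp only [g, ← e, Nat.factorial]
      push_cast
      nlinarith [mul_pos τ0 hA])
  filter_upwards [W.analytic (θ := 1 - τ / 2) (by linarith) (by linarith) hH
    (Nat.cast_nonneg (primorial y ^ K)) hε (by linarith), Real.tendsto_log_atTop.eventually low,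
    eventually_gt_atTop 1, eventually_log_ge (Real.log (primorial y ^ K : ℕ) / (τ / 2))] with
    T m1 m2 hT m3
  have hT0 : 0 < T := by linarith
  have hL := Real.log_pos hT
  have adm := adm_ss y K a3.le (by linarith) (show 1 - τ ≤ 1 - τ / 2 by linarith) hL
  rw [Real.exp_log hT0] at adm m2
  have m4 := (mul_le_mul hW m2 (by positivity) W.c_nonneg).trans (m1 _ _ _ (by
    rw [div_le_iff₀ (by positivity), Real.log_le_iff_le_exp (by exact_mod_cast hH)] at m3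
    rw [Nat.cast_mul, Real.rpow_def_of_pos hT0, show Real.log T * (1 - τ / 2) =
      Real.log T * (τ / 2) + (1 - τ) * Real.log T by ring, Real.exp_add]
    gcongr
    exact Nat.floor_le (by positivity)) adm)
  have hm : 0 ≤ T⁻¹ * ∫ t in (0 : ℝ)..T, ‖riemannZeta (sc t)‖ ^ 6 :=
    mul_nonneg (by positivity) (intervalIntegral.integral_nonneg hT0.le fun _ _ => by positivity)
  generalize T⁻¹ * _ = m at *
  have hL9 : 0 < Real.log T ^ 9 := by positivity
  have n1 := mul_le_mul_of_nonneg_right hε2 hL9.le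
  have n2 := mul_le_mul_of_nonneg_right hε1 hm
  have n3 := mul_le_mul_of_nonneg_right a1.le (show 0 ≤ A / 9 ! * Real.log T ^ 9 by positivity)
  refine le_trans (b := c / 9 ! * A * Real.log T ^ 9) (by gcongr; exact a3_le y)
    (le_of_mul_le_mul_left ?_ (show 0 < 1 + τ by linarith))
  simp only [div_eq_mul_inv] at *
  linarith

end Pool.Agent.Lib.MP_80d0cf_nt.Six
end
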