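import Pool.Agent.Lib.MP_80d0cf_nt.Six.Zeta

-- part Pool.Agent.Lib.MP_80d0cf_nt.Six.Complete
section

/-! Complete exponential sums in three variables. -/

open Finset Complex
open scoped Real ComplexConjugate

namespace Pool.Agent.Lib.MP_80d0cf_nt.Six

/-- Weil's bound for Kloosterman sums -/
def WeilK : Prop := ∀ (p : ℕ) [Fact p.Prime] (a b : ZMod p), a ≠ 0 → b ≠ 0 →
  ‖∑ x : (ZMod p)ˣ, ZMod.stdAddChar (a * (x : ZMod p) + b * ((x⁻¹ : (ZMod p)ˣ) : ZMod p))‖ ≤ 2 * √p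

section generic

variable {R : Type} [CommRing R] [Fintype R] [DecidableEq R]

/-- the complete sum -/
noncomputable def TS (ψ : AddChar R ℂ) (u k₁ k₂ k₃ : R) : ℂ :=
  ∑ r₁, ∑ r₂, ∑ r₃, ψ (k₁ * r₁ + k₂ * r₂ + k₃ * r₃ - u * (r₁ * r₂ * r₃))

omit [DecidableEq R] in
lemma TS_swap12 (ψ : AddChar R ℂ) (u k₁ k₂ k₃ : R) : TS ψ u k₁ k₂ k₃ = TS ψ u k₂ k₁ k₃ := by
  rw [TS, TS, sum_comm]
  refine sum_congr rfl fun _ _ => sum_congr rfl fun _ _ => sum_congr rfl fun _ _ => ?_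
  congr 1; ring

omit [DecidableEq R] in
lemma TS_swap23 (ψ : AddChar R ℂ) (u k₁ k₂ k₃ : R) : TS ψ u k₁ k₂ k₃ = TS ψ u k₁ k₃ k₂ := by
  rw [TS, TS]
  refine sum_congr rfl fun _ _ => ?_
  rw [sum_comm]
  refine sum_congr rfl fun _ _ => sum_congr rfl fun _ _ => ?_
  congr 1; ring

omit [DecidableEq R] in
lemma norm_TS_le (ψ : AddChar R ℂ) (u k₁ k₂ k₃ : R) :
    ‖TS ψ u k₁ k₂ k₃‖ ≤ (Fintype.card R : ℝ) ^ 3 := by
  refine (norm_sum_le_of_le _ fun _ _ => norm_sum_le_of_le _ fun _ _ =>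
    norm_sum_le_of_le _ fun _ _ => (ψ.norm_apply _).le).trans (le_of_eq ?_)
  simp; ring

lemma TS_eq {ψ : AddChar R ℂ} (hψ : ψ.IsPrimitive) (u k₁ k₂ k₃ : R) : TS ψ u k₁ k₂ k₃ =
    Fintype.card R * ∑ r₂, ∑ r₃, if k₁ = u * (r₂ * r₃) then ψ (k₂ * r₂ + k₃ * r₃) else 0 := by
  rw [TS, sum_comm, mul_sum]
  refine sum_congr rfl fun r₂ _ => ?_
  rw [sum_comm, mul_sum]
  refine sum_congr rfl fun r₃ _ => ?_
  have := AddChar.sum_mulShift (k₁ - u * (r₂ * r₃)) hψ
  have e : ∀ r₁, ψ (k₁ * r₁ + k₂ * r₂ + k₃ * r₃ - u * (r₁ * r₂ * r₃)) =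
      ψ (r₁ * (k₁ - u * (r₂ * r₃))) * ψ (k₂ * r₂ + k₃ * r₃) := fun r₁ => by
    rw [← AddChar.map_add_eq_mul]; congr 1; ring
  simp only [e]
  rw [← sum_mul, this]
  simp only [sub_eq_zero]
  split_ifs <;> simp

lemma TS_unit {ψ : AddChar R ℂ} (hψ : ψ.IsPrimitive) (u k₁ k₃ : Rˣ) (k₂ : R) :
    TS ψ u k₁ k₂ k₃ =
      Fintype.card R * ∑ r : Rˣ, ψ (k₁ * k₂ * k₃ * r + (u⁻¹ : Rˣ) * (r⁻¹ : Rˣ)) := by
  rw [TS_eq hψ]
  congr 1
  symm
  refine Fintype.sum_of_injective (fun r : Rˣ => ((k₁ * k₃ * r : Rˣ) : R))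
    (fun a b h => by simpa using Units.val_injective h) _ _ (fun x hx => ?_) fun r => ?_
  · refine sum_eq_zero fun y _ => if_neg fun h => hx ?_
    have : IsUnit x := isUnit_of_mul_isUnit_left (isUnit_of_mul_isUnit_right (h ▸ k₁.isUnit))
    obtain ⟨x, rfl⟩ := this
    exact ⟨(k₁ * k₃)⁻¹ * x, congrArg Units.val (mul_inv_cancel_left _ _)⟩
  · rw [sum_eq_single ((u⁻¹ * k₃⁻¹ * r⁻¹ : Rˣ) : R), if_pos]
    · congr 1
      push_cast
      linear_combination (-((u⁻¹ : Rˣ) * (r⁻¹ : Rˣ) : R)) * k₃.mul_inv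
    · norm_cast
      apply Additive.ofMul.injective
      simp only [ofMul_mul, ofMul_inv]
      abel
    · intro y _ hy
      refine if_neg fun h => hy ?_
      have h2 : (u * (k₁ * k₃ * r) : Rˣ) * y =
          (u * (k₁ * k₃ * r) : Rˣ) * ((u⁻¹ * k₃⁻¹ * r⁻¹ : Rˣ) : R) := by
        rw [Units.val_mul u, mul_assoc, ← h]
        norm_cast
        apply Additive.ofMul.injective
        simp only [ofMul_mul, ofMul_inv]
        abel
      exact (Units.mul_right_inj _).1 h2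
    · simp

lemma parseval_inj {ψ : AddChar R ℂ} (hψ : ψ.IsPrimitive) {ι : Type*} (s : Finset ι) (c : ι → ℂ)
    {φ : ι → R} (hφ : Set.InjOn φ s) :
    ∑ v, ‖∑ i ∈ s, c i * ψ (v * φ i)‖ ^ 2 = Fintype.card R * ∑ i ∈ s, ‖c i‖ ^ 2 := by
  classical
  apply ofReal_injective
  push_cast
  simp only [← mul_conj', map_sum, map_mul, sum_mul_sum, ← AddChar.map_neg_eq_conj]
  rw [sum_comm, mul_sum]
  refine sum_congr rfl fun i hi => ?_
  rw [sum_comm]
  have e : ∀ j ∈ s, ∑ v, c i * ψ (v * φ i) * (conj (c j) * ψ (-(v * φ j))) =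
      if i = j then Fintype.card R * (c i * conj (c j)) else 0 := fun j hj => by
    have := AddChar.sum_mulShift (φ i - φ j) hψ
    have e2 : ∀ v, c i * ψ (v * φ i) * (conj (c j) * ψ (-(v * φ j))) =
        c i * conj (c j) * ψ (v * (φ i - φ j)) := fun v => by
      rw [mul_mul_mul_comm, ← AddChar.map_add_eq_mul]; congr 2; ring
    simp only [e2]
    rw [← mul_sum, this]
    simp only [sub_eq_zero, hφ.eq_iff hi hj]
    split_ifs <;> simp [mul_comm]
  rw [sum_congr rfl e, sum_ite_eq, if_pos hi]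

lemma parseval {ψ : AddChar R ℂ} (hψ : ψ.IsPrimitive) {ι : Type*} (s : Finset ι) (c : ι → ℂ)
    (φ : ι → R) : ∑ v, ‖∑ i ∈ s, c i * ψ (v * φ i)‖ ^ 2 =
      Fintype.card R * ∑ n, ‖∑ i ∈ s with φ i = n, c i‖ ^ 2 := by
  rw [← parseval_inj hψ univ _ (φ := id) (Function.injective_id.injOn)]
  refine sum_congr rfl fun v _ => ?_
  rw [← sum_fiberwise s φ]
  congr 2
  refine sum_congr rfl fun n _ => ?_
  rw [sum_mul]
  exact sum_congr rfl fun i hi => by rw [(mem_filter.1 hi).2]; rfl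

lemma parseval_two {ψ : AddChar R ℂ} (hψ : ψ.IsPrimitive) {ι : Type*} (s : Finset ι) (c : ι → ℂ)
    (φ : ι → R) : ∑ v, ‖∑ i ∈ s, c i * ∑ r : Rˣ, ψ (φ i * r + v * (r⁻¹ : Rˣ))‖ ^ 2 ≤
      (Fintype.card R : ℝ) ^ 2 * ∑ n, ‖∑ i ∈ s with φ i = n, c i‖ ^ 2 := by
  have e : ∀ v, ∑ i ∈ s, c i * ∑ r : Rˣ, ψ (φ i * r + v * (r⁻¹ : Rˣ)) =
      ∑ r : Rˣ, (∑ i ∈ s, c i * ψ (r * φ i)) * ψ (v * (r⁻¹ : Rˣ)) := fun v => by
    simp only [mul_sum, sum_mul]
    rw [sum_comm]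
    refine sum_congr rfl fun r _ => sum_congr rfl fun i _ => ?_
    rw [AddChar.map_add_eq_mul, mul_comm (φ i), mul_assoc]
  simp only [e]
  rw [parseval_inj hψ univ _ (φ := fun r : Rˣ => ((r⁻¹ : Rˣ) : R))
    (fun a _ b _ h => inv_injective (Units.val_injective h)), sq (Fintype.card R : ℝ), mul_assoc,
    ← parseval hψ]
  gcongr
  rw [← sum_image (s := univ) (g := fun r : Rˣ => (r : R))
    (f := fun v => ‖∑ i ∈ s, c i * ψ (v * φ i)‖ ^ 2) fun a _ b _ h => Units.val_injective h]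
  exact sum_le_sum_of_subset_of_nonneg (subset_univ _) fun _ _ _ => by positivity

end generic

/-- integer version of the complete sum -/
noncomputable def TT (q : ℕ) (u : ℤ) (k : ℤ × ℤ × ℤ) : ℂ :=
  if hq : q = 0 then 0 else
    haveI : NeZero q := ⟨hq⟩
    TS (ZMod.stdAddChar (N := q)) u k.1 k.2.1 k.2.2

lemma TT_eq (q : ℕ) [NeZero q] (u : ℤ) (k : ℤ × ℤ × ℤ) :
    TT q u k = TS (ZMod.stdAddChar (N := q)) u k.1 k.2.1 k.2.2 := by
  rw [TT, dif_neg (NeZero.ne q)]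

lemma norm_TT_le (q : ℕ) (u : ℤ) (k : ℤ × ℤ × ℤ) : ‖TT q u k‖ ≤ (q : ℝ) ^ 3 := by
  rcases eq_or_ne q 0 with rfl | hq
  · simp [TT]
  have : NeZero q := ⟨hq⟩
  rw [TT_eq]
  simpa using norm_TS_le (ZMod.stdAddChar (N := q)) u k.1 k.2.1 k.2.2

lemma TT_congr {q : ℕ} {u u' : ℤ} (h : u ≡ u' [ZMOD q]) (k : ℤ × ℤ × ℤ) : TT q u k = TT q u' k := by
  rcases eq_or_ne q 0 with rfl | hq
  · simp [TT]
  have : NeZero q := ⟨hq⟩
  rw [TT_eq, TT_eq, (ZMod.intCast_eq_intCast_iff _ _ _).2 h]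

lemma TT_mul {m n : ℕ} (hm : m ≠ 0) (hn : n ≠ 0) {a b : ℤ} (hab : a * n + b * m = 1) (u : ℤ)
    (k : ℤ × ℤ × ℤ) : TT (m * n) u k = TT m (a * u) (a • k) * TT n (b * u) (b • k) := by
  have : NeZero m := ⟨hm⟩
  have : NeZero n := ⟨hn⟩
  have : NeZero (m * n) := ⟨mul_ne_zero hm hn⟩
  have hc : m.Coprime n := Nat.isCoprime_iff_coprime.1 ⟨b, a, by linarith⟩
  let e := ZMod.chineseRemainder hc
  have key : ∀ x : ZMod (m * n), ZMod.stdAddChar x =
      ZMod.stdAddChar ((a : ZMod m) * (e x).1) * ZMod.stdAddChar ((b : ZMod n) * (e x).2) := fun x => by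
    obtain ⟨j, rfl⟩ := ZMod.intCast_surjective x
    rw [map_intCast e, Prod.fst_intCast, Prod.snd_intCast, ← Int.cast_mul, ← Int.cast_mul,
      ZMod.stdAddChar_coe, ZMod.stdAddChar_coe, ZMod.stdAddChar_coe, ← exp_add]
    congr 1
    have h1 : (m : ℂ) ≠ 0 := by exact_mod_cast hm
    have h2 : (n : ℂ) ≠ 0 := by exact_mod_cast hn
    have h3 : (a : ℂ) * n + b * m = 1 := by exact_mod_cast hab
    push_cast
    field_simp
    linear_combination (-j : ℂ) * h3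
  have hs : ∀ (f : ZMod m → ℂ) (g : ZMod n → ℂ), (∑ x, f x) * ∑ y, g y =
      ∑ z : ZMod (m * n), f (e z).1 * g (e z).2 := fun f g => by
    rw [sum_mul_sum, ← Fintype.sum_prod_type']
    exact (Fintype.sum_equiv e.toEquiv _ _ fun r => rfl).symm
  rw [TT_eq, TT_eq, TT_eq, TS, TS, TS, hs]
  refine sum_congr rfl fun r₁ _ => ?_
  rw [hs]
  refine sum_congr rfl fun r₂ _ => ?_
  rw [hs]
  refine sum_congr rfl fun r₃ _ => ?_
  rw [key]
  simp only [map_sub, map_add, map_mul, map_intCast, Prod.fst_sub, Prod.fst_add, Prod.fst_mul,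
    Prod.snd_sub, Prod.snd_add, Prod.snd_mul, Prod.fst_intCast, Prod.snd_intCast, Prod.smul_fst,
    Prod.smul_snd, smul_eq_mul]
  push_cast
  congr 2 <;> ring

lemma TT_le_prod (B : ℕ → ℝ) (u : ℤ) (k : ℤ × ℤ × ℤ) (s : Finset ℕ) (hs : ∀ p ∈ s, p.Prime)
    (hB : ∀ p ∈ s, ∀ c : ℤ, IsCoprime c p → ‖TT p (c * u) (c • k)‖ ≤ B p) :
    ∀ c : ℤ, IsCoprime c (∏ p ∈ s, p : ℕ) → ‖TT (∏ p ∈ s, p) (c * u) (c • k)‖ ≤ ∏ p ∈ s, B p := by
  induction s using Finset.induction_on with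
  | empty => intro c _; simpa using norm_TT_le 1 (c * u) (c • k)
  | insert p s hp ih =>
    intro c hc
    have hp' := hs p (mem_insert_self _ _)
    have hs' : ∀ r ∈ s, r.Prime := fun r hr => hs r (mem_insert_of_mem hr)
    rw [prod_insert hp] at hc ⊢
    rw [prod_insert hp]
    have hco : p.Coprime (∏ r ∈ s, r) := Nat.Coprime.prod_right fun r hr =>
      (Nat.coprime_primes hp' (hs' r hr)).2 (by rintro rfl; exact hp hr)
    obtain ⟨b, a, hab⟩ := Nat.isCoprime_iff_coprime.2 hco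
    push_cast at hc
    rw [TT_mul hp'.ne_zero (prod_ne_zero_iff.2 fun r hr => (hs' r hr).ne_zero) (a := a) (b := b)
      (by linarith), norm_mul, ← mul_assoc, ← mul_assoc, ← mul_smul, ← mul_smul]
    have h1 := hB p (mem_insert_self _ _) (a * c)
      (IsCoprime.mul_left ⟨(∏ r ∈ s, r : ℕ), b, by linarith⟩ hc.of_mul_right_left)
    have h2 := ih hs' (fun r hr => hB r (mem_insert_of_mem hr)) (b * c)
      (IsCoprime.mul_left ⟨p, a, by linarith⟩ (by push_cast; exact hc.of_mul_right_right))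
    exact mul_le_mul h1 h2 (norm_nonneg _) ((norm_nonneg _).trans h1)

/-- product of the coordinates -/
def mk3 (k : ℤ × ℤ × ℤ) : ℤ := k.1 * k.2.1 * k.2.2

/-- gcd weight -/
def Gw (q : ℕ) (k : ℤ × ℤ × ℤ) : ℕ := Int.gcd k.1 q * Int.gcd k.2.1 q * Int.gcd k.2.2 q

lemma TS_zero {p : ℕ} [Fact p.Prime] {u : ZMod p} (hu : u ≠ 0) (k₂ k₃ : ZMod p) :
    ‖TS ZMod.stdAddChar u 0 k₂ k₃‖ ≤
      p * (if k₂ = 0 then (p : ℝ) else 1) * (if k₃ = 0 then (p : ℝ) else 1) := by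
  have hψ := ZMod.isPrimitive_stdAddChar p
  have e : ∀ r₂ r₃ : ZMod p, (if 0 = u * (r₂ * r₃) then ZMod.stdAddChar (k₂ * r₂ + k₃ * r₃) else 0) =
      (if r₂ = 0 then ZMod.stdAddChar (r₃ * k₃) else 0) +
      (if r₃ = 0 then ZMod.stdAddChar (r₂ * k₂) else 0) -
      (if r₃ = 0 then if r₂ = 0 then 1 else 0 else 0) := fun r₂ r₃ => by
    by_cases h2 : r₂ = 0 <;> by_cases h3 : r₃ = 0 <;> simp [h2, h3, hu, mul_comm]
  rw [TS_eq hψ]
  simp only [e, sum_sub_distrib, sum_add_distrib, sum_ite_eq', mem_univ, if_true, sum_ite_irrel,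
    sum_const_zero, AddChar.sum_mulShift _ hψ, ZMod.card]
  have hp : (2 : ℝ) ≤ p := by exact_mod_cast (Fact.out : p.Prime).two_le
  rw [norm_mul, Complex.norm_natCast, mul_assoc]
  gcongr
  split_ifs
  · rw [show ((p : ℕ) : ℂ) + (p : ℕ) - 1 = ((p + p - 1 : ℝ) : ℂ) by push_cast; ring, norm_real,
      Real.norm_eq_abs, abs_of_nonneg (by linarith)]
    nlinarith
  · rw [show ((p : ℕ) : ℂ) + (0 : ℕ) - 1 = ((p - 1 : ℝ) : ℂ) by push_cast; ring, norm_real,
      Real.norm_eq_abs, abs_of_nonneg (by linarith)]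
    linarith
  · rw [show ((0 : ℕ) : ℂ) + (p : ℕ) - 1 = ((p - 1 : ℝ) : ℂ) by push_cast; ring, norm_real,
      Real.norm_eq_abs, abs_of_nonneg (by linarith)]
    linarith
  · simp

lemma gcd_prime_eq {p : ℕ} [Fact p.Prime] {c : ℤ} (hc : IsCoprime c p) (k : ℤ) :
    (Int.gcd k p : ℝ) = if ((c * k : ℤ) : ZMod p) = 0 then (p : ℝ) else 1 := by
  have hp : p.Prime := Fact.out
  have h1 : ((c * k : ℤ) : ZMod p) = 0 ↔ (p : ℤ) ∣ k := by
    rw [ZMod.intCast_zmod_eq_zero_iff_dvd]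
    exact ⟨fun h => hc.symm.dvd_of_dvd_mul_left h, fun h => h.mul_left c⟩
  simp only [h1]
  split_ifs with h
  · rw [Int.gcd_eq_natAbs_right h]; simp
  · rw [Int.isCoprime_iff_gcd_eq_one.1 ((Nat.prime_iff_prime_int.1 hp).coprime_iff_not_dvd.2 h).symm]
    simp

lemma TT_prime_dvd {p : ℕ} (hp : p.Prime) {c u : ℤ} (hc : IsCoprime c p) (hu : IsCoprime u p)
    {k : ℤ × ℤ × ℤ} (hk : (p : ℤ) ∣ mk3 k) : ‖TT p (c * u) (c • k)‖ ≤ Gw p k := by
  have := Fact.mk hp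
  have hu' : ((c * u : ℤ) : ZMod p) ≠ 0 := fun h => by
    have := gcd_prime_eq hc u
    rw [if_pos h, Int.isCoprime_iff_gcd_eq_one.1 hu] at this
    exact hp.ne_one (by exact_mod_cast this.symm)
  have h0 : ((c * k.1 : ℤ) : ZMod p) = 0 ∨ ((c * k.2.1 : ℤ) : ZMod p) = 0 ∨
      ((c * k.2.2 : ℤ) : ZMod p) = 0 := by
    have := (ZMod.intCast_zmod_eq_zero_iff_dvd _ _).2 hk
    simp only [mk3, Int.cast_mul, mul_eq_zero] at this ⊢
    tauto
  rw [TT_eq, Gw]
  push_cast [-Int.cast_mul]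
  rw [gcd_prime_eq hc, gcd_prime_eq hc, gcd_prime_eq hc]
  simp only [Prod.smul_fst, Prod.smul_snd, smul_eq_mul]
  rcases h0 with h | h | h
  · rw [h, if_pos rfl]; exact TS_zero hu' _ _
  · rw [TS_swap12, h, if_pos rfl, mul_comm _ (p : ℝ)]; exact TS_zero hu' _ _
  · rw [TS_swap23, TS_swap12, h, if_pos rfl, mul_comm _ (p : ℝ), ← mul_assoc]; exact TS_zero hu' _ _

lemma one_le_Gw {q : ℕ} (hq : q ≠ 0) (k : ℤ × ℤ × ℤ) : 1 ≤ Gw q k := by
  have : ∀ j : ℤ, 0 < Int.gcd j q := fun j => Int.gcd_pos_of_ne_zero_right _ (by exact_mod_cast hq)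
  exact Nat.mul_pos (Nat.mul_pos (this _) (this _)) (this _)

lemma TT_prime (hW : WeilK) {p : ℕ} (hp : p.Prime) {c u : ℤ} (hc : IsCoprime c p)
    (hu : IsCoprime u p) (k : ℤ × ℤ × ℤ) : ‖TT p (c * u) (c • k)‖ ≤ 2 * (p * √p) * Gw p k := by
  have hp1 : (1 : ℝ) ≤ p := by exact_mod_cast hp.one_le
  have hs : 1 ≤ √(p : ℝ) := Real.one_le_sqrt.2 hp1
  by_cases hk : (p : ℤ) ∣ mk3 k
  · exact (TT_prime_dvd hp hc hu hk).trans (le_mul_of_one_le_left (by positivity) (by nlinarith))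
  have := Fact.mk hp
  have hne : ∀ j : ℤ, ¬ (p : ℤ) ∣ j → ((c * j : ℤ) : ZMod p) ≠ 0 := fun j hj h =>
    hj (hc.symm.dvd_of_dvd_mul_left ((ZMod.intCast_zmod_eq_zero_iff_dvd _ _).1 h))
  have h0 := hne u ((Nat.prime_iff_prime_int.1 hp).coprime_iff_not_dvd.1 hu.symm)
  have h1 := hne k.1 fun h => hk ((h.mul_right _).mul_right _)
  have h2 := hne k.2.1 fun h => hk ((h.mul_left _).mul_right _)
  have h3 := hne k.2.2 fun h => hk (h.mul_left _)
  have := TS_unit (ZMod.isPrimitive_stdAddChar p) (Units.mk0 _ h0) (Units.mk0 _ h1)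
    (Units.mk0 _ h3) ((c * k.2.1 : ℤ) : ZMod p)
  simp only [Units.val_mk0] at this
  rw [TT_eq]
  simp only [Prod.smul_fst, Prod.smul_snd, smul_eq_mul]
  rw [this, norm_mul, ZMod.card, Complex.norm_natCast]
  have h4 := hW p _ _ (mul_ne_zero (mul_ne_zero h1 h2) h3) (Units.ne_zero (Units.mk0 _ h0)⁻¹)
  have h5 : (1 : ℝ) ≤ Gw p k := by exact_mod_cast one_le_Gw hp.ne_zero k
  calc _ ≤ p * (2 * √p) := by gcongr
    _ = 2 * (p * √p) * 1 := by ring
    _ ≤ _ := by gcongr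

lemma prod_gcd_le {q h : ℕ} (hqh : q ∣ h) (hh : h ≠ 0) (j : ℤ) :
    ∏ p ∈ q.primeFactors, Int.gcd j p ≤ Int.gcd j h := by
  refine Nat.le_of_dvd (Int.gcd_pos_of_ne_zero_right _ (by exact_mod_cast hh)) ?_
  refine Finset.prod_dvd_of_isRelPrime (fun p hp r hr hne => ?_) fun p hp => ?_
  · refine Nat.coprime_iff_isRelPrime.1 ?_
    exact Nat.Coprime.gcd_both _ _ ((Nat.coprime_primes (Nat.prime_of_mem_primeFactors hp)
      (Nat.prime_of_mem_primeFactors hr)).2 hne) |> fun h => by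
        simpa [Int.gcd, Nat.gcd_comm] using h
  · exact Nat.gcd_dvd_gcd_of_dvd_right _ ((Nat.dvd_of_mem_primeFactors hp).trans hqh)

lemma prod_Gw_le {q h : ℕ} (hqh : q ∣ h) (hh : h ≠ 0) (k : ℤ × ℤ × ℤ) :
    ∏ p ∈ q.primeFactors, (Gw p k : ℝ) ≤ Gw h k := by
  norm_cast
  simp only [Gw, prod_mul_distrib]
  gcongr <;> exact prod_gcd_le hqh hh _

lemma TT_sqfree_dvd {g : ℕ} (hg : Squarefree g) {c u : ℤ} (hc : IsCoprime c g) (hu : IsCoprime u g)
    {k : ℤ × ℤ × ℤ} (hk : (g : ℤ) ∣ mk3 k) : ‖TT g (c * u) (c • k)‖ ≤ Gw g k := by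
  have := TT_le_prod (fun p => Gw p k) u k g.primeFactors (fun p => Nat.prime_of_mem_primeFactors)
    (fun p hp c hc => by
      have hd : (p : ℤ) ∣ g := by exact_mod_cast Nat.dvd_of_mem_primeFactors hp
      exact TT_prime_dvd (Nat.prime_of_mem_primeFactors hp) hc (hu.of_isCoprime_of_dvd_right hd)
        (hd.trans hk)) c
  rw [Nat.prod_primeFactors_of_squarefree hg] at this
  exact (this hc).trans (prod_Gw_le dvd_rfl hg.ne_zero k)

lemma TT_sqfree (hW : WeilK) {q : ℕ} (hq : Squarefree q) {c u : ℤ} (hc : IsCoprime c q)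
    (hu : IsCoprime u q) (k : ℤ × ℤ × ℤ) :
    ‖TT q (c * u) (c • k)‖ ≤ D 2 q * (q * √q) * Gw q k := by
  have := TT_le_prod (fun p => 2 * (p * √p) * Gw p k) u k q.primeFactors
    (fun p => Nat.prime_of_mem_primeFactors) (fun p hp c hc => by
      have hd : (p : ℤ) ∣ q := by exact_mod_cast Nat.dvd_of_mem_primeFactors hp
      exact TT_prime hW (Nat.prime_of_mem_primeFactors hp) hc (hu.of_isCoprime_of_dvd_right hd) k) c
  rw [Nat.prod_primeFactors_of_squarefree hq] at this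
  refine (this hc).trans ?_
  have e : ∏ p ∈ q.primeFactors, (p : ℝ) = q := by
    rw [← Nat.cast_prod, Nat.prod_primeFactors_of_squarefree hq]
  rw [prod_mul_distrib, prod_mul_distrib, prod_mul_distrib, prod_const, ← Real.sqrt_prod _
    (fun _ _ => by positivity), e, D_sqfree _ hq]
  push_cast
  gcongr
  exact prod_Gw_le dvd_rfl hq.ne_zero k

lemma Gw_mono {q h : ℕ} (hqh : q ∣ h) (hh : h ≠ 0) (k : ℤ × ℤ × ℤ) : Gw q k ≤ Gw h k := by
  have : ∀ j : ℤ, Int.gcd j q ≤ Int.gcd j h := fun j =>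
    Nat.le_of_dvd (Int.gcd_pos_of_ne_zero_right _ (by exact_mod_cast hh))
      (Nat.gcd_dvd_gcd_of_dvd_right _ hqh)
  simp only [Gw]
  gcongr <;> exact this _

lemma Gw_le {q : ℕ} (hq : q ≠ 0) (k : ℤ × ℤ × ℤ) : Gw q k ≤ q ^ 3 := by
  have : ∀ j : ℤ, Int.gcd j q ≤ q := fun j =>
    Nat.le_of_dvd (Nat.pos_of_ne_zero hq) (Nat.gcd_dvd_right _ _)
  rw [Gw, pow_three, ← mul_assoc]
  gcongr <;> exact this _

/-- Weil-type bound for the complete sum. -/
lemma TT_weil (hW : WeilK) {h₀ q : ℕ} (h0 : h₀ ≠ 0) (hq : Squarefree q) (hc : h₀.Coprime q) {u : ℤ}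
    (hu : IsCoprime u q) (k : ℤ × ℤ × ℤ) :
    ‖TT (h₀ * q) u k‖ ≤ (h₀ : ℝ) ^ 3 * (D 2 q * (q * √q) * Gw (h₀ * q) k) := by
  obtain ⟨b, a, hab⟩ := Nat.isCoprime_iff_coprime.2 hc
  rw [TT_mul h0 hq.ne_zero (a := a) (b := b) (by linarith), norm_mul]
  have := D_nonneg 2 q
  gcongr
  · exact norm_TT_le _ _ _
  · refine (TT_sqfree hW hq ⟨h₀, a, by linarith⟩ hu k).trans ?_
    gcongr
    exact Gw_mono (dvd_mul_left _ _) (mul_ne_zero h0 hq.ne_zero) k

end Pool.Agent.Lib.MP_80d0cf_nt.Six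
end

-- part Pool.Agent.Lib.MP_80d0cf_nt.Six.L2
section

/-! Mean square over numerators of linear forms in the complete sums. -/

open Finset Complex
open scoped Real

namespace Pool.Agent.Lib.MP_80d0cf_nt.Six

lemma L2_class {m q : ℕ} (hm : m ≠ 0) (hq : q ≠ 0) {a b : ℤ} (hab : a * q + b * m = 1)
    (s : Finset (ℤ × ℤ × ℤ)) (hs : ∀ k ∈ s, IsCoprime (mk3 k) q) (β : ℤ × ℤ × ℤ → ℂ)
    (U : Finset ℕ) (hU : ∀ u ∈ U, 0 < u ∧ u ≤ m * q ∧ IsCoprime (u : ℤ) q) (c : ℤ)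
    (hc : ∀ u ∈ U, (u : ℤ) ≡ c [ZMOD m]) {X : ℝ} {w : ℤ × ℤ × ℤ → ℝ}
    (hw : ∀ s' ⊆ s, (∀ k ∈ s', ∀ k' ∈ s', mk3 k ≡ mk3 k' [ZMOD q]) →
      ‖∑ k ∈ s', β k * TT m (a * c) (a • k)‖ ^ 2 ≤ X * ∑ k ∈ s', w k) :
    ∑ u ∈ U, ‖∑ k ∈ s, β k * TT (m * q) u k‖ ^ 2 ≤ (q : ℝ) ^ 4 * (X * ∑ k ∈ s, w k) := by
  have : NeZero q := ⟨hq⟩
  have hb : IsCoprime b q := ⟨m, a, by linarith⟩
  have hunit : ∀ j : ℤ, IsCoprime j q → IsUnit ((b * j : ℤ) : ZMod q) := fun j hj =>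
    (ZMod.coe_int_isUnit_iff_isCoprime _ _).2 (hb.mul_left hj).symm
  set φ : ℤ × ℤ × ℤ → ZMod q := fun k => ((b * k.1 : ℤ) : ZMod q) * (b * k.2.1 : ℤ) * (b * k.2.2 : ℤ)
  set F : ZMod q → ℝ := fun v => ‖∑ k ∈ s, β k * TT m (a * c) (a • k) *
    ∑ r : (ZMod q)ˣ, ZMod.stdAddChar (φ k * (r : ZMod q) + v * ((r⁻¹ : (ZMod q)ˣ) : ZMod q))‖ ^ 2
  have e1 : ∀ u ∈ U, ‖∑ k ∈ s, β k * TT (m * q) u k‖ ^ 2 =
      (q : ℝ) ^ 2 * F (((b * u : ℤ) : ZMod q)⁻¹) := fun u hu => by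
    rw [← Complex.norm_natCast, ← mul_pow, ← norm_mul, mul_sum]
    congr 2
    refine sum_congr rfl fun k hk => ?_
    have h1 := hunit k.1 (hs k hk).of_mul_left_left.of_mul_left_left
    have h3 := hunit k.2.2 (hs k hk).of_mul_left_right
    have h0 := hunit u (hU u hu).2.2
    have := TS_unit (ZMod.isPrimitive_stdAddChar q) h0.unit h1.unit h3.unit
      ((b * k.2.1 : ℤ) : ZMod q)
    rw [← ZMod.inv_coe_unit] at this
    simp only [IsUnit.unit_spec, ZMod.card] at this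
    rw [TT_mul hm hq hab, TT_congr ((hc u hu).mul_left a), TT_eq q]
    simp only [Prod.smul_fst, Prod.smul_snd, smul_eq_mul]
    rw [this]
    ring
  have hinj : Set.InjOn (fun u : ℕ => ((b * u : ℤ) : ZMod q)⁻¹) U := fun u hu u' hu' h => by
    have h0 := hunit u (hU u hu).2.2
    have h0' := hunit u' (hU u' hu').2.2
    have h1 : ((b * u : ℤ) : ZMod q) = ((b * u' : ℤ) : ZMod q) := by
      have h2 := ZMod.mul_inv_of_unit _ h0
      have h3 := ZMod.mul_inv_of_unit _ h0'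
      simp only at h
      rw [h] at h2
      linear_combination (-((b * u : ℤ) : ZMod q)) * h3 + ((b * u' : ℤ) : ZMod q) * h2
    have h2 : (q : ℤ) ∣ u' - u := by
      have := ((ZMod.intCast_eq_intCast_iff _ _ _).1 h1).dvd
      rw [← mul_sub] at this
      exact hb.symm.dvd_of_dvd_mul_left this
    have h3 : (m : ℤ) ∣ u' - u := ((hc u hu).trans (hc u' hu').symm).dvd
    have h4 : (m * q : ℤ) ∣ u' - u := IsCoprime.mul_dvd ⟨b, a, by linarith⟩ h3 h2
    have h5 := hU u hu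
    have h6 := hU u' hu'
    have h7 : (u' - u : ℤ) = 0 := by
      refine Int.eq_zero_of_abs_lt_dvd h4 (abs_lt.2 ⟨?_, ?_⟩) <;>
      · zify at h5 h6; linarith [h5.1, h5.2.1, h6.1, h6.2.1]
    omega
  rw [sum_congr rfl e1, ← mul_sum, ← sum_image (f := F) hinj]
  have h2 := parseval_two (ZMod.isPrimitive_stdAddChar q) s (fun k => β k * TT m (a * c) (a • k)) φ
  have h3 : ∑ n, ‖∑ k ∈ s with φ k = n, β k * TT m (a * c) (a • k)‖ ^ 2 ≤ X * ∑ k ∈ s, w k := by
    rw [← sum_fiberwise s φ w, mul_sum]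
    refine sum_le_sum fun n _ => hw _ (filter_subset _ _) fun k hk k' hk' => ?_
    have h4 : ((b ^ 3 * mk3 k : ℤ) : ZMod q) = ((b ^ 3 * mk3 k' : ℤ) : ZMod q) := by
      have := (mem_filter.1 hk).2.trans (mem_filter.1 hk').2.symm
      simp only [φ, mk3] at this ⊢
      push_cast at this ⊢
      linear_combination this
    have := ((ZMod.intCast_eq_intCast_iff _ _ _).1 h4).dvd
    rw [← mul_sub] at this
    exact Int.modEq_iff_dvd.2 (hb.pow_left.symm.dvd_of_dvd_mul_left this)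
  rw [ZMod.card] at h2
  calc _ ≤ (q : ℝ) ^ 2 * ∑ v, F v := by
        exact mul_le_mul_of_nonneg_left (sum_le_sum_of_subset_of_nonneg (subset_univ _)
          fun _ _ _ => by simp only [F]; positivity) (by positivity)
    _ ≤ (q : ℝ) ^ 2 * ((q : ℝ) ^ 2 * (X * ∑ k ∈ s, w k)) := by
        gcongr; exact h2.trans (mul_le_mul_of_nonneg_left h3 (by positivity))
    _ = _ := by ring

lemma L2_gcd {h₀ g q : ℕ} (h0 : h₀ ≠ 0) (hg : Squarefree g) (hq : q ≠ 0) (h0g : h₀.Coprime g)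
    (h0q : h₀.Coprime q) (hgq : g.Coprime q) (s : Finset (ℤ × ℤ × ℤ))
    (hs : ∀ k ∈ s, mk3 k ≠ 0 ∧ IsCoprime (mk3 k) q ∧ (g : ℤ) ∣ mk3 k) (β : ℤ × ℤ × ℤ → ℂ) {Λ : ℝ}
    (hΛ0 : 0 ≤ Λ) (hΛ : ∀ s' ⊆ s, (∀ k ∈ s', ∀ k' ∈ s', mk3 k ≡ mk3 k' [ZMOD (g * q : ℕ)]) →
      ∑ k ∈ s', ‖β k‖ ^ 2 * |(mk3 k : ℝ)| ≤ Λ)
    (U : Finset ℕ) (hU : ∀ u ∈ U, 0 < u ∧ u ≤ h₀ * (g * q) ∧ IsCoprime (u : ℤ) (g * q : ℕ)) :
    ∑ u ∈ U, ‖∑ k ∈ s, β k * TT (h₀ * (g * q)) u k‖ ^ 2 ≤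
      (h₀ : ℝ) ^ 7 * (g * q : ℕ) ^ 4 * Λ * ∑ k ∈ s, Gw (h₀ * (g * q)) k / |(mk3 k : ℝ)| := by
  have hg0 := hg.ne_zero
  have hm : h₀ * g ≠ 0 := mul_ne_zero h0 hg0
  obtain ⟨b, a, hab⟩ := Nat.isCoprime_iff_coprime.2 (Nat.Coprime.mul_left h0q hgq)
  obtain ⟨b', a', hab'⟩ := Nat.isCoprime_iff_coprime.2 h0g
  rw [← mul_assoc h₀ g q] at hU ⊢
  rw [← sum_fiberwise_of_maps_to (s := U) (t := range (h₀ * g)) (g := fun u => u % (h₀ * g))
    fun u _ => mem_range.2 (Nat.mod_lt _ (Nat.pos_of_ne_zero hm))]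
  set S := ∑ k ∈ s, Gw (h₀ * g * q) k / |(mk3 k : ℝ)|
  have hS : 0 ≤ S := sum_nonneg fun k _ => by positivity
  have key : ∀ c ∈ range (h₀ * g), ∑ u ∈ U with u % (h₀ * g) = c,
      ‖∑ k ∈ s, β k * TT (h₀ * g * q) u k‖ ^ 2 ≤ (q : ℝ) ^ 4 * ((Λ * h₀ ^ 6 * g ^ 3) * S) := by
    intro c _
    rcases (U.filter fun u => u % (h₀ * g) = c).eq_empty_or_nonempty with h | ⟨u₀, hu₀⟩
    · rw [h, sum_empty]; positivity
    have hcop : ∀ u ∈ U, IsCoprime (u : ℤ) g ∧ IsCoprime (u : ℤ) q := fun u hu => by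
      have := (hU u hu).2.2
      push_cast at this
      exact ⟨this.of_mul_right_left, this.of_mul_right_right⟩
    refine L2_class hm hq (a := a) (b := b) (by linarith) s (fun k hk => (hs k hk).2.1) β _
      (fun u hu => ⟨(hU u (mem_filter.1 hu).1).1, (hU u (mem_filter.1 hu).1).2.1,
        (hcop u (mem_filter.1 hu).1).2⟩) u₀ (fun u hu => ?_) fun s' hs' hcong => ?_
    · exact Int.natCast_modEq_iff.2 ((mem_filter.1 hu).2.trans (mem_filter.1 hu₀).2.symm)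
    have hT : ∀ k ∈ s', ‖TT (h₀ * g) (a * u₀) (a • k)‖ ≤ (h₀ : ℝ) ^ 3 * Gw g k := fun k hk => by
      rw [TT_mul h0 hg0 (a := a') (b := b') (by linarith), norm_mul, ← mul_assoc b', ← mul_smul b']
      gcongr
      · exact norm_TT_le _ _ _
      · refine TT_sqfree_dvd hg (IsCoprime.mul_left ⟨h₀, a', by linarith⟩ ⟨q, b * h₀, ?_⟩)
          (hcop u₀ (mem_filter.1 hu₀).1).1 (hs k (hs' hk)).2.2
        push_cast at hab; linarith
    have h1 := hΛ s' hs' fun k hk k' hk' => by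
      have h2 : mk3 k ≡ mk3 k' [ZMOD g] := Int.modEq_iff_dvd.2
        (dvd_sub (hs k' (hs' hk')).2.2 (hs k (hs' hk)).2.2)
      push_cast
      exact Int.modEq_iff_dvd.2 (IsCoprime.mul_dvd (Nat.isCoprime_iff_coprime.2 hgq) h2.dvd
        (hcong k hk k' hk').dvd)
    have h2 := sum_sq_le_sum_mul_sum_of_sq_le_mul s'
      (r := fun k => ‖β k * TT (h₀ * g) (a * u₀) (a • k)‖)
      (f := fun k => ‖β k‖ ^ 2 * |(mk3 k : ℝ)|)
      (g := fun k => h₀ ^ 6 * g ^ 3 * (Gw (h₀ * g * q) k / |(mk3 k : ℝ)|))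
      (fun k _ => by positivity) (fun k _ => by positivity) fun k hk => by
        have h3 : (0 : ℝ) < |(mk3 k : ℝ)| := abs_pos.2 (by exact_mod_cast (hs k (hs' hk)).1)
        have h4 : (Gw g k : ℝ) ≤ g ^ 3 := by exact_mod_cast Gw_le hg0 k
        have h5 : (Gw g k : ℝ) ≤ Gw (h₀ * g * q) k := by
          exact_mod_cast Gw_mono ((dvd_mul_left g h₀).mul_right q) (mul_ne_zero hm hq) k
        rw [norm_mul, mul_pow]
        calc _ ≤ ‖β k‖ ^ 2 * ((h₀ : ℝ) ^ 3 * Gw g k) ^ 2 := by gcongr; exact hT k hk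
          _ = ‖β k‖ ^ 2 * ((h₀ : ℝ) ^ 6 * (Gw g k * Gw g k)) := by ring
          _ ≤ ‖β k‖ ^ 2 * ((h₀ : ℝ) ^ 6 * (g ^ 3 * Gw (h₀ * g * q) k)) := by gcongr
          _ = _ := by field_simp
    calc _ ≤ (∑ k ∈ s', ‖β k * TT (h₀ * g) (a * u₀) (a • k)‖) ^ 2 := by
          gcongr; exact norm_sum_le _ _
      _ ≤ _ := h2
      _ ≤ Λ * ∑ k ∈ s', h₀ ^ 6 * g ^ 3 * (Gw (h₀ * g * q) k / |(mk3 k : ℝ)|) := by gcongr
      _ = _ := by rw [← mul_sum]; ring
  refine (sum_le_sum key).trans (le_of_eq ?_)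
  rw [sum_const, card_range, nsmul_eq_mul]
  push_cast; ring

theorem L2_bound {h₀ q : ℕ} (h0 : h₀ ≠ 0) (hq : Squarefree q) (hc : h₀.Coprime q)
    (s : Finset (ℤ × ℤ × ℤ)) (hs : ∀ k ∈ s, mk3 k ≠ 0) (β : ℤ × ℤ × ℤ → ℂ) {Λ : ℝ}
    (hΛ0 : 0 ≤ Λ) (hΛ : ∀ s' ⊆ s, (∀ k ∈ s', ∀ k' ∈ s', mk3 k ≡ mk3 k' [ZMOD q]) →
      ∑ k ∈ s', ‖β k‖ ^ 2 * |(mk3 k : ℝ)| ≤ Λ)
    (U : Finset ℕ) (hU : ∀ u ∈ U, 0 < u ∧ u ≤ h₀ * q ∧ IsCoprime (u : ℤ) q) :
    ∑ u ∈ U, ‖∑ k ∈ s, β k * TT (h₀ * q) u k‖ ^ 2 ≤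
      D 2 q * ((h₀ : ℝ) ^ 7 * q ^ 4 * Λ * ∑ k ∈ s, Gw (h₀ * q) k / |(mk3 k : ℝ)|) := by
  have hq0 := hq.ne_zero
  have hmap : ∀ k ∈ s, Int.gcd (mk3 k) q ∈ q.divisors := fun k _ =>
    Nat.mem_divisors.2 ⟨Nat.gcd_dvd_right _ _, hq0⟩
  have e1 : ∀ u ∈ U, ‖∑ k ∈ s, β k * TT (h₀ * q) u k‖ ^ 2 ≤ D 2 q *
      ∑ g ∈ q.divisors, ‖∑ k ∈ s with Int.gcd (mk3 k) q = g, β k * TT (h₀ * q) u k‖ ^ 2 := by
    intro u _
    rw [← sum_fiberwise_of_maps_to hmap, D_two]
    refine le_trans ?_ sq_sum_le_card_mul_sum_sq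
    gcongr
    exact norm_sum_le _ _
  refine (sum_le_sum e1).trans ?_
  rw [← mul_sum, sum_comm, ← sum_fiberwise_of_maps_to hmap, mul_sum _ _ (_ * Λ)]
  refine mul_le_mul_of_nonneg_left (sum_le_sum fun g hg => ?_) (D_nonneg _ _)
  obtain ⟨q', rfl⟩ := Nat.dvd_of_mem_divisors hg
  have hgq := Nat.coprime_of_squarefree_mul hq
  refine L2_gcd h0 hq.of_mul_left (right_ne_zero_of_mul hq0) hc.coprime_mul_right_right
    hc.coprime_mul_left_right hgq _ (fun k hk => ?_) β hΛ0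
    (fun s' hs' => hΛ s' (hs'.trans (filter_subset _ _))) U hU
  obtain ⟨h1, h2⟩ := mem_filter.1 hk
  refine ⟨hs k h1, Int.isCoprime_iff_gcd_eq_one.2 ?_, h2 ▸ Int.gcd_dvd_left _ _⟩
  have h3 : Int.gcd (mk3 k) q' ∣ g := by
    rw [← h2]; exact Nat.gcd_dvd_gcd_of_dvd_right _ (dvd_mul_left _ _)
  exact Nat.eq_one_of_dvd_coprimes hgq h3 (Nat.gcd_dvd_right _ _)

end Pool.Agent.Lib.MP_80d0cf_nt.Six
end

-- part Pool.Agent.Lib.MP_80d0cf_nt.Six.Stirling
section

/-! Stirling's formula on the critical line and the functional equation. -/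

open Complex Filter Topology Finset
open scoped Real Nat

namespace Pool.Agent.Lib.MP_80d0cf_nt.Six

lemma log_mul_one_add {z u : ℂ} (hz : 0 ≤ z.re) (hz0 : z ≠ 0) (hu : 0 < (1 + u).re) :
    log (z * (1 + u)) = log z + log (1 + u) := by
  have hu0 : 1 + u ≠ 0 := by intro h; rw [h] at hu; simp at hu
  rw [log_mul_eq_add_log_iff hz0 hu0]
  have h1 := abs_le.1 (abs_arg_le_pi_div_two_iff.2 hz)
  have h2 := abs_lt.1 (abs_arg_lt_pi_div_two_iff.2 (Or.inl hu))
  constructor <;> linarith [h1.1, h1.2, h2.1, h2.2]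

lemma one_add_re_pos {u : ℂ} (hu : ‖u‖ ≤ 1 / 2) : 0 < (1 + u).re := by
  have := abs_le.1 ((abs_re_le_norm u).trans hu)
  simp only [add_re, one_re]; linarith [this.1]

/-- the main term of Stirling's formula -/
noncomputable def sg (z : ℂ) : ℂ := (z - 1 / 2) * log z - z

lemma sg_step {z : ℂ} (hz : 0 ≤ z.re) (h2 : 2 ≤ ‖z‖) :
    ‖log z - (sg (z + 1) - sg z)‖ ≤ 2 / ‖z‖ ^ 2 := by
  have hz0 : z ≠ 0 := by rintro rfl; simp at h2; linarith
  have hn : 0 < ‖z‖ := norm_pos_iff.2 hz0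
  set u := z⁻¹ with hu
  have hun : ‖u‖ = ‖z‖⁻¹ := norm_inv z
  have hu2 : ‖u‖ ≤ 1 / 2 := by rw [hun, ← one_div]; gcongr
  have e1 : log (z + 1) = log z + log (1 + u) := by
    rw [← log_mul_one_add hz hz0 (one_add_re_pos hu2)]
    congr 1; rw [hu]; field_simp
  have hR := norm_log_sub_logTaylor_le 2 (z := u) (by linarith)
  have e2 : logTaylor (2 + 1) u = u - u ^ 2 / 2 := by
    simp [logTaylor, sum_range_succ]; ring
  rw [e2] at hR
  set R := log (1 + u) - (u - u ^ 2 / 2) with hRd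
  have hR2 : ‖R‖ ≤ ‖u‖ ^ 3 := by
    refine hR.trans ?_
    have : (1 - ‖u‖)⁻¹ ≤ 2 := by rw [inv_le_comm₀ (by linarith) (by norm_num)]; linarith
    have h0 : 0 ≤ ‖u‖ ^ 3 := by positivity
    rw [div_le_iff₀ (by positivity)]
    norm_num
    nlinarith
  have e3 : log z - (sg (z + 1) - sg z) = u ^ 2 / 4 - R * z - R / 2 := by
    rw [sg, sg, e1, hRd, hu]; field_simp; ring
  rw [e3]
  have e4 : 2 / ‖z‖ ^ 2 = 2 * ‖u‖ ^ 2 := by rw [hun]; field_simp
  have e5 : ‖u‖ * ‖z‖ = 1 := by rw [hun]; field_simp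
  rw [e4]
  refine (norm_sub_le _ _).trans ?_
  refine (add_le_add_left (norm_sub_le _ _) _).trans ?_
  simp only [norm_div, norm_pow, norm_mul, Complex.norm_ofNat]
  have h3 : ‖R‖ * ‖z‖ ≤ ‖u‖ ^ 2 := by
    calc ‖R‖ * ‖z‖ ≤ ‖u‖ ^ 3 * ‖z‖ := by gcongr
      _ = ‖u‖ ^ 2 * (‖u‖ * ‖z‖) := by ring
      _ = _ := by rw [e5, mul_one]
  have h4 : ‖u‖ ^ 3 ≤ ‖u‖ ^ 2 := pow_le_pow_of_le_one (norm_nonneg _) (by linarith) (by norm_num)
  nlinarith [sq_nonneg ‖u‖]

lemma stirling_const (s : ℂ) (hs : 0 < s.re) :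
    Tendsto (fun n : ℕ => (n ! : ℂ) * exp (s * log n - sg (s + (n + 1 : ℕ)))) atTop
      (𝓝 (√(2 * π) : ℝ)) := by
  have h1 : Tendsto (fun n : ℕ => (n : ℂ) * log (1 + (s + 1) / n)) atTop (𝓝 (s + 1)) := by
    refine tendsto_nat_mul_log_one_add_of_tendsto (tendsto_const_nhds.congr' ?_)
    filter_upwards [eventually_gt_atTop 0] with n hn
    have : (n : ℂ) ≠ 0 := by exact_mod_cast hn.ne'
    field_simp
  have h0 : Tendsto (fun n : ℕ => (s + 1) / (n : ℂ)) atTop (𝓝 0) := by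
    rw [tendsto_zero_iff_norm_tendsto_zero]
    simp only [norm_div, Complex.norm_natCast]
    exact tendsto_const_div_atTop_nhds_zero_nat _
  have h2 : Tendsto (fun n : ℕ => log (1 + (s + 1) / (n : ℂ))) atTop (𝓝 0) := by
    have := (continuousAt_clog (x := 1) (by simp)).tendsto.comp
      (by simpa using h0.const_add 1 : Tendsto (fun n : ℕ => 1 + (s + 1) / (n : ℂ)) atTop (𝓝 1))
    simpa [Function.comp_def] using this
  have h3 : Tendsto (fun n : ℕ => exp (s + 1 - (n : ℂ) * log (1 + (s + 1) / n) -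
      (s + 1 / 2) * log (1 + (s + 1) / (n : ℂ)))) atTop (𝓝 1) := by
    have := (continuous_exp.tendsto _).comp ((h1.const_sub (s + 1)).sub (h2.const_mul (s + 1 / 2)))
    simpa [Function.comp_def] using this
  have h4 : Tendsto (fun n : ℕ => ((√2 * Stirling.stirlingSeq n : ℝ) : ℂ)) atTop
      (𝓝 (√(2 * π) : ℝ)) := by
    rw [Real.sqrt_mul (by norm_num)]
    exact (continuous_ofReal.tendsto _).comp
      (Stirling.tendsto_stirlingSeq_sqrt_pi.const_mul _)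
  have h5 := h4.mul h3
  rw [mul_one] at h5
  refine h5.congr' ?_
  filter_upwards [eventually_gt_atTop 0] with n hn
  have hn0 : (n : ℂ) ≠ 0 := by exact_mod_cast hn.ne'
  have hnr : (0 : ℝ) < n := by exact_mod_cast hn
  have e1 : log (s + (n + 1 : ℕ)) = log n + log (1 + (s + 1) / n) := by
    rw [← log_mul_one_add (by simp) hn0]
    · congr 1; push_cast; field_simp; ring
    · have : ((s + 1) / n).re = (s.re + 1) / n := by
        rw [← ofReal_natCast, div_ofReal_re]; simp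
      rw [add_re, this, one_re]; positivity
  have e2 : √2 * Stirling.stirlingSeq n = n ! * Real.exp (n - (n + 1 / 2) * Real.log n) := by
    rw [Stirling.stirlingSeq, Real.sqrt_mul (by norm_num), Real.exp_sub, add_mul, Real.exp_add,
      Real.exp_nat_mul, Real.exp_log hnr, div_pow, Real.exp_one_pow, mul_comm (1 / 2 : ℝ),
      ← Real.rpow_def_of_pos hnr, ← Real.sqrt_eq_rpow]
    have : 0 < √(n : ℝ) := Real.sqrt_pos.2 hnr
    field_simp
  rw [e2, sg, e1]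
  push_cast
  rw [mul_assoc, ← exp_add]
  congr 2
  ring

lemma norm_exp_neg_sub_one {E : ℂ} {r : ℝ} (h : ‖E‖ ≤ r) (hr : r ≤ 1) : ‖exp E - 1‖ ≤ 2 * r :=
  (norm_exp_sub_one_le (h.trans hr)).trans (by linarith)

lemma stirling_sc {t : ℝ} (ht : 4 ≤ t) :
    ‖Gamma (sc t) * exp (-sg (sc t)) / (√(2 * π) : ℝ) - 1‖ ≤ 8 / t := by
  set s := sc t with hs
  have hre : s.re = 1 / 2 := sc_re t
  have him : s.im = t := sc_im t
  have hnorm : ∀ j : ℕ, ((j : ℝ) + t) * (j + 1 + t) / 2 ≤ ‖s + j‖ ^ 2 := fun j => by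
    rw [Complex.sq_norm, normSq_apply]
    simp only [add_re, add_im, hre, him, natCast_re, natCast_im, add_zero]
    nlinarith [sq_nonneg (1 / 2 + j - t)]
  have h2 : ∀ j : ℕ, 2 ≤ ‖s + j‖ := fun j => by
    have := abs_im_le_norm (s + j)
    simp only [add_im, him, natCast_im, add_zero] at this
    linarith [le_abs_self t]
  have hE : ∀ n : ℕ, ‖∑ j ∈ range n, (log (s + j) - (sg (s + j + 1) - sg (s + j)))‖ ≤
      4 / t - 4 / (n + t) := by
    intro n
    induction n with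
    | zero => simp
    | succ n ih =>
      rw [sum_range_succ]
      refine (norm_add_le _ _).trans ?_
      have h3 := sg_step (z := s + n) (by simp [hre]; positivity) (h2 n)
      have h4 : 2 / ‖s + n‖ ^ 2 ≤ 4 / (n + t) - 4 / (n + 1 + t) := by
        have h5 : (0 : ℝ) < n + t := by positivity
        have h6 : (0 : ℝ) < n + 1 + t := by positivity
        calc 2 / ‖s + n‖ ^ 2 ≤ 2 / (((n : ℝ) + t) * (n + 1 + t) / 2) := by
              gcongr; exact hnorm n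
          _ = _ := by field_simp; ring
      push_cast
      linarith
  have hprod : ∀ n : ℕ, ∏ j ∈ range n, (s + j) = exp (sg (s + n) - sg s +
      ∑ j ∈ range n, (log (s + j) - (sg (s + j + 1) - sg (s + j)))) := by
    intro n
    induction n with
    | zero => simp
    | succ n ih =>
      have : s + n ≠ 0 := by intro h; have := h2 n; rw [h] at this; simp at this; linarith
      have e0 : ∀ A : ℂ, exp A * (s + n) = exp (A + log (s + n)) := fun A => by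
        rw [exp_add, exp_log this]
      rw [prod_range_succ, ih, sum_range_succ, e0]
      congr 1
      push_cast
      rw [← add_assoc s]
      ring
  have hc := stirling_const s (by linarith)
  have hπ : ((√(2 * π) : ℝ) : ℂ) ≠ 0 := by
    have : 0 < √(2 * π) := Real.sqrt_pos.2 (by positivity)
    exact_mod_cast this.ne'
  have hlim := ((((GammaSeq_tendsto_Gamma s).mul_const (exp (-sg s))).div hc hπ).sub_const 1).norm
  refine le_of_tendsto hlim ?_
  filter_upwards [eventually_gt_atTop 0] with n hn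
  have hn0 : (n : ℂ) ≠ 0 := by exact_mod_cast hn.ne'
  have hf : (n ! : ℂ) ≠ 0 := by exact_mod_cast n.factorial_ne_zero
  have e : (fun n : ℕ => GammaSeq s n * exp (-sg s)) n /
      (fun n : ℕ => (n ! : ℂ) * exp (s * log n - sg (s + (n + 1 : ℕ)))) n =
      exp (-∑ j ∈ range (n + 1), (log (s + j) - (sg (s + j + 1) - sg (s + j)))) := by
    simp only [GammaSeq, hprod, cpow_def_of_ne_zero hn0]
    rw [div_eq_iff (mul_ne_zero hf (exp_ne_zero _)), div_mul_eq_mul_div, div_eq_iff (exp_ne_zero _)]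
    rw [mul_comm (exp (log _ * s)), mul_assoc, ← exp_add, mul_comm (exp (-_)), mul_assoc, mul_assoc,
      ← exp_add, ← exp_add]
    congr 2
    ring
  rw [Pi.div_apply, e]
  refine (norm_exp_neg_sub_one (r := 4 / t) ?_ ?_).trans (le_of_eq (by ring))
  · rw [norm_neg]
    refine (hE (n + 1)).trans ?_
    have : (0 : ℝ) ≤ 4 / ((n + 1 : ℕ) + t) := by positivity
    linarith
  · rw [div_le_one (by linarith)]; exact ht

/-- the model phase -/
noncomputable def om0 (t : ℝ) : ℂ :=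
  exp (I * ((t * Real.log t - t * (1 + Real.log (2 * π)) - π / 4 : ℝ) : ℂ))

lemma norm_om0 (t : ℝ) : ‖om0 t‖ = 1 := by rw [om0, mul_comm, norm_exp_ofReal_mul_I]

lemma continuous_om0 : Continuous om0 := by
  have := Real.continuous_mul_log
  unfold om0
  fun_prop

/-- the chirp -/
noncomputable def psi (δ t : ℝ) : ℂ := Gamma (sc t) * exp (-sc t * log (δ + 2 * π * I))

lemma log_two_pi_I : log (2 * π * I) = Real.log (2 * π) + π / 2 * I := by
  have := log_ofReal_mul (r := 2 * π) (by positivity) (x := I) I_ne_zero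
  rw [log_I] at this
  push_cast at this ⊢
  exact this

lemma psi_zero_close {t : ℝ} (ht : 4 ≤ t) : ‖psi 0 t - om0 t‖ ≤ 11 / t := by
  have h1 := stirling_sc ht
  have ht0 : (t : ℂ) ≠ 0 := by exact_mod_cast (by linarith : t ≠ 0)
  set u : ℂ := (2 * t * I)⁻¹ with hu
  have hun : ‖u‖ = 1 / (2 * t) := by
    rw [hu, norm_inv, one_div]; simp [abs_of_pos (by linarith : 0 < t)]
  have hu2 : ‖u‖ ≤ 1 / 2 := by rw [hun]; gcongr; linarith
  have e1 : log (sc t) = Real.log t + π / 2 * I + log (1 + u) := by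
    have := log_ofReal_mul (r := t) (by linarith) (x := I) I_ne_zero
    rw [log_I] at this
    rw [← this, ← log_mul_one_add (by simp) (mul_ne_zero ht0 I_ne_zero) (one_add_re_pos hu2)]
    congr 1
    rw [hu, sc]; field_simp; ring
  set E := t * I * (log (1 + u) - u) with hE
  have hEn : ‖E‖ ≤ 1 / (4 * t) := by
    have h3 := norm_log_one_add_sub_self_le (z := u) (by linarith)
    have : (1 - ‖u‖)⁻¹ ≤ 2 := by rw [inv_le_comm₀ (by linarith) (by norm_num)]; linarith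
    have h4 : ‖log (1 + u) - u‖ ≤ ‖u‖ ^ 2 := h3.trans (by nlinarith [sq_nonneg ‖u‖])
    rw [hE, norm_mul, norm_mul, norm_I, mul_one, norm_real, Real.norm_eq_abs,
      abs_of_pos (by linarith)]
    calc t * _ ≤ t * ‖u‖ ^ 2 := by gcongr
      _ = _ := by rw [hun]; field_simp; ring
  have hsq : ((√(2 * π) : ℝ) : ℂ) = exp (Real.log (2 * π) / 2) := by
    rw [Real.sqrt_eq_rpow, Real.rpow_def_of_pos (by positivity), ofReal_exp]
    push_cast; ring_nf
  set r := Gamma (sc t) * exp (-sg (sc t)) / (√(2 * π) : ℝ) - 1 with hr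
  have e2 : psi 0 t = om0 t * ((1 + r) * exp E) := by
    rw [hr, add_sub_cancel, psi, om0, ofReal_zero, zero_add, log_two_pi_I, hsq,
      div_eq_mul_inv (Gamma _ * _), ← exp_neg, mul_assoc (Gamma _), mul_assoc (Gamma _), mul_left_comm, ← exp_add, ← exp_add,
      ← exp_add]
    congr 2
    have hu' : t * I * u = 1 / 2 := by rw [hu]; field_simp
    rw [sg, e1, hE, sc]
    push_cast
    linear_combination hu'
  have h5 := norm_exp_neg_sub_one hEn (by rw [div_le_one (by linarith)]; linarith)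
  rw [e2, ← mul_sub_one, norm_mul, norm_om0, one_mul,
    show (1 + r) * exp E - 1 = r * (exp E - 1) + r + (exp E - 1) by ring]
  refine (norm_add₃_le).trans ?_
  rw [norm_mul]
  have h6 : 8 / t ≤ 2 := by rw [div_le_iff₀ (by linarith)]; linarith
  have h7 : 2 * (1 / (4 * t)) = 1 / 2 * (1 / t) := by field_simp; ring
  have h8 : ‖r‖ * ‖exp E - 1‖ ≤ 2 * (2 * (1 / (4 * t))) :=
    mul_le_mul (h1.trans h6) h5 (norm_nonneg _) (by norm_num)
  have h9 : 0 < 1 / t := by positivity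
  rw [show 11 / t = 11 * (1 / t) by ring]
  rw [show 8 / t = 8 * (1 / t) by ring] at h1
  linarith

lemma psi_close {T t : ℝ} (ht : 11 ≤ t) (htT : t ≤ T) :
    ‖psi (1 / T ^ 2) t - om0 t‖ ≤ 20 / t := by
  have h1 := psi_zero_close (t := t) (by linarith)
  have hπ := Real.pi_gt_three
  have hT : 0 < T := by linarith
  set δ := 1 / T ^ 2 with hδ
  set u : ℂ := δ / (2 * π * I) with hu
  have hδ0 : 0 < δ := by positivity
  have hun : ‖u‖ ≤ δ := by
    rw [hu, norm_div, norm_real, Real.norm_eq_abs, abs_of_pos hδ0]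
    refine div_le_self hδ0.le ?_
    simp [abs_of_pos Real.pi_pos]; linarith
  have hδ1 : δ ≤ 1 / (t * t) := by rw [hδ, sq]; gcongr
  have hδ2 : δ ≤ 1 / 2 := hδ1.trans (by gcongr; nlinarith)
  have hne : (2 * π * I : ℂ) ≠ 0 := two_pi_I_ne_zero
  have e1 : log (δ + 2 * π * I) = log (2 * π * I) + log (1 + u) := by
    rw [← log_mul_one_add (by simp) hne (one_add_re_pos (hun.trans hδ2))]
    congr 1
    rw [hu]; field_simp; ring
  have e2 : psi δ t = psi 0 t * exp (-sc t * log (1 + u)) := by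
    rw [psi, psi, e1, ofReal_zero, zero_add, mul_assoc (Gamma _), ← exp_add]; ring_nf
  have hE : ‖-sc t * log (1 + u)‖ ≤ 2 / t := by
    rw [norm_mul, norm_neg]
    have h2 := norm_sc_le t
    rw [abs_of_pos (by linarith)] at h2
    have h3 := (norm_log_one_add_half_le_self (hun.trans hδ2))
    calc _ ≤ (1 + t) * (3 / 2 * (1 / (t * t))) := by
          gcongr; exact h3.trans (by gcongr; exact hun.trans hδ1)
      _ ≤ _ := by
          rw [le_div_iff₀ (by linarith)]; field_simp; linarith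
  have h5 := norm_exp_neg_sub_one hE (by rw [div_le_one (by linarith)]; linarith)
  have h6 : ‖psi 0 t‖ ≤ 2 := by
    have := norm_sub_norm_le (psi 0 t) (om0 t)
    rw [norm_om0] at this
    have : 11 / t ≤ 1 := by rw [div_le_one (by linarith)]; linarith
    linarith
  rw [e2, show psi 0 t * exp (-sc t * log (1 + u)) - om0 t =
    psi 0 t * (exp (-sc t * log (1 + u)) - 1) + (psi 0 t - om0 t) by ring]
  refine (norm_add_le _ _).trans ?_
  rw [norm_mul]
  have h8 := mul_le_mul h6 h5 (norm_nonneg _) (by norm_num)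
  have h9 : 0 < 1 / t := by positivity
  rw [show 20 / t = 20 * (1 / t) by ring]
  rw [show 11 / t = 11 * (1 / t) by ring] at h1
  rw [show 2 / t = 2 * (1 / t) by ring] at h8
  linarith

lemma exists_om {t : ℝ} (ht : 11 ≤ t) : ∃ ω : ℂ,
    (starRingEnd ℂ) (riemannZeta (sc t)) = ω * riemannZeta (sc t) ∧ ‖ω - om0 t‖ ≤ 13 / t := by
  have h1 := psi_zero_close (t := t) (by linarith)
  have hs : ∀ n : ℕ, sc t ≠ -n := fun n h => by
    have := sc_im t; rw [h] at this; simp at this; linarith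
  have hs1 : sc t ≠ 1 := fun h => by have := sc_im t; rw [h] at this; simp at this; linarith
  refine ⟨psi 0 t * (1 + exp (π * sc t * I)), ?_, ?_⟩
  · have e : (starRingEnd ℂ) (sc t) = 1 - sc t := by
      apply Complex.ext <;> simp; norm_num
    rw [← riemannZeta_conj, e, riemannZeta_one_sub hs hs1]
    congr 1
    rw [psi, ofReal_zero, zero_add, log_two_pi_I, Complex.cos,
      cpow_def_of_ne_zero (by exact_mod_cast (by positivity : (2 * π : ℝ) ≠ 0))]
    have e3 : log (2 * π) = Real.log (2 * π) := by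
      rw [ofReal_log (by positivity)]; push_cast; rfl
    rw [e3]
    have e4 : exp (-sc t * (Real.log (2 * π) + π / 2 * I)) * (1 + exp (π * sc t * I)) =
        exp (Real.log (2 * π) * -sc t) * (exp (π * sc t / 2 * I) + exp (-(π * sc t / 2) * I)) := by
      simp only [mul_add, mul_one, ← exp_add]
      ring_nf
    rw [mul_assoc (Gamma _), e4]
    ring
  · have h6 : ‖psi 0 t‖ ≤ 2 := by
      have := norm_sub_norm_le (psi 0 t) (om0 t)
      rw [norm_om0] at this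
      have : 11 / t ≤ 1 := by rw [div_le_one (by linarith)]; linarith
      linarith
    have h7 : ‖exp (π * sc t * I)‖ ≤ 1 / t := by
      rw [norm_exp]
      have : (π * sc t * I).re = -(π * t) := by simp
      rw [this, Real.exp_neg, one_div]
      gcongr
      have := Real.add_one_le_exp (π * t)
      nlinarith [Real.pi_gt_three]
    rw [show psi 0 t * (1 + exp (π * sc t * I)) - om0 t =
      psi 0 t * exp (π * sc t * I) + (psi 0 t - om0 t) by ring]
    refine (norm_add_le _ _).trans ?_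
    rw [norm_mul]
    have h8 := mul_le_mul h6 h7 (norm_nonneg _) (by norm_num)
    rw [show 13 / t = 13 * (1 / t) by ring]
    rw [show 11 / t = 11 * (1 / t) by ring] at h1
    linarith

lemma continuous_psi (δ : ℝ) : Continuous (psi δ) := by
  have h1 : Continuous fun t => Gamma (sc t) := by
    refine continuous_iff_continuousAt.2 fun t => ?_
    have hs : ∀ n : ℕ, sc t ≠ -n := fun n h => by
      have := sc_re t; rw [h] at this; simp at this
      linarith [Nat.cast_nonneg (α := ℝ) n]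
    exact ContinuousAt.comp (f := sc) (differentiableAt_Gamma _ hs).continuousAt
      continuous_sc.continuousAt
  have := continuous_sc
  unfold psi
  fun_prop

end Pool.Agent.Lib.MP_80d0cf_nt.Six
end

-- part Pool.Agent.Lib.MP_80d0cf_nt.Six.Fourier
section

/-! Smooth weights, mean values and the first derivative test. -/

open Complex Filter Topology Finset MeasureTheory
open scoped Real SchwartzMap FourierTransform ContDiff ComplexConjugate

namespace Pool.Agent.Lib.MP_80d0cf_nt.Six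

lemma exists_ft {f : ℝ → ℂ} (hf : ContDiff ℝ ∞ f) (hc : HasCompactSupport f) :
    ∃ G : 𝓢(ℝ, ℂ), (∀ y : ℝ, G y = ∫ τ : ℝ, f τ * exp (I * (τ * y : ℝ))) ∧
      ∀ α : ℝ, ∫ y : ℝ, G y * exp (-I * (α * y : ℝ)) = 2 * π * f α := by
  set φ := hc.toSchwartzMap hf
  have hφ : (φ : ℝ → ℂ) = f := rfl
  have h2π : (2 * π : ℝ) ≠ 0 := by positivity
  let g : ℝ ≃L[ℝ] ℝ := ContinuousLinearEquiv.unitsEquivAut ℝ (Units.mk0 (2 * π)⁻¹ (inv_ne_zero h2π))
  have hg : ∀ y, g y = y * (2 * π)⁻¹ := fun y => by simp [g]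
  refine ⟨SchwartzMap.compCLMOfContinuousLinearEquiv ℝ g (𝓕⁻ φ), fun y => ?_, fun α => ?_⟩
  · rw [SchwartzMap.compCLMOfContinuousLinearEquiv_apply, Function.comp_apply, hg,
      SchwartzMap.fourierInv_coe, Real.fourierInv_eq', hφ]
    congr 1 with τ
    rw [smul_eq_mul, mul_comm]
    congr 2
    have : (π : ℂ) ≠ 0 := by exact_mod_cast Real.pi_ne_zero
    simp only [RCLike.inner_apply, conj_trivial]
    push_cast
    field_simp
  · have h1 : (𝓕 (𝓕⁻ φ) : 𝓢(ℝ, ℂ)) α = f α := by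
      rw [FourierTransform.fourier_fourierInv_eq, hφ]
    rw [SchwartzMap.fourier_coe, Real.fourier_real_eq_integral_exp_smul] at h1
    have h2 := Measure.integral_comp_mul_right
      (fun v : ℝ => exp (((-2 * π * v * α : ℝ) : ℂ) * I) • (𝓕⁻ φ : 𝓢(ℝ, ℂ)) v) (2 * π)⁻¹
    rw [h1, inv_inv, abs_of_pos (by positivity), real_smul] at h2
    push_cast at h2 ⊢
    rw [← h2]
    congr 1 with y
    rw [SchwartzMap.compCLMOfContinuousLinearEquiv_apply, Function.comp_apply, hg, smul_eq_mul,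
      mul_comm]
    congr 2
    have : (π : ℂ) ≠ 0 := by exact_mod_cast Real.pi_ne_zero
    field_simp

lemma decay_pow (G : 𝓢(ℝ, ℂ)) (A : ℕ) : ∃ C, 0 < C ∧ ∀ y : ℝ, |y| ^ A * ‖G y‖ ≤ C := by
  obtain ⟨C, hC, h⟩ := G.decay A 0
  exact ⟨C, hC, fun y => by simpa using h y⟩

lemma decay_div (G : 𝓢(ℝ, ℂ)) (A : ℕ) :
    ∃ C, 0 < C ∧ ∀ y r : ℝ, 0 < r → r ≤ |y| → ‖G y‖ ≤ C / r ^ A := by
  obtain ⟨C, hC, h⟩ := decay_pow G A
  refine ⟨C, hC, fun y r hr hy => ?_⟩
  rw [le_div_iff₀ (by positivity)]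
  refine le_trans ?_ (h y)
  rw [mul_comm]
  gcongr

lemma integrable_abs_pow (G : 𝓢(ℝ, ℂ)) (A : ℕ) : Integrable fun y : ℝ => |y| ^ A * ‖G y‖ :=
  G.integrable_pow_mul volume A

/-- smooth weights supported in `(d, 1)` -/
structure Wt where
  w : ℝ → ℝ
  d : ℝ
  d_pos : 0 < d
  d_lt : d < 1
  smooth : ContDiff ℝ ∞ w
  nonneg : ∀ x, 0 ≤ w x
  le_one : ∀ x, w x ≤ 1
  supp : ∀ x, w x ≠ 0 → d < x ∧ x < 1

lemma exists_wt {ε : ℝ} (hε : 0 < ε) (hε1 : ε < 1) : ∃ W : Wt, 1 - ε ≤ ∫ x, W.w x := by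
  let b : ContDiffBump (1 / 2 : ℝ) := ⟨1 / 2 - ε / 2, 1 / 2 - ε / 4, by linarith, by linarith⟩
  refine ⟨⟨b, ε / 4, by linarith, by linarith, b.contDiff, fun x => b.nonneg, fun x => b.le_one,
    fun x hx => ?_⟩, ?_⟩
  · have : x ∈ Function.support b := hx
    rw [b.support_eq, Real.ball_eq_Ioo] at this
    constructor
    · have := this.1; simp only [b] at this; linarith
    · have := this.2; simp only [b] at this; linarith
  · refine le_trans (le_of_eq ?_) (b.measure_closedBall_le_integral volume)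
    rw [Real.volume_real_closedBall (by simp only [b]; linarith)]
    simp only [b]; ring

namespace Wt

variable (W : Wt)

lemma continuous : Continuous W.w := W.smooth.continuous

lemma compact : HasCompactSupport W.w :=
  HasCompactSupport.intro (isCompact_Icc (a := W.d) (b := 1)) fun x hx => by
    by_contra h; exact hx ⟨(W.supp x h).1.le, (W.supp x h).2.le⟩

lemma eq_zero {x : ℝ} (hx : 1 ≤ x) : W.w x = 0 := by
  by_contra h; linarith [(W.supp x h).2]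

lemma exists_G : ∃ G : 𝓢(ℝ, ℂ), (∀ y : ℝ, G y = ∫ τ : ℝ, (W.w τ : ℂ) * exp (I * (τ * y : ℝ))) ∧
      ∀ α : ℝ, ∫ y : ℝ, G y * exp (-I * (α * y : ℝ)) = 2 * π * (W.w α : ℂ) :=
  exists_ft (ofRealCLM.contDiff.comp W.smooth) (W.compact.comp_left (g := ofReal) ofReal_zero)

/-- Fourier transform of the weight -/
noncomputable def G : 𝓢(ℝ, ℂ) := W.exists_G.choose

lemma G_eq (y : ℝ) : W.G y = ∫ τ : ℝ, (W.w τ : ℂ) * exp (I * (τ * y : ℝ)) :=
  W.exists_G.choose_spec.1 y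

lemma G_inv (α : ℝ) : ∫ y : ℝ, W.G y * exp (-I * (α * y : ℝ)) = 2 * π * (W.w α : ℂ) :=
  W.exists_G.choose_spec.2 α

/-- mass -/
noncomputable def c : ℝ := ∫ x, W.w x

lemma c_nonneg : 0 ≤ W.c := integral_nonneg W.nonneg

lemma c_le_one : W.c ≤ 1 := by
  have h : W.c = ∫ x in (0 : ℝ)..1, W.w x :=
    (intervalIntegral.integral_eq_integral_of_support_subset fun x hx =>
      ⟨W.d_pos.trans (W.supp x hx).1, (W.supp x hx).2.le⟩).symm
  rw [h]
  have := intervalIntegral.integral_mono_on (μ := volume) zero_le_one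
    (W.continuous.intervalIntegrable 0 1)
    (continuous_const (y := (1 : ℝ)).intervalIntegrable 0 1) fun x _ => W.le_one x
  simpa using this

lemma G_zero : W.G 0 = W.c := by
  rw [G_eq, c, ← integral_complex_ofReal]; simp

lemma exists_lip : ∃ K, 0 < K ∧ ∀ x, |deriv W.w x| ≤ K := by
  obtain ⟨K, hK⟩ := (W.smooth.continuous_deriv (by simp)).bounded_above_of_compact_support
    W.compact.deriv
  exact ⟨max K 1, by positivity, fun x => (hK x).trans (le_max_left _ _)⟩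

lemma hasDerivAt (x : ℝ) : HasDerivAt W.w (deriv W.w x) x :=
  (W.smooth.differentiable (by simp) x).hasDerivAt

/-- the weighted integral -/
noncomputable def Iw (T : ℝ) (f : ℝ → ℂ) : ℂ := ∫ t, (W.w (t / T) : ℂ) * f t

lemma supp_div {T t : ℝ} (hT : 0 < T) (h : W.w (t / T) ≠ 0) : W.d * T < t ∧ t < T := by
  have := W.supp _ h
  rwa [lt_div_iff₀ hT, div_lt_one hT] at this

lemma integrable_real {T : ℝ} (hT : 0 < T) {f : ℝ → ℝ} (hf : Continuous f) :
    Integrable fun t => W.w (t / T) * f t := by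
  refine Continuous.integrable_of_hasCompactSupport
    ((W.continuous.comp (continuous_id.div_const T)).mul hf) ?_
  refine HasCompactSupport.intro (isCompact_Icc (a := W.d * T) (b := T)) fun x hx => ?_
  by_contra h
  have := W.supp_div hT (left_ne_zero_of_mul h)
  exact hx ⟨this.1.le, this.2.le⟩

lemma integrable {T : ℝ} (hT : 0 < T) {f : ℝ → ℂ} (hf : Continuous f) :
    Integrable fun t => (W.w (t / T) : ℂ) * f t := by
  refine Continuous.integrable_of_hasCompactSupport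
    ((continuous_ofReal.comp (W.continuous.comp (continuous_id.div_const T))).mul hf) ?_
  refine HasCompactSupport.intro (isCompact_Icc (a := W.d * T) (b := T)) fun x hx => ?_
  by_contra h
  have := W.supp_div hT (by exact_mod_cast left_ne_zero_of_mul h)
  exact hx ⟨this.1.le, this.2.le⟩

lemma Iw_sum {ι : Type*} {T : ℝ} (hT : 0 < T) (s : Finset ι) (a : ι → ℂ) {f : ι → ℝ → ℂ}
    (hf : ∀ i, Continuous (f i)) :
    W.Iw T (fun t => ∑ i ∈ s, a i * f i t) = ∑ i ∈ s, a i * W.Iw T (f i) := by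
  simp only [Iw, Finset.mul_sum]
  rw [integral_finsetSum]
  · refine sum_congr rfl fun i _ => ?_
    rw [← integral_const_mul]
    congr 1 with t; ring
  · exact fun i _ => W.integrable hT (continuous_const.mul (hf i))

lemma Iw_exp {T : ℝ} (hT : 0 < T) (α : ℝ) :
    W.Iw T (fun t => exp (I * (α * t : ℝ))) = T * W.G (T * α) := by
  have := Measure.integral_comp_div (fun τ : ℝ => (W.w τ : ℂ) * exp (I * (τ * (T * α) : ℝ))) T
  rw [G_eq, abs_of_pos hT, real_smul] at *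
  rw [← this, Iw]
  congr 1 with t
  congr 4
  field_simp

/-- Mean value theorem with a smooth weight. -/
lemma mean_value (A : ℕ) : ∃ C, 0 < C ∧ ∀ {ι κ : Type} (s : Finset ι) (s' : Finset κ) (a : ι → ℂ)
    (b : κ → ℂ) (α : ι → ℝ) (β : κ → ℝ) (T R : ℝ), 0 < T → 0 < R →
    (∀ i ∈ s, ∀ j ∈ s', α i ≠ β j → R ≤ T * |α i - β j|) →
    ‖W.Iw T (fun t => (∑ i ∈ s, a i * exp (I * (α i * t : ℝ))) *
        ∑ j ∈ s', b j * exp (-I * (β j * t : ℝ))) -
      T * W.c * ∑ i ∈ s, ∑ j ∈ s', if α i = β j then a i * b j else 0‖ ≤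
      T * (C / R ^ A) * ((∑ i ∈ s, ‖a i‖) * ∑ j ∈ s', ‖b j‖) := by
  obtain ⟨C, hC, h⟩ := decay_div W.G A
  refine ⟨C, hC, fun s s' a b α β T R hT hR hsep => ?_⟩
  have e : (fun t : ℝ => (∑ i ∈ s, a i * exp (I * (α i * t : ℝ))) *
        ∑ j ∈ s', b j * exp (-I * (β j * t : ℝ))) =
      fun t => ∑ p ∈ s ×ˢ s', (a p.1 * b p.2) * exp (I * ((α p.1 - β p.2) * t : ℝ)) := by
    ext t
    rw [sum_mul_sum, sum_product]
    refine sum_congr rfl fun i _ => sum_congr rfl fun j _ => ?_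
    rw [mul_mul_mul_comm, ← exp_add]
    push_cast; ring_nf
  rw [e, W.Iw_sum hT _ _ (fun p => by fun_prop), sum_product, sum_mul_sum, mul_sum, mul_sum,
    ← sum_sub_distrib]
  refine norm_sum_le_of_le _ fun i hi => ?_
  rw [mul_sum, mul_sum, ← sum_sub_distrib]
  refine norm_sum_le_of_le _ fun j hj => ?_
  rw [W.Iw_exp hT]
  split_ifs with h1
  · rw [h1, sub_self, mul_zero, G_zero]
    ring_nf; simp only [norm_zero]; positivity
  · rw [mul_zero, sub_zero, norm_mul, norm_mul, norm_mul, norm_real, Real.norm_eq_abs,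
      abs_of_pos hT, mul_comm]
    gcongr
    refine h _ _ hR ?_
    rw [abs_mul, abs_of_pos hT]
    exact hsep i hi j hj h1

/-- First derivative test. -/
lemma first_deriv : ∃ C, 0 < C ∧ ∀ (T α : ℝ) (j : ℕ), 0 < T → j ≤ 3 →
    α + 1 ≤ j * (Real.log (W.d * T) - Real.log (2 * π)) →
    ‖W.Iw T (fun t => exp (I * (α * t : ℝ)) * conj (om0 t) ^ j)‖ ≤ C := by
  obtain ⟨K, hK0, hK⟩ := W.exists_lip
  have hd := W.d_pos
  refine ⟨2 + K + 3 / W.d, by positivity, fun T α j hT hj hα => ?_⟩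
  have hj' : (j : ℝ) ≤ 3 := by exact_mod_cast hj
  set φ : ℝ → ℝ := fun t => α * t - j * (t * Real.log t - t * (1 + Real.log (2 * π)) - π / 4)
  set φ' : ℝ → ℝ := fun t => α - j * (Real.log t - Real.log (2 * π))
  have hab : W.d * T ≤ T := by nlinarith [W.d_lt]
  have hpos : ∀ t ∈ Set.uIcc (W.d * T) T, W.d * T ≤ t ∧ 0 < t ∧ φ' t ≤ -1 := fun t ht => by
    rw [Set.uIcc_of_le hab] at ht
    have h1 : 0 < W.d * T := by positivity
    refine ⟨ht.1, h1.trans_le ht.1, ?_⟩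
    have := Real.log_le_log h1 ht.1
    simp only [φ']
    nlinarith [Nat.cast_nonneg (α := ℝ) j]
  have e : W.Iw T (fun t => exp (I * (α * t : ℝ)) * conj (om0 t) ^ j) =
      ∫ t in (W.d * T)..T, ((W.w (t / T) / φ' t : ℝ) : ℂ) * (exp (I * φ t) * φ' t) := by
    rw [Iw, ← intervalIntegral.integral_eq_integral_of_support_subset (a := W.d * T) (b := T)]
    · refine intervalIntegral.integral_congr fun t ht => ?_
      have h1 : (φ' t : ℂ) ≠ 0 := by exact_mod_cast (by linarith [(hpos t ht).2.2] : φ' t ≠ 0)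
      have h2 : exp (I * (α * t : ℝ)) * conj (om0 t) ^ j = exp (I * φ t) := by
        rw [om0, ← exp_conj, ← exp_nat_mul, ← exp_add, map_mul, conj_I, conj_ofReal]
        simp only [φ]; push_cast; ring_nf
      simp only [h2]
      push_cast; field_simp
    · intro t ht
      have := W.supp_div hT (t := t) (by exact_mod_cast left_ne_zero_of_mul ht)
      exact ⟨this.1, this.2.le⟩
  set u' : ℝ → ℝ := fun t => (deriv W.w (t / T) / T * φ' t - W.w (t / T) * (-(j / t))) / φ' t ^ 2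
  have hφ : ∀ t ∈ Set.uIcc (W.d * T) T, HasDerivAt φ (φ' t) t := fun t ht => by
    have h0 := (hpos t ht).2.1
    have h1 := ((((hasDerivAt_id t).mul (Real.hasDerivAt_log h0.ne')).sub
      ((hasDerivAt_id t).mul_const (1 + Real.log (2 * π)))).sub_const (π / 4)).const_mul (j : ℝ)
    refine (((hasDerivAt_id t).const_mul α).sub h1).congr_deriv ?_
    simp only [φ', id]; field_simp; ring
  have hφ' : ∀ t ∈ Set.uIcc (W.d * T) T, HasDerivAt φ' (-(j / t)) t := fun t ht => by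
    have h0 := (hpos t ht).2.1
    refine ((((Real.hasDerivAt_log h0.ne').sub_const _).const_mul (j : ℝ)).const_sub α).congr_deriv ?_
    field_simp
  have hu : ∀ t ∈ Set.uIcc (W.d * T) T,
      HasDerivAt (fun t => ((W.w (t / T) / φ' t : ℝ) : ℂ)) (u' t : ℂ) t := fun t ht => by
    refine HasDerivAt.ofReal_comp ?_
    have h1 := (W.hasDerivAt (t / T)).comp t ((hasDerivAt_id t).div_const T)
    refine (h1.div (hφ' t ht) (by linarith [(hpos t ht).2.2])).congr_deriv ?_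
    simp only [u', Function.comp, id]; ring
  have hv : ∀ t ∈ Set.uIcc (W.d * T) T,
      HasDerivAt (fun t => -I * exp (I * φ t)) (exp (I * φ t) * φ' t) t := fun t ht => by
    refine ((((hφ t ht).ofReal_comp.const_mul I).cexp).const_mul (-I)).congr_deriv ?_
    linear_combination (-(exp (I * φ t) * φ' t)) * I_mul_I
  have hc1 : ContinuousOn φ' (Set.uIcc (W.d * T) T) := fun t ht =>
    (hφ' t ht).continuousAt.continuousWithinAt
  have hc0 : ContinuousOn φ (Set.uIcc (W.d * T) T) := fun t ht =>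
    (hφ t ht).continuousAt.continuousWithinAt
  have hc2 : ContinuousOn u' (Set.uIcc (W.d * T) T) := by
    have h1 := W.continuous
    have h2 : Continuous (deriv W.w) := W.smooth.continuous_deriv (by simp)
    refine ContinuousOn.div (ContinuousOn.sub (ContinuousOn.mul (by fun_prop) hc1)
      (ContinuousOn.mul (by fun_prop) (ContinuousOn.neg (continuousOn_const.div continuousOn_id
        fun t ht => (hpos t ht).2.1.ne')))) (hc1.pow 2) fun t ht => ?_
    exact pow_ne_zero _ (by linarith [(hpos t ht).2.2])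
  rw [e, intervalIntegral.integral_mul_deriv_eq_deriv_mul hu hv
    (continuous_ofReal.comp_continuousOn hc2).intervalIntegrable
    (ContinuousOn.intervalIntegrable (by fun_prop))]
  have hb : ∀ t ∈ Set.uIcc (W.d * T) T,
      ‖((W.w (t / T) / φ' t : ℝ) : ℂ) * (-I * exp (I * φ t))‖ ≤ 1 := fun t ht => by
    rw [norm_mul, norm_mul, mul_comm I, norm_exp_ofReal_mul_I, norm_real, Real.norm_eq_abs,
      abs_div, abs_of_nonneg (W.nonneg _)]
    simp only [norm_neg, norm_I, mul_one]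
    rw [div_le_one (by linarith [(hpos t ht).2.2, neg_le_abs (φ' t)])]
    linarith [(hpos t ht).2.2, neg_le_abs (φ' t), W.le_one (t / T)]
  have hi : ‖∫ t in (W.d * T)..T, (u' t : ℂ) * (-I * exp (I * φ t))‖ ≤
      (K / T + 3 / (W.d * T)) * |T - W.d * T| := by
    refine intervalIntegral.norm_integral_le_of_norm_le_const fun t ht => ?_
    have ht' := Set.uIoc_subset_uIcc ht
    obtain ⟨h1, h2, h3⟩ := hpos t ht'
    rw [norm_mul, norm_mul, mul_comm I, norm_exp_ofReal_mul_I, norm_real, Real.norm_eq_abs]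
    simp only [norm_neg, norm_I, mul_one, u']
    have h4 : 1 ≤ |φ' t| := by linarith [neg_le_abs (φ' t)]
    rw [abs_div, abs_pow, div_le_iff₀ (by positivity)]
    refine (abs_sub _ _).trans ?_
    rw [abs_mul, abs_mul, abs_div, abs_of_pos hT, abs_neg, abs_div, abs_of_pos h2,
      abs_of_nonneg (W.nonneg _), Nat.abs_cast, add_mul]
    have h5 : |φ' t| ≤ |φ' t| ^ 2 := by nlinarith
    refine add_le_add ?_ ?_
    · gcongr
      exact hK _
    · calc W.w (t / T) * (j / t) ≤ 1 * (3 / (W.d * T)) := by gcongr; exact W.le_one _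
        _ ≤ _ := by
          rw [one_mul]; exact le_mul_of_one_le_right (by positivity) (h4.trans h5)
  have h6 : (K / T + 3 / (W.d * T)) * |T - W.d * T| ≤ K + 3 / W.d := by
    rw [abs_of_nonneg (by linarith)]
    calc _ ≤ (K / T + 3 / (W.d * T)) * T := by gcongr; nlinarith
      _ = _ := by field_simp
  refine (norm_sub_le _ _).trans ?_
  have := (norm_sub_le _ _).trans (add_le_add (hb T Set.right_mem_uIcc) (hb _ Set.left_mem_uIcc))
  linarith

lemma cross_term : ∃ C, 0 < C ∧ ∀ {ι κ : Type} (s : Finset ι) (s' : Finset κ) (a : ι → ℂ)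
    (b : κ → ℂ) (α : ι → ℝ) (β : κ → ℝ) (T : ℝ) (j : ℕ), 0 < T → j ≤ 3 →
    (∀ i ∈ s, ∀ k ∈ s', α i + β k + 1 ≤ j * (Real.log (W.d * T) - Real.log (2 * π))) →
    ‖W.Iw T (fun t => (∑ i ∈ s, a i * exp (I * (α i * t : ℝ))) *
        (∑ k ∈ s', b k * exp (I * (β k * t : ℝ))) * conj (om0 t) ^ j)‖ ≤
      C * ((∑ i ∈ s, ‖a i‖) * ∑ k ∈ s', ‖b k‖) := by
  obtain ⟨C, hC, h⟩ := W.first_deriv
  refine ⟨C, hC, fun s s' a b α β T j hT hj hsep => ?_⟩
  have e : (fun t : ℝ => (∑ i ∈ s, a i * exp (I * (α i * t : ℝ))) *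
        (∑ k ∈ s', b k * exp (I * (β k * t : ℝ))) * conj (om0 t) ^ j) =
      fun t => ∑ p ∈ s ×ˢ s', (a p.1 * b p.2) *
        (exp (I * ((α p.1 + β p.2) * t : ℝ)) * conj (om0 t) ^ j) := by
    ext t
    rw [sum_mul_sum, sum_product, sum_mul]
    refine sum_congr rfl fun i _ => ?_
    rw [sum_mul]
    refine sum_congr rfl fun j _ => ?_
    rw [mul_mul_mul_comm, ← exp_add]
    push_cast; ring_nf
  have hc := continuous_om0
  rw [e, W.Iw_sum hT _ _ (fun p => by fun_prop), sum_product, sum_mul_sum, mul_sum]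
  refine norm_sum_le_of_le _ fun i hi => ?_
  rw [mul_sum]
  refine norm_sum_le_of_le _ fun k hk => ?_
  rw [norm_mul, norm_mul, mul_comm]
  gcongr
  exact h _ _ _ hT hj (hsep i hi k hk)

end Wt

end Pool.Agent.Lib.MP_80d0cf_nt.Six
end
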