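import Pool.Agent.Lib.MP_80d0cf_nt.Six.Fourier

-- part Pool.Agent.Lib.MP_80d0cf_nt.Six.ExpSum
section

/-! Incomplete exponential sums and counting lemmas. -/

open Finset Complex MeasureTheory
open scoped Real SchwartzMap ContDiff

namespace Pool.Agent.Lib.MP_80d0cf_nt.Six

/-- `e(x / h)` -/
noncomputable def ec (h : ℕ) (x : ℤ) : ℂ := exp (2 * π * I * x / h)

lemma ec_eq (h : ℕ) [NeZero h] (x : ℤ) : ec h x = ZMod.stdAddChar (x : ZMod h) :=
  (ZMod.stdAddChar_coe x).symm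

lemma ec_mul_nat (h : ℕ) (x : ℤ) (v : ℕ) : ec h (x * v) = ec h x ^ v := by
  rw [ec, ec, ← exp_nat_mul]; push_cast; ring_nf

lemma ec_eq_exp (h : ℕ) (x : ℤ) : ec h x = exp (I * (2 * π * x / h : ℝ)) := by
  rw [ec]; push_cast; ring_nf

lemma norm_ec (h : ℕ) (x : ℤ) : ‖ec h x‖ = 1 := by
  rw [ec_eq_exp, mul_comm, norm_exp_ofReal_mul_I]

/-- nonzero residues of least absolute value -/
noncomputable def Rs (h : ℕ) : Finset ℤ := (Icc (-h : ℤ) h).filter fun j => j ≠ 0 ∧ -(h : ℤ) < j * 2 ∧ j * 2 ≤ h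

lemma mem_Rs {h : ℕ} {j : ℤ} : j ∈ Rs h ↔ j ≠ 0 ∧ -(h : ℤ) < j * 2 ∧ j * 2 ≤ h := by
  simp only [Rs, mem_filter, mem_Icc]; omega

lemma sum_Rs (h : ℕ) [NeZero h] (F : ZMod h → ℂ) :
    ∑ j ∈ Rs h, F j = ∑ k ∈ univ.erase 0, F k := by
  have key : ∀ j ∈ Rs h, (j : ZMod h).valMinAbs = j := fun j hj =>
    (ZMod.valMinAbs_spec _ _).2 ⟨rfl, (mem_Rs.1 hj).2⟩
  refine sum_nbij' (fun j => (j : ZMod h)) (fun k => k.valMinAbs) (fun j hj => ?_) (fun k hk => ?_)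
    key (fun k _ => ZMod.coe_valMinAbs k) fun _ _ => rfl
  · refine mem_erase.2 ⟨fun h0 => (mem_Rs.1 hj).1 ?_, mem_univ _⟩
    rw [← key j hj, h0, ZMod.valMinAbs_zero]
  · exact mem_Rs.2 ⟨fun h0 => (mem_erase.1 hk).1 ((ZMod.valMinAbs_eq_zero k).1 h0),
      ZMod.valMinAbs_mem_Ioc k⟩

lemma norm_one_sub_ec {h : ℕ} {j : ℤ} (hj : j ∈ Rs h) : 4 * |(j : ℝ)| / h ≤ ‖1 - ec h (-j)‖ := by
  obtain ⟨h0, h1, h2⟩ := mem_Rs.1 hj
  have hh : (0 : ℝ) < h := by exact_mod_cast (by omega : 0 < h)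
  have h3 : |(j : ℝ)| * 2 ≤ h := by
    have : |j| * 2 ≤ h := by rcases abs_cases j with h | h <;> omega
    exact_mod_cast this
  rw [norm_sub_rev, ec_eq_exp, norm_exp_I_mul_ofReal_sub_one, norm_mul, Real.norm_eq_abs,
    Real.norm_eq_abs, abs_two]
  have e : |2 * π * ((-j : ℤ) : ℝ) / h / 2| = π * (|(j : ℝ)| / h) := by
    push_cast
    rw [show 2 * π * -(j : ℝ) / h / 2 = -(π * (j / h)) by ring, abs_neg, abs_mul, abs_div,
      abs_of_pos Real.pi_pos, abs_of_pos hh]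
  have := Real.mul_abs_le_abs_sin (x := 2 * π * ((-j : ℤ) : ℝ) / h / 2) (by
    rw [e, div_eq_mul_one_div π]
    exact mul_le_mul_of_nonneg_left (by rw [div_le_iff₀ hh]; linarith) Real.pi_pos.le)
  rw [e] at this
  refine le_trans (le_of_eq ?_) (mul_le_mul_of_nonneg_left this two_pos.le)
  field_simp; ring

lemma abel_geom {z : ℂ} (hz : ‖z‖ = 1) (a : ℕ → ℂ) {M V : ℕ} (h : M ≤ V) :
    ‖1 - z‖ * ‖∑ v ∈ Ioc M V, a v * z ^ v‖ ≤
      ‖a (M + 1)‖ + ‖a (V + 1)‖ + ∑ v ∈ Ioc M V, ‖a (v + 1) - a v‖ := by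
  have key : (1 - z) * ∑ v ∈ Ioc M V, a v * z ^ v = a (M + 1) * z ^ (M + 1) -
      a (V + 1) * z ^ (V + 1) + ∑ v ∈ Ioc M V, (a (v + 1) - a v) * z ^ (v + 1) := by
    induction V, h using Nat.le_induction with
    | base => simp
    | succ V hV ih => rw [sum_Ioc_succ_top hV, sum_Ioc_succ_top hV, mul_add, ih]; ring
  rw [← norm_mul, key]
  refine (norm_add_le _ _).trans (add_le_add ((norm_sub_le _ _).trans (le_of_eq ?_))
    (norm_sum_le_of_le _ fun v _ => le_of_eq ?_)) <;> simp [hz]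

/-- twisted geometric sum -/
noncomputable def GS (h : ℕ) (j : ℤ) (V : ℕ) (s : ℂ) : ℂ := ∑ v ∈ Ioc 0 V, pw v s * ec h (-j * v)

lemma norm_pw_succ_sub {v : ℕ} (hv : 0 < v) {s : ℂ} (hs : -1 ≤ s.re) :
    ‖pw (v + 1 : ℕ) s - pw v s‖ ≤ ‖s‖ * (v : ℝ) ^ (-s.re - 1) := by
  have := norm_pw_sub_le (x := v) (y := (v + 1 : ℕ)) (by exact_mod_cast hv) (by push_cast; linarith) hs
  simpa using this

lemma abs_pos_of_Rs {h : ℕ} {j : ℤ} (hj : j ∈ Rs h) : 1 ≤ |(j : ℝ)| ∧ |(j : ℝ)| ≤ h := by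
  obtain ⟨h0, h1, h2⟩ := mem_Rs.1 hj
  have : 1 ≤ |j| ∧ |j| ≤ h := by rcases abs_cases j with h | h <;> omega
  exact_mod_cast this

lemma norm_GS_zero {h : ℕ} {j : ℤ} (hj : j ∈ Rs h) (V : ℕ) (y : ℝ) :
    ‖GS h j V (y * I)‖ ≤ h / |(j : ℝ)| * ((1 + |y|) * (1 + Real.log V)) := by
  obtain ⟨j1, j2⟩ := abs_pos_of_Rs hj
  have h1 := abel_geom (norm_ec h (-j)) (fun v => pw v (y * I)) (Nat.zero_le V)
  have h2 := norm_one_sub_ec hj
  have hn : ∀ v : ℕ, ‖pw (v + 1 : ℕ) (y * I)‖ = 1 := fun v => by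
    rw [norm_pw (by positivity)]; simp
  have h3 : ∑ v ∈ Ioc 0 V, ‖pw (v + 1 : ℕ) (y * I) - pw v (y * I)‖ ≤ |y| * (1 + Real.log V) := by
    refine le_trans ?_ (mul_le_mul_of_nonneg_left (sum_inv_le V) (abs_nonneg y))
    rw [mul_sum]
    refine sum_le_sum fun v hv => (norm_pw_succ_sub (mem_Ioc.1 hv).1 (by simp)).trans (le_of_eq ?_)
    simp [Real.rpow_neg_one]
  simp only [hn] at h1
  simp only [GS, ec_mul_nat]
  have hl := Real.log_natCast_nonneg V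
  have hh : (0 : ℝ) < h := by linarith
  rw [div_mul_eq_mul_div, le_div_iff₀ (by linarith)]
  have h4 := (mul_le_mul_of_nonneg_right h2 (norm_nonneg _)).trans h1
  rw [div_mul_eq_mul_div, div_le_iff₀ hh] at h4
  have := abs_nonneg y
  nlinarith [mul_nonneg this hl, mul_nonneg hh.le (mul_nonneg this hl), mul_nonneg hh.le hl,
    mul_nonneg hh.le this]

lemma sum_inv_sqrt_le (M : ℕ) : ∑ v ∈ Ioc 0 M, (v : ℝ) ^ (-(1 / 2 : ℝ)) ≤ 2 * √M := by
  induction M with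
  | zero => simp
  | succ M ih =>
    rw [sum_Ioc_succ_top (Nat.zero_le M), Real.rpow_neg (by positivity), ← Real.sqrt_eq_rpow]
    have hb : 0 < √((M + 1 : ℕ) : ℝ) := Real.sqrt_pos.2 (by positivity)
    have ha2 : √(M : ℝ) ^ 2 = M := Real.sq_sqrt (by positivity)
    have hb2 : √((M + 1 : ℕ) : ℝ) ^ 2 = (M : ℝ) + 1 := by
      rw [Real.sq_sqrt (by positivity)]; push_cast; rfl
    have : (√((M + 1 : ℕ) : ℝ))⁻¹ ≤ 2 * √((M + 1 : ℕ) : ℝ) - 2 * √(M : ℝ) := by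
      rw [inv_le_iff_one_le_mul₀ hb]
      nlinarith [sq_nonneg (√((M + 1 : ℕ) : ℝ) - √(M : ℝ))]
    linarith

lemma norm_GS_half {h : ℕ} {j : ℤ} (hj : j ∈ Rs h) (V : ℕ) (y : ℝ) :
    ‖GS h j V (sc y)‖ ≤ 4 * (1 + |y|) * √(h / |(j : ℝ)|) := by
  obtain ⟨j1, j2⟩ := abs_pos_of_Rs hj
  set r := h / |(j : ℝ)| with hr
  have hh : (0 : ℝ) < h := by linarith
  have r1 : 1 ≤ r := by rw [hr, le_div_iff₀ (by linarith)]; linarith
  set M := ⌈r⌉₊
  have M1 : r ≤ M := Nat.le_ceil r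
  have M2 : (M : ℝ) ≤ 2 * r := by linarith [Nat.ceil_lt_add_one (by linarith : 0 ≤ r)]
  have M3 : 1 ≤ M := by exact_mod_cast r1.trans M1
  have hsr : 0 < √r := Real.sqrt_pos.2 (by linarith)
  have hsq : √r * √r = r := Real.mul_self_sqrt (by linarith)
  have hy := abs_nonneg y
  have head : ∀ N ≤ M, ‖∑ v ∈ Ioc 0 N, pw v (sc y) * ec h (-j * v)‖ ≤ 3 * √r := fun N hN => by
    refine (norm_sum_le_of_le _ (n := fun v : ℕ => (v : ℝ) ^ (-(1 / 2 : ℝ))) fun v hv => ?_).trans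
      ((sum_inv_sqrt_le N).trans ?_)
    · rw [norm_mul, norm_ec, mul_one, norm_pw (by exact_mod_cast (mem_Ioc.1 hv).1), sc_re]
    · have : √(N : ℝ) ≤ 3 / 2 * √r := by
        rw [Real.sqrt_le_left (by positivity)]
        have : (N : ℝ) ≤ M := by exact_mod_cast hN
        nlinarith
      linarith
  rcases le_total V M with hV | hV
  · exact (head V hV).trans (by nlinarith)
  have h1 := abel_geom (norm_ec h (-j)) (fun v => pw v (sc y)) hV
  have h2 := norm_one_sub_ec hj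
  have hn : ∀ v : ℕ, M ≤ v → ‖pw (v + 1 : ℕ) (sc y)‖ ≤ 1 / √r := fun v hv => by
    rw [norm_pw (by positivity), sc_re, Real.rpow_neg (by positivity), ← Real.sqrt_eq_rpow, one_div]
    gcongr
    have : (M : ℝ) ≤ v := by exact_mod_cast hv
    push_cast; linarith
  have h3 : ∑ v ∈ Ioc M V, ‖pw (v + 1 : ℕ) (sc y) - pw v (sc y)‖ ≤ (1 + |y|) * (2 / √r) := by
    calc _ ≤ ∑ v ∈ Ioc M V, (1 + |y|) * (v : ℝ) ^ (-(1 / 2 : ℝ) - 1) := by
          refine sum_le_sum fun v hv => (norm_pw_succ_sub (by have := (mem_Ioc.1 hv).1; omega)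
            (by simp; norm_num)).trans ?_
          rw [sc_re]; gcongr; exact norm_sc_le y
      _ ≤ (1 + |y|) * (2 / √M) := by rw [← mul_sum]; gcongr; exact sum_Ioc_rpow_le M3 V
      _ ≤ _ := by gcongr
  have h4 := (mul_le_mul_of_nonneg_right h2 (norm_nonneg _)).trans
    (h1.trans (add_le_add (add_le_add (hn M le_rfl) (hn V hV)) h3))
  have h5 : ‖∑ v ∈ Ioc M V, pw v (sc y) * ec h (-j) ^ v‖ ≤ (1 + |y|) * √r := by
    have e : 4 * |(j : ℝ)| / h = 4 / (√r * √r) := by rw [hsq, hr]; field_simp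
    rw [e, div_mul_eq_mul_div, div_le_iff₀ (by positivity)] at h4
    have e2 : (1 / √r + 1 / √r + (1 + |y|) * (2 / √r)) * (√r * √r) = (4 + 2 * |y|) * √r := by
      field_simp; ring
    rw [e2] at h4
    nlinarith
  rw [GS, ← sum_Ioc_consecutive _ (Nat.zero_le M) hV]
  refine (norm_add_le _ _).trans ?_
  have := head M le_rfl
  simp only [ec_mul_nat] at this ⊢
  nlinarith

lemma Wt.exists_mellin (W : Wt) (σ : ℝ) : ∃ G : 𝓢(ℝ, ℂ), ∀ z : ℝ, 0 < z →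
    2 * π * (W.w z : ℂ) = ∫ y : ℝ, G y * pw z (σ + y * I) := by
  have h1 : ContDiff ℝ ∞ fun x : ℝ => ((Real.exp (σ * x) * W.w (Real.exp x) : ℝ) : ℂ) :=
    ofRealCLM.contDiff.comp ((Real.contDiff_exp.comp (contDiff_const.mul contDiff_id)).mul
      (W.smooth.comp Real.contDiff_exp))
  obtain ⟨G, -, hG⟩ := exists_ft h1 (HasCompactSupport.intro
    (isCompact_Icc (a := Real.log W.d) (b := 0)) fun x hx => by
      by_contra h
      have := W.supp _ (right_ne_zero_of_mul (ofReal_ne_zero.1 h))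
      exact hx ⟨(Real.log_le_iff_le_exp W.d_pos).2 this.1.le, Real.exp_le_one_iff.1 this.2.le⟩)
  refine ⟨G, fun z hz => ?_⟩
  have := hG (Real.log z)
  rw [Real.exp_log hz] at this
  have e : ∀ y : ℝ, G y * pw z (σ + y * I) =
      exp (-σ * Real.log z) * (G y * exp (-I * (Real.log z * y : ℝ))) := fun y => by
    rw [pw, mul_left_comm, ← exp_add]; push_cast; ring_nf
  simp only [e]
  rw [integral_const_mul, this]
  push_cast
  rw [mul_left_comm, ← mul_assoc (exp _), ← exp_add]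
  simp

lemma sum_pm {A : Finset ℤ} {S : Finset ℕ} (h : ∀ j ∈ A, j.natAbs ∈ S) {φ : ℕ → ℝ}
    (hφ : ∀ n, 0 ≤ φ n) : ∑ j ∈ A, φ j.natAbs ≤ 2 * ∑ n ∈ S, φ n := by
  have h1 : A ⊆ S.image (fun n : ℕ => (n : ℤ)) ∪ S.image (fun n : ℕ => -(n : ℤ)) := fun j hj => by
    rcases Int.natAbs_eq j with e | e
    · exact mem_union_left _ (mem_image.2 ⟨_, h j hj, e.symm⟩)
    · exact mem_union_right _ (mem_image.2 ⟨_, h j hj, e.symm⟩)
  refine (sum_le_sum_of_subset_of_nonneg h1 fun _ _ _ => hφ _).trans ?_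
  have h2 := sum_union_inter (s₁ := S.image (fun n : ℕ => (n : ℤ)))
    (s₂ := S.image (fun n : ℕ => -(n : ℤ))) (f := fun j => φ j.natAbs)
  rw [sum_image fun a _ b _ h => by simpa using h, sum_image fun a _ b _ h => by simpa using h] at h2
  simp only [Int.natAbs_neg, Int.natAbs_natCast] at h2
  have h3 := sum_nonneg (s := S.image (fun n : ℕ => (n : ℤ)) ∩ S.image (fun n : ℕ => -(n : ℤ)))
    fun j _ => hφ j.natAbs
  linarith

lemma gcd_eq_sum {h : ℕ} (hh : h ≠ 0) (n : ℕ) :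
    (n.gcd h : ℝ) = ∑ g ∈ h.divisors, if g ∣ n then (g.totient : ℝ) else 0 := by
  rw [← sum_filter, ← Nat.sum_totient (n.gcd h)]
  push_cast
  congr 1
  ext e
  simp only [mem_filter, Nat.mem_divisors, Nat.dvd_gcd_iff, ne_eq, Nat.gcd_eq_zero_iff]
  tauto

lemma sum_gcd_div_le {h : ℕ} (hh : h ≠ 0) :
    ∑ j ∈ Rs h, (Int.gcd j h : ℝ) / |(j : ℝ)| ≤ 2 * (D 2 h * (1 + Real.log h)) := by
  have h1 := sum_pm (A := Rs h) (S := Ioc 0 h) (fun j hj => by
    have := mem_Rs.1 hj; rw [mem_Ioc]; omega) (φ := fun n => (n.gcd h : ℝ) / n)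
    fun n => by positivity
  refine le_trans (le_of_eq (sum_congr rfl fun j _ => ?_)) (h1.trans ?_)
  · simp [Int.gcd, Nat.cast_natAbs]
  gcongr
  simp only [gcd_eq_sum hh, sum_div]
  rw [sum_comm, D_two, ← nsmul_eq_mul, ← sum_const]
  refine sum_le_sum fun g hg => ?_
  have hg0 := Nat.pos_of_mem_divisors hg
  simp only [ite_div, zero_div]
  rw [sum_dvd_Ioc hg0]
  refine le_trans ?_ (sum_inv_le h)
  refine le_trans (sum_le_sum fun j hj => ?_) (sum_le_sum_of_subset_of_nonneg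
    (Ioc_subset_Ioc_right (Nat.div_le_self h g)) fun _ _ _ => by positivity)
  have : (0 : ℝ) < j := by exact_mod_cast (mem_Ioc.1 hj).1
  have h2 : (g.totient : ℝ) ≤ g := by exact_mod_cast Nat.totient_le g
  push_cast
  rw [div_le_div_iff₀ (by positivity) this]
  nlinarith

/-- the cube of nonzero frequencies -/
noncomputable def Rs3 (h : ℕ) : Finset (ℤ × ℤ × ℤ) := Rs h ×ˢ Rs h ×ˢ Rs h

lemma sum_Gw_le {h : ℕ} (hh : h ≠ 0) : ∑ k ∈ Rs3 h, (Gw h k : ℝ) / |(mk3 k : ℝ)| ≤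
    (2 * (D 2 h * (1 + Real.log h))) ^ 3 := by
  have h0 : 0 ≤ ∑ j ∈ Rs h, (Int.gcd j h : ℝ) / |(j : ℝ)| := sum_nonneg fun _ _ => by positivity
  refine le_trans (le_of_eq ?_) (pow_le_pow_left₀ h0 (sum_gcd_div_le hh) 3)
  rw [pow_three, sum_mul_sum, Rs3, sum_product, sum_mul]
  refine sum_congr rfl fun a _ => ?_
  rw [sum_product, mul_sum]
  refine sum_congr rfl fun b _ => ?_
  rw [mul_sum]
  refine sum_congr rfl fun c _ => ?_
  simp only [Gw, mk3]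
  push_cast
  rw [abs_mul, abs_mul, div_mul_div_comm, div_mul_div_comm, mul_assoc, mul_assoc]

lemma mk3_of_mem {h : ℕ} {k : ℤ × ℤ × ℤ} (hk : k ∈ Rs3 h) : mk3 k ≠ 0 ∧ (mk3 k).natAbs ≤ h ^ 3 := by
  simp only [Rs3, mem_product, mem_Rs] at hk
  refine ⟨mul_ne_zero (mul_ne_zero hk.1.1 hk.2.1.1) hk.2.2.1, ?_⟩
  rw [mk3, Int.natAbs_mul, Int.natAbs_mul, pow_three, ← mul_assoc]
  gcongr <;> omega

lemma card_fiber_le (s : Finset (ℤ × ℤ × ℤ)) {m : ℤ} (hm : m ≠ 0) :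
    (#{k ∈ s | mk3 k = m} : ℝ) ≤ (2 * D 2 m.natAbs) ^ 2 := by
  set A := (Icc (-|m|) |m|).filter (· ∣ m)
  have hA : (#A : ℝ) ≤ 2 * D 2 m.natAbs := by
    have := sum_pm (A := A) (S := m.natAbs.divisors) (fun j hj => Nat.mem_divisors.2
      ⟨Int.natAbs_dvd_natAbs.2 (mem_filter.1 hj).2, Int.natAbs_ne_zero.2 hm⟩) (φ := fun _ => 1)
      fun _ => zero_le_one
    simpa [D_two] using this
  have hm' : ∀ j, j ∣ m → j ∈ A := fun j hj => mem_filter.2
    ⟨mem_Icc.2 (abs_le.1 (Int.le_of_dvd (abs_pos.2 hm) ((abs_dvd_abs _ _).2 hj))), hj⟩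
  have h1 : #{k ∈ s | mk3 k = m} ≤ #(A ×ˢ A) := by
    refine card_le_card_of_injOn (fun k => (k.1, k.2.1)) (fun k hk => ?_) fun k hk k' hk' h => ?_
    · have := (mem_filter.1 hk).2
      exact mem_product.2 ⟨hm' _ (this ▸ (dvd_mul_right _ _).mul_right _),
        hm' _ (this ▸ (dvd_mul_left _ _).mul_right _)⟩
    · have e1 := (mem_filter.1 hk).2
      have e2 := (mem_filter.1 hk').2
      simp only [Prod.mk.injEq] at h
      refine Prod.ext h.1 (Prod.ext h.2 ?_)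
      have h0 : k.1 * k.2.1 ≠ 0 := left_ne_zero_of_mul (e1 ▸ hm : mk3 k ≠ 0)
      refine mul_left_cancel₀ h0 ?_
      simp only [mk3] at e1 e2
      rw [e1, h.1, h.2, e2]
  rw [card_product] at h1
  calc _ ≤ (#A : ℝ) * #A := by exact_mod_cast h1
    _ ≤ _ := by rw [← sq]; gcongr

lemma sum_class_le {q N : ℕ} {B : ℝ} (hB : ∀ n ≤ N, D 2 n ≤ B)
    (s : Finset (ℤ × ℤ × ℤ)) (hs : ∀ k ∈ s, mk3 k ≠ 0 ∧ (mk3 k).natAbs ≤ N)
    (hc : ∀ k ∈ s, ∀ k' ∈ s, mk3 k ≡ mk3 k' [ZMOD q]) {φ ψ : ℤ → ℝ} (hψ : ∀ j, 0 ≤ ψ j)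
    (hφ : ∀ k ∈ s, φ (mk3 k) ≤ ψ (mk3 k / q)) (A : Finset ℤ) (hA : ∀ k ∈ s, mk3 k / q ∈ A) :
    ∑ k ∈ s, φ (mk3 k) ≤ (2 * B) ^ 2 * ∑ j ∈ A, ψ j := by
  refine (sum_le_sum hφ).trans ?_
  rw [← sum_fiberwise_of_maps_to hA, mul_sum]
  refine sum_le_sum fun j _ => ?_
  rw [sum_congr rfl fun k hk => by rw [(mem_filter.1 hk).2], sum_const, nsmul_eq_mul]
  refine mul_le_mul_of_nonneg_right ?_ (hψ j)
  rcases (s.filter fun k => mk3 k / q = j).eq_empty_or_nonempty with h | ⟨k₀, hk₀⟩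
  · rw [h]; simp; positivity
  obtain ⟨h1, h2⟩ := mem_filter.1 hk₀
  have h3 : #{k ∈ s | mk3 k / q = j} ≤ #{k ∈ s | mk3 k = mk3 k₀} := by
    refine card_le_card fun k hk => mem_filter.2 ⟨(mem_filter.1 hk).1, ?_⟩
    have e1 := hc k (mem_filter.1 hk).1 k₀ h1
    rw [← Int.emod_add_mul_ediv (mk3 k) q, ← Int.emod_add_mul_ediv (mk3 k₀) q, e1,
      (mem_filter.1 hk).2, h2]
  have := D_nonneg 2 (mk3 k₀).natAbs
  calc _ ≤ (#{k ∈ s | mk3 k = mk3 k₀} : ℝ) := by exact_mod_cast h3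
    _ ≤ _ := card_fiber_le s (hs k₀ h1).1
    _ ≤ _ := by gcongr; exact hB _ (hs k₀ h1).2

lemma class_small {h₀ q N : ℕ} (hq : q ≠ 0) {B : ℝ} (hB : ∀ n ≤ N, D 2 n ≤ B)
    (s : Finset (ℤ × ℤ × ℤ)) (hs : ∀ k ∈ s, mk3 k ≠ 0 ∧ (mk3 k).natAbs ≤ N)
    (hc : ∀ k ∈ s, ∀ k' ∈ s, mk3 k ≡ mk3 k' [ZMOD q]) (hs' : ∀ k ∈ s, (mk3 k).natAbs ≤ h₀ * q) :
    (#s : ℝ) ≤ (2 * B) ^ 2 * (2 * h₀ + 1) := by
  have := sum_class_le hB s hs hc (φ := fun _ => 1) (ψ := fun _ => 1) (fun _ => zero_le_one)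
    (fun _ _ => le_rfl) (Icc (-h₀ : ℤ) h₀) fun k hk => by
      have h1 := hs' k hk
      have hq' : (0 : ℤ) < q := by exact_mod_cast Nat.pos_of_ne_zero hq
      zify at h1
      rw [abs_le] at h1
      exact mem_Icc.2 ⟨Int.le_ediv_of_mul_le hq' (by linarith), Int.ediv_le_of_le_mul hq' h1.2⟩
  simp only [sum_const, nsmul_eq_mul, mul_one, Int.card_Icc] at this
  rwa [show (h₀ : ℤ) + 1 - -h₀ = (2 * h₀ + 1 : ℕ) by push_cast; ring, Int.toNat_natCast,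
    Nat.cast_add, Nat.cast_mul, Nat.cast_one, Nat.cast_two] at this

lemma class_large {q N : ℕ} (hq : q ≠ 0) {B : ℝ} (hB : ∀ n ≤ N, D 2 n ≤ B)
    (s : Finset (ℤ × ℤ × ℤ)) (hs : ∀ k ∈ s, mk3 k ≠ 0 ∧ (mk3 k).natAbs ≤ N)
    (hc : ∀ k ∈ s, ∀ k' ∈ s, mk3 k ≡ mk3 k' [ZMOD q]) (hs' : ∀ k ∈ s, q < (mk3 k).natAbs) :
    ∑ k ∈ s, 1 / |(mk3 k : ℝ)| ≤ (2 * B) ^ 2 * (4 / q * (1 + Real.log N)) := by
  have hq' : (0 : ℤ) < q := by exact_mod_cast Nat.pos_of_ne_zero hq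
  have key : ∀ m : ℤ, q < m.natAbs → m / q ≠ 0 ∧ q * |m / q| ≤ 2 * |m| ∧ |m / q| ≤ |m| := by
    intro m hm
    have h1 := Int.emod_add_mul_ediv m q
    have h2 := Int.emod_nonneg m hq'.ne'
    have h3 := Int.emod_lt_of_pos m hq'
    zify at hm
    refine ⟨fun h => ?_, ?_, Int.abs_ediv_le_abs _ _⟩
    · rw [h] at h1; rcases abs_cases m with h | h <;> omega
    · rw [← abs_of_pos hq', ← abs_mul, abs_of_pos hq']
      rcases abs_cases m with h | h <;> rcases abs_cases (q * (m / q)) with h' | h' <;> omega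
  refine (sum_class_le hB s hs hc (φ := fun m => 1 / |(m : ℝ)|)
    (ψ := fun j => 2 / q * (1 / j.natAbs)) (fun _ => by positivity) (fun k hk => ?_)
    ((Icc (-N : ℤ) N).erase 0) fun k hk => ?_).trans ?_
  · obtain ⟨h1, h2, -⟩ := key _ (hs' k hk)
    have h3 : (q : ℝ) * |((mk3 k / q : ℤ) : ℝ)| ≤ 2 * |(mk3 k : ℝ)| := by exact_mod_cast h2
    have h4 : (0 : ℝ) < |((mk3 k / q : ℤ) : ℝ)| := abs_pos.2 (by exact_mod_cast h1)
    have h5 : (0 : ℝ) < |(mk3 k : ℝ)| := abs_pos.2 (by exact_mod_cast (hs k hk).1)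
    have : (0 : ℝ) < q := by exact_mod_cast hq'
    rw [Nat.cast_natAbs, Int.cast_abs, div_mul_div_comm, div_le_div_iff₀ h5 (by positivity)]
    linarith
  · obtain ⟨h1, -, h3⟩ := key _ (hs' k hk)
    have := (hs k hk).2
    zify at this
    exact mem_erase.2 ⟨h1, mem_Icc.2 (abs_le.1 (h3.trans this))⟩
  · gcongr
    rw [← mul_sum]
    have := sum_pm (A := (Icc (-N : ℤ) N).erase 0) (S := Ioc 0 N) (fun j hj => by
      simp only [mem_erase, mem_Icc, mem_Ioc] at hj ⊢; omega) (φ := fun n => 1 / (n : ℝ))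
      fun _ => by positivity
    calc _ ≤ 2 / q * (2 * (1 + Real.log N)) := by
          gcongr; exact this.trans (by gcongr; exact sum_inv_le N)
      _ = _ := by ring

end Pool.Agent.Lib.MP_80d0cf_nt.Six
end

-- part Pool.Agent.Lib.MP_80d0cf_nt.Six.Decomp
section

/-! Decomposition of `e(-u v₁ v₂ v₃ / h)` into zero and nonzero frequencies. -/

open Finset Complex
open scoped Real ArithmeticFunction.Moebius

namespace Pool.Agent.Lib.MP_80d0cf_nt.Six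

section generic

variable {R : Type} [CommRing R] [Fintype R] [DecidableEq R]

lemma proj_one {ψ : AddChar R ℂ} (hψ : ψ.IsPrimitive) (g : R → ℂ) (v : R) :
    ∑ k ∈ univ.erase 0, (∑ r, g r * ψ (k * r)) * ψ (-k * v) =
      Fintype.card R * g v - ∑ r, g r := by
  rw [sum_erase_eq_sub (mem_univ _)]
  simp only [zero_mul, neg_zero, AddChar.map_zero_eq_one, mul_one, sum_mul]
  congr 1
  rw [sum_comm]
  have e : ∀ r, ∑ k, g r * ψ (k * r) * ψ (-k * v) =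
      if r = v then Fintype.card R * g r else 0 := fun r => by
    have := AddChar.sum_mulShift (r - v) hψ
    have e2 : ∀ k, g r * ψ (k * r) * ψ (-k * v) = g r * ψ (k * (r - v)) := fun k => by
      rw [mul_assoc, ← AddChar.map_add_eq_mul]; congr 2; ring
    simp only [e2]
    rw [← mul_sum, this]
    simp only [sub_eq_zero]
    split_ifs <;> simp [mul_comm]
  simp only [e, sum_ite_eq', mem_univ, if_true]

lemma decomp {ψ : AddChar R ℂ} (hψ : ψ.IsPrimitive) {u : R} (hu : IsUnit u) (v₁ v₂ v₃ : R) :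
    ∑ k₁ ∈ univ.erase 0, ∑ k₂ ∈ univ.erase 0, ∑ k₃ ∈ univ.erase 0,
      TS ψ u k₁ k₂ k₃ * (ψ (-k₁ * v₁) * ψ (-k₂ * v₂) * ψ (-k₃ * v₃)) =
    (Fintype.card R : ℂ) ^ 3 * (ψ (-u * (v₁ * v₂ * v₃)) - ((if v₂ * v₃ = 0 then 1 else 0) +
      (if v₁ * v₃ = 0 then 1 else 0) + (if v₁ * v₂ = 0 then 1 else 0))) +
      (Fintype.card R : ℂ) ^ 2 * ((∑ r, if r * v₁ = 0 then 1 else 0) +
        (∑ r, if r * v₂ = 0 then 1 else 0) + ∑ r, if r * v₃ = 0 then 1 else 0) -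
      Fintype.card R * ∑ x : R, ∑ r, if r * x = 0 then 1 else 0 := by
  have e1 : ∑ k₁ ∈ univ.erase 0, ∑ k₂ ∈ univ.erase 0, ∑ k₃ ∈ univ.erase 0,
      TS ψ u k₁ k₂ k₃ * (ψ (-k₁ * v₁) * ψ (-k₂ * v₂) * ψ (-k₃ * v₃)) =
      ∑ k₁ ∈ univ.erase 0, (∑ r₁, (∑ k₂ ∈ univ.erase 0, (∑ r₂, (∑ k₃ ∈ univ.erase 0,
        (∑ r₃, ψ (-u * (r₁ * r₂ * r₃)) * ψ (k₃ * r₃)) * ψ (-k₃ * v₃)) * ψ (k₂ * r₂)) *
          ψ (-k₂ * v₂)) * ψ (k₁ * r₁)) * ψ (-k₁ * v₁) := by
    simp only [TS, sum_mul]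
    refine sum_congr rfl fun k₁ _ => ?_
    symm
    rw [sum_comm]
    refine sum_congr rfl fun k₂ _ => ?_
    conv_rhs => rw [sum_comm]
    refine sum_congr rfl fun r₁ _ => ?_
    rw [sum_comm]
    refine sum_congr rfl fun k₃ _ => sum_congr rfl fun r₂ _ => sum_congr rfl fun r₃ _ => ?_
    simp only [← AddChar.map_add_eq_mul]
    congr 1; ring
  have h3 : ∀ a b, ∑ r, ψ (-u * (a * b * r)) = Fintype.card R * if a * b = 0 then 1 else 0 := by
    intro a b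
    have := AddChar.sum_mulShift (-u * (a * b)) hψ
    simp only [hu.neg.mul_right_eq_zero] at this
    rw [sum_congr rfl fun r _ => by rw [show -u * (a * b * r) = r * (-u * (a * b)) by ring], this]
    split_ifs <;> simp
  have h2 : ∀ a c, ∑ r, ψ (-u * (a * r * c)) = Fintype.card R * if a * c = 0 then 1 else 0 := by
    intro a c; rw [← h3]; exact sum_congr rfl fun r _ => by rw [mul_right_comm a r c]
  have h1 : ∀ b c, ∑ r, ψ (-u * (r * b * c)) = Fintype.card R * if b * c = 0 then 1 else 0 := by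
    intro b c; rw [← h3]; exact sum_congr rfl fun r _ => by rw [mul_assoc r b c, mul_comm r]
  rw [e1]
  simp only [proj_one hψ, sum_sub_distrib, ← mul_sum, h1, h2, h3]
  have e2 : ∑ r, (if v₁ * r = 0 then (1 : ℂ) else 0) = ∑ r, if r * v₁ = 0 then 1 else 0 :=
    sum_congr rfl fun r _ => by rw [mul_comm]
  have e3 : ∑ x : R, ∑ r, (if x * r = 0 then (1 : ℂ) else 0) =
      ∑ x : R, ∑ r, if r * x = 0 then 1 else 0 := sum_comm
  rw [e2, e3]
  ring

end generic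

lemma sum_zmod {β : Type*} [AddCommMonoid β] (h : ℕ) [NeZero h] (F : ZMod h → β) :
    ∑ r, F r = ∑ n ∈ Ioc 0 h, F n := by
  symm
  refine sum_bij (fun n _ => (n : ZMod h)) (fun _ _ => mem_univ _) (fun a ha b hb hab => ?_)
    (fun r _ => ?_) fun _ _ => rfl
  · rw [mem_Ioc] at ha hb
    have := ((ZMod.natCast_eq_natCast_iff _ _ _).1 hab).dvd
    have := Int.eq_zero_of_abs_lt_dvd this (abs_lt.2 ⟨by omega, by omega⟩)
    omega
  · rcases eq_or_ne r 0 with rfl | hr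
    · exact ⟨h, mem_Ioc.2 ⟨NeZero.pos h, le_rfl⟩, ZMod.natCast_self h⟩
    · exact ⟨r.val, mem_Ioc.2 ⟨(ZMod.val_pos).2 hr, r.val_lt.le⟩, ZMod.natCast_zmod_val r⟩

lemma dvd_mul_iff_div_gcd {h : ℕ} (hh : h ≠ 0) (b c : ℕ) : h ∣ b * c ↔ h / b.gcd h ∣ c := by
  have hd : 0 < b.gcd h := Nat.gcd_pos_of_pos_right _ (Nat.pos_of_ne_zero hh)
  rw [← Nat.dvd_gcd_mul_iff_dvd_mul, Nat.gcd_comm h b, Nat.div_dvd_iff_dvd_mul (Nat.gcd_dvd_right _ _) hd]

lemma count_zero (h : ℕ) [NeZero h] (v : ℕ) :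
    (∑ r : ZMod h, if r * v = 0 then (1 : ℂ) else 0) = v.gcd h := by
  have hh := NeZero.ne h
  have hd : 0 < v.gcd h := Nat.gcd_pos_of_pos_right _ (Nat.pos_of_ne_zero hh)
  rw [sum_zmod]
  simp only [← Nat.cast_mul, ZMod.natCast_eq_zero_iff, mul_comm _ v, dvd_mul_iff_div_gcd hh]
  rw [sum_dvd_Ioc (Nat.div_pos (Nat.gcd_le_right _ (Nat.pos_of_ne_zero hh)) hd),
    Nat.div_div_self (Nat.gcd_dvd_right _ _) hh]
  simp

/-- `ρ(h) = ∑_{g ∣ h} φ(g) / g` -/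
noncomputable def rho (h : ℕ) : ℝ := ∑ g ∈ h.divisors, (g.totient : ℝ) / g

lemma sum_gcd_eq {h : ℕ} (hh : h ≠ 0) : ∑ n ∈ Ioc 0 h, (n.gcd h : ℝ) = h * rho h := by
  simp only [gcd_eq_sum hh]
  rw [sum_comm, rho, mul_sum]
  refine sum_congr rfl fun g hg => ?_
  have hg0 := Nat.pos_of_mem_divisors hg
  rw [sum_dvd_Ioc hg0, sum_const, Nat.card_Ioc, nsmul_eq_mul, Nat.sub_zero,
    Nat.cast_div (Nat.dvd_of_mem_divisors hg) (by exact_mod_cast hg0.ne')]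
  ring

lemma ec_decomp {h : ℕ} (hh : h ≠ 0) {u : ℕ} (hu : u.Coprime h) (a b c : ℕ) :
    ec h (-u * (a * b * c : ℕ)) = (∑ k ∈ Rs3 h, TT h u k *
      (ec h (-k.1 * a) * ec h (-k.2.1 * b) * ec h (-k.2.2 * c))) / h ^ 3 +
      ((((if h ∣ b * c then 1 else 0) + (if h ∣ a * c then 1 else 0) + (if h ∣ a * b then 1 else 0) -
        ((a.gcd h : ℝ) + b.gcd h + c.gcd h) / h + rho h / h : ℝ)) : ℂ) := by
  have : NeZero h := ⟨hh⟩
  have h1 := decomp (ZMod.isPrimitive_stdAddChar h) ((ZMod.isUnit_iff_coprime u h).2 hu) a b c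
  have e1 : ∑ x : ZMod h, ∑ r : ZMod h, (if r * x = 0 then (1 : ℂ) else 0) = h * rho h := by
    rw [sum_zmod]
    simp only [count_zero]
    exact_mod_cast congrArg ofReal (sum_gcd_eq hh)
  rw [e1] at h1
  simp only [count_zero, ZMod.card, ← Nat.cast_mul, ZMod.natCast_eq_zero_iff, ← sum_Rs] at h1
  have hh' : (h : ℂ) ≠ 0 := by exact_mod_cast hh
  rw [Rs3, sum_product]
  simp only [sum_product, TT_eq, ec_eq]
  push_cast at h1 ⊢
  rw [h1]
  simp only [apply_ite ofReal, ofReal_one, ofReal_zero]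
  field_simp
  ring

lemma ind_dvd_mul {h : ℕ} (hh : h ≠ 0) (b c : ℕ) : (if h ∣ b * c then (1 : ℝ) else 0) =
    ∑ g ∈ h.divisors, ∑ e ∈ g.divisors,
      (μ e : ℝ) * if h / g * e ∣ b then if g ∣ c then 1 else 0 else 0 := by
  have hd : 0 < b.gcd h := Nat.gcd_pos_of_pos_right _ (Nat.pos_of_ne_zero hh)
  have key : ∀ g ∈ h.divisors, ∑ e ∈ g.divisors,
      (μ e : ℝ) * (if h / g * e ∣ b then if g ∣ c then 1 else 0 else 0) =
      if g = h / b.gcd h then if g ∣ c then 1 else 0 else 0 := by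
    intro g hg
    obtain ⟨d, rfl⟩ := Nat.dvd_of_mem_divisors hg
    have hg0 := Nat.pos_of_mem_divisors hg
    have hd0 : 0 < d := Nat.pos_of_mul_pos_left (Nat.pos_of_ne_zero hh)
    rw [Nat.mul_div_cancel_left _ hg0]
    by_cases hdb : d ∣ b
    · obtain ⟨b', rfl⟩ := hdb
      simp only [Nat.mul_dvd_mul_iff_left hd0]
      have h1 := sum_moebius_coprime hg0.ne' b'
      have h2 : g = g * d / (d * b').gcd (g * d) ↔ b'.Coprime g := by
        rw [mul_comm g d, Nat.gcd_mul_left, Nat.mul_div_mul_left _ _ hd0, eq_comm,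
          Nat.div_eq_self]
        simp [hg0.ne']
      simp only [h2]
      rw [sum_congr rfl fun e _ => show (μ e : ℝ) * (if e ∣ b' then if g ∣ c then 1 else 0 else 0) =
        (if e ∣ b' then (μ e : ℝ) else 0) * if g ∣ c then 1 else 0 by split_ifs <;> simp,
        ← sum_mul, h1]
      split_ifs <;> simp
    · rw [sum_eq_zero fun e _ => by rw [if_neg fun h => hdb ((dvd_mul_right _ _).trans h), mul_zero],
        if_neg]
      intro h1
      have h2 := Nat.div_mul_cancel (Nat.gcd_dvd_right b (g * d))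
      rw [← h1] at h2
      exact hdb (Nat.eq_of_mul_eq_mul_left hg0 h2 ▸ Nat.gcd_dvd_left _ _)
  rw [sum_congr rfl key, sum_ite_eq', if_pos (Nat.mem_divisors.2
    ⟨Nat.div_dvd_of_dvd (Nat.gcd_dvd_right _ _), hh⟩)]
  simp only [dvd_mul_iff_div_gcd hh]

end Pool.Agent.Lib.MP_80d0cf_nt.Six
end

-- part Pool.Agent.Lib.MP_80d0cf_nt.Six.MainTerm
section

/-! The zero-frequency main term of the twisted divisor sum. -/

open Finset MeasureTheory
open scoped Real ArithmeticFunction.Moebius Nat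

namespace Pool.Agent.Lib.MP_80d0cf_nt.Six

/-- sum over a cube -/
def B3 {β : Type*} [AddCommMonoid β] (V : ℕ) (F : ℕ → ℕ → ℕ → β) : β :=
  ∑ a ∈ Ioc 0 V, ∑ b ∈ Ioc 0 V, ∑ c ∈ Ioc 0 V, F a b c

section
variable {β : Type*} [AddCommMonoid β]

lemma B3_swap12 (V : ℕ) (F : ℕ → ℕ → ℕ → β) : B3 V F = B3 V fun a b c => F b a c := sum_comm

lemma B3_swap23 (V : ℕ) (F : ℕ → ℕ → ℕ → β) : B3 V F = B3 V fun a b c => F a c b :=
  sum_congr rfl fun _ _ => sum_comm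

lemma B3_congr {V : ℕ} {F G : ℕ → ℕ → ℕ → β}
    (h : ∀ a b c, 0 < a → 0 < b → 0 < c → F a b c = G a b c) : B3 V F = B3 V G :=
  sum_congr rfl fun a ha => sum_congr rfl fun b hb => sum_congr rfl fun c hc =>
    h a b c (mem_Ioc.1 ha).1 (mem_Ioc.1 hb).1 (mem_Ioc.1 hc).1

lemma B3_add (V : ℕ) (F G : ℕ → ℕ → ℕ → β) :
    B3 V (fun a b c => F a b c + G a b c) = B3 V F + B3 V G := by
  simp only [B3, sum_add_distrib]

lemma B3_sum {ι : Type*} (V : ℕ) (s : Finset ι) (F : ι → ℕ → ℕ → ℕ → β) :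
    B3 V (fun a b c => ∑ i ∈ s, F i a b c) = ∑ i ∈ s, B3 V (F i) := by
  simp only [B3]
  symm
  rw [sum_comm]
  refine sum_congr rfl fun a _ => ?_
  rw [sum_comm]
  exact sum_congr rfl fun b _ => sum_comm

lemma B3_eq_prod (V : ℕ) (F : ℕ → ℕ → ℕ → β) :
    B3 V F = ∑ v ∈ Ioc 0 V ×ˢ Ioc 0 V ×ˢ Ioc 0 V, F v.1 v.2.1 v.2.2 := by
  simp only [B3, sum_product]

lemma sum_dvd_ext {m V : ℕ} (hm : 0 < m) {F : ℕ → β} (hF : ∀ n, V < n → F n = 0) :
    ∑ n ∈ Ioc 0 V, (if m ∣ n then F n else 0) = ∑ j ∈ Ioc 0 V, F (m * j) := by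
  rw [sum_dvd_Ioc hm]
  refine sum_subset (Ioc_subset_Ioc_right (Nat.div_le_self _ _)) fun j hj hj' => hF _ ?_
  rw [mem_Ioc] at hj hj'
  rw [mul_comm, ← Nat.div_lt_iff_lt_mul hm]
  omega

end

lemma B3_mul {β : Type*} [Semiring β] (V : ℕ) (x : β) (F : ℕ → ℕ → ℕ → β) :
    B3 V (fun a b c => x * F a b c) = x * B3 V F := by
  simp only [B3, mul_sum]

namespace Wt

variable (W : Wt)

/-- smoothed sum of `d₃` -/
noncomputable def D3s (V : ℕ) (Y : ℝ) : ℝ := B3 V fun a b c => W.w ((a * b * c : ℕ) / Y)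

lemma w_zero {X : ℝ} (hX : 0 < X) {n : ℕ} (hn : X ≤ n) : W.w (n / X) = 0 :=
  W.eq_zero ((one_le_div hX).2 hn)

lemma scale {V m₂ m₃ : ℕ} (h2 : 0 < m₂) (h3 : 0 < m₃) {X : ℝ} (hX : 0 < X) (hXV : X ≤ V) :
    B3 V (fun a b c => if m₂ ∣ b then if m₃ ∣ c then W.w ((a * b * c : ℕ) / X) else 0 else 0) =
      W.D3s V (X / (m₂ * m₃)) := by
  refine sum_congr rfl fun a ha => ?_
  have ha0 := (mem_Ioc.1 ha).1
  have e : ∀ b, 0 < b → ∑ c ∈ Ioc 0 V, (if m₃ ∣ c then W.w ((a * b * c : ℕ) / X) else 0) =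
      ∑ c ∈ Ioc 0 V, W.w ((a * b * (m₃ * c) : ℕ) / X) := fun b hb =>
    sum_dvd_ext h3 (F := fun c => W.w ((a * b * c : ℕ) / X)) fun n hn => W.w_zero hX
      (hXV.trans (by exact_mod_cast hn.le.trans (Nat.le_mul_of_pos_left _ (by positivity))))
  simp only [sum_ite_irrel, sum_const_zero]
  rw [sum_congr rfl fun b hb => by rw [e b (mem_Ioc.1 hb).1],
    sum_dvd_ext h2 (F := fun b => ∑ c ∈ Ioc 0 V, W.w ((a * b * (m₃ * c) : ℕ) / X))]
  · refine sum_congr rfl fun b _ => sum_congr rfl fun c _ => ?_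
    congr 1
    push_cast; field_simp
  · refine fun n hn => sum_eq_zero fun c hc => W.w_zero hX (hXV.trans ?_)
    have := (mem_Ioc.1 hc).1
    exact_mod_cast hn.le.trans ((Nat.le_mul_of_pos_left _ ha0).trans
      (Nat.le_mul_of_pos_right _ (by positivity)))

lemma riemann : ∃ K, 0 < K ∧ ∀ (V : ℕ) (Z : ℝ), 1 ≤ Z → Z ≤ V →
    |∑ a ∈ Ioc 0 V, W.w (a / Z) - W.c * Z| ≤ K := by
  obtain ⟨K, hK0, hK⟩ := W.exists_lip
  refine ⟨2 * K, by positivity, fun V Z hZ hZV => ?_⟩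
  have hZ0 : 0 < Z := by linarith
  set N := ⌈Z⌉₊
  have hN1 : Z ≤ N := Nat.le_ceil Z
  have hN2 : (N : ℝ) ≤ 2 * Z := by linarith [Nat.ceil_lt_add_one hZ0.le]
  have hc : Continuous fun t => W.w (t / Z) := W.continuous.comp (continuous_id.div_const Z)
  have e1 : ∑ a ∈ Ioc 0 V, W.w (a / Z) = ∑ a ∈ range N, W.w ((a + 1 : ℕ) / Z) := by
    rw [← sum_subset (Ioc_subset_Ioc_right (Nat.ceil_le.2 hZV : N ≤ V)) fun a ha ha' =>
      W.w_zero hZ0 (hN1.trans (by rw [mem_Ioc] at ha ha'; exact_mod_cast (by omega : N ≤ a))),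
      ← Finset.Ico_add_one_add_one_eq_Ioc, ← Finset.sum_Ico_add' (fun a : ℕ => W.w (a / Z)) 0 N 1,
      Nat.Ico_zero_eq_range]
  have e2 : W.c * Z = ∑ a ∈ range N, ∫ t in (a : ℝ)..(a + 1 : ℕ), W.w (t / Z) := by
    rw [intervalIntegral.sum_integral_adjacent_intervals (a := fun k : ℕ => (k : ℝ))
      fun k _ => hc.intervalIntegrable _ _, intervalIntegral.integral_eq_integral_of_support_subset,
      Measure.integral_comp_div, abs_of_pos hZ0, smul_eq_mul, mul_comm, c]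
    intro t ht
    have := W.supp_div hZ0 ht
    exact ⟨by push_cast; nlinarith [this.1, W.d_pos], this.2.le.trans hN1⟩
  rw [e1, e2, ← sum_sub_distrib]
  refine (abs_sum_le_sum_abs _ _).trans ((sum_le_card_nsmul _ _ (K / Z) fun a _ => ?_).trans ?_)
  · have e3 : W.w ((a + 1 : ℕ) / Z) - ∫ t in (a : ℝ)..(a + 1 : ℕ), W.w (t / Z) =
        ∫ t in (a : ℝ)..(a + 1 : ℕ), (W.w ((a + 1 : ℕ) / Z) - W.w (t / Z)) := by
      rw [intervalIntegral.integral_sub (by simp) (hc.intervalIntegrable _ _)]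
      simp
    rw [e3]
    refine (intervalIntegral.norm_integral_le_of_norm_le_const (E := ℝ) (C := K / Z)
      fun t ht => ?_).trans (by simp)
    rw [Set.uIoc_of_le (by push_cast; linarith)] at ht
    have := (convex_univ (𝕜 := ℝ)).norm_image_sub_le_of_norm_hasDerivWithin_le (f := W.w)
      (f' := deriv W.w) (C := K) (fun x _ => (W.hasDerivAt x).hasDerivWithinAt) (fun x _ => hK x)
      (Set.mem_univ (t / Z)) (Set.mem_univ (((a + 1 : ℕ) : ℝ) / Z))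
    refine this.trans ?_
    rw [← sub_div, Real.norm_eq_abs, abs_div, abs_of_pos hZ0, ← mul_div_assoc]
    gcongr
    refine mul_le_of_le_one_right hK0.le (abs_le.2 ⟨?_, ?_⟩) <;>
    · have := ht.1; have := ht.2; push_cast at *; linarith
  · rw [card_range, nsmul_eq_mul, ← mul_div_assoc, div_le_iff₀ hZ0]; nlinarith

lemma D3s_small (V : ℕ) {Y : ℝ} (hY : 0 < Y) (hY1 : Y ≤ 1) : W.D3s V Y = 0 := by
  rw [D3s, B3_congr (G := fun _ _ _ => 0) fun a b c ha hb hc => W.w_zero hY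
    (hY1.trans (by exact_mod_cast (by positivity : 0 < a * b * c)))]
  simp [B3]

lemma D3s_approx : ∃ C, 0 < C ∧ ∀ (V : ℕ) (Y : ℝ), 1 ≤ Y → Y ≤ V →
    |W.D3s V Y - W.c * Y * (Real.log Y ^ 2 / 2)| ≤ C * Y * (1 + Real.log Y) := by
  obtain ⟨K, hK0, hK⟩ := W.riemann
  obtain ⟨C, hC, hb⟩ := (typ_D 1).bound
  refine ⟨K + C, by positivity, fun V Y hY hYV => ?_⟩
  have hY0 : 0 < Y := by linarith
  set N := ⌊Y⌋₊
  have hN : (N : ℝ) ≤ Y := Nat.floor_le hY0.le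
  have hNV : N ≤ V := by exact_mod_cast hN.trans hYV
  have hl := Real.log_nonneg hY
  set F : ℕ → ℝ := fun n => ∑ a ∈ Ioc 0 V, W.w (a / (Y / n))
  have e1 : W.D3s V Y = ∑ n ∈ Ioc 0 N, D 2 n * F n := by
    rw [D3s, B3_swap12, B3_swap23]
    have e2 : ∀ n ∈ Ioc 0 N, D 2 n * F n =
        ∑ x ∈ Ioc 0 V, ∑ y ∈ Ioc 0 V, if x * y = n then F n else 0 := fun n hn => by
      rw [mem_Ioc] at hn
      rw [sum_pair hn.1.ne' (hn.2.trans hNV) (fun _ _ => F n), sum_const, nsmul_eq_mul, D_two,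
        ← Nat.map_div_right_divisors, card_map]
    rw [sum_congr rfl e2, sum_comm]
    refine sum_congr rfl fun x hx => ?_
    rw [sum_comm (s := Ioc 0 N)]
    refine sum_congr rfl fun y hy => ?_
    have hxy : 0 < x * y := Nat.mul_pos (mem_Ioc.1 hx).1 (mem_Ioc.1 hy).1
    rw [sum_ite_eq]
    split_ifs with h
    · refine sum_congr rfl fun a _ => ?_
      congr 1
      push_cast; field_simp
    · refine sum_eq_zero fun a ha => W.w_zero hY0 ?_
      have h1 : N < x * y := by rw [mem_Ioc] at h; omega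
      have h2 := (Nat.floor_lt hY0.le).1 h1
      refine h2.le.trans ?_
      rw [mul_assoc]
      exact_mod_cast Nat.le_mul_of_pos_left _ (mem_Ioc.1 ha).1
  have e3 : LS (D 2) (Real.log Y) = ∑ n ∈ Ioc 0 N, D 2 n / n := by rw [LS, Real.exp_log hY0]
  have h1 := hb _ hl
  simp only [one_mul, pow_one, Nat.reduceAdd, Nat.factorial_two, Nat.cast_ofNat] at h1
  have e4 : W.D3s V Y - W.c * Y * (Real.log Y ^ 2 / 2) = ∑ n ∈ Ioc 0 N, D 2 n * (F n - W.c * (Y / n)) +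
      W.c * Y * (LS (D 2) (Real.log Y) - Real.log Y ^ 2 / 2) := by
    rw [e1, e3, mul_sub, mul_sum, ← add_sub_assoc, ← sum_add_distrib]
    congr 1
    exact sum_congr rfl fun n _ => by ring
  have h2 : |∑ n ∈ Ioc 0 N, D 2 n * (F n - W.c * (Y / n))| ≤ K * Y * (1 + Real.log Y) := by
    refine (abs_sum_le_sum_abs _ _).trans ?_
    calc _ ≤ ∑ n ∈ Ioc 0 N, K * D 2 n := sum_le_sum fun n hn => by
          rw [mem_Ioc] at hn
          have hn1 : (1 : ℝ) ≤ n := by exact_mod_cast hn.1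
          rw [abs_mul, abs_of_nonneg (D_nonneg _ _), mul_comm]
          refine mul_le_mul_of_nonneg_right (hK V _ ?_ ?_) (D_nonneg _ _)
          · rw [le_div_iff₀ (by linarith), one_mul]
            exact le_trans (by exact_mod_cast hn.2) hN
          · exact (div_le_self hY0.le hn1).trans hYV
      _ = K * ∑ n ∈ Ioc 0 N, ((N / n : ℕ) : ℝ) := by
          rw [← mul_sum]
          congr 1
          simp only [D_two, ← ArithmeticFunction.sigma_zero_apply]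
          exact_mod_cast ArithmeticFunction.sum_Ioc_sigma0_eq_sum_div N
      _ ≤ K * ∑ n ∈ Ioc 0 N, Y * (1 / n) := by
          gcongr with n hn
          refine Nat.cast_div_le.trans ?_
          rw [mul_one_div]; gcongr
      _ ≤ _ := by
          rw [← mul_sum, mul_assoc]
          gcongr
          refine (sum_inv_le N).trans ?_
          rcases Nat.eq_zero_or_pos N with h | h
          · simp [h, hl]
          · gcongr
  rw [e4]
  refine (abs_add_le _ _).trans ?_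
  rw [abs_mul, abs_of_nonneg (mul_nonneg W.c_nonneg hY0.le)]
  have h4 : W.c * Y * |LS (D 2) (Real.log Y) - Real.log Y ^ 2 / 2| ≤ 1 * Y * (C * (1 + Real.log Y)) := by
    gcongr; exact W.c_le_one
  nlinarith

lemma D3s_approx' : ∃ C, 0 < C ∧ ∀ (V e : ℕ) (Y : ℝ), 1 ≤ Y → Y ≤ V → 0 < e →
    |W.D3s V (Y / e) - W.c * (Y / e) * (Real.log Y ^ 2 / 2)| ≤
      C * Y * (1 + Real.log Y) * (1 / √e) := by
  obtain ⟨C, hC, hb⟩ := W.D3s_approx
  refine ⟨3 * (C + 1), by positivity, fun V e Y hY hYV he => ?_⟩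
  have he1 : (1 : ℝ) ≤ e := by exact_mod_cast he
  have hl := Real.log_nonneg hY
  have hle := Real.log_nonneg he1
  have hc0 := W.c_nonneg
  have hc1 := W.c_le_one
  have hYe : 0 < Y / e := by positivity
  have hs : 1 ≤ √(e : ℝ) := Real.one_le_sqrt.2 he1
  have h1 : (1 + Real.log e) / e ≤ 3 * (1 / √e) := by
    have h2 := Real.log_le_sub_one_of_pos (x := √e) (by linarith)
    rw [Real.log_sqrt (by linarith)] at h2
    rw [mul_one_div, div_le_div_iff₀ (by linarith) (by linarith)]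
    nlinarith [Real.mul_self_sqrt (x := e) (by linarith)]
  have key : |W.D3s V (Y / e) - W.c * (Y / e) * (Real.log Y ^ 2 / 2)| ≤
      (C + 1) * (Y / e) * (1 + Real.log Y) * (1 + Real.log e) := by
    have e1 : Real.log (Y / e) = Real.log Y - Real.log e := Real.log_div (by linarith) (by linarith)
    rcases le_total 1 (Y / e) with h | h
    · have h2 := hb V _ h ((div_le_self (by linarith) he1).trans hYV)
      have h3 := Real.log_nonneg h
      rw [e1] at h2 h3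
      have h4 : |W.c * (Y / e) * ((Real.log Y - Real.log e) ^ 2 / 2) -
          W.c * (Y / e) * (Real.log Y ^ 2 / 2)| ≤ 1 * (Y / e) * (Real.log Y * Real.log e) := by
        rw [← mul_sub, abs_mul, abs_of_nonneg (by positivity)]
        gcongr
        rw [abs_le]; constructor <;> nlinarith
      have h5 : C * (Y / e) * (1 + (Real.log Y - Real.log e)) ≤
          C * (Y / e) * ((1 + Real.log Y) * (1 + Real.log e)) := by gcongr; nlinarith
      have h6 : (Y / e) * (Real.log Y * Real.log e) ≤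
          (Y / e) * ((1 + Real.log Y) * (1 + Real.log e)) := by gcongr <;> linarith
      linarith [abs_sub_le (W.D3s V (Y / e)) (W.c * (Y / e) * ((Real.log Y - Real.log e) ^ 2 / 2))
        (W.c * (Y / e) * (Real.log Y ^ 2 / 2))]
    · have h3 := Real.log_nonpos hYe.le h
      rw [W.D3s_small V hYe h, zero_sub, abs_neg, abs_of_nonneg (by positivity), mul_assoc (_ * _)]
      gcongr
      · linarith
      · nlinarith
  refine key.trans ?_
  calc _ = (C + 1) * Y * (1 + Real.log Y) * ((1 + Real.log e) / e) := by ring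
    _ ≤ (C + 1) * Y * (1 + Real.log Y) * (3 * (1 / √e)) := by gcongr
    _ = _ := by ring

end Wt

/-- the quadratic main-term polynomial -/
noncomputable def Psi (a x g : ℝ) : ℝ := (3 * a ^ 2 - 3 * (a + x - g) ^ 2 + (a + x) ^ 2) / 2

/-- the arithmetic main term -/
noncomputable def Mh (h : ℕ) (a : ℝ) : ℝ :=
  ∑ g ∈ h.divisors, (g.totient : ℝ) / g * Psi a (Real.log h) (Real.log g)

/-- the zero-frequency weight -/
noncomputable def zw (h a b c : ℕ) : ℝ :=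
  (if h ∣ b * c then 1 else 0) + (if h ∣ a * c then 1 else 0) + (if h ∣ a * b then 1 else 0) -
    ((a.gcd h : ℝ) + b.gcd h + c.gcd h) / h + rho h / h

lemma Wt.main_eq (W : Wt) {V h : ℕ} (hh : h ≠ 0) {X : ℝ} (hX : 0 < X) (hXV : X ≤ V) :
    B3 V (fun a b c => W.w ((a * b * c : ℕ) / X) * zw h a b c) =
      ∑ g ∈ h.divisors, (3 * ∑ e ∈ g.divisors, (μ e : ℝ) * W.D3s V (X / h / e) -
        3 * ((g.totient : ℝ) / h * W.D3s V (X / g)) + (g.totient : ℝ) / g / h * W.D3s V X) := by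
  set A1 := B3 V fun a b c => W.w ((a * b * c : ℕ) / X) * if h ∣ b * c then 1 else 0
  set A2 := B3 V fun a b c => W.w ((a * b * c : ℕ) / X) * (c.gcd h : ℝ)
  have e1 : B3 V (fun a b c => W.w ((a * b * c : ℕ) / X) * if h ∣ a * c then 1 else 0) = A1 := by
    rw [B3_swap12]; exact B3_congr fun a b c _ _ _ => by rw [mul_comm b a]
  have e2 : B3 V (fun a b c => W.w ((a * b * c : ℕ) / X) * if h ∣ a * b then 1 else 0) = A1 := by
    rw [B3_swap23, ← e1]; exact B3_congr fun a b c _ _ _ => by rw [mul_right_comm a c b]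
  have e3 : B3 V (fun a b c => W.w ((a * b * c : ℕ) / X) * (b.gcd h : ℝ)) = A2 := by
    rw [B3_swap23]; exact B3_congr fun a b c _ _ _ => by rw [mul_right_comm a c b]
  have e4 : B3 V (fun a b c => W.w ((a * b * c : ℕ) / X) * (a.gcd h : ℝ)) = A2 := by
    rw [B3_swap12, ← e3]; exact B3_congr fun a b c _ _ _ => by rw [mul_comm b a]
  have e5 : B3 V (fun a b c => W.w ((a * b * c : ℕ) / X) * zw h a b c) =
      3 * A1 - 3 / h * A2 + rho h / h * W.D3s V X := by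
    have : (fun a b c : ℕ => W.w ((a * b * c : ℕ) / X) * zw h a b c) = fun a b c =>
        (W.w ((a * b * c : ℕ) / X) * if h ∣ b * c then 1 else 0) +
        (W.w ((a * b * c : ℕ) / X) * if h ∣ a * c then 1 else 0) +
        (W.w ((a * b * c : ℕ) / X) * if h ∣ a * b then 1 else 0) +
        (-1 / h) * (W.w ((a * b * c : ℕ) / X) * (a.gcd h : ℝ)) +
        (-1 / h) * (W.w ((a * b * c : ℕ) / X) * (b.gcd h : ℝ)) +
        (-1 / h) * (W.w ((a * b * c : ℕ) / X) * (c.gcd h : ℝ)) +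
        rho h / h * W.w ((a * b * c : ℕ) / X) := by
      ext a b c; rw [zw]; ring
    rw [this]
    simp only [B3_add, B3_mul]
    rw [e1, e2, e3, e4, Wt.D3s]
    ring
  have e6 : A1 = ∑ g ∈ h.divisors, ∑ e ∈ g.divisors, (μ e : ℝ) * W.D3s V (X / h / e) := by
    simp only [A1, ind_dvd_mul hh, mul_sum, B3_sum]
    refine sum_congr rfl fun g hg => sum_congr rfl fun e he => ?_
    have hg0 := Nat.pos_of_mem_divisors hg
    have hd := Nat.dvd_of_mem_divisors hg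
    rw [show X / h / e = X / ((h / g * e : ℕ) * g) by
      rw [div_div, ← Nat.cast_mul, ← Nat.cast_mul, mul_right_comm, Nat.div_mul_cancel hd],
      ← W.scale (Nat.mul_pos (Nat.div_pos (Nat.le_of_dvd (Nat.pos_of_ne_zero hh) hd) hg0)
        (Nat.pos_of_mem_divisors he)) hg0 hX hXV, ← B3_mul]
    exact B3_congr fun a b c _ _ _ => by split_ifs <;> simp [mul_comm]
  have e7 : A2 = ∑ g ∈ h.divisors, (g.totient : ℝ) * W.D3s V (X / g) := by
    simp only [A2, gcd_eq_sum hh, mul_sum, B3_sum]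
    refine sum_congr rfl fun g hg => ?_
    have := W.scale one_pos (Nat.pos_of_mem_divisors hg) hX hXV
    rw [Nat.cast_one, one_mul] at this
    rw [← this, ← B3_mul]
    exact B3_congr fun a b c _ _ _ => by split_ifs <;> simp_all [mul_comm]
  rw [e5, e6, e7, rho, sum_div, sum_mul, mul_sum, mul_sum, ← sum_sub_distrib, ← sum_add_distrib]
  exact sum_congr rfl fun g _ => by ring

lemma Wt.main_approx (W : Wt) : ∃ C, 0 < C ∧ ∀ (V h : ℕ) (Y : ℝ), h ≠ 0 → 1 ≤ Y → h * Y ≤ V →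
    |B3 V (fun a b c => W.w ((a * b * c : ℕ) / (h * Y)) * zw h a b c) - W.c * Y * Mh h (Real.log Y)| ≤
      C * Y * (1 + Real.log (h * Y)) * (D 2 h * ∑ e ∈ h.divisors, 1 / √e) := by
  obtain ⟨C, hC, hb⟩ := W.D3s_approx'
  refine ⟨7 * C, by positivity, fun V h Y hh hY hV => ?_⟩
  have h1 : (1 : ℝ) ≤ h := by exact_mod_cast Nat.pos_of_ne_zero hh
  have hYX : Y ≤ h * Y := by nlinarith
  have hlY := Real.log_nonneg hY
  have hlX : Real.log Y ≤ Real.log (h * Y) := Real.log_le_log (by linarith) hYX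
  set E := ∑ e ∈ h.divisors, 1 / √(e : ℝ)
  have hE : 1 ≤ E := by
    have := single_le_sum (f := fun e : ℕ => 1 / √(e : ℝ)) (fun _ _ => by positivity)
      (Nat.one_mem_divisors.2 hh)
    rwa [Nat.cast_one, Real.sqrt_one, div_one] at this
  rw [W.main_eq hh (by positivity) hV, Mh, mul_sum, ← sum_sub_distrib, D_two,
    mul_left_comm _ (#h.divisors : ℝ), ← nsmul_eq_mul #h.divisors]
  refine (abs_sum_le_sum_abs _ _).trans (sum_le_card_nsmul _ _ _ fun g hg => ?_)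
  have hg0 := Nat.pos_of_mem_divisors hg
  have hg1 : (1 : ℝ) ≤ g := by exact_mod_cast hg0
  have hgh : (g : ℝ) ≤ h := by exact_mod_cast Nat.divisor_le hg
  have hφ : (g.totient : ℝ) ≤ g := by exact_mod_cast Nat.totient_le g
  have hφ0 : (0 : ℝ) ≤ g.totient := by positivity
  have hXg : Y ≤ h * Y / g := by rw [le_div_iff₀ (by linarith)]; nlinarith
  have hXg' : h * Y / g ≤ h * Y := div_le_self (by positivity) hg1
  have b2 := hb V 1 (h * Y / g) (by linarith) (hXg'.trans hV) one_pos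
  have b3 := hb V 1 (h * Y) (by linarith) hV one_pos
  simp only [Nat.cast_one, div_one, Real.sqrt_one, mul_one] at b2 b3
  set R := C * Y * (1 + Real.log (h * Y))
  have hR : 0 ≤ R := by simp only [R]; positivity [hlY.trans hlX]
  have b1 : |∑ e ∈ g.divisors, (μ e : ℝ) * W.D3s V (Y / e) -
      W.c * Y * ((g.totient : ℝ) / g) * (Real.log Y ^ 2 / 2)| ≤ R * E := by
    rw [← sum_moebius_div hg0.ne', mul_sum, sum_mul, ← sum_sub_distrib]
    refine (abs_sum_le_sum_abs _ _).trans (le_trans (sum_le_sum fun e he => ?_)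
      ((sum_le_sum_of_subset_of_nonneg (f := fun e : ℕ => R * (1 / √(e : ℝ)))
        (Nat.divisors_subset_of_dvd hh (Nat.dvd_of_mem_divisors hg))
        fun _ _ _ => by positivity).trans (by rw [mul_sum])))
    have := hb V e Y hY (hYX.trans hV) (Nat.pos_of_mem_divisors he)
    rw [show (μ e : ℝ) * W.D3s V (Y / e) - W.c * Y * (μ e / e) * (Real.log Y ^ 2 / 2) =
      μ e * (W.D3s V (Y / e) - W.c * (Y / e) * (Real.log Y ^ 2 / 2)) by ring, abs_mul]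
    refine (mul_le_of_le_one_left (abs_nonneg _)
      (by exact_mod_cast ArithmeticFunction.abs_moebius_le_one)).trans (this.trans ?_)
    simp only [R]; gcongr
  have b2' : |(g.totient : ℝ) / h * (W.D3s V (h * Y / g) -
      W.c * (h * Y / g) * (Real.log (h * Y / g) ^ 2 / 2))| ≤ R := by
    rw [abs_mul, abs_of_nonneg (by positivity)]
    calc _ ≤ g / h * (C * (h * Y / g) * (1 + Real.log (h * Y))) := by
          gcongr
          exact b2.trans (by gcongr)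
      _ = _ := by simp only [R]; field_simp
  have b3' : |(g.totient : ℝ) / g / h * (W.D3s V (h * Y) -
      W.c * (h * Y) * (Real.log (h * Y) ^ 2 / 2))| ≤ R := by
    rw [abs_mul, abs_of_nonneg (by positivity)]
    calc _ ≤ g / g / h * (C * (h * Y) * (1 + Real.log (h * Y))) := by gcongr
      _ = _ := by simp only [R]; field_simp
  have e : 3 * ∑ e ∈ g.divisors, (μ e : ℝ) * W.D3s V (h * Y / h / e) -
        3 * ((g.totient : ℝ) / h * W.D3s V (h * Y / g)) + (g.totient : ℝ) / g / h * W.D3s V (h * Y) -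
        W.c * Y * ((g.totient : ℝ) / g * Psi (Real.log Y) (Real.log h) (Real.log g)) =
      3 * (∑ e ∈ g.divisors, (μ e : ℝ) * W.D3s V (Y / e) -
        W.c * Y * ((g.totient : ℝ) / g) * (Real.log Y ^ 2 / 2)) -
      3 * ((g.totient : ℝ) / h * (W.D3s V (h * Y / g) -
        W.c * (h * Y / g) * (Real.log (h * Y / g) ^ 2 / 2))) +
      (g.totient : ℝ) / g / h * (W.D3s V (h * Y) - W.c * (h * Y) * (Real.log (h * Y) ^ 2 / 2)) := by
    rw [mul_div_cancel_left₀ _ (by linarith : (h : ℝ) ≠ 0), Real.log_div (by positivity)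
      (by positivity), Real.log_mul (by positivity) (by positivity), Psi]
    field_simp
    ring
  rw [e]
  have hRE : R ≤ R * E := le_mul_of_one_le_right hR hE
  rw [abs_le] at b1 b2' b3' ⊢
  simp only [R] at *
  constructor <;> nlinarith [b1.1, b1.2, b2'.1, b2'.2, b3'.1, b3'.2]

end Pool.Agent.Lib.MP_80d0cf_nt.Six
end

-- part Pool.Agent.Lib.MP_80d0cf_nt.Six.VorErr
section

/-! The nonzero frequencies of the twisted divisor sum. -/

open Finset Complex MeasureTheory Filter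
open scoped Real SchwartzMap

namespace Pool.Agent.Lib.MP_80d0cf_nt.Six

/-- product of three geometric sums -/
noncomputable def GS3 (h V : ℕ) (s : ℂ) (k : ℤ × ℤ × ℤ) : ℂ :=
  GS h k.1 V s * GS h k.2.1 V s * GS h k.2.2 V s

namespace Wt

variable (W : Wt)

/-- discrete Fourier transform of the weight -/
noncomputable def Ft (V h : ℕ) (X : ℝ) (k : ℤ × ℤ × ℤ) : ℂ := B3 V fun a b c =>
  (W.w ((a * b * c : ℕ) / X) : ℂ) * (ec h (-k.1 * a) * ec h (-k.2.1 * b) * ec h (-k.2.2 * c))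

/-- the error term -/
noncomputable def Err (V h u : ℕ) (X : ℝ) : ℂ := (∑ k ∈ Rs3 h, TT h u k * W.Ft V h X k) / h ^ 3

/-- the twisted sum -/
noncomputable def Sx (V h u : ℕ) (X : ℝ) : ℂ := B3 V fun a b c =>
  (W.w ((a * b * c : ℕ) / X) : ℂ) * ec h (-u * (a * b * c : ℕ))

lemma Sx_eq (V : ℕ) {h u : ℕ} (hh : h ≠ 0) (hu : u.Coprime h) (X : ℝ) : W.Sx V h u X =
    W.Err V h u X + (B3 V (fun a b c => W.w ((a * b * c : ℕ) / X) * zw h a b c) : ℝ) := by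
  have e : ((B3 V (fun a b c => W.w ((a * b * c : ℕ) / X) * zw h a b c) : ℝ) : ℂ) =
      B3 V fun a b c => (W.w ((a * b * c : ℕ) / X) : ℂ) * zw h a b c := by
    simp only [B3, ofReal_sum, ofReal_mul]
  simp only [Err, Ft, ← B3_mul, ← B3_sum]
  rw [e, div_eq_inv_mul, ← B3_mul, ← B3_add, Sx]
  refine B3_congr fun a b c _ _ _ => ?_
  rw [ec_decomp hh hu, zw, mul_add, div_eq_inv_mul _ ((h : ℂ) ^ 3), mul_left_comm, mul_sum]
  congr 2
  exact sum_congr rfl fun k _ => by ring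

lemma mellin_bound (σ : ℝ) : ∃ C, 0 < C ∧ ∀ (V h : ℕ) (U : Finset ℕ) (X : ℕ → ℝ)
    (s : Finset (ℤ × ℤ × ℤ)) (T : ℕ → ℤ × ℤ × ℤ → ℂ) (Bd : ℝ), (∀ u ∈ U, 0 < X u) → 0 ≤ Bd →
    (∀ y : ℝ, ∑ u ∈ U, X u ^ σ * ‖∑ k ∈ s, GS3 h V (σ + y * I) k * T u k‖ ≤ (1 + |y|) ^ 3 * Bd) →
    ∑ u ∈ U, ‖∑ k ∈ s, T u k * W.Ft V h (X u) k‖ ≤ C * Bd := by
  obtain ⟨G, hG⟩ := W.exists_mellin σ
  have hI : Integrable fun y : ℝ => ‖G y‖ * (1 + |y|) ^ 3 := by
    refine (((G.integrable.norm.add ((integrable_abs_pow G 1).const_mul 3)).add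
      ((integrable_abs_pow G 2).const_mul 3)).add (integrable_abs_pow G 3)).congr
      (Eventually.of_forall fun y => ?_)
    simp only [Pi.add_apply]; ring
  have hI0 : 0 ≤ ∫ y : ℝ, ‖G y‖ * (1 + |y|) ^ 3 := integral_nonneg fun y => by positivity
  refine ⟨1 + ∫ y : ℝ, ‖G y‖ * (1 + |y|) ^ 3, by positivity,
    fun V h U X s T Bd hX hBd hb => ?_⟩
  have i0 : ∀ z : ℝ, 0 < z → Integrable fun y : ℝ => G y * pw z (σ + y * I) := fun z hz =>
    G.integrable.mul_bdd (c := z ^ (-σ)) (Continuous.aestronglyMeasurable (by unfold pw; fun_prop))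
      (Eventually.of_forall fun y => by rw [norm_pw hz]; simp)
  set f : ℕ → ℝ → ℂ := fun u y => ∑ k ∈ s, ∑ v ∈ Ioc 0 V ×ˢ Ioc 0 V ×ˢ Ioc 0 V,
    T u k * (ec h (-k.1 * v.1) * ec h (-k.2.1 * v.2.1) * ec h (-k.2.2 * v.2.2)) *
      (G y * pw ((v.1 * v.2.1 * v.2.2 : ℕ) / X u) (σ + y * I))
  have hv : ∀ u ∈ U, ∀ v ∈ Ioc 0 V ×ˢ Ioc 0 V ×ˢ Ioc 0 V, 0 < (v.1 * v.2.1 * v.2.2 : ℕ) / X u := by
    intro u hu v hv
    simp only [mem_product, mem_Ioc] at hv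
    exact div_pos (by exact_mod_cast Nat.mul_pos (Nat.mul_pos hv.1.1 hv.2.1.1) hv.2.2.1) (hX u hu)
  have i1 : ∀ u ∈ U, Integrable (f u) := fun u hu => integrable_finsetSum _ fun k _ =>
    integrable_finsetSum _ fun v hv' => (i0 _ (hv u hu v hv')).const_mul _
  have e1 : ∀ u ∈ U, 2 * π * ∑ k ∈ s, T u k * W.Ft V h (X u) k = ∫ y, f u y := fun u hu => by
    rw [integral_finsetSum _ fun k _ =>
      integrable_finsetSum _ fun v hv' => (i0 _ (hv u hu v hv')).const_mul _, mul_sum]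
    refine sum_congr rfl fun k _ => ?_
    rw [integral_finsetSum _ fun v hv' => (i0 _ (hv u hu v hv')).const_mul _, Ft, B3_eq_prod,
      mul_sum, mul_sum]
    refine sum_congr rfl fun v hv' => ?_
    rw [integral_const_mul, ← hG _ (hv u hu v hv')]
    ring
  have e2 : ∀ u ∈ U, ∀ y, ‖f u y‖ =
      ‖G y‖ * (X u ^ σ * ‖∑ k ∈ s, GS3 h V (σ + y * I) k * T u k‖) := fun u hu y => by
    have h1 : ‖pw (X u)⁻¹ (σ + y * I)‖ = X u ^ σ := by
      rw [norm_pw (inv_pos.2 (hX u hu)), Real.inv_rpow (hX u hu).le, ← Real.rpow_neg (hX u hu).le]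
      simp
    rw [← h1, ← norm_mul, ← norm_mul, mul_sum, mul_sum]
    congr 1
    refine sum_congr rfl fun k _ => ?_
    simp only [GS3, GS, sum_product]
    rw [mul_assoc (∑ _ ∈ _, _), sum_mul_sum, sum_mul, sum_mul, mul_sum, mul_sum]
    refine sum_congr rfl fun a ha => ?_
    rw [mul_sum, sum_mul, mul_sum, mul_sum]
    refine sum_congr rfl fun b hb => ?_
    rw [mul_sum, sum_mul, mul_sum, mul_sum]
    refine sum_congr rfl fun c hc => ?_
    have ha' : (0 : ℝ) < a := by exact_mod_cast (mem_Ioc.1 ha).1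
    have hb' : (0 : ℝ) < b := by exact_mod_cast (mem_Ioc.1 hb).1
    have hc' : (0 : ℝ) < c := by exact_mod_cast (mem_Ioc.1 hc).1
    push_cast
    rw [div_eq_mul_inv, pw_mul (by positivity) (inv_pos.2 (hX u hu)), pw_mul (by positivity) hc',
      pw_mul ha' hb']
    ring
  have h2 : ∀ u ∈ U, ‖∑ k ∈ s, T u k * W.Ft V h (X u) k‖ ≤ ∫ y, ‖f u y‖ := fun u hu => by
    refine le_trans ?_ (norm_integral_le_integral_norm _)
    rw [← e1 u hu, norm_mul]
    refine le_mul_of_one_le_left (norm_nonneg _) ?_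
    simp [abs_of_pos Real.pi_pos]; linarith [Real.pi_gt_three]
  refine (sum_le_sum h2).trans ?_
  rw [← integral_finsetSum _ fun u hu => (i1 u hu).norm]
  refine (integral_mono (integrable_finsetSum _ fun u hu => (i1 u hu).norm) (hI.mul_const Bd)
    fun y => ?_).trans ?_
  · simp only
    rw [sum_congr rfl fun u hu => e2 u hu y, ← mul_sum, mul_assoc]
    gcongr
    exact hb y
  · rw [integral_mul_const]; nlinarith

end Wt

lemma abs_mk3 (k : ℤ × ℤ × ℤ) : |(mk3 k : ℝ)| = |(k.1 : ℝ)| * |(k.2.1 : ℝ)| * |(k.2.2 : ℝ)| := by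
  rw [mk3]; push_cast; rw [abs_mul, abs_mul]

lemma norm_GS3_zero {h : ℕ} {k : ℤ × ℤ × ℤ} (hk : k ∈ Rs3 h) (V : ℕ) (y : ℝ) :
    ‖GS3 h V ((0 : ℝ) + y * I) k‖ ≤
      (h : ℝ) ^ 3 / |(mk3 k : ℝ)| * ((1 + |y|) * (1 + Real.log V)) ^ 3 := by
  simp only [Rs3, mem_product] at hk
  have hl := Real.log_natCast_nonneg V
  rw [ofReal_zero, zero_add, GS3, norm_mul, norm_mul, abs_mk3]
  calc _ ≤ h / |(k.1 : ℝ)| * ((1 + |y|) * (1 + Real.log V)) *
        (h / |(k.2.1 : ℝ)| * ((1 + |y|) * (1 + Real.log V))) *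
        (h / |(k.2.2 : ℝ)| * ((1 + |y|) * (1 + Real.log V))) := by
        gcongr
        exacts [norm_GS_zero hk.1 V y, norm_GS_zero hk.2.1 V y, norm_GS_zero hk.2.2 V y]
    _ = _ := by ring

lemma norm_GS3_half {h : ℕ} {k : ℤ × ℤ × ℤ} (hk : k ∈ Rs3 h) (V : ℕ) (y : ℝ) :
    ‖GS3 h V ((1 / 2 : ℝ) + y * I) k‖ ^ 2 ≤ (4 * (1 + |y|)) ^ 6 * ((h : ℝ) ^ 3 / |(mk3 k : ℝ)|) := by
  simp only [Rs3, mem_product] at hk
  have e : ((1 / 2 : ℝ) + y * I : ℂ) = sc y := by rw [sc]; push_cast; rfl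
  have key : ∀ j ∈ Rs h, ‖GS h j V (sc y)‖ ^ 2 ≤ (4 * (1 + |y|)) ^ 2 * (h / |(j : ℝ)|) := by
    intro j hj
    rw [← Real.sq_sqrt (x := h / |(j : ℝ)|) (by positivity), ← mul_pow]
    gcongr
    exact norm_GS_half hj V y
  rw [e, GS3, norm_mul, norm_mul, abs_mk3, mul_pow, mul_pow]
  calc _ ≤ (4 * (1 + |y|)) ^ 2 * (h / |(k.1 : ℝ)|) * ((4 * (1 + |y|)) ^ 2 * (h / |(k.2.1 : ℝ)|)) *
        ((4 * (1 + |y|)) ^ 2 * (h / |(k.2.2 : ℝ)|)) := by
        gcongr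
        exacts [key _ hk.1, key _ hk.2.1, key _ hk.2.2]
    _ = _ := by ring

lemma sum_Gw_le' {h : ℕ} (hh : h ≠ 0) {B Lg : ℝ} (hB : ∀ n ≤ h ^ 3, D 2 n ≤ B)
    (hL : 1 + Real.log (h ^ 3 : ℕ) ≤ Lg) {s : Finset (ℤ × ℤ × ℤ)} (hs : s ⊆ Rs3 h) :
    ∑ k ∈ s, (Gw h k : ℝ) / |(mk3 k : ℝ)| ≤ (2 * (B * Lg)) ^ 3 := by
  refine (sum_le_sum_of_subset_of_nonneg hs fun _ _ _ => by positivity).trans
    ((sum_Gw_le hh).trans ?_)
  have h1 : h ≤ h ^ 3 := Nat.le_self_pow (by norm_num) h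
  have := D_nonneg 2 h
  have := Real.log_natCast_nonneg h
  have h2 := hB h h1
  have h3 : 1 + Real.log h ≤ Lg := by
    refine le_trans ?_ hL
    have : (0 : ℝ) < h := by exact_mod_cast Nat.pos_of_ne_zero hh
    gcongr
  gcongr
  linarith

theorem Wt.err_weil (W : Wt) (hW : WeilK) : ∃ C, 0 < C ∧ ∀ (V h₀ q u : ℕ) (X B Lg : ℝ), h₀ ≠ 0 →
    Squarefree q → h₀.Coprime q → u.Coprime q → 0 < X → (∀ n ≤ (h₀ * q) ^ 3, D 2 n ≤ B) →
    1 + Real.log ((h₀ * q) ^ 3 : ℕ) ≤ Lg → 1 + Real.log V ≤ Lg →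
    ‖W.Err V (h₀ * q) u X‖ ≤ C * ((h₀ : ℝ) ^ 3 * B ^ 4 * Lg ^ 6 * (q * √q)) := by
  obtain ⟨C, hC, hb⟩ := W.mellin_bound 0
  refine ⟨8 * C, by positivity, fun V h₀ q u X B Lg h0 hq hc hu hX hB hL hLV => ?_⟩
  have hh : h₀ * q ≠ 0 := mul_ne_zero h0 hq.ne_zero
  have hh' : (0 : ℝ) < (h₀ * q : ℕ) := by exact_mod_cast Nat.pos_of_ne_zero hh
  have hqB : D 2 q ≤ B := hB q ((Nat.le_mul_of_pos_left _ (Nat.pos_of_ne_zero h0)).trans
    (Nat.le_self_pow (by norm_num) _))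
  have hB0 : 0 ≤ B := (D_nonneg _ _).trans hqB
  have hl := Real.log_natCast_nonneg V
  have hL0 : 0 ≤ Lg := by linarith
  have := hb V (h₀ * q) {u} (fun _ => X) (Rs3 (h₀ * q)) (fun u => TT (h₀ * q) u)
    (((h₀ * q : ℕ) : ℝ) ^ 3 * (8 * ((h₀ : ℝ) ^ 3 * B ^ 4 * Lg ^ 6 * (q * √q)))) (fun _ _ => hX)
    (by positivity) fun y => by
      rw [sum_singleton, Real.rpow_zero, one_mul]
      calc _ ≤ ∑ k ∈ Rs3 (h₀ * q), (((h₀ * q : ℕ) : ℝ) ^ 3 * ((1 + |y|) * Lg) ^ 3 *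
            ((h₀ : ℝ) ^ 3 * B * (q * √q))) * (Gw (h₀ * q) k / |(mk3 k : ℝ)|) := by
            refine norm_sum_le_of_le _ fun k hk => ?_
            rw [norm_mul]
            calc _ ≤ ((h₀ * q : ℕ) : ℝ) ^ 3 / |(mk3 k : ℝ)| * ((1 + |y|) * Lg) ^ 3 *
                  ((h₀ : ℝ) ^ 3 * (B * (q * √q) * Gw (h₀ * q) k)) := by
                  gcongr
                  · exact (norm_GS3_zero hk V y).trans (by gcongr)
                  · exact (TT_weil hW h0 hq hc (Nat.isCoprime_iff_coprime.2 hu) k).trans (by gcongr)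
              _ = _ := by ring
        _ ≤ (((h₀ * q : ℕ) : ℝ) ^ 3 * ((1 + |y|) * Lg) ^ 3 * ((h₀ : ℝ) ^ 3 * B * (q * √q))) *
            (2 * (B * Lg)) ^ 3 := by
            rw [← mul_sum]; gcongr; exact sum_Gw_le' hh hB hL subset_rfl
        _ = _ := by ring
  rw [sum_singleton] at this
  rw [Wt.Err, norm_div, norm_pow, Complex.norm_natCast, div_le_iff₀ (by positivity)]
  exact this.trans_eq (by ring)

theorem Wt.err_L2 (W : Wt) : ∃ C, 0 < C ∧ ∀ (V h₀ q : ℕ) (U : Finset ℕ) (X : ℕ → ℝ) (B Lg : ℝ),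
    h₀ ≠ 0 → Squarefree q → h₀.Coprime q → (∀ u ∈ U, 0 < u ∧ u ≤ h₀ * q ∧ u.Coprime q) →
    (∀ u ∈ U, 0 < X u) → (∀ n ≤ (h₀ * q) ^ 3, D 2 n ≤ B) →
    1 + Real.log ((h₀ * q) ^ 3 : ℕ) ≤ Lg → 1 + Real.log V ≤ Lg →
    ∑ u ∈ U, ‖W.Err V (h₀ * q) u (X u)‖ ≤ C * ((h₀ : ℝ) ^ 4 * B ^ 3 * Lg ^ 5 *
      (√((h₀ * q : ℕ) * ∑ u ∈ U, X u) + ((h₀ * q : ℕ) : ℝ) ^ 2)) := by
  obtain ⟨C1, hC1, hb1⟩ := W.mellin_bound (1 / 2)
  obtain ⟨C2, hC2, hb2⟩ := W.mellin_bound 0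
  refine ⟨640 * C1 + 12 * C2, by positivity, fun V h₀ q U X B Lg h0 hq hc hU hX hB hL hLV => ?_⟩
  set h := h₀ * q with hdef
  have hh : h ≠ 0 := mul_ne_zero h0 hq.ne_zero
  have hh' : (0 : ℝ) < h := by exact_mod_cast Nat.pos_of_ne_zero hh
  have hqh : q ≤ h := Nat.le_mul_of_pos_left _ (Nat.pos_of_ne_zero h0)
  have hqh' : (q : ℝ) ≤ h := by exact_mod_cast hqh
  have hq' : (0 : ℝ) < q := by exact_mod_cast Nat.pos_of_ne_zero hq.ne_zero
  have h01 : (1 : ℝ) ≤ h₀ := by exact_mod_cast Nat.pos_of_ne_zero h0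
  have hqB : D 2 q ≤ B := hB q (hqh.trans (Nat.le_self_pow (by norm_num) _))
  have hB0 : 0 ≤ B := (D_nonneg _ _).trans hqB
  have hl := Real.log_natCast_nonneg V
  have hL1 : 1 ≤ Lg := by linarith
  have hU' : ∀ u ∈ U, 0 < u ∧ u ≤ h₀ * q ∧ IsCoprime (u : ℤ) q := fun u hu =>
    ⟨(hU u hu).1, (hU u hu).2.1, Nat.isCoprime_iff_coprime.2 (hU u hu).2.2⟩
  have hSX : 0 ≤ ∑ u ∈ U, X u := sum_nonneg fun u hu => (hX u hu).le
  set s₁ := (Rs3 h).filter fun k => (mk3 k).natAbs ≤ h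
  set s₂ := (Rs3 h).filter fun k => ¬ (mk3 k).natAbs ≤ h
  have hs₁ : s₁ ⊆ Rs3 h := filter_subset _ _
  have hs₂ : s₂ ⊆ Rs3 h := filter_subset _ _
  set K := (h₀ : ℝ) ^ 4 * B ^ 3 * Lg ^ 5
  have b1 := hb1 V h U X s₁ (fun u => TT h u) ((h : ℝ) ^ 3 * (640 * (K * √(h * ∑ u ∈ U, X u)))) hX
    (by positivity) fun y => by
      have h1 := L2_bound h0 hq hc s₁ (fun k hk => (mk3_of_mem (hs₁ hk)).1)
        (GS3 h V ((1 / 2 : ℝ) + y * I))
        (Λ := (4 * (1 + |y|)) ^ 6 * (h : ℝ) ^ 3 * ((2 * B) ^ 2 * (2 * h₀ + 1))) (by positivity)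
        (fun s' hs' hc' => by
          have h2 := class_small hq.ne_zero hB s' (fun k hk => mk3_of_mem (hs₁ (hs' hk))) hc'
            fun k hk => (mem_filter.1 (hs' hk)).2
          refine (sum_le_card_nsmul _ _ ((4 * (1 + |y|)) ^ 6 * (h : ℝ) ^ 3) fun k hk => ?_).trans ?_
          · have h3 : (0 : ℝ) < |(mk3 k : ℝ)| :=
              abs_pos.2 (by exact_mod_cast (mk3_of_mem (hs₁ (hs' hk))).1)
            refine (mul_le_mul_of_nonneg_right (norm_GS3_half (hs₁ (hs' hk)) V y) h3.le).trans_eq ?_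
            field_simp
          · rw [nsmul_eq_mul, mul_comm]; gcongr) U hU'
      have h2 := sum_Gw_le' hh hB hL hs₁
      have h3 := sum_mul_sq_le_sq_mul_sq U (fun u => X u ^ (1 / 2 : ℝ))
        fun u => ‖∑ k ∈ s₁, GS3 h V ((1 / 2 : ℝ) + y * I) k * TT h u k‖
      rw [sum_congr rfl fun u hu => show (X u ^ (1 / 2 : ℝ)) ^ 2 = X u by
        rw [← Real.sqrt_eq_rpow, Real.sq_sqrt (hX u hu).le]] at h3
      refine le_of_sq_le_sq (h3.trans ?_) (by positivity)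
      calc _ ≤ (∑ u ∈ U, X u) * (B * ((h₀ : ℝ) ^ 7 * h ^ 4 * ((4 * (1 + |y|)) ^ 6 * (h : ℝ) ^ 3 *
              ((2 * B) ^ 2 * (3 * h₀))) * (2 * (B * Lg)) ^ 3)) := by
            gcongr
            refine h1.trans ?_
            gcongr
            linarith
        _ = 393216 * Lg ^ 3 * ((1 + |y|) ^ 6 * h ^ 6 * h₀ ^ 8 * B ^ 6 * (h * ∑ u ∈ U, X u)) := by ring
        _ ≤ 409600 * Lg ^ 10 * ((1 + |y|) ^ 6 * h ^ 6 * h₀ ^ 8 * B ^ 6 * (h * ∑ u ∈ U, X u)) := by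
            gcongr <;> norm_num
        _ = _ := by
            simp only [K, mul_pow, Real.sq_sqrt (mul_nonneg hh'.le hSX)]; ring
  have b2 := hb2 V h U X s₂ (fun u => TT h u) ((h : ℝ) ^ 3 * (12 * (K * h ^ 2))) hX
    (by positivity) fun y => by
      have h1 := L2_bound h0 hq hc s₂ (fun k hk => (mk3_of_mem (hs₂ hk)).1)
        (GS3 h V ((0 : ℝ) + y * I))
        (Λ := ((h : ℝ) ^ 3 * ((1 + |y|) * Lg) ^ 3) ^ 2 * ((2 * B) ^ 2 * (4 / q * Lg))) (by positivity)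
        (fun s' hs' hc' => by
          have h2 := class_large hq.ne_zero hB s' (fun k hk => mk3_of_mem (hs₂ (hs' hk))) hc'
            fun k hk => by have := (mem_filter.1 (hs' hk)).2; omega
          calc _ ≤ ∑ k ∈ s', ((h : ℝ) ^ 3 * ((1 + |y|) * Lg) ^ 3) ^ 2 * (1 / |(mk3 k : ℝ)|) := by
                refine sum_le_sum fun k hk => ?_
                have h3 : (0 : ℝ) < |(mk3 k : ℝ)| :=
                  abs_pos.2 (by exact_mod_cast (mk3_of_mem (hs₂ (hs' hk))).1)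
                calc _ ≤ ((h : ℝ) ^ 3 / |(mk3 k : ℝ)| * ((1 + |y|) * Lg) ^ 3) ^ 2 * |(mk3 k : ℝ)| := by
                      gcongr
                      exact (norm_GS3_zero (hs₂ (hs' hk)) V y).trans (by gcongr)
                  _ = _ := by field_simp
            _ ≤ _ := by
                rw [← mul_sum]; gcongr; exact h2.trans (by gcongr)) U hU'
      have h2 := sum_Gw_le' hh hB hL hs₂
      have h4 : (#U : ℝ) ≤ h := by
        have : #U ≤ #(Ioc 0 h) := card_le_card fun u hu => mem_Ioc.2 ⟨(hU u hu).1, (hU u hu).2.1⟩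
        rw [Nat.card_Ioc] at this
        exact_mod_cast this
      simp only [Real.rpow_zero, one_mul]
      refine le_of_sq_le_sq (sq_sum_le_card_mul_sum_sq.trans ?_) (by positivity)
      calc _ ≤ h * (B * ((h₀ : ℝ) ^ 7 * q ^ 4 * (((h : ℝ) ^ 3 * ((1 + |y|) * Lg) ^ 3) ^ 2 *
              ((2 * B) ^ 2 * (4 / q * Lg))) * (2 * (B * Lg)) ^ 3)) := by
            gcongr
            exact h1.trans (by gcongr)
        _ = 128 * h₀ ^ 7 * q ^ 3 * ((1 + |y|) ^ 6 * h ^ 7 * B ^ 6 * Lg ^ 10) := by field_simp; ring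
        _ ≤ 144 * h₀ ^ 8 * h ^ 3 * ((1 + |y|) ^ 6 * h ^ 7 * B ^ 6 * Lg ^ 10) := by
            gcongr <;> norm_num
        _ = _ := by simp only [K]; ring
  have e : ∀ u ∈ U, ‖W.Err V h u (X u)‖ ≤ (‖∑ k ∈ s₁, TT h u k * W.Ft V h (X u) k‖ +
      ‖∑ k ∈ s₂, TT h u k * W.Ft V h (X u) k‖) / h ^ 3 := fun u _ => by
    rw [Wt.Err, norm_div, norm_pow, Complex.norm_natCast,
      ← sum_filter_add_sum_filter_not _ fun k => (mk3 k).natAbs ≤ h]
    gcongr
    exact norm_add_le _ _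
  refine (sum_le_sum e).trans ?_
  rw [← sum_div, sum_add_distrib, div_le_iff₀ (by positivity)]
  have p1 : 0 ≤ C1 * (h : ℝ) ^ 3 * (K * h ^ 2) := by positivity
  have p2 : 0 ≤ C2 * (h : ℝ) ^ 3 * (K * √(h * ∑ u ∈ U, X u)) := by positivity
  nlinarith

end Pool.Agent.Lib.MP_80d0cf_nt.Six
end
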